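import Pool.Agent.Y102.V12
import Pool.Agent.Y102.T6

set_option autoImplicit false
set_option linter.unusedSectionVars false
set_option linter.unusedSimpArgs false
set_option linter.unusedVariables false

/-!
# Pairs of factors decide about the Casimir class
-/

open Module

noncomputable section

namespace Pool.Agent.Helper883K

open Pool.Agent.H204R3.SP Pool.Agent.H204R3.GP Pool.Agent.W516.KC2
open Pool.Agent.W516.KC (IsSkew)

section Cas

variable {k W : Type*} [Field k] [CharZero k] [AddCommGroup W] [Module k W] [FiniteDimensional k W]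

variable (𝔥 : Submodule k (Module.End k W)) (hnt : TraceNondeg 𝔥) (ω : W →ₗ[k] W →ₗ[k] k)

theorem fun2_apply (u v : W) (X : 𝔥) : fun2 𝔥 ω u v X = ω (X.1 u) v := rfl

theorem EE_add_left (u u' v : W) : EE 𝔥 hnt ω (u + u') v = EE 𝔥 hnt ω u v + EE 𝔥 hnt ω u' v := by
  unfold EE
  rw [map_add, LinearMap.add_apply, map_add, Submodule.coe_add]

theorem EE_smul_left (c : k) (u v : W) : EE 𝔥 hnt ω (c • u) v = c • EE 𝔥 hnt ω u v := by
  unfold EE
  rw [map_smul, LinearMap.smul_apply, map_smul, Submodule.coe_smul]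

theorem EE_congr {u v u' v' : W} (h : ∀ X ∈ 𝔥, ω (X u) v = ω (X u') v') :
    EE 𝔥 hnt ω u v = EE 𝔥 hnt ω u' v' := by
  unfold EE
  have h1 : fun2 𝔥 ω u v = fun2 𝔥 ω u' v' := LinearMap.ext fun X => h X.1 X.2
  rw [h1]

/-- The defect. -/
def defect (Z : Module.End k W) (v x : W) : W →ₗ[k] W →ₗ[k] k :=
  LinearMap.mk₂ k (fun u w =>
      ω (EE 𝔥 hnt ω (Z u) v w) x + ω (EE 𝔥 hnt ω u (Z v) w) x +
      (ω (EE 𝔥 hnt ω u v (Z w)) x + ω (EE 𝔥 hnt ω u v w) (Z x)))
    (fun u u' w => by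
      simp only [map_add, EE_add_left, LinearMap.add_apply]
      ring)
    (fun c u w => by
      simp only [map_smul, EE_smul_left, LinearMap.smul_apply, smul_eq_mul]
      ring)
    (fun u w w' => by
      simp only [map_add, LinearMap.add_apply]
      ring)
    (fun c u w => by
      simp only [map_smul, LinearMap.smul_apply, smul_eq_mul]
      ring)

theorem defect_apply (Z : Module.End k W) (v x u w : W) : defect 𝔥 hnt ω Z v x u w =
    ω (EE 𝔥 hnt ω (Z u) v w) x + ω (EE 𝔥 hnt ω u (Z v) w) x +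
      (ω (EE 𝔥 hnt ω u v (Z w)) x + ω (EE 𝔥 hnt ω u v w) (Z x)) := rfl

/-- **Pairs of factors decide about the Casimir class.** -/
theorem kills_of_pairs {s : ℕ} (e : Fin s → Module.End k W) (he : ∑ i, e i = 1)
    (hc : ∀ X ∈ 𝔥, ∀ i, X * e i = e i * X) (hsk : ∀ X ∈ 𝔥, IsSkew ω X)
    (hbr : ∀ X ∈ 𝔥, ∀ Y ∈ 𝔥, X * Y - Y * X ∈ 𝔥) {Z : Module.End k W} (hZ : IsSkew ω Z)
    (hp : ∀ i j, ∃ Y ∈ 𝔥, Z * e i = Y * e i ∧ Z * e j = Y * e j) :
    Kills Z (casimir 𝔥 hnt ω) := by
  rw [kills_casimir]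
  intro u v w x
  have key : ∀ i j, defect 𝔥 hnt ω Z v x (e i u) (e j w) = 0 := by
    intro i j
    obtain ⟨Y, hY, h1, h2⟩ := hp i j
    have h3 := (kills_casimir 𝔥 hnt ω Y).1 (casimir_kills 𝔥 hnt ω (hsk Y hY)
      fun X hX => hbr Y hY X hX) (e i u) v (e j w) x
    have e1 : Z (e i u) = Y (e i u) := LinearMap.congr_fun h1 u
    have e2 : Z (e j w) = Y (e j w) := LinearMap.congr_fun h2 w
    have e3 : ∀ X ∈ 𝔥, Z (X (e i u)) = Y (X (e i u)) := by
      intro X hX
      have e4 : X (e i u) = e i (X u) := LinearMap.congr_fun (hc X hX i) u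
      rw [e4]
      exact LinearMap.congr_fun h1 (X u)
    have e5 : ∀ X ∈ 𝔥, Z (X (e j w)) = Y (X (e j w)) := by
      intro X hX
      have e4 : X (e j w) = e j (X w) := LinearMap.congr_fun (hc X hX j) w
      rw [e4]
      exact LinearMap.congr_fun h2 (X w)
    have e6 : EE 𝔥 hnt ω (e i u) (Z v) = EE 𝔥 hnt ω (e i u) (Y v) := by
      refine EE_congr 𝔥 hnt ω fun X hX => ?_
      have s1 := hZ (X (e i u)) v
      have s2 := hsk Y hY (X (e i u)) v
      rw [e3 X hX] at s1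
      linear_combination s1 - s2
    have e7 : ω (EE 𝔥 hnt ω (e i u) v (e j w)) (Z x) =
        ω (EE 𝔥 hnt ω (e i u) v (e j w)) (Y x) := by
      have s1 := hZ (EE 𝔥 hnt ω (e i u) v (e j w)) x
      have s2 := hsk Y hY (EE 𝔥 hnt ω (e i u) v (e j w)) x
      rw [e5 _ (EE_mem 𝔥 hnt ω _ _)] at s1
      linear_combination s1 - s2
    rw [defect_apply, e1, e2, e6, e7]
    exact h3
  have hu : u = ∑ i, e i u := by
    rw [← LinearMap.sum_apply, he]
    rfl
  have hw : w = ∑ i, e i w := by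
    rw [← LinearMap.sum_apply, he]
    rfl
  rw [← defect_apply, hu, hw, map_sum]
  refine Finset.sum_eq_zero fun j _ => ?_
  rw [map_sum, LinearMap.sum_apply]
  exact Finset.sum_eq_zero fun i _ => key i j

end Cas

end Pool.Agent.Helper883K
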