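import Pool.Agent.Helper883_K3.Cpr
import Pool.Agent.Helper883_K3.Cas
import Pool.Agent.Helper883_Det.Main

set_option autoImplicit false
set_option linter.unusedSectionVars false
set_option linter.unusedSimpArgs false
set_option linter.unusedVariables false

/-!
# Abelian varieties which are isogenous to products
-/

open Module Function TensorProduct

noncomputable section

namespace Pool.Agent.Helper883K

open Pool.Agent.Y102 Pool.Agent.W516.DR Pool.Agent.H204R3.GP Pool.Agent.W516.KC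
  Pool.Agent.H204R3.SP

variable {g : ℕ} (A : AbVar g)

/-- The Lie algebra of a pair of factors is the same. -/
def PairEq (e f : Module.End ℚ A.H1) : Prop :=
  ∀ Z ∈ A.NA, ∃ Y ∈ A.LA, Z * e = Y * e ∧ Z * f = Y * f

/-- **Pairs of factors decide.** -/
theorem NA_le_of_pairs {s : ℕ} (e : Fin s → Module.End ℚ A.H1) (he : ∑ i, e i = 1)
    (hc : ∀ X ∈ A.NA, ∀ i, X * e i = e i * X) (hp : ∀ i j, PairEq A (e i) (e j)) :
    ∀ Z ∈ A.NA, ∃ Y ∈ A.LA, Z - Y ∈ A.CN := fun Z hZ =>
  A.NA_split hZ (kills_of_pairs A.LA A.trace_LA A.om e he (fun X hX i => hc X (A.LA_le_NA hX) i)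
    (fun X hX => A.LA_skew hX) (fun X hX Y hY => A.LA_bracket hX hY) (A.NA_skew hZ)
    fun i j => hp i j Z hZ)

/-- Descent of the equality for a pair. -/
theorem pairEq_of_cx {e f : Module.End ℚ A.H1} (he : e * e = e) (hf : f * f = f)
    (hef : e * f = 0) (hfe : f * e = 0)
    (h : ∀ x ∈ cx A.NA, ∃ y ∈ cx A.LA, x * e.baseChange ℂ = y * e.baseChange ℂ ∧
      x * f.baseChange ℂ = y * f.baseChange ℂ) : PairEq A e f := by
  intro Z hZ
  let S : Submodule ℚ (Module.End ℚ A.H1) := A.LA.map (LinearMap.mulRight ℚ (e + f))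
  have h1 : Z * (e + f) ∈ S := by
    refine mem_of_bc ?_
    obtain ⟨y, hy, h2, h3⟩ := h _ (bc_mem hZ)
    have h4 : (Z * (e + f)).baseChange ℂ = y * (e + f).baseChange ℂ := by
      rw [bc_mul, LinearMap.baseChange_add, mul_add, mul_add, h2, h3]
    rw [h4]
    clear h4 h2 h3
    induction hy using Submodule.span_induction with
    | mem X hX =>
      obtain ⟨P, hP, rfl⟩ := hX
      rw [← bc_mul]
      exact bc_mem ⟨P, hP, rfl⟩
    | zero => rw [zero_mul]; exact Submodule.zero_mem _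
    | add a b _ _ ha hb => rw [add_mul]; exact Submodule.add_mem _ ha hb
    | smul c a _ ha => rw [smul_mul_assoc]; exact Submodule.smul_mem _ c ha
  obtain ⟨Y, hY, h2⟩ := h1
  rw [LinearMap.mulRight_apply] at h2
  refine ⟨Y, hY, ?_, ?_⟩
  · have h3 := congrArg (fun T => T * e) h2
    simp only [mul_assoc, add_mul, he, hfe, add_zero] at h3
    exact h3.symm
  · have h3 := congrArg (fun T => T * f) h2
    simp only [mul_assoc, add_mul, hf, hef, zero_add] at h3
    exact h3.symm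

theorem pairEq_self_of_cx {e : Module.End ℚ A.H1} (he : e * e = e)
    (h : ∀ x ∈ cx A.NA, ∃ y ∈ cx A.LA, x * e.baseChange ℂ = y * e.baseChange ℂ) :
    PairEq A e e := by
  intro Z hZ
  have h1 := pairEq_of_cx A (e := e) (f := 0) he (mul_zero _) (mul_zero _) (zero_mul _)
    (fun x hx => by
      obtain ⟨y, hy, h2⟩ := h x hx
      exact ⟨y, hy, h2, by rw [LinearMap.baseChange_zero, mul_zero, mul_zero]⟩) Z hZ
  obtain ⟨Y, hY, h2, -⟩ := h1
  exact ⟨Y, hY, h2, h2⟩

/-- Factors of spin type. -/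
structure SpinFactors {s : ℕ} (e : Fin s → Module.End ℚ A.H1) (r : Fin s → ℕ)
    (E : ∀ i, Fin (r i) → Module.End ℂ (ℂ ⊗[ℚ] A.H1)) : Prop where
  sum : ∑ i, e i = 1
  idem : ∀ i, e i * e i = e i
  orth : ∀ i j, i ≠ j → e i * e j = 0
  ne : ∀ i, e i ≠ 0
  comm : ∀ X ∈ A.NA, ∀ i, X * e i = e i * X
  cor : ∀ i, Cor ((e i).baseChange ℂ) (E i)
  lie : ∀ i, (cx A.NA).map (LinearMap.mulRight ℂ ((e i).baseChange ℂ)) =
    Submodule.span ℂ {Y | ∃ a b, a ≠ b ∧ Y = E i a * E i b}

theorem bc_ne {e : Module.End ℚ A.H1} (h : e ≠ 0) : e.baseChange ℂ ≠ 0 := by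
  intro h1
  apply h
  have h2 : e ∈ (⊥ : Submodule ℚ (Module.End ℚ A.H1)) := by
    refine mem_of_bc ?_
    rw [h1]
    exact Submodule.zero_mem _
  exact (Submodule.mem_bot ℚ).1 h2

theorem SpinFactors.NA_le {A : AbVar g} {s : ℕ} {e : Fin s → Module.End ℚ A.H1} {r : Fin s → ℕ}
    {E : ∀ i, Fin (r i) → Module.End ℂ (ℂ ⊗[ℚ] A.H1)} (h : SpinFactors A e r E)
    (h6 : ∀ i, 6 ≤ r i) (h8 : ∀ i j, i ≠ j → ¬ (r i = 8 ∧ r j = 8)) : A.NA ≤ A.LA := by
  have hfull := A.full_LA
  have hidem : ∀ i, (e i).baseChange ℂ * (e i).baseChange ℂ =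
      ((e i).baseChange ℂ : Module.End ℂ (ℂ ⊗[ℚ] A.H1)) := fun i => by
    rw [← bc_mul, h.idem]
  have hcomm : ∀ i, ∀ x ∈ cx A.NA, x * (e i).baseChange ℂ = (e i).baseChange ℂ * x := by
    intro i
    have h1 := cx_comm (S := A.NA) (T := (e i).baseChange ℂ) fun X hX => by
      rw [← bc_mul, ← bc_mul, h.comm X hX i]
    exact fun x hx => (h1 x hx).symm
  have hmap : ∀ i, (cx A.NA).map (Rp ((e i).baseChange ℂ)) =
      SP.soE fun a => Rp ((e i).baseChange ℂ) (E i a) := fun i => (h.cor i).map (hidem i) (h.lie i)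
  have hce : ∀ i, SP.CE fun a => Rp ((e i).baseChange ℂ) (E i a) := fun i => (h.cor i).ce (hidem i)
  have hNb : ∀ x ∈ cx A.NA, ∀ y ∈ cx A.NA, x * y - y * x ∈ cx A.NA :=
    cx_br fun X hX Y hY => by
      rw [← bc_br]
      exact bc_mem (A.NA_bracket hX hY)
  have hone : ∀ i, (cx A.LA).map (Rp ((e i).baseChange ℂ)) =
      SP.soE fun a => Rp ((e i).baseChange ℂ) (E i a) := fun i =>
    single (hidem i) (bc_ne A (h.ne i)) (cx_mono hfull.le) (hcomm i) hfull.cx_br' hfull.cx_adjoin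
      (h6 i) (hce i) (hmap i)
  have hpair : ∀ i j, PairEq A (e i) (e j) := by
    intro i j
    by_cases hij : i = j
    · subst hij
      refine pairEq_self_of_cx A (h.idem i) fun x hx => ?_
      have h1 : Rp ((e i).baseChange ℂ) x ∈ (cx A.LA).map (Rp ((e i).baseChange ℂ)) := by
        rw [hone, ← hmap]
        exact ⟨x, hx, rfl⟩
      obtain ⟨y, hy, hxy⟩ := h1
      exact ⟨y, hy, mul_eq_of_Rp (hidem i) (hcomm i x hx) (hcomm i y (cx_mono hfull.le hy))
        hxy.symm⟩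
    · exact pairEq_of_cx A (h.idem i) (h.idem j) (h.orth i j hij) (h.orth j i (Ne.symm hij))
        fun x hx => two (hidem i) (bc_ne A (h.ne i)) (hidem j) (bc_ne A (h.ne j))
          (cx_mono hfull.le) (hcomm i) (hcomm j) hfull.cx_br' hNb hfull.cx_adjoin
          (fun T hT => hfull.cx_com T hT) (h6 i) (h6 j) (h8 i j hij) (hce i) (hmap i) (hce j)
          (hmap j) hx
  -- the centre is zero
  have hCN : ∀ X ∈ A.CN, X = 0 := by
    intro X hX
    have hXc : ∀ x ∈ cx A.NA, X.baseChange ℂ * x = x * X.baseChange ℂ :=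
      cx_comm fun Y hY => by
        rw [← bc_mul, ← bc_mul, hX.2 Y hY]
    have h1 : ∀ i, X * e i = 0 := by
      intro i
      have := nontrivial_range (bc_ne A (h.ne i))
      have hJ : Rp ((e i).baseChange ℂ) (X.baseChange ℂ) = 0 := by
        refine so_centre (by have := h6 i; omega) (hce i) ?_ ?_
        · rw [← hmap]
          exact ⟨_, bc_mem hX.1, rfl⟩
        · rw [← hmap]
          rintro _ ⟨y, hy, rfl⟩
          rw [← Rp_mul (hidem i) (hcomm i y hy), ← Rp_mul (hidem i) (hcomm i _ (bc_mem hX.1)),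
            hXc y hy]
      have h3 := mul_eq_of_Rp (hidem i) (hcomm i _ (bc_mem hX.1))
        (by rw [zero_mul, mul_zero]) (hJ.trans (map_zero _).symm)
      rw [zero_mul, ← bc_mul] at h3
      by_contra hne
      exact bc_ne A hne h3
    have h2 : X = ∑ i, X * e i := by
      rw [← Finset.mul_sum, h.sum, mul_one]
    rw [h2]
    exact Finset.sum_eq_zero fun i _ => h1 i
  intro Z hZ
  obtain ⟨Y, hY, h1⟩ := NA_le_of_pairs A e h.sum (fun X hX i => h.comm X hX i) hpair Z hZ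
  rw [sub_eq_zero.1 (hCN _ h1)]
  exact hY

end Pool.Agent.Helper883K
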