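import Pool.Agent.Helper883_K3.CprM
import Pool.Agent.Helper883_K3.Asm

set_option autoImplicit false
set_option linter.unusedSectionVars false
set_option linter.unusedSimpArgs false
set_option linter.unusedVariables false

/-!
# Abelian varieties which are isogenous to products: several colours
-/

open Module Function TensorProduct

noncomputable section

namespace Pool.Agent.Helper883K

open Pool.Agent.Y102 Pool.Agent.W516.DR Pool.Agent.H204R3.GP Pool.Agent.W516.KC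
  Pool.Agent.H204R3.SP

section cx

variable {W : Type} [AddCommGroup W] [Module ℚ W] [FiniteDimensional ℚ W]

theorem mul_bc_zero_iff {x : Module.End ℂ (ℂ ⊗[ℚ] W)} {e : Module.End ℚ W} :
    x * e.baseChange ℂ = 0 ↔
      ∀ lam : ℂ →ₗ[ℚ] ℚ, Pool.Agent.W516.DR.cmpE lam x * e = 0 := by
  have h1 : ∀ (lam : ℂ →ₗ[ℚ] ℚ) (w : W), (Pool.Agent.W516.DR.cmpE lam x * e) w =
      cmp lam ((x * e.baseChange ℂ) ((1 : ℂ) ⊗ₜ[ℚ] w)) := by
    intro lam w
    rw [Module.End.mul_apply, Pool.Agent.W516.DR.cmpE_apply, Module.End.mul_apply,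
      LinearMap.baseChange_tmul]
  constructor
  · intro h lam
    refine LinearMap.ext fun w => ?_
    rw [h1, h, LinearMap.zero_apply, map_zero, LinearMap.zero_apply]
  · intro h
    refine TensorProduct.AlgebraTensorModule.ext fun a w => ?_
    have h2 : a ⊗ₜ[ℚ] w = a • ((1 : ℂ) ⊗ₜ[ℚ] w) := by rw [smul_tmul', smul_eq_mul, mul_one]
    have h3 : (x * e.baseChange ℂ) ((1 : ℂ) ⊗ₜ[ℚ] w) = 0 := by
      refine eq_zero_of_cmp (k := ℚ) fun lam => ?_
      rw [← h1, h, LinearMap.zero_apply]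
    rw [h2, map_smul, h3, smul_zero, LinearMap.zero_apply]

/-- Kernels and extension of scalars. -/
theorem cx_kill {S : Submodule ℚ (Module.End ℚ W)} {e f : Module.End ℚ W}
    (h : ∀ X ∈ S, X * f = 0 → X * e = 0) {x : Module.End ℂ (ℂ ⊗[ℚ] W)} (hx : x ∈ cx S)
    (hxf : x * f.baseChange ℂ = 0) : x * e.baseChange ℂ = 0 := by
  rw [mul_bc_zero_iff] at hxf ⊢
  exact fun lam => h _ (cmp_of_ext S hx lam) (hxf lam)

/-- Brackets of two spaces. -/
theorem cx_br2 {S T : Submodule ℚ (Module.End ℚ W)} (h : ∀ X ∈ S, ∀ Y ∈ T, X * Y - Y * X ∈ T) :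
    ∀ x ∈ cx S, ∀ y ∈ cx T, x * y - y * x ∈ cx T := by
  intro X hX
  induction hX using Submodule.span_induction with
  | mem X hX =>
    obtain ⟨P, hP, rfl⟩ := hX
    intro Y hY
    induction hY using Submodule.span_induction with
    | mem Y hY =>
      obtain ⟨Q, hQ, rfl⟩ := hY
      rw [← bc_br]
      exact bc_mem (h P hP Q hQ)
    | zero => rw [mul_zero, zero_mul, sub_zero]; exact Submodule.zero_mem _
    | add a b _ _ ha hb =>
      have h1 := Submodule.add_mem _ ha hb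
      convert h1 using 1
      rw [mul_add, add_mul]
      abel
    | smul c a _ ha =>
      have h1 := Submodule.smul_mem _ c ha
      convert h1 using 1
      rw [mul_smul_comm, smul_mul_assoc, smul_sub]
  | zero => intro Y _; rw [mul_zero, zero_mul, sub_zero]; exact Submodule.zero_mem _
  | add a b _ _ ha hb =>
    intro Y hY
    have h1 := Submodule.add_mem _ (ha Y hY) (hb Y hY)
    convert h1 using 1
    rw [mul_add, add_mul]
    abel
  | smul c a _ ha =>
    intro Y hY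
    have h1 := Submodule.smul_mem _ c (ha Y hY)
    convert h1 using 1
    rw [mul_smul_comm, smul_mul_assoc, smul_sub]

end cx

variable {g : ℕ} (A : AbVar g)

/-- The image of the Lie algebra on a factor is simple over `ℚ`. -/
def SimpleOn (e : Module.End ℚ A.H1) : Prop :=
  ∀ J : Submodule ℚ (Module.End ℚ A.H1), (∀ Y ∈ J, ∃ X ∈ A.NA, Y = X * e) →
    (∀ X ∈ A.NA, ∀ Y ∈ J, X * Y - Y * X ∈ J) → (∀ Y ∈ J, Y = 0) ∨ ∀ X ∈ A.NA, X * e ∈ J

/-- The lemma of Goursat over the rational numbers. -/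
theorem pairEq_of_simple {e f : Module.End ℚ A.H1} (he : e * e = e)
    (hce : ∀ X ∈ A.NA, X * e = e * X) (hcf : ∀ X ∈ A.NA, X * f = f * X)
    (hA : PairEq A e e) (hB : PairEq A f f) (hse : SimpleOn A e)
    (hg : (∀ X ∈ A.LA, X * f = 0 → X * e = 0) → PairEq A e f) : PairEq A e f := by
  let J : Submodule ℚ (Module.End ℚ A.H1) :=
    { carrier := {Y | ∃ X ∈ A.LA, X * f = 0 ∧ Y = X * e}
      zero_mem' := ⟨0, A.LA.zero_mem, zero_mul _, (zero_mul _).symm⟩
      add_mem' := by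
        rintro _ _ ⟨X, hX, h1, rfl⟩ ⟨Y, hY, h2, rfl⟩
        exact ⟨X + Y, A.LA.add_mem hX hY, by rw [add_mul, h1, h2, add_zero], (add_mul _ _ _).symm⟩
      smul_mem' := by
        rintro c _ ⟨X, hX, h1, rfl⟩
        exact ⟨c • X, A.LA.smul_mem c hX, by rw [smul_mul_assoc, h1, smul_zero],
          (smul_mul_assoc _ _ _).symm⟩ }
  have h1 := hse J (by
    rintro Y ⟨X, hX, -, rfl⟩
    exact ⟨X, A.LA_le_NA hX, rfl⟩) (by
    rintro X' hX' _ ⟨X, hX, h1, rfl⟩
    obtain ⟨Z, hZ, h2, -⟩ := hA X' hX'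
    refine ⟨Z * X - X * Z, A.LA_bracket hZ hX, ?_, ?_⟩
    · have e1 := hcf X (A.LA_le_NA hX)
      have e2 := hcf Z (A.LA_le_NA hZ)
      rw [sub_mul, mul_assoc, mul_assoc, e2, h1, ← mul_assoc, h1, mul_zero, zero_mul, sub_zero]
    · have e1 := hce X (A.LA_le_NA hX)
      have e2 := hce X' hX'
      have e3 : X' * (X * e) = Z * X * e := by
        rw [e1, ← mul_assoc, h2, mul_assoc, ← e1, mul_assoc]
      have e4 : X * e * X' = X * Z * e := by
        rw [mul_assoc, ← e2, h2, mul_assoc]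
      rw [e3, e4, sub_mul])
  rcases h1 with h1 | h1
  · exact hg fun X hX hXf => h1 _ ⟨X, hX, hXf, rfl⟩
  · intro Z hZ
    obtain ⟨Y1, hY1, h2, -⟩ := hB Z hZ
    obtain ⟨X, hX, h3, h4⟩ := h1 (Z - Y1) (A.NA.sub_mem hZ (A.LA_le_NA hY1))
    refine ⟨Y1 + X, A.LA.add_mem hY1 hX, ?_, ?_⟩
    · rw [add_mul, ← h4, sub_mul]
      abel
    · rw [add_mul, h3, add_zero, h2]

theorem PairEq.symm {e f : Module.End ℚ A.H1} (h : PairEq A e f) : PairEq A f e := fun Z hZ => by
  obtain ⟨Y, hY, h1, h2⟩ := h Z hZ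
  exact ⟨Y, hY, h2, h1⟩

/-- The elements which are zero on the second factor, over the complex numbers. -/
theorem cx_alt {e f : Module.End ℚ A.H1} (he : e * e = e)
    (hce : ∀ X ∈ A.NA, X * e = e * X) (hcf : ∀ X ∈ A.NA, X * f = f * X) (hse : SimpleOn A e) :
    (∀ x ∈ cx A.NA, x * f.baseChange ℂ = 0 → x * e.baseChange ℂ = 0) ∨
      ∀ x ∈ cx A.NA, ∃ y ∈ cx A.NA, y * f.baseChange ℂ = 0 ∧
        y * e.baseChange ℂ = x * e.baseChange ℂ := by
  let J : Submodule ℚ (Module.End ℚ A.H1) :=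
    { carrier := {Y | ∃ X ∈ A.NA, X * f = 0 ∧ Y = X * e}
      zero_mem' := ⟨0, A.NA.zero_mem, zero_mul _, (zero_mul _).symm⟩
      add_mem' := by
        rintro _ _ ⟨X, hX, h1, rfl⟩ ⟨Y, hY, h2, rfl⟩
        exact ⟨X + Y, A.NA.add_mem hX hY, by rw [add_mul, h1, h2, add_zero], (add_mul _ _ _).symm⟩
      smul_mem' := by
        rintro c _ ⟨X, hX, h1, rfl⟩
        exact ⟨c • X, A.NA.smul_mem c hX, by rw [smul_mul_assoc, h1, smul_zero],
          (smul_mul_assoc _ _ _).symm⟩ }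
  rcases hse J (by
    rintro Y ⟨X, hX, -, rfl⟩
    exact ⟨X, hX, rfl⟩) (by
    rintro Z hZ _ ⟨X, hX, h1, rfl⟩
    refine ⟨Z * X - X * Z, A.NA_bracket hZ hX, ?_, ?_⟩
    · rw [sub_mul, mul_assoc, mul_assoc, hcf Z hZ, h1, ← mul_assoc, h1, mul_zero, zero_mul,
        sub_zero]
    · rw [sub_mul, mul_assoc X e Z, ← hce Z hZ, ← mul_assoc, ← mul_assoc]) with h1 | h1
  · left
    exact fun x hx => cx_kill (fun X hX hXf => h1 _ ⟨X, hX, hXf, rfl⟩) hx
  · right
    intro x hx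
    induction hx using Submodule.span_induction with
    | mem x hx =>
      obtain ⟨X, hX, rfl⟩ := hx
      obtain ⟨Y, hY, h2, h3⟩ := h1 X hX
      refine ⟨_, bc_mem hY, ?_, ?_⟩
      · rw [← bc_mul, h2, LinearMap.baseChange_zero]
      · rw [← bc_mul, ← bc_mul, h3]
    | zero => exact ⟨0, Submodule.zero_mem _, zero_mul _, rfl⟩
    | add a b _ _ ha hb =>
      obtain ⟨y, hy, h2, h3⟩ := ha
      obtain ⟨z, hz, h4, h5⟩ := hb
      exact ⟨y + z, Submodule.add_mem _ hy hz, by rw [add_mul, h2, h4, add_zero], by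
        rw [add_mul, add_mul, h3, h5]⟩
    | smul c a _ ha =>
      obtain ⟨y, hy, h2, h3⟩ := ha
      exact ⟨c • y, Submodule.smul_mem _ c hy, by rw [smul_mul_assoc, h2, smul_zero], by
        rw [smul_mul_assoc, smul_mul_assoc, h3]⟩

/-- With one colour the Lie algebra is simple. -/
theorem simple_of_one {e : Module.End ℚ A.H1} (he : e * e = e) (he0 : e ≠ 0)
    (hce : ∀ X ∈ A.NA, X * e = e * X) {n : ℕ} (hn : n = 3 ∨ 5 ≤ n)
    {E : Fin n → Module.End ℂ (LinearMap.range (e.baseChange ℂ))} (hE : SP.CE E)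
    (hNE : (cx A.NA).map (Rp (e.baseChange ℂ)) = SP.soE E) : SimpleOn A e := by
  have := nontrivial_range (bc_ne A he0)
  have hidem : e.baseChange ℂ * e.baseChange ℂ =
      (e.baseChange ℂ : Module.End ℂ (ℂ ⊗[ℚ] A.H1)) := by
    rw [← bc_mul, he]
  have hcomm : ∀ x ∈ cx A.NA, x * e.baseChange ℂ = e.baseChange ℂ * x := by
    have h1 := cx_comm (S := A.NA) (T := e.baseChange ℂ) fun X hX => by
      rw [← bc_mul, ← bc_mul, hce X hX]
    exact fun x hx => (h1 x hx).symm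
  intro J hJ1 hJ2
  have hJe : ∀ Y ∈ J, Y * e = Y ∧ Y * e = e * Y := by
    intro Y hY
    obtain ⟨X, hX, rfl⟩ := hJ1 Y hY
    refine ⟨by rw [mul_assoc, he], ?_⟩
    rw [mul_assoc, he, ← mul_assoc, ← hce X hX, mul_assoc, he]
  have hJx : ∀ y ∈ cx J, y * e.baseChange ℂ = e.baseChange ℂ * y := by
    have h1 := cx_comm (S := J) (T := e.baseChange ℂ) fun X hX => by
      rw [← bc_mul, ← bc_mul, (hJe X hX).2]
    exact fun x hx => (h1 x hx).symm
  have hJy : ∀ y ∈ cx J, y * e.baseChange ℂ = y := by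
    intro y hy
    induction hy using Submodule.span_induction with
    | mem Y hY =>
      obtain ⟨Q, hQ, rfl⟩ := hY
      rw [← bc_mul, (hJe Q hQ).1]
    | zero => rw [zero_mul]
    | add a b _ _ ha hb => rw [add_mul, ha, hb]
    | smul c a _ ha => rw [smul_mul_assoc, ha]
  have hle : (cx J).map (Rp (e.baseChange ℂ)) ≤ SP.soE E := by
    rw [← hNE]
    rintro _ ⟨y, hy, rfl⟩
    have h1 : y ∈ (cx A.NA).map (LinearMap.mulRight ℂ (e.baseChange ℂ)) := by
      induction hy using Submodule.span_induction with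
      | mem Y hY =>
        obtain ⟨Q, hQ, rfl⟩ := hY
        obtain ⟨X, hX, rfl⟩ := hJ1 Q hQ
        exact ⟨_, bc_mem hX, by rw [LinearMap.mulRight_apply, ← bc_mul]⟩
      | zero => exact Submodule.zero_mem _
      | add a b _ _ ha hb => exact Submodule.add_mem _ ha hb
      | smul c a _ ha => exact Submodule.smul_mem _ c ha
    obtain ⟨x, hx, rfl⟩ := h1
    exact ⟨x, hx, by rw [LinearMap.mulRight_apply, Rp_mul_self hidem]⟩
  rcases soE_simple hn hE _ hle (by
    rintro z hz _ ⟨y, hy, rfl⟩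
    rw [← hNE] at hz
    obtain ⟨x, hx, rfl⟩ := hz
    refine ⟨x * y - y * x, cx_br2 hJ2 x hx y hy, ?_⟩
    rw [map_sub, Rp_mul hidem (hJx y hy), Rp_mul hidem (hcomm x hx)]) with h1 | h1
  · left
    intro Y hY
    have h2 : Rp (e.baseChange ℂ) (Y.baseChange ℂ) ∈ (cx J).map (Rp (e.baseChange ℂ)) :=
      ⟨_, bc_mem hY, rfl⟩
    rw [h1, Submodule.mem_bot] at h2
    have h3 := mul_eq_of_Rp hidem (hJx _ (bc_mem hY)) (by rw [zero_mul, mul_zero])
      (h2.trans (map_zero _).symm)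
    rw [hJy _ (bc_mem hY), zero_mul] at h3
    by_contra hne
    exact bc_ne A hne h3
  · right
    intro X hX
    have h2 : Rp (e.baseChange ℂ) (X.baseChange ℂ) ∈ (cx J).map (Rp (e.baseChange ℂ)) := by
      rw [h1, ← hNE]
      exact ⟨_, bc_mem hX, rfl⟩
    obtain ⟨z, hz, hzX⟩ := h2
    have h3 := mul_eq_of_Rp hidem (hJx z hz) (hcomm _ (bc_mem hX)) hzX
    rw [hJy z hz, ← bc_mul] at h3
    refine mem_of_bc ?_
    rw [← h3]
    exact hz

/-- Factors of spin type. -/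
structure SpinFactorsM {s : ℕ} (e : Fin s → Module.End ℚ A.H1) (k r : Fin s → ℕ)
    (E : ∀ i, Fin (k i) → Fin (r i) → Module.End ℂ (ℂ ⊗[ℚ] A.H1)) : Prop where
  idem : ∀ i, e i * e i = e i
  orth : ∀ i j, i ≠ j → e i * e j = 0
  ne : ∀ i, e i ≠ 0
  comm : ∀ X ∈ A.NA, ∀ i, X * e i = e i * X
  cor : ∀ i, CorM ((e i).baseChange ℂ) (E i)
  lie : ∀ i, (cx A.NA).map (LinearMap.mulRight ℂ ((e i).baseChange ℂ)) =
    Submodule.span ℂ {Y | ∃ σ a b, a ≠ b ∧ Y = E i σ a * E i σ b}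

/-- **Pairs of factors of spin type.** -/
theorem SpinFactorsM.pairs {A : AbVar g} {s : ℕ} {e : Fin s → Module.End ℚ A.H1}
    {k r : Fin s → ℕ}
    {E : ∀ i, Fin (k i) → Fin (r i) → Module.End ℂ (ℂ ⊗[ℚ] A.H1)} (h : SpinFactorsM A e k r E)
    (h6 : ∀ i, 3 ≤ r i ∧ r i ≠ 5) (hk : ∀ i, r i = 4 → k i = 1)
    (h43 : ∀ i j, ¬ (r i = 4 ∧ r j = 3 ∧ k j = 2))
    (hs : ∀ i, (k i = 1 ∧ r i ≠ 4) ∨ SimpleOn A (e i)) : ∀ i j, PairEq A (e i) (e j) := by
  have hfull := A.full_LA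
  have hidem : ∀ i, (e i).baseChange ℂ * (e i).baseChange ℂ =
      ((e i).baseChange ℂ : Module.End ℂ (ℂ ⊗[ℚ] A.H1)) := fun i => by
    rw [← bc_mul, h.idem]
  have hcomm : ∀ i, ∀ x ∈ cx A.NA, x * (e i).baseChange ℂ = (e i).baseChange ℂ * x := by
    intro i
    have h1 := cx_comm (S := A.NA) (T := (e i).baseChange ℂ) fun X hX => by
      rw [← bc_mul, ← bc_mul, h.comm X hX i]
    exact fun x hx => (h1 x hx).symm
  have hmap : ∀ i, (cx A.NA).map (Rp ((e i).baseChange ℂ)) =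
      soM fun σ a => Rp ((e i).baseChange ℂ) (E i σ a) := fun i =>
    (h.cor i).map (hidem i) (h.lie i)
  have hcm : ∀ i, CM fun σ a => Rp ((e i).baseChange ℂ) (E i σ a) := fun i =>
    (h.cor i).cm (hidem i)
  have hNb : ∀ x ∈ cx A.NA, ∀ y ∈ cx A.NA, x * y - y * x ∈ cx A.NA :=
    cx_br fun X hX Y hY => by
      rw [← bc_br]
      exact bc_mem (A.NA_bracket hX hY)
  have hone : ∀ i, (cx A.LA).map (Rp ((e i).baseChange ℂ)) =
      soM fun σ a => Rp ((e i).baseChange ℂ) (E i σ a) := fun i =>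
    singleA (hidem i) (bc_ne A (h.ne i)) (cx_mono hfull.le) (cx_mono hfull.der_le) (hcomm i)
      hfull.cx_br' hfull.cx_adjoin hfull.cx_perfect hfull.cx_dec (fun T hT => hfull.cx_com T hT)
      (h6 i) (hcm i) (hmap i)
  have hself : ∀ i, PairEq A (e i) (e i) := by
    intro i
    refine pairEq_self_of_cx A (h.idem i) fun x hx => ?_
    have h1 : Rp ((e i).baseChange ℂ) x ∈ (cx A.LA).map (Rp ((e i).baseChange ℂ)) := by
      rw [hone, ← hmap]
      exact ⟨x, hx, rfl⟩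
    obtain ⟨y, hy, hxy⟩ := h1
    exact ⟨y, hy, mul_eq_of_Rp (hidem i) (hcomm i x hx) (hcomm i y (cx_mono hfull.le hy))
      hxy.symm⟩
  have hsimple : ∀ i, SimpleOn A (e i) := by
    intro i
    rcases hs i with ⟨h1, h4⟩ | h1
    · have hk : ∀ σ : Fin (k i), σ = ⟨0, by omega⟩ := fun σ => Fin.ext (by
        have := σ.2
        omega)
      refine simple_of_one A (h.idem i) (h.ne i) (fun X hX => h.comm X hX i)
        (by have := h6 i; omega) ((hcm i).ce ⟨0, by omega⟩) ?_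
      rw [hmap]
      unfold soM SP.soE
      congr 1
      ext x
      constructor
      · rintro ⟨σ, a, b, hab, rfl⟩
        rw [hk σ]
        exact ⟨a, b, hab, rfl⟩
      · rintro ⟨a, b, hab, rfl⟩
        exact ⟨_, a, b, hab, rfl⟩
    · exact h1
  intro i j
  by_cases hij : i = j
  · subst hij
    exact hself i
  · refine pairEq_of_simple A (h.idem i) (fun X hX => h.comm X hX i)
      (fun X hX => h.comm X hX j) (hself i) (hself j) (hsimple i) fun k1 => ?_
    refine PairEq.symm A (pairEq_of_simple A (h.idem j) (fun X hX => h.comm X hX j)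
      (fun X hX => h.comm X hX i) (hself j) (hself i) (hsimple j) fun k2 => ?_)
    refine PairEq.symm A ?_
    exact pairEq_of_cx A (h.idem i) (h.idem j) (h.orth i j hij) (h.orth j i (Ne.symm hij))
      fun x hx => twoM (hidem i) (bc_ne A (h.ne i)) (hidem j) (bc_ne A (h.ne j))
        (cx_mono hfull.le) (hcomm i) (hcomm j) hfull.cx_br'
        (fun T hT => hfull.cx_com T hT) (h6 i).1 (h6 j).1 (hk i) (hk j) (h43 i j) (h43 j i)
        (hcm i) (hmap i) (hcm j) (hmap j) (hone i) (hone j) (fun x hx => cx_kill k1 hx)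
        (fun x hx => cx_kill k2 hx) (cx_alt A (h.idem i) (fun X hX => h.comm X hX i)
          (fun X hX => h.comm X hX j) (hsimple i)) hx

/-- The centre is zero on the factors of spin type. -/
theorem SpinFactorsM.centre {A : AbVar g} {s : ℕ} {e : Fin s → Module.End ℚ A.H1}
    {k r : Fin s → ℕ}
    {E : ∀ i, Fin (k i) → Fin (r i) → Module.End ℂ (ℂ ⊗[ℚ] A.H1)} (h : SpinFactorsM A e k r E)
    (h6 : ∀ i, 3 ≤ r i) : ∀ X ∈ A.CN, ∀ i, X * e i = 0 := by
  have hidem : ∀ i, (e i).baseChange ℂ * (e i).baseChange ℂ =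
      ((e i).baseChange ℂ : Module.End ℂ (ℂ ⊗[ℚ] A.H1)) := fun i => by
    rw [← bc_mul, h.idem]
  have hcomm : ∀ i, ∀ x ∈ cx A.NA, x * (e i).baseChange ℂ = (e i).baseChange ℂ * x := by
    intro i
    have h1 := cx_comm (S := A.NA) (T := (e i).baseChange ℂ) fun X hX => by
      rw [← bc_mul, ← bc_mul, h.comm X hX i]
    exact fun x hx => (h1 x hx).symm
  have hmap : ∀ i, (cx A.NA).map (Rp ((e i).baseChange ℂ)) =
      soM fun σ a => Rp ((e i).baseChange ℂ) (E i σ a) := fun i =>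
    (h.cor i).map (hidem i) (h.lie i)
  have hcm : ∀ i, CM fun σ a => Rp ((e i).baseChange ℂ) (E i σ a) := fun i =>
    (h.cor i).cm (hidem i)
  intro X hX
  have hXc : ∀ x ∈ cx A.NA, X.baseChange ℂ * x = x * X.baseChange ℂ :=
    cx_comm fun Y hY => by
      rw [← bc_mul, ← bc_mul, hX.2 Y hY]
  intro i
  have := nontrivial_range (bc_ne A (h.ne i))
  have hJ : Rp ((e i).baseChange ℂ) (X.baseChange ℂ) = 0 := by
    have h2 : Rp ((e i).baseChange ℂ) (X.baseChange ℂ) ∈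
        soM fun σ a => Rp ((e i).baseChange ℂ) (E i σ a) := by
      rw [← hmap]
      exact ⟨_, bc_mem hX.1, rfl⟩
    obtain ⟨Z, hZ⟩ := exists_QM (hcm i) h2
    have h3 : ∀ Y, adL Z Y = 0 := by
      intro Y
      refine QM_inj (hcm i) ?_
      rw [← QM_br (hcm i), map_zero, hZ]
      have h4 := QM_mem (hcm i) Y
      rw [← hmap] at h4
      obtain ⟨y, hy, hyY⟩ := h4
      have h5 : Rp ((e i).baseChange ℂ) (X.baseChange ℂ) * Rp ((e i).baseChange ℂ) y =
          Rp ((e i).baseChange ℂ) y * Rp ((e i).baseChange ℂ) (X.baseChange ℂ) := by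
        rw [← Rp_mul (hidem i) (hcomm i y hy),
          ← Rp_mul (hidem i) (hcomm i _ (bc_mem hX.1)), hXc y hy]
      rw [← hyY]
      exact sub_eq_zero.2 h5
    have h5 : Z = 0 := by
      funext σ
      refine centre_Sk (h6 i) fun Y => ?_
      have h6' := congrFun (h3 (Pi.single σ Y)) σ
      rw [adL_single, Pi.single_eq_same] at h6'
      exact h6'
    rw [← hZ, h5, map_zero]
  have h3 := mul_eq_of_Rp (hidem i) (hcomm i _ (bc_mem hX.1))
    (by rw [zero_mul, mul_zero]) (hJ.trans (map_zero _).symm)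
  rw [zero_mul, ← bc_mul] at h3
  by_contra hne
  exact bc_ne A hne h3

end Pool.Agent.Helper883K
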