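import Pool.Agent.Helper883_K3.Asm
import Pool.Agent.Y102.AV11
import Pool.Agent.Y102.V11

set_option autoImplicit false
set_option linter.unusedSectionVars false
set_option linter.unusedSimpArgs false
set_option linter.unusedVariables false

/-!
# Factors with complex multiplication by different imaginary quadratic fields
-/

open Module Function TensorProduct

noncomputable section

namespace Pool.Agent.Helper883K

open Pool.Agent.Y102 Pool.Agent.W516.DR Pool.Agent.H204R3.GP Pool.Agent.W516.KC
  Pool.Agent.H204R3.SP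

/-- Linear maps with prescribed values on independent numbers. -/
theorem exists_scaling {t : ℕ} {s : Fin t → ℂ} (hs : LinearIndependent ℚ s) (c : Fin t → ℚ) :
    ∃ F : ℂ →ₗ[ℚ] ℂ, ∀ j, F (s j) = (c j : ℂ) * s j := by
  obtain ⟨F, hF⟩ := LinearMap.exists_extend ((Basis.span hs).constr ℚ fun j => (c j : ℂ) * s j)
  refine ⟨F, fun j => ?_⟩
  have h1 := LinearMap.congr_fun hF (Basis.span hs j)
  rw [LinearMap.comp_apply, Submodule.subtype_apply, Basis.constr_basis, Basis.span_apply] at h1
  exact h1

theorem bc_qsmul {W : Type} [AddCommGroup W] [Module ℚ W] (c : ℚ) (X : Module.End ℚ W) :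
    (c • X).baseChange ℂ = (c : ℂ) • X.baseChange ℂ := by
  rw [LinearMap.baseChange_smul]
  exact (Rat.cast_smul_eq_qsmul ℂ c _).symm

variable {g : ℕ} (A : AbVar g)

/-- Factors on which the Lie algebra is a line which generates an imaginary quadratic field; the
fields are different. -/
structure QuadFactors {t : ℕ} (f J : Fin t → Module.End ℚ A.H1) (d : Fin t → ℚ) : Prop where
  idem : ∀ j, f j * f j = f j
  ne : ∀ j, f j ≠ 0
  comm : ∀ X ∈ A.NA, ∀ j, X * f j = f j * X
  pos : ∀ j, 0 < d j
  sq : ∀ j, J j * J j = -(d j • f j)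
  left : ∀ j, f j * J j = J j
  right : ∀ j, J j * f j = J j
  nsq : ∀ i j, i ≠ j → ¬ IsSquare (d i * d j)
  line : ∀ j, ∀ X ∈ A.NA, ∃ c : ℚ, X * f j = c • J j

variable {A} {t : ℕ} {f J : Fin t → Module.End ℚ A.H1} {d : Fin t → ℚ}

namespace QuadFactors

variable (h : QuadFactors A f J d)
include h

theorem J_ne (j : Fin t) : J j ≠ 0 := by
  intro h0
  have h1 := h.sq j
  rw [h0, zero_mul] at h1
  have h2 := (smul_eq_zero.1 (neg_eq_zero.1 h1.symm)).resolve_left (h.pos j).ne'
  exact h.ne j h2

/-- Brackets are zero on the factors. -/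
theorem br (j : Fin t) {X Y : Module.End ℚ A.H1} (hX : X ∈ A.NA) (hY : Y ∈ A.NA) :
    (X * Y - Y * X) * f j = 0 := by
  obtain ⟨a, ha⟩ := h.line j X hX
  obtain ⟨b, hb⟩ := h.line j Y hY
  have h1 : X * Y * f j = (a * b) • (J j * J j) := by
    rw [mul_assoc, hb, mul_smul_comm, ← h.left j, ← mul_assoc, ha, smul_mul_assoc, smul_smul,
      h.left, mul_comm b a]
  have h2 : Y * X * f j = (a * b) • (J j * J j) := by
    rw [mul_assoc, ha, mul_smul_comm, ← h.left j, ← mul_assoc, hb, smul_mul_assoc, smul_smul,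
      h.left]
  rw [sub_mul, h1, h2, sub_self]

/-- The coefficients of a generic element of the centre. -/
theorem generic (j : Fin t) {X : Module.End ℚ A.H1} (hX : X ∈ A.CN)
    (hgen : ∀ T : Module.End ℚ A.H1,
      (∀ Y ∈ A.NA, ∀ Z ∈ A.NA, T * (Y * Z - Z * Y) = (Y * Z - Z * Y) * T) → T * X = X * T →
      ∀ Z ∈ A.CN, T * Z = Z * T) (h0 : X * f j = 0) {Y : Module.End ℚ A.H1} (hY : Y ∈ A.CN)
    {b : ℚ} (hb : Y * f j = b • J j) : b = 0 := by
  by_contra hb0
  obtain ⟨w, hw⟩ : ∃ w, f j w ≠ 0 := by
    by_contra hcon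
    push Not at hcon
    exact h.ne j (LinearMap.ext hcon)
  obtain ⟨φ, hφ⟩ : ∃ φ : Module.Dual ℚ A.H1, φ (f j w) ≠ 0 := by
    by_contra hcon
    push Not at hcon
    exact hw ((Module.forall_dual_apply_eq_zero_iff ℚ (f j w)).1 hcon)
  have hff : f j (f j w) = f j w := by rw [← Module.End.mul_apply, h.idem]
  generalize f j w = w0 at hw hφ hff
  let T : Module.End ℚ A.H1 := (φ ∘ₗ f j).smulRight w0
  have hT : ∀ v, T v = φ (f j v) • w0 := fun v => rfl
  have hTf : T * f j = T := by
    refine LinearMap.ext fun v => ?_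
    rw [Module.End.mul_apply, hT, hT, ← Module.End.mul_apply (f j), h.idem]
  have hfT : f j * T = T := by
    refine LinearMap.ext fun v => ?_
    rw [Module.End.mul_apply, hT, map_smul, hff]
  have hzero : ∀ D ∈ A.NA, D * f j = 0 → T * D = D * T := by
    intro D hD h1
    rw [← hTf, mul_assoc, ← h.comm D hD j, h1, mul_zero, hTf, ← hfT, ← mul_assoc, h1, zero_mul]
  have h1 := hgen T (fun Y hY Z hZ => hzero _ (A.NA_bracket hY hZ) (h.br j hY hZ))
    (hzero X hX.1 h0) Y hY
  have h2 : T * Y = b • (T * J j) := by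
    rw [← hTf, mul_assoc, ← h.comm Y hY.1 j, hb, mul_smul_comm, hTf]
  have h3 : Y * T = b • (J j * T) := by
    rw [← hfT, ← mul_assoc, hb, smul_mul_assoc, hfT]
  rw [h2, h3] at h1
  have h4 := smul_right_injective _ hb0 h1
  have h5 := LinearMap.congr_fun h4 w0
  rw [Module.End.mul_apply, Module.End.mul_apply, hT, hT, hff, map_smul,
    ← Module.End.mul_apply (f j), h.left] at h5
  have h6 : J j w0 = (φ (J j w0) / φ w0) • w0 := by
    rw [div_eq_inv_mul, mul_smul, h5, smul_smul, inv_mul_cancel₀ hφ, one_smul]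
  obtain ⟨lam, hlam⟩ : ∃ lam : ℚ, J j w0 = lam • w0 := ⟨_, h6⟩
  have h7 := LinearMap.congr_fun (h.sq j) w0
  rw [Module.End.mul_apply, hlam, map_smul, hlam, LinearMap.neg_apply, LinearMap.smul_apply, hff,
    smul_smul, ← neg_smul] at h7
  have h8 : lam * lam = -d j := by
    have h9 : (lam * lam - -d j) • w0 = 0 := by rw [sub_smul, h7, sub_self]
    exact sub_eq_zero.1 ((smul_eq_zero.1 h9).resolve_right hw)
  have h9 := h.pos j
  nlinarith [mul_self_nonneg lam]

/-- The centre is rigid. -/
theorem dom (hsum : ∀ X ∈ A.CN, X = ∑ j, X * f j) {X : Module.End ℚ A.H1} (hX : X ∈ A.CN)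
    (hgen : ∀ T : Module.End ℚ A.H1,
      (∀ Y ∈ A.NA, ∀ Z ∈ A.NA, T * (Y * Z - Z * Y) = (Y * Z - Z * Y) * T) → T * X = X * T →
      ∀ Z ∈ A.CN, T * Z = Z * T) {Y : Module.End ℚ A.H1} (hY : Y ∈ A.CN) : Dom X Y := by
  choose a ha using fun j => h.line j X hX.1
  choose b hb using fun j => h.line j Y hY.1
  have hab : ∀ j, a j = 0 → b j = 0 := fun j h0 =>
    h.generic j hX hgen (by rw [ha, h0, zero_smul]) hY (hb j)
  obtain ⟨s, hs, hs2⟩ := exists_sqrt (fun j => -d j) (fun j => neg_ne_zero.2 (h.pos j).ne')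
    fun i j hij => by
      rw [neg_mul_neg]
      exact h.nsq i j hij
  obtain ⟨F, hF⟩ := exists_scaling hs fun j => b j / a j
  have hbc : ∀ (X : Module.End ℚ A.H1) (c : ℚ) j, X * f j = c • J j →
      ∀ v, X.baseChange ℂ ((f j).baseChange ℂ v) = (c : ℂ) • (J j).baseChange ℂ v := by
    intro X c j hc v
    rw [← Module.End.mul_apply, ← bc_mul, hc, bc_qsmul, LinearMap.smul_apply]
  have key : ∀ (v : ℂ ⊗[ℚ] A.H1) (x y : ℂ), v ≠ 0 → X.baseChange ℂ v = x • v →
      Y.baseChange ℂ v = y • v → y = F x := by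
    intro v x y hv hx hy
    by_cases hall : ∀ j, (f j).baseChange ℂ v = 0
    · have hz : ∀ X ∈ A.CN, ∀ x : ℂ, X.baseChange ℂ v = x • v → x = 0 := by
        intro X hX x hx
        have h1 : (∑ j, X * f j).baseChange ℂ v = 0 :=
          Finset.sum_induction (fun j => X * f j) (fun Z : Module.End ℚ A.H1 =>
            Z.baseChange ℂ v = 0) (fun a b ha hb => by
              rw [LinearMap.baseChange_add, LinearMap.add_apply, ha, hb, add_zero])
            (by rw [LinearMap.baseChange_zero, LinearMap.zero_apply]) fun j _ => by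
              rw [bc_mul, Module.End.mul_apply, hall, map_zero]
        rw [← hsum X hX] at h1
        rw [h1] at hx
        exact (smul_eq_zero.1 hx.symm).resolve_right hv
      rw [hz X hX x hx, hz Y hY y hy, map_zero]
    · push Not at hall
      obtain ⟨j, hj⟩ := hall
      have hw : ∀ X ∈ A.CN, ∀ (x : ℂ) (c : ℚ), X.baseChange ℂ v = x • v → X * f j = c • J j →
          (c : ℂ) • (J j).baseChange ℂ ((f j).baseChange ℂ v) = x • (f j).baseChange ℂ v := by
        intro X hX x c hx hc
        rw [← hbc X c j hc, ← Module.End.mul_apply ((f j).baseChange ℂ), ← bc_mul, h.idem,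
          ← map_smul, ← hx, ← Module.End.mul_apply, ← Module.End.mul_apply, ← bc_mul, ← bc_mul,
          h.comm X hX.1 j]
      have h1 := hw X hX x (a j) hx (ha j)
      have h2 := hw Y hY y (b j) hy (hb j)
      have h3 : (J j).baseChange ℂ ((J j).baseChange ℂ ((f j).baseChange ℂ v)) =
          (-(d j : ℂ)) • (f j).baseChange ℂ v := by
        rw [← Module.End.mul_apply, ← Module.End.mul_apply, ← bc_mul, ← bc_mul, mul_assoc,
          h.right, h.sq]
        have e1 : -(d j • f j) = (-d j) • f j := (neg_smul _ _).symm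
        rw [e1, bc_qsmul, LinearMap.smul_apply]
        push_cast
        rfl
      generalize (f j).baseChange ℂ v = w at hj h1 h2 h3
      by_cases h0 : a j = 0
      · rw [h0, Rat.cast_zero, zero_smul] at h1
        rw [hab j h0, Rat.cast_zero, zero_smul] at h2
        rw [(smul_eq_zero.1 h1.symm).resolve_right hj, (smul_eq_zero.1 h2.symm).resolve_right hj,
          map_zero]
      · have h0' : (a j : ℂ) ≠ 0 := by exact_mod_cast h0
        have h4 : (J j).baseChange ℂ w = (x / a j) • w := by
          rw [div_eq_inv_mul, mul_smul, ← h1, smul_smul, inv_mul_cancel₀ h0', one_smul]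
        rw [h4, map_smul, h4, smul_smul] at h3
        have h5 : x / a j * (x / a j) = -(d j : ℂ) := by
          have h6 : (x / a j * (x / a j) - -(d j : ℂ)) • w = 0 := by rw [sub_smul, h3, sub_self]
          exact sub_eq_zero.1 ((smul_eq_zero.1 h6).resolve_right hj)
        have h6 : y = b j * (x / a j) := by
          rw [h4, smul_smul] at h2
          have h7 : (b j * (x / a j) - y) • w = 0 := by rw [sub_smul, h2, sub_self]
          exact (sub_eq_zero.1 ((smul_eq_zero.1 h7).resolve_right hj)).symm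
        have h7 : (x / a j) ^ 2 = s j ^ 2 := by
          rw [hs2, pow_two, h5]
          push_cast
          rfl
        have hFa : ∀ z : ℂ, F ((a j : ℂ) * z) = (a j : ℂ) * F z := by
          intro z
          rw [← Rat.smul_def, map_smul, Rat.smul_def]
        have h8 : x = a j * (x / a j) := by
          rw [mul_div_cancel₀]
          exact h0'
        rcases sq_eq_sq_iff_eq_or_eq_neg.1 h7 with h9 | h9
        · rw [h6, h8, h9, hFa, hF]
          push_cast
          field_simp
        · rw [h6, h8, h9, hFa, map_neg, hF]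
          push_cast
          field_simp
  intro r v x y h0 hx hy hs
  have h1 : ∀ k, y k = F (x k) := fun k => key (v k) (x k) (y k) (h0 k) (hx k) (hy k)
  simp only [h1]
  rw [← map_sum, hs, map_zero]

/-- The centre annihilates all de Rham-Betti classes. -/
theorem centre (hsum : ∀ X ∈ A.CN, X = ∑ j, X * f j) : A.CN ≤ A.LA :=
  A.centre_le fun X hX hgen Y hY => h.dom hsum hX hgen hY

end QuadFactors

end Pool.Agent.Helper883K
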