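import Pool.Agent.Helper883_K3.AsmM
import Pool.Agent.Helper883_K3.Quad

set_option autoImplicit false
set_option linter.unusedSectionVars false
set_option linter.unusedSimpArgs false
set_option linter.unusedVariables false

/-!
# Factors of spin type and factors with complex multiplication
-/

open Module Function TensorProduct

noncomputable section

namespace Pool.Agent.Helper883K

open Pool.Agent.Y102 Pool.Agent.W516.DR Pool.Agent.H204R3.GP Pool.Agent.W516.KC
  Pool.Agent.H204R3.SP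

variable {g : ℕ} (A : AbVar g)

theorem NA_le_CN_der : A.NA ≤ A.CN ⊔ der A.NA :=
  le_of_trace A.NA A.trace_NA (fun X hX Y hY => A.NA_bracket hX hY)
    (fun X hX hc htr => A.NA_pos hX hc htr)
    (fun X hX Y hY => Submodule.mem_sup_right (Submodule.subset_span ⟨X, hX, Y, hY, rfl⟩))
    fun X hX hc => Submodule.mem_sup_left ⟨hX, hc⟩

variable {A}

theorem der_kill {f : Module.End ℚ A.H1} (hf : ∀ X ∈ A.NA, ∀ Y ∈ A.NA, (X * Y - Y * X) * f = 0)
    {D : Module.End ℚ A.H1} (hD : D ∈ der A.NA) : D * f = 0 := by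
  induction hD using Submodule.span_induction with
  | mem D hD =>
    obtain ⟨X, hX, Y, hY, rfl⟩ := hD
    exact hf X hX Y hY
  | zero => rw [zero_mul]
  | add a b _ _ ha hb => rw [add_mul, ha, hb, add_zero]
  | smul c a _ ha => rw [smul_mul_assoc, ha, smul_zero]

theorem der_lift {e f : Module.End ℚ A.H1} (hce : ∀ X ∈ A.NA, X * e = e * X)
    (hself : PairEq A e e) (hf : ∀ X ∈ A.NA, ∀ Y ∈ A.NA, (X * Y - Y * X) * f = 0)
    {D : Module.End ℚ A.H1} (hD : D ∈ der A.NA) : ∃ Y ∈ A.LA, D * e = Y * e ∧ Y * f = 0 := by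
  induction hD using Submodule.span_induction with
  | mem D hD =>
    obtain ⟨X, hX, X', hX', rfl⟩ := hD
    obtain ⟨Y, hY, h1, -⟩ := hself X hX
    obtain ⟨Y', hY', h2, -⟩ := hself X' hX'
    refine ⟨Y * Y' - Y' * Y, A.LA_bracket hY hY', ?_, hf Y (A.LA_le_NA hY) Y' (A.LA_le_NA hY')⟩
    have e1 : X * X' * e = Y * Y' * e := by
      rw [mul_assoc, h2, mul_assoc Y, hce Y' (A.LA_le_NA hY'), ← mul_assoc, h1, mul_assoc]
    have e2 : X' * X * e = Y' * Y * e := by
      rw [mul_assoc, h1, mul_assoc Y', hce Y (A.LA_le_NA hY), ← mul_assoc, h2, mul_assoc]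
    rw [sub_mul, sub_mul, e1, e2]
  | zero => exact ⟨0, A.LA.zero_mem, by rw [zero_mul], zero_mul _⟩
  | add a b _ _ ha hb =>
    obtain ⟨Y, hY, h1, h2⟩ := ha
    obtain ⟨Y', hY', h3, h4⟩ := hb
    exact ⟨Y + Y', A.LA.add_mem hY hY', by rw [add_mul, add_mul, h1, h3], by
      rw [add_mul, h2, h4, add_zero]⟩
  | smul c a _ ha =>
    obtain ⟨Y, hY, h1, h2⟩ := ha
    exact ⟨c • Y, A.LA.smul_mem c hY, by rw [smul_mul_assoc, smul_mul_assoc, h1], by
      rw [smul_mul_assoc, h2, smul_zero]⟩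

/-- **Products of abelian varieties of spin type and of powers of elliptic curves with complex
multiplication.** -/
theorem NA_le_total {s t : ℕ} {e : Fin (s + t) → Module.End ℚ A.H1} (hsum : ∑ i, e i = 1)
    {k r : Fin s → ℕ} {E : ∀ i, Fin (k i) → Fin (r i) → Module.End ℂ (ℂ ⊗[ℚ] A.H1)}
    (h : SpinFactorsM A (fun i => e (Fin.castAdd t i)) k r E)
    (h6 : ∀ i, 3 ≤ r i ∧ r i ≠ 5) (hk : ∀ i, r i = 4 → k i = 1)
    (h43 : ∀ i j, ¬ (r i = 4 ∧ r j = 3 ∧ k j = 2))
    (hs : ∀ i, (k i = 1 ∧ r i ≠ 4) ∨ SimpleOn A (e (Fin.castAdd t i)))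
    {J : Fin t → Module.End ℚ A.H1} {d : Fin t → ℚ}
    (hq : QuadFactors A (fun j => e (Fin.natAdd s j)) J d) : A.NA ≤ A.LA := by
  have hcomm : ∀ X ∈ A.NA, ∀ i, X * e i = e i * X := by
    intro X hX i
    induction i using Fin.addCases with
    | left i => exact h.comm X hX i
    | right j => exact hq.comm X hX j
  have hCN : ∀ X ∈ A.CN, X = ∑ j, X * e (Fin.natAdd s j) := by
    intro X hX
    conv_lhs => rw [← mul_one X, ← hsum, Fin.sum_univ_add, mul_add, Finset.mul_sum, Finset.mul_sum]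
    rw [Finset.sum_eq_zero (fun i _ => h.centre (fun i => (h6 i).1) X hX i), zero_add]
  have hC : A.CN ≤ A.LA := hq.centre hCN
  have hspin := h.pairs h6 hk h43 hs
  have hbr : ∀ j, ∀ X ∈ A.NA, ∀ Y ∈ A.NA, (X * Y - Y * X) * e (Fin.natAdd s j) = 0 :=
    fun j X hX Y hY => hq.br j hX hY
  have hmix : ∀ i j, PairEq A (e (Fin.castAdd t i)) (e (Fin.natAdd s j)) := by
    intro i j Z hZ
    obtain ⟨C, hCC, D, hD, rfl⟩ := Submodule.mem_sup.1 (NA_le_CN_der A hZ)
    obtain ⟨Y, hY, h1, h2⟩ := der_lift (fun X hX => hcomm X hX _) (hspin i i) (hbr j) hD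
    refine ⟨C + Y, A.LA.add_mem (hC hCC) hY, ?_, ?_⟩
    · rw [add_mul, add_mul, h1]
    · rw [add_mul, add_mul, h2, der_kill (hbr j) hD]
  have hpair : ∀ i j, PairEq A (e i) (e j) := by
    intro i j
    induction i using Fin.addCases with
    | left i =>
      induction j using Fin.addCases with
      | left j => exact hspin i j
      | right j => exact hmix i j
    | right i =>
      induction j using Fin.addCases with
      | left j => exact PairEq.symm A (hmix j i)
      | right j =>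
        intro Z hZ
        obtain ⟨C, hCC, D, hD, rfl⟩ := Submodule.mem_sup.1 (NA_le_CN_der A hZ)
        refine ⟨C, hC hCC, ?_, ?_⟩
        · rw [add_mul, der_kill (hbr i) hD, add_zero]
        · rw [add_mul, der_kill (hbr j) hD, add_zero]
  intro Z hZ
  obtain ⟨Y, hY, h1⟩ := NA_le_of_pairs A e hsum hcomm hpair Z hZ
  have h2 := A.LA.add_mem (hC h1) hY
  rwa [sub_add_cancel] at h2

end Pool.Agent.Helper883K
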