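import Pool.Agent.Helper883_K3.AsmQ

set_option autoImplicit false
set_option linter.unusedSectionVars false
set_option linter.unusedSimpArgs false
set_option linter.unusedVariables false

/-!
# Factors with complex multiplication
-/

open Module Function TensorProduct

noncomputable section

namespace Pool.Agent.Helper883K

open Pool.Agent.Y102 Pool.Agent.W516.DR Pool.Agent.H204R3.GP Pool.Agent.W516.KC
  Pool.Agent.H204R3.SP

variable {g : ℕ} (A : AbVar g)

/-- The eigenvalues of `Y` on the image of `f` are obtained from those of `X` by a linear map over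
the rational numbers. -/
def Domin (f X Y : Module.End ℚ A.H1) : Prop :=
  ∃ F : ℂ →ₗ[ℚ] ℂ, ∀ (v : ℂ ⊗[ℚ] A.H1) (x y : ℂ), v ≠ 0 → f.baseChange ℂ v = v →
    X.baseChange ℂ v = x • v → Y.baseChange ℂ v = y • v → F x = y

/-- Factors with complex multiplication, with a condition on the relations between the
eigenvalues. -/
structure TorusFactors {t : ℕ} (f : Fin t → Module.End ℚ A.H1) : Prop where
  idem : ∀ j, f j * f j = f j
  orth : ∀ i j, i ≠ j → f i * f j = 0
  comm : ∀ X ∈ A.NA, ∀ j, X * f j = f j * X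
  br : ∀ j, ∀ X ∈ A.NA, ∀ Y ∈ A.NA, (X * Y - Y * X) * f j = 0
  rel : ∀ X ∈ A.NA, (∀ T : Module.End ℚ A.H1, T * (∑ j, f j) = T → (∑ j, f j) * T = T →
    T * X = X * T → ∀ Y ∈ A.NA, T * Y = Y * T) → ∀ Y ∈ A.NA, Domin A (∑ j, f j) X Y

variable {A} {t : ℕ} {f : Fin t → Module.End ℚ A.H1}

theorem mul_sum_of (idem : ∀ j, f j * f j = f j) (orth : ∀ i j, i ≠ j → f i * f j = 0) (j : Fin t) :
    f j * (∑ i, f i) = f j := by
  rw [Finset.mul_sum, Finset.sum_eq_single j (fun i _ hi => orth j i (Ne.symm hi))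
    (fun h => absurd (Finset.mem_univ j) h), idem]

theorem sum_mul_of (idem : ∀ j, f j * f j = f j) (orth : ∀ i j, i ≠ j → f i * f j = 0) (j : Fin t) :
    (∑ i, f i) * f j = f j := by
  rw [Finset.sum_mul, Finset.sum_eq_single j (fun i _ hi => orth i j hi)
    (fun h => absurd (Finset.mem_univ j) h), idem]

theorem TorusFactors.centre (h : TorusFactors A f) (hsum : ∀ X ∈ A.CN, X = ∑ j, X * f j) :
    A.CN ≤ A.LA := by
  have hff : (∑ j, f j) * (∑ j, f j) = ∑ j, f j := by
    rw [Finset.sum_mul]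
    exact Finset.sum_congr rfl fun j _ => mul_sum_of h.idem h.orth j
  have hcomm : ∀ X ∈ A.NA, X * (∑ j, f j) = (∑ j, f j) * X := fun X hX => by
    rw [Finset.mul_sum, Finset.sum_mul]
    exact Finset.sum_congr rfl fun j _ => h.comm X hX j
  have hbr : ∀ X ∈ A.NA, ∀ Y ∈ A.NA, (X * Y - Y * X) * (∑ j, f j) = 0 := fun X hX Y hY => by
    rw [Finset.mul_sum]
    exact Finset.sum_eq_zero fun j _ => h.br j X hX Y hY
  have hX' : ∀ X ∈ A.CN, X * (∑ j, f j) = X := fun X hX => by
    rw [Finset.mul_sum]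
    exact (hsum X hX).symm
  have hrel := h.rel
  generalize (∑ j, f j) = f0 at hff hcomm hbr hX' hrel
  refine A.centre_le fun X hX hgen Y hY => ?_
  have hzero : ∀ T : Module.End ℚ A.H1, T * f0 = T → f0 * T = T → ∀ D ∈ A.NA, D * f0 = 0 →
      T * D = D * T := by
    intro T h1 h2 D hD h3
    have e1 : T * D = 0 := by rw [← h1, mul_assoc, ← hcomm D hD, h3, mul_zero]
    have e2 : D * T = 0 := by rw [← h2, ← mul_assoc, h3, zero_mul]
    rw [e1, e2]
  obtain ⟨F, hF⟩ := hrel X hX.1 (by
    intro T h1 h2 h3 Z hZ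
    have h4 := hgen T (fun Y hY Z hZ => hzero T h1 h2 _ (A.NA_bracket hY hZ) (hbr Y hY Z hZ)) h3
    obtain ⟨C, hC, D, hD, rfl⟩ := Submodule.mem_sup.1 (NA_le_CN_der A hZ)
    have hDN : D ∈ A.NA := by
      have := A.NA.sub_mem hZ hC.1
      rwa [add_sub_cancel_left] at this
    rw [mul_add, add_mul, h4 C hC, hzero T h1 h2 D hDN (der_kill hbr hD)]) Y hY.1
  have h0 : ∀ X ∈ A.CN, ∀ (v : ℂ ⊗[ℚ] A.H1) (x : ℂ), v ≠ 0 → f0.baseChange ℂ v = 0 →
      X.baseChange ℂ v = x • v → x = 0 := by
    intro X hX v x hv h1 h2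
    rw [← hX' X hX, bc_mul, Module.End.mul_apply, h1, map_zero] at h2
    exact (smul_eq_zero.1 h2.symm).resolve_right hv
  have key : ∀ (v : ℂ ⊗[ℚ] A.H1) (x y : ℂ), v ≠ 0 → X.baseChange ℂ v = x • v →
      Y.baseChange ℂ v = y • v → y = F x := by
    intro v x y hv hx hy
    by_cases hk : f0.baseChange ℂ v = 0
    · rw [h0 X hX v x hv hk hx, h0 Y hY v y hv hk hy, map_zero]
    · refine (hF (f0.baseChange ℂ v) x y hk ?_ ?_ ?_).symm
      · rw [← Module.End.mul_apply, ← bc_mul, hff]
      · rw [← Module.End.mul_apply, ← bc_mul, hcomm X hX.1, bc_mul, Module.End.mul_apply, hx,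
          map_smul]
      · rw [← Module.End.mul_apply, ← bc_mul, hcomm Y hY.1, bc_mul, Module.End.mul_apply, hy,
          map_smul]
  intro r v x y h1 hx hy hs
  have h2 : ∀ k, y k = F (x k) := fun k => key (v k) (x k) (y k) (h1 k) (hx k) (hy k)
  simp only [h2]
  rw [← map_sum, hs, map_zero]

/-- **Quadratic factors satisfy the condition on the relations.** -/
theorem QuadFactors.torus {J : Fin t → Module.End ℚ A.H1} {d : Fin t → ℚ}
    (h : QuadFactors A f J d) (orth : ∀ i j, i ≠ j → f i * f j = 0) : TorusFactors A f := by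
  refine ⟨h.idem, orth, h.comm, fun j X hX Y hY => h.br j hX hY, fun X hX hgen Y hY => ?_⟩
  choose a ha using fun j => h.line j X hX
  choose b hb using fun j => h.line j Y hY
  have hab : ∀ j, a j = 0 → b j = 0 := by
    intro j h0
    by_contra hb0
    obtain ⟨w, hw⟩ : ∃ w, f j w ≠ 0 := by
      by_contra hcon
      push Not at hcon
      exact h.ne j (LinearMap.ext hcon)
    obtain ⟨φ, hφ⟩ : ∃ φ : Module.Dual ℚ A.H1, φ (f j w) ≠ 0 := by
      by_contra hcon
      push Not at hcon
      exact hw ((Module.forall_dual_apply_eq_zero_iff ℚ (f j w)).1 hcon)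
    have hff : f j (f j w) = f j w := by rw [← Module.End.mul_apply, h.idem]
    generalize f j w = w0 at hw hφ hff
    let T : Module.End ℚ A.H1 := (φ ∘ₗ f j).smulRight w0
    have hT : ∀ v, T v = φ (f j v) • w0 := fun v => rfl
    have hTf : T * f j = T := by
      refine LinearMap.ext fun v => ?_
      rw [Module.End.mul_apply, hT, hT, ← Module.End.mul_apply (f j), h.idem]
    have hfT : f j * T = T := by
      refine LinearMap.ext fun v => ?_
      rw [Module.End.mul_apply, hT, map_smul, hff]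
    have hzero : ∀ D ∈ A.NA, D * f j = 0 → T * D = D * T := by
      intro D hD h1
      rw [← hTf, mul_assoc, ← h.comm D hD j, h1, mul_zero, hTf, ← hfT, ← mul_assoc, h1, zero_mul]
    have h1 := hgen T (by rw [← hTf, mul_assoc, mul_sum_of h.idem orth])
      (by rw [← hfT, ← mul_assoc, sum_mul_of h.idem orth])
      (hzero X hX (by rw [ha, h0, zero_smul])) Y hY
    have h2 : T * Y = b j • (T * J j) := by
      rw [← hTf, mul_assoc, ← h.comm Y hY j, hb, mul_smul_comm, hTf]
    have h3 : Y * T = b j • (J j * T) := by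
      rw [← hfT, ← mul_assoc, hb, smul_mul_assoc, hfT]
    rw [h2, h3] at h1
    have h4 := smul_right_injective _ hb0 h1
    have h5 := LinearMap.congr_fun h4 w0
    rw [Module.End.mul_apply, Module.End.mul_apply, hT, hT, hff, map_smul,
      ← Module.End.mul_apply (f j), h.left] at h5
    have h6 : J j w0 = (φ (J j w0) / φ w0) • w0 := by
      rw [div_eq_inv_mul, mul_smul, h5, smul_smul, inv_mul_cancel₀ hφ, one_smul]
    obtain ⟨lam, hlam⟩ : ∃ lam : ℚ, J j w0 = lam • w0 := ⟨_, h6⟩
    have h7 := LinearMap.congr_fun (h.sq j) w0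
    rw [Module.End.mul_apply, hlam, map_smul, hlam, LinearMap.neg_apply, LinearMap.smul_apply, hff,
      smul_smul, ← neg_smul] at h7
    have h8 : lam * lam = -d j := by
      have h9 : (lam * lam - -d j) • w0 = 0 := by rw [sub_smul, h7, sub_self]
      exact sub_eq_zero.1 ((smul_eq_zero.1 h9).resolve_right hw)
    have h9 := h.pos j
    nlinarith [mul_self_nonneg lam]
  obtain ⟨s, hs, hs2⟩ := exists_sqrt (fun j => -d j) (fun j => neg_ne_zero.2 (h.pos j).ne')
    fun i j hij => by
      rw [neg_mul_neg]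
      exact h.nsq i j hij
  obtain ⟨F, hF⟩ := exists_scaling hs fun j => b j / a j
  have hbc : ∀ (X : Module.End ℚ A.H1) (c : ℚ) j, X * f j = c • J j →
      ∀ v, X.baseChange ℂ ((f j).baseChange ℂ v) = (c : ℂ) • (J j).baseChange ℂ v := by
    intro X c j hc v
    rw [← Module.End.mul_apply, ← bc_mul, hc, bc_qsmul, LinearMap.smul_apply]
  refine ⟨F, fun v x y hv hfv hx hy => ?_⟩
  obtain ⟨j, hj⟩ : ∃ j, (f j).baseChange ℂ v ≠ 0 := by
    by_contra hall
    push Not at hall
    apply hv
    rw [← hfv]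
    exact Finset.sum_induction f (fun Z : Module.End ℚ A.H1 => Z.baseChange ℂ v = 0)
      (fun a b ha hb => by rw [LinearMap.baseChange_add, LinearMap.add_apply, ha, hb, add_zero])
      (by rw [LinearMap.baseChange_zero, LinearMap.zero_apply]) fun j _ => hall j
  have hw : ∀ X ∈ A.NA, ∀ (x : ℂ) (c : ℚ), X.baseChange ℂ v = x • v → X * f j = c • J j →
      (c : ℂ) • (J j).baseChange ℂ ((f j).baseChange ℂ v) = x • (f j).baseChange ℂ v := by
    intro X hX x c hx hc
    rw [← hbc X c j hc, ← Module.End.mul_apply ((f j).baseChange ℂ), ← bc_mul, h.idem,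
      ← map_smul, ← hx, ← Module.End.mul_apply, ← Module.End.mul_apply, ← bc_mul, ← bc_mul,
      h.comm X hX j]
  have h1 := hw X hX x (a j) hx (ha j)
  have h2 := hw Y hY y (b j) hy (hb j)
  have h3 : (J j).baseChange ℂ ((J j).baseChange ℂ ((f j).baseChange ℂ v)) =
      (-(d j : ℂ)) • (f j).baseChange ℂ v := by
    rw [← Module.End.mul_apply, ← Module.End.mul_apply, ← bc_mul, ← bc_mul, mul_assoc,
      h.right, h.sq]
    have e1 : -(d j • f j) = (-d j) • f j := (neg_smul _ _).symm
    rw [e1, bc_qsmul, LinearMap.smul_apply]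
    push_cast
    rfl
  generalize (f j).baseChange ℂ v = w at hj h1 h2 h3
  by_cases h0 : a j = 0
  · rw [h0, Rat.cast_zero, zero_smul] at h1
    rw [hab j h0, Rat.cast_zero, zero_smul] at h2
    rw [(smul_eq_zero.1 h1.symm).resolve_right hj, (smul_eq_zero.1 h2.symm).resolve_right hj,
      map_zero]
  · have h0' : (a j : ℂ) ≠ 0 := by exact_mod_cast h0
    have h4 : (J j).baseChange ℂ w = (x / a j) • w := by
      rw [div_eq_inv_mul, mul_smul, ← h1, smul_smul, inv_mul_cancel₀ h0', one_smul]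
    rw [h4, map_smul, h4, smul_smul] at h3
    have h5 : x / a j * (x / a j) = -(d j : ℂ) := by
      have h6 : (x / a j * (x / a j) - -(d j : ℂ)) • w = 0 := by rw [sub_smul, h3, sub_self]
      exact sub_eq_zero.1 ((smul_eq_zero.1 h6).resolve_right hj)
    have h6 : y = b j * (x / a j) := by
      rw [h4, smul_smul] at h2
      have h7 : (b j * (x / a j) - y) • w = 0 := by rw [sub_smul, h2, sub_self]
      exact (sub_eq_zero.1 ((smul_eq_zero.1 h7).resolve_right hj)).symm
    have h7 : (x / a j) ^ 2 = s j ^ 2 := by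
      rw [hs2, pow_two, h5]
      push_cast
      rfl
    have hFa : ∀ z : ℂ, F ((a j : ℂ) * z) = (a j : ℂ) * F z := by
      intro z
      rw [← Rat.smul_def, map_smul, Rat.smul_def]
    have h8 : x = a j * (x / a j) := by
      rw [mul_div_cancel₀]
      exact h0'
    symm
    rcases sq_eq_sq_iff_eq_or_eq_neg.1 h7 with h9 | h9
    · rw [h6, h8, h9, hFa, hF]
      push_cast
      field_simp
    · rw [h6, h8, h9, hFa, map_neg, hF]
      push_cast
      field_simp

end Pool.Agent.Helper883K
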