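import Pool.Agent.Helper883_K3.Sum
import Pool.Agent.Helper883_K3.Torus

set_option autoImplicit false
set_option linter.unusedSectionVars false
set_option linter.unusedSimpArgs false
set_option linter.unusedVariables false

/-!
# Factors of spin type, factors of Hilbert type and factors with complex multiplication
-/

open Module Function TensorProduct

noncomputable section

namespace Pool.Agent.Helper883K

open Pool.Agent.Y102 Pool.Agent.W516.DR Pool.Agent.H204R3.GP Pool.Agent.W516.KC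
  Pool.Agent.H204R3.SP Pool.Agent.Y102.SP

section tw

variable {U V : Type} [AddCommGroup U] [Module ℂ U] [AddCommGroup V] [Module ℂ V]
  [FiniteDimensional ℂ U] [Nontrivial U] [FiniteDimensional ℂ V] [Nontrivial V] {k l n m : ℕ}

theorem SumS.pos {p : Fin k → Module.End ℂ U} {E : Fin k → Fin 3 → Module.End ℂ U}
    (h : SumS p E) : 0 < k := by
  rcases Nat.eq_zero_or_pos k with hk | hk
  · exfalso
    subst hk
    have h1 := h.sum
    rw [Finset.univ_eq_empty, Finset.sum_empty] at h1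
    exact zero_ne_one h1
  · exact hk

/-- **Intertwining operators for direct sums.** -/
theorem SumS.exists_tw {p : Fin k → Module.End ℂ U} {E : Fin k → Fin 3 → Module.End ℂ U}
    (h : SumS p E) {q : Fin l → Module.End ℂ V} {F : Fin l → Fin 3 → Module.End ℂ V}
    (h' : SumS q F) (ψ : (Fin k → Sk 3) ≃ₗ[ℂ] (Fin l → Sk 3))
    (hψ : ∀ X Y, ψ (adL X Y) = adL (ψ X) (ψ Y)) :
    ∃ T : U →ₗ[ℂ] V, T ≠ 0 ∧ ∀ M, (QM F (ψ M)) ∘ₗ T = T ∘ₗ (QM E M) := by
  let σ₀ : Fin k := ⟨0, h.pos⟩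
  let τ₀ : Fin l := ⟨0, h'.pos⟩
  have i1 := nontrivial_range (h.ne σ₀)
  have i2 := nontrivial_range (h'.ne τ₀)
  obtain ⟨π, hπ, hθ⟩ := matching (Or.inl rfl) (Or.inl rfl) (h.ce σ₀) (h'.ce τ₀) ψ hψ
  choose θ hθ1 hθ2 using hθ
  have i3 := nontrivial_range (h'.ne (π σ₀))
  obtain ⟨T, hT, hTM⟩ := exists_one (le_refl 3) (h.ce σ₀) (h'.ce (π σ₀)) (θ σ₀) (hθ1 σ₀)
  let T' : U →ₗ[ℂ] V := (LinearMap.range (q (π σ₀))).subtype ∘ₗ T ∘ₗ (p σ₀).rangeRestrict
  have hT' : ∀ u, T' u = (T ⟨p σ₀ u, u, rfl⟩ : LinearMap.range (q (π σ₀))) := fun u => rfl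
  refine ⟨T', fun h0 => hT ?_, fun M => LinearMap.ext fun u => ?_⟩
  · refine LinearMap.ext fun w => Subtype.ext ?_
    have h1 := LinearMap.congr_fun h0 (w : U)
    rw [hT', LinearMap.zero_apply] at h1
    have h2 : (⟨p σ₀ w, w, rfl⟩ : LinearMap.range (p σ₀)) = w :=
      Subtype.ext (range_fix (h.idem σ₀) w)
    rw [h2] at h1
    exact h1
  · change QM F (ψ M) (T' u) = T' (QM E M u)
    -- the component of `ψ M`
    have e1 : (ψ M) (π σ₀) = θ σ₀ (M σ₀) := by
      conv_lhs => rw [← Finset.univ_sum_single M]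
      rw [map_sum, Finset.sum_apply, Finset.sum_eq_single σ₀]
      · rw [hθ2, Pi.single_eq_same]
      · intro σ _ hσ
        rw [hθ2, Pi.single_eq_of_ne (fun h => hσ (hπ h.symm))]
      · intro h
        exact absurd (Finset.mem_univ _) h
    have e2 : q (π σ₀) (T' u) = T' u := by
      rw [hT']
      exact range_fix (h'.idem _) _
    have hr : ∀ (N : Matrix (Fin 3) (Fin 3) ℂ), Q (F (π σ₀)) N * q (π σ₀) =
        q (π σ₀) * Q (F (π σ₀)) N := fun N => by rw [h'.leftQ, h'.rightQ]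
    have hl : ∀ (N : Matrix (Fin 3) (Fin 3) ℂ), Q (E σ₀) N * p σ₀ = p σ₀ * Q (E σ₀) N :=
      fun N => by rw [h.leftQ, h.rightQ]
    have e3 : QM F (ψ M) (T' u) = Q (F (π σ₀)) (θ σ₀ (M σ₀)).1 (T' u) := by
      rw [← e1, QM_apply, LinearMap.sum_apply, Finset.sum_eq_single (π σ₀)]
      · intro τ _ hτ
        rw [← e2, ← Module.End.mul_apply, ← h'.rightQ τ, mul_assoc, h'.orth τ _ hτ, mul_zero,
          LinearMap.zero_apply]
      · intro h
        exact absurd (Finset.mem_univ _) h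
    have e4 : p σ₀ (QM E M u) = Q (E σ₀) (M σ₀).1 (p σ₀ u) := by
      rw [← Module.End.mul_apply, h.pQM, ← Module.End.mul_apply, h.rightQ]
    rw [e3, hT', hT', ← Rp_coe' (h'.idem _) (hr _), h'.Rp_Q]
    have h5 := LinearMap.congr_fun (hTM (M σ₀)) ⟨p σ₀ u, u, rfl⟩
    rw [LinearMap.comp_apply, LinearMap.comp_apply] at h5
    rw [h5]
    congr 2
    apply Subtype.ext
    rw [← h.Rp_Q, Rp_coe' (h.idem _) (hl _)]
    exact e4.symm

/-- A sum of Lie algebras `sl(2)` is not isomorphic to the Lie algebra of a different type. -/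
theorem SumS.no_iso {p : Fin k → Module.End ℂ U} {E : Fin k → Fin 3 → Module.End ℂ U}
    (h : SumS p E) {F : Fin l → Fin m → Module.End ℂ V} (hF : CM F) (hm : m = 3 ∨ 5 ≤ m)
    (hml : ¬ (m = 3 ∧ l = k)) (ψ : (Fin k → Sk 3) ≃ₗ[ℂ] (Fin l → Sk m))
    (hψ : ∀ X Y, ψ (adL X Y) = adL (ψ X) (ψ Y)) : False := by
  let σ₀ : Fin k := ⟨0, h.pos⟩
  have i1 := nontrivial_range (h.ne σ₀)
  have h01 : (0 : Fin 3) ≠ 1 := by decide
  have hl : 0 < l := by
    rcases Nat.eq_zero_or_pos l with hl | hl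
    · exfalso
      subst hl
      apply el2_ne (h.ce σ₀) h01
      have h3 : (Pi.single σ₀ (el2 0 1) : Fin k → Sk 3) = 0 :=
        ψ.injective (Subsingleton.elim _ _)
      have h4 := congrFun h3 σ₀
      rw [Pi.single_eq_same] at h4
      exact h4
    · exact hl
  obtain ⟨π, hπ, hθ⟩ := matching (Or.inl rfl) hm (h.ce σ₀) (hF.ce ⟨0, hl⟩) ψ hψ
  obtain ⟨θ, -, -⟩ := hθ σ₀
  have hm3 : 3 = m := eq_of_finrank (by norm_num) (by omega) θ.finrank_eq
  subst hm3
  apply hml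
  refine ⟨rfl, ?_⟩
  have hdim := ψ.finrank_eq
  rw [Module.finrank_pi_fintype, Module.finrank_pi_fintype] at hdim
  simp only [Finset.sum_const, Finset.card_univ, Fintype.card_fin, smul_eq_mul] at hdim
  have h3 : 0 < finrank ℂ (Sk 3) := by
    have h4 := finrank_Sk (n := 3)
    rcases Nat.eq_zero_or_pos (finrank ℂ (Sk 3)) with h5 | h5
    · rw [h5] at h4
      norm_num at h4
    · exact h5
  exact (Nat.eq_of_mul_eq_mul_right h3 hdim).symm

theorem CM.rep {F : Fin l → Fin m → Module.End ℂ V} (hF : CM F) (hm : 3 ≤ m) : RepS (QM F) := by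
  refine ⟨fun X hX => QM_inj hF (by rw [hX, map_zero]), fun X Y => QM_br hF X Y, fun hl => ?_⟩
  have hab : (⟨0, by omega⟩ : Fin m) ≠ ⟨1, by omega⟩ := by simp
  have h1 : (1 : Module.End ℂ V) = (-1 : ℂ) • (QM F (Pi.single ⟨0, hl⟩ (el2 ⟨0, by omega⟩
      ⟨1, by omega⟩)) * QM F (Pi.single ⟨0, hl⟩ (el2 ⟨0, by omega⟩ ⟨1, by omega⟩))) := by
    rw [QM_single, Q_el2 (hF.ce _) hab, simple_sq (hF.ce _) hab, neg_one_smul, neg_neg]
  rw [h1]
  exact Submodule.smul_mem _ _ (Submodule.subset_span ⟨_, _, rfl⟩)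

theorem CM.range {F : Fin l → Fin m → Module.End ℂ V} (hF : CM F) :
    LinearMap.range (QM F) = soM F := by
  refine le_antisymm ?_ fun x hx => ?_
  · rintro _ ⟨X, rfl⟩
    exact QM_mem hF X
  · obtain ⟨X, hX⟩ := exists_QM hF hx
    exact ⟨X, hX⟩

end tw

section one

variable {W : Type} [AddCommGroup W] [Module ℂ W] [FiniteDimensional ℂ W]

/-- **One factor of type `A_1`.** -/
theorem singleT {p : Module.End ℂ W} (hp : p * p = p)
    {G N D : Submodule ℂ (Module.End ℂ W)} (hGN : G ≤ N) (hDG : D ≤ G)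
    (hN : ∀ x ∈ N, x * p = p * x) (hGb : ∀ x ∈ G, ∀ y ∈ G, x * y - y * x ∈ G)
    (hperf : D ≤ Submodule.span ℂ {Z | ∃ X ∈ D, ∃ Y ∈ D, Z = X * Y - Y * X})
    (hdec : ∀ X ∈ G, ∃ Z ∈ G, ∃ d ∈ D, X = Z + d ∧ ∀ Y ∈ G, Z * Y = Y * Z)
    (hcom : ∀ T : Module.End ℂ W, (∀ x ∈ G, T * x = x * T) → ∀ x ∈ N, T * x = x * T)
    {M : Submodule ℂ (Module.End ℂ (LinearMap.range p))} (hNM : N.map (Rp p) = M)
    {m : ℕ} {φ : Fin m → TA.S →ₗ[ℂ] Module.End ℂ (LinearMap.range p)} (ht : TA.TypeA φ M)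
    (hM : M ≤ Submodule.span ℂ {z | ∃ x ∈ M, ∃ y ∈ M, z = x * y - y * x}) :
    G.map (Rp p) = M := by
  refine le_antisymm ?_ ?_
  · rw [← hNM]
    exact Submodule.map_mono hGN
  have hmul : ∀ x, ∀ y ∈ N, Rp p (x * y) = Rp p x * Rp p y := fun x y hy => Rp_mul hp (hN y hy)
  have hbr' : ∀ X ∈ G.map (Rp p), ∀ Y ∈ G.map (Rp p), X * Y - Y * X ∈ G.map (Rp p) := by
    rintro _ ⟨x, hx, rfl⟩ _ ⟨y, hy, rfl⟩
    exact ⟨x * y - y * x, hGb x hx y hy, by rw [map_sub, hmul x y (hGN hy), hmul y x (hGN hx)]⟩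
  have hperf' : D.map (Rp p) ≤
      Submodule.span ℂ {Z | ∃ X ∈ D.map (Rp p), ∃ Y ∈ D.map (Rp p), Z = X * Y - Y * X} := by
    rintro _ ⟨d, hd, rfl⟩
    have h2 : Rp p d ∈ (Submodule.span ℂ {Z | ∃ X ∈ D, ∃ Y ∈ D, Z = X * Y - Y * X}).map (Rp p) :=
      ⟨d, hperf hd, rfl⟩
    rw [Submodule.map_span] at h2
    refine Submodule.span_mono ?_ h2
    rintro _ ⟨_, ⟨X, hX, Y, hY, rfl⟩, rfl⟩
    exact ⟨_, ⟨X, hX, rfl⟩, _, ⟨Y, hY, rfl⟩, by
      rw [map_sub, hmul X Y (hGN (hDG hY)), hmul Y X (hGN (hDG hX))]⟩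
  have hdec' : ∀ X ∈ G.map (Rp p), ∃ Z ∈ G.map (Rp p), ∃ d ∈ D.map (Rp p), X = Z + d ∧
      ∀ Y ∈ G.map (Rp p), Z * Y = Y * Z := by
    rintro _ ⟨x, hx, rfl⟩
    obtain ⟨Z, hZ, d, hd, rfl, hc⟩ := hdec x hx
    refine ⟨_, ⟨Z, hZ, rfl⟩, _, ⟨d, hd, rfl⟩, map_add _ _ _, ?_⟩
    rintro _ ⟨y, hy, rfl⟩
    rw [← hmul Z y (hGN hy), ← hmul y Z (hGN hZ), hc y hy]
  have hcom' : ∀ T : Module.End ℂ (LinearMap.range p), (∀ X ∈ G.map (Rp p), T * X = X * T) →
      ∀ X ∈ M, T * X = X * T := by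
    rw [← hNM]
    exact fun T hT => com_range hp hGN hN hcom T hT
  intro x hx
  refine (Submodule.span_le.2 ?_) (hM hx)
  rintro _ ⟨x, hx, y, hy, rfl⟩
  exact ht.br_mem (by rw [← hNM]; exact Submodule.map_mono hGN) (Submodule.map_mono hDG) hbr'
    hperf' hdec' hcom' hx hy

/-- The generators in a corner. -/
structure CorS {k : ℕ} (q : Module.End ℂ W) (P : Fin k → Module.End ℂ W)
    (E : Fin k → Fin 3 → Module.End ℂ W) : Prop where
  sum : ∑ σ, P σ = q
  ne : ∀ σ, P σ ≠ 0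
  orth : ∀ σ τ, σ ≠ τ → P σ * P τ = 0
  sq : ∀ σ a, E σ a * E σ a = P σ
  anti : ∀ σ a b, a ≠ b → E σ a * E σ b = -(E σ b * E σ a)
  left : ∀ σ a, P σ * E σ a = E σ a
  right : ∀ σ a, E σ a * P σ = E σ a

namespace CorS

variable {k : ℕ} {q : Module.End ℂ W} {P : Fin k → Module.End ℂ W}
  {E : Fin k → Fin 3 → Module.End ℂ W} (h : CorS q P E)
include h

theorem idem (σ : Fin k) : P σ * P σ = P σ := by
  nth_rewrite 2 [← h.sq σ 0]
  rw [← mul_assoc, h.left, h.sq]

theorem leftP (σ : Fin k) : q * P σ = P σ := by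
  rw [← h.sum, Finset.sum_mul, Finset.sum_eq_single σ]
  · exact h.idem σ
  · intro τ _ hτ
    exact h.orth τ σ hτ
  · intro h
    exact absurd (Finset.mem_univ _) h

theorem rightP (σ : Fin k) : P σ * q = P σ := by
  rw [← h.sum, Finset.mul_sum, Finset.sum_eq_single σ]
  · exact h.idem σ
  · intro τ _ hτ
    exact h.orth σ τ (Ne.symm hτ)
  · intro h
    exact absurd (Finset.mem_univ _) h

theorem commE (σ : Fin k) (a : Fin 3) : E σ a * q = q * E σ a := by
  rw [← h.left σ a, ← mul_assoc, h.leftP, h.left]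
  conv_lhs => rw [← h.right σ a, mul_assoc, h.rightP, h.right]

theorem sumS (hq : q * q = q) : SumS (fun σ => Rp q (P σ)) (fun σ a => Rp q (E σ a)) := by
  have hP : ∀ σ, P σ * q = q * P σ := fun σ => by rw [h.leftP, h.rightP]
  refine ⟨?_, fun σ h0 => ?_, fun σ τ hst => ?_, fun σ a => ?_, fun σ a b hab => ?_,
    fun σ a => ?_, fun σ a => ?_⟩
  · rw [← map_sum, h.sum, Rp_self hq]
  · have h1 := mul_eq_of_Rp hq (hP σ) (by rw [zero_mul, mul_zero]) (h0.trans (map_zero _).symm)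
    rw [zero_mul, h.rightP] at h1
    exact h.ne σ h1
  · rw [← Rp_mul hq (hP τ), h.orth σ τ hst, map_zero]
  · rw [← Rp_mul hq (h.commE σ a), h.sq]
  · rw [← Rp_mul hq (h.commE σ b), ← Rp_mul hq (h.commE σ a), h.anti σ a b hab, map_neg]
  · rw [← Rp_mul hq (h.commE σ a), h.left]
  · rw [← Rp_mul hq (hP σ), h.right]

theorem map (hq : q * q = q) {N : Submodule ℂ (Module.End ℂ W)}
    (hN : N.map (LinearMap.mulRight ℂ q) =
      Submodule.span ℂ {Y | ∃ σ a b, a ≠ b ∧ Y = E σ a * E σ b}) :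
    N.map (Rp q) = soM fun σ a => Rp q (E σ a) := by
  have h1 : N.map (Rp q) = (N.map (LinearMap.mulRight ℂ q)).map (Rp q) := by
    rw [← Submodule.map_comp]
    congr 1
    refine LinearMap.ext fun x => ?_
    rw [LinearMap.comp_apply, LinearMap.mulRight_apply, Rp_mul_self hq]
  rw [h1, hN, Submodule.map_span]
  unfold soM
  congr 1
  ext Y
  constructor
  · rintro ⟨_, ⟨σ, a, b, hab, rfl⟩, rfl⟩
    exact ⟨σ, a, b, hab, Rp_mul hq (h.commE σ b)⟩
  · rintro ⟨σ, a, b, hab, rfl⟩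
    exact ⟨_, ⟨σ, a, b, hab, rfl⟩, Rp_mul hq (h.commE σ b)⟩

end CorS

end one

variable {g : ℕ} (A : AbVar g)

/-- Factors of Hilbert type. -/
structure SumFactors {u : ℕ} (e : Fin u → Module.End ℚ A.H1) (k : Fin u → ℕ)
    (P : ∀ i, Fin (k i) → Module.End ℂ (ℂ ⊗[ℚ] A.H1))
    (E : ∀ i, Fin (k i) → Fin 3 → Module.End ℂ (ℂ ⊗[ℚ] A.H1)) : Prop where
  idem : ∀ i, e i * e i = e i
  orth : ∀ i j, i ≠ j → e i * e j = 0
  ne : ∀ i, e i ≠ 0
  comm : ∀ X ∈ A.NA, ∀ i, X * e i = e i * X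
  cor : ∀ i, CorS ((e i).baseChange ℂ) (P i) (E i)
  lie : ∀ i, (cx A.NA).map (LinearMap.mulRight ℂ ((e i).baseChange ℂ)) =
    Submodule.span ℂ {Y | ∃ σ a b, a ≠ b ∧ Y = E i σ a * E i σ b}
  simple : ∀ i, SimpleOn A (e i)

variable {A}

theorem SumFactors.fac {u : ℕ} {e : Fin u → Module.End ℚ A.H1} {k : Fin u → ℕ}
    {P : ∀ i, Fin (k i) → Module.End ℂ (ℂ ⊗[ℚ] A.H1)}
    {E : ∀ i, Fin (k i) → Fin 3 → Module.End ℂ (ℂ ⊗[ℚ] A.H1)} (h : SumFactors A e k P E)
    (i : Fin u) : Fac A (e i) (QM fun σ a => Rp ((e i).baseChange ℂ) (E i σ a)) := by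
  have hfull := A.full_LA
  have hid : (e i).baseChange ℂ * (e i).baseChange ℂ =
      ((e i).baseChange ℂ : Module.End ℂ (ℂ ⊗[ℚ] A.H1)) := by
    rw [← bc_mul, h.idem]
  have hcomm : ∀ x ∈ cx A.NA, x * (e i).baseChange ℂ = (e i).baseChange ℂ * x := by
    have h1 := cx_comm (S := A.NA) (T := (e i).baseChange ℂ) fun X hX => by
      rw [← bc_mul, ← bc_mul, h.comm X hX i]
    exact fun x hx => (h1 x hx).symm
  have hS := (h.cor i).sumS hid
  have hmap := (h.cor i).map hid (h.lie i)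
  obtain ⟨m, φ, ht⟩ := hS.typeA
  refine ⟨h.idem i, fun X hX => h.comm X hX i, hS.rep, ?_, ?_, h.simple i⟩
  · rw [hS.range]
    exact hmap
  · rw [hS.range]
    exact singleT hid (cx_mono hfull.le) (cx_mono hfull.der_le) hcomm hfull.cx_br'
      hfull.cx_perfect hfull.cx_dec (fun T hT => hfull.cx_com T hT) hmap ht hS.perfect

theorem SpinFactorsM.fac {s : ℕ} {e : Fin s → Module.End ℚ A.H1}
    {k r : Fin s → ℕ}
    {E : ∀ i, Fin (k i) → Fin (r i) → Module.End ℂ (ℂ ⊗[ℚ] A.H1)} (h : SpinFactorsM A e k r E)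
    (h6 : ∀ i, 3 ≤ r i ∧ r i ≠ 5) (hs : ∀ i, (k i = 1 ∧ r i ≠ 4) ∨ SimpleOn A (e i)) (i : Fin s) :
    Fac A (e i) (QM fun σ a => Rp ((e i).baseChange ℂ) (E i σ a)) := by
  have hfull := A.full_LA
  have hid : (e i).baseChange ℂ * (e i).baseChange ℂ =
      ((e i).baseChange ℂ : Module.End ℂ (ℂ ⊗[ℚ] A.H1)) := by
    rw [← bc_mul, h.idem]
  have hcomm : ∀ x ∈ cx A.NA, x * (e i).baseChange ℂ = (e i).baseChange ℂ * x := by
    have h1 := cx_comm (S := A.NA) (T := (e i).baseChange ℂ) fun X hX => by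
      rw [← bc_mul, ← bc_mul, h.comm X hX i]
    exact fun x hx => (h1 x hx).symm
  have hmap := (h.cor i).map hid (h.lie i)
  have hcm := (h.cor i).cm hid
  have := nontrivial_range (bc_ne A (h.ne i))
  refine ⟨h.idem i, fun X hX => h.comm X hX i, CM.rep hcm (h6 i).1, ?_, ?_, ?_⟩
  · rw [CM.range hcm]
    exact hmap
  · rw [CM.range hcm]
    exact singleA hid (bc_ne A (h.ne i)) (cx_mono hfull.le) (cx_mono hfull.der_le) hcomm
      hfull.cx_br' hfull.cx_adjoin hfull.cx_perfect hfull.cx_dec (fun T hT => hfull.cx_com T hT)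
      (h6 i) hcm hmap
  · rcases hs i with ⟨h1, h4⟩ | h1
    · have hk : ∀ σ : Fin (k i), σ = ⟨0, by omega⟩ := fun σ => Fin.ext (by
        have := σ.2
        omega)
      refine simple_of_one A (h.idem i) (h.ne i) (fun X hX => h.comm X hX i)
        (by have := h6 i; omega) (hcm.ce ⟨0, by omega⟩) ?_
      rw [hmap]
      unfold soM SP.soE
      congr 1
      ext x
      constructor
      · rintro ⟨σ, a, b, hab, rfl⟩
        rw [hk σ]
        exact ⟨a, b, hab, rfl⟩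
      · rintro ⟨a, b, hab, rfl⟩
        exact ⟨_, a, b, hab, rfl⟩
    · exact h1

/-- **Products of abelian varieties of spin type, of Hilbert type and of abelian varieties with complex
multiplication.** -/
theorem NA_le_all {s u t : ℕ} {e : Fin (s + u + t) → Module.End ℚ A.H1} (hsum : ∑ i, e i = 1)
    (horth : ∀ i j, i ≠ j → e i * e j = 0)
    {k r : Fin s → ℕ} {E : ∀ i, Fin (k i) → Fin (r i) → Module.End ℂ (ℂ ⊗[ℚ] A.H1)}
    (h : SpinFactorsM A (fun i => e (Fin.castAdd t (Fin.castAdd u i))) k r E)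
    (h6 : ∀ i, r i = 3 ∨ 6 ≤ r i)
    (hs : ∀ i, k i = 1 ∨ SimpleOn A (e (Fin.castAdd t (Fin.castAdd u i))))
    {l : Fin u → ℕ} {P : ∀ i, Fin (l i) → Module.End ℂ (ℂ ⊗[ℚ] A.H1)}
    {F : ∀ i, Fin (l i) → Fin 3 → Module.End ℂ (ℂ ⊗[ℚ] A.H1)}
    (h' : SumFactors A (fun i => e (Fin.castAdd t (Fin.natAdd s i))) l P F)
    (hne : ∀ i j, ¬ (r i = 3 ∧ k i = l j))
    (hq : TorusFactors A (fun j => e (Fin.natAdd (s + u) j))) : A.NA ≤ A.LA := by
  have h6' : ∀ i, 3 ≤ r i ∧ r i ≠ 5 := fun i => by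
    have := h6 i
    omega
  have h4 : ∀ i, r i ≠ 4 := fun i => by
    have := h6 i
    omega
  have hs' : ∀ i, (k i = 1 ∧ r i ≠ 4) ∨ SimpleOn A (e (Fin.castAdd t (Fin.castAdd u i))) :=
    fun i => (hs i).imp_left fun h1 => ⟨h1, h4 i⟩
  have hcomm : ∀ X ∈ A.NA, ∀ i, X * e i = e i * X := by
    intro X hX i
    induction i using Fin.addCases with
    | left i =>
      induction i using Fin.addCases with
      | left i => exact h.comm X hX i
      | right i => exact h'.comm X hX i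
    | right j => exact hq.comm X hX j
  have hCN : ∀ X ∈ A.CN, X = ∑ j, X * e (Fin.natAdd (s + u) j) := by
    intro X hX
    conv_lhs => rw [← mul_one X, ← hsum, Fin.sum_univ_add, mul_add, Finset.mul_sum, Finset.mul_sum]
    rw [Fin.sum_univ_add, Finset.sum_eq_zero (fun i _ => h.centre (fun i => (h6' i).1) X hX i),
      Finset.sum_eq_zero (fun i _ => (h'.fac i).centre (le_refl 3) X hX), zero_add, zero_add]
  have hC : A.CN ≤ A.LA := hq.centre hCN
  have hspin := h.pairs h6' (fun i hi => absurd hi (h4 i)) (fun i j hij => h4 i hij.1) hs'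
  have hbr : ∀ j, ∀ X ∈ A.NA, ∀ Y ∈ A.NA, (X * Y - Y * X) * e (Fin.natAdd (s + u) j) = 0 :=
    fun j X hX Y hY => hq.br j X hX Y hY
  -- pairs of factors without complex multiplication
  have hsemi : ∀ i j : Fin (s + u), PairEq A (e (Fin.castAdd t i)) (e (Fin.castAdd t j)) := by
    have hm : ∀ (i : Fin s) (j : Fin u), PairEq A (e (Fin.castAdd t (Fin.natAdd s j)))
        (e (Fin.castAdd t (Fin.castAdd u i))) := by
      intro i j
      have hij : Fin.castAdd t (Fin.natAdd s j) ≠ Fin.castAdd t (Fin.castAdd u i) := by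
        intro h0
        have h1 := congrArg Fin.val h0
        simp only [Fin.val_castAdd, Fin.val_natAdd] at h1
        have := i.2
        omega
      refine (h'.fac j).pair (h.fac h6' hs' i) (horth _ _ hij) (horth _ _ (Ne.symm hij))
        fun ψ hψ => ?_
      exfalso
      have hid : ∀ i, (e i).baseChange ℂ * (e i).baseChange ℂ =
          ((e i).baseChange ℂ : Module.End ℂ (ℂ ⊗[ℚ] A.H1)) → True := fun _ _ => trivial
      have i1 := nontrivial_range (bc_ne A (h.ne i))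
      have i2 := nontrivial_range (bc_ne A (h'.ne j))
      exact SumS.no_iso ((h'.cor j).sumS (by rw [← bc_mul, h'.idem]))
        ((h.cor i).cm (by rw [← bc_mul, h.idem])) (by have := h6 i; omega) (hne i j) ψ hψ
    intro i j
    induction i using Fin.addCases with
    | left i =>
      induction j using Fin.addCases with
      | left j => exact hspin i j
      | right j => exact PairEq.symm A (hm i j)
    | right i =>
      induction j using Fin.addCases with
      | left j => exact hm j i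
      | right j =>
        by_cases hij : i = j
        · subst hij
          exact (h'.fac i).self
        · have i1 := nontrivial_range (bc_ne A (h'.ne i))
          have i2 := nontrivial_range (bc_ne A (h'.ne j))
          exact (h'.fac i).pair (h'.fac j) (h'.orth i j hij) (h'.orth j i (Ne.symm hij))
            fun ψ hψ => SumS.exists_tw ((h'.cor i).sumS (by rw [← bc_mul, h'.idem]))
              ((h'.cor j).sumS (by rw [← bc_mul, h'.idem])) ψ hψ
  have hmix : ∀ i j, PairEq A (e (Fin.castAdd t i)) (e (Fin.natAdd (s + u) j)) := by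
    intro i j Z hZ
    obtain ⟨C, hCC, D, hD, rfl⟩ := Submodule.mem_sup.1 (NA_le_CN_der A hZ)
    obtain ⟨Y, hY, h1, h2⟩ := der_lift (fun X hX => hcomm X hX _) (hsemi i i) (hbr j) hD
    refine ⟨C + Y, A.LA.add_mem (hC hCC) hY, ?_, ?_⟩
    · rw [add_mul, add_mul, h1]
    · rw [add_mul, add_mul, h2, der_kill (hbr j) hD]
  have hpair : ∀ i j, PairEq A (e i) (e j) := by
    intro i j
    induction i using Fin.addCases with
    | left i =>
      induction j using Fin.addCases with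
      | left j => exact hsemi i j
      | right j => exact hmix i j
    | right i =>
      induction j using Fin.addCases with
      | left j => exact PairEq.symm A (hmix j i)
      | right j =>
        intro Z hZ
        obtain ⟨C, hCC, D, hD, rfl⟩ := Submodule.mem_sup.1 (NA_le_CN_der A hZ)
        refine ⟨C, hC hCC, ?_, ?_⟩
        · rw [add_mul, der_kill (hbr i) hD, add_zero]
        · rw [add_mul, der_kill (hbr j) hD, add_zero]
  intro Z hZ
  obtain ⟨Y, hY, h1⟩ := NA_le_of_pairs A e hsum hcomm hpair Z hZ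
  have h2 := A.LA.add_mem (hC h1) hY
  rwa [sub_add_cancel] at h2

end Pool.Agent.Helper883K
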