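import Pool.Agent.Helper883_K3.Tr
import Pool.Agent.Y102.SP.Simple

set_option autoImplicit false
set_option linter.unusedSectionVars false
set_option linter.unusedSimpArgs false
set_option linter.unusedVariables false

/-!
# Bivectors of a Clifford algebra
-/

open Matrix Module

noncomputable section

namespace Pool.Agent.Helper883K

open Pool.Agent.Y102.SP

variable {U : Type} [AddCommGroup U] [Module ℂ U] {n : ℕ} {E : Fin n → Module.End ℂ U}

/-- The bivector given by a matrix. -/
def Q (E : Fin n → Module.End ℂ U) : Matrix (Fin n) (Fin n) ℂ →ₗ[ℂ] Module.End ℂ U where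
  toFun M := (1 / 4 : ℂ) • ∑ a, ∑ b, M a b • (E a * E b)
  map_add' M N := by
    simp only [Matrix.add_apply, add_smul, Finset.sum_add_distrib, smul_add]
  map_smul' c M := by
    simp only [Matrix.smul_apply, smul_eq_mul, mul_smul, ← Finset.smul_sum, RingHom.id_apply]
    exact smul_comm _ _ _

theorem Q_apply (M : Matrix (Fin n) (Fin n) ℂ) :
    Q E M = (1 / 4 : ℂ) • ∑ a, ∑ b, M a b • (E a * E b) := rfl

theorem comm_E (hE : CE E) (a b c : Fin n) : E a * E b * E c - E c * (E a * E b) =
    (if b = c then (2 : ℂ) • E a else 0) - (if a = c then (2 : ℂ) • E b else 0) := by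
  by_cases hbc : b = c
  · subst hbc
    rw [if_pos rfl]
    by_cases hab : a = b
    · subst hab
      rw [if_pos rfl, mul_assoc, sub_self, sub_self]
    · rw [if_neg hab, sub_zero, mul_assoc, hE.sq, mul_one, ← mul_assoc, hE.anti b a (Ne.symm hab),
        neg_mul, mul_assoc, hE.sq, mul_one, sub_neg_eq_add, two_smul]
  · rw [if_neg hbc]
    by_cases hac : a = c
    · subst hac
      rw [if_pos rfl, ← mul_assoc, hE.sq, one_mul, mul_assoc, hE.anti b a hbc, mul_neg, ← mul_assoc,
        hE.sq, one_mul, two_smul]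
      abel
    · rw [if_neg hac, sub_zero, mul_assoc, hE.anti b c hbc, mul_neg, ← mul_assoc,
        hE.anti a c hac, neg_mul, neg_neg, mul_assoc, sub_self]

theorem Q_comm (hE : CE E) {M : Matrix (Fin n) (Fin n) ℂ} (hM : M ∈ Sk n) (c : Fin n) :
    Q E M * E c - E c * Q E M = ∑ a, M a c • E a := by
  have h1 : Q E M * E c - E c * Q E M =
      (1 / 4 : ℂ) • ∑ a, ∑ b, M a b • (E a * E b * E c - E c * (E a * E b)) := by
    rw [Q_apply, smul_mul_assoc, mul_smul_comm, ← smul_sub, Finset.sum_mul, Finset.mul_sum,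
      ← Finset.sum_sub_distrib]
    congr 1
    refine Finset.sum_congr rfl fun a _ => ?_
    rw [Finset.sum_mul, Finset.mul_sum, ← Finset.sum_sub_distrib]
    refine Finset.sum_congr rfl fun b _ => ?_
    rw [smul_mul_assoc, mul_smul_comm, smul_sub]
  rw [h1]
  simp only [comm_E hE, smul_sub, Finset.sum_sub_distrib, smul_ite, smul_zero,
    Finset.sum_ite_eq', Finset.mem_univ, if_true]
  have h2 : ∑ a, ∑ b, (if a = c then M a b • (2 : ℂ) • E b else 0) =
      -∑ a, M a c • (2 : ℂ) • E a := by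
    rw [Finset.sum_comm, ← Finset.sum_neg_distrib]
    refine Finset.sum_congr rfl fun b _ => ?_
    rw [Finset.sum_ite_eq' Finset.univ c fun a => M a b • (2 : ℂ) • E b,
      if_pos (Finset.mem_univ _), Sk_apply hM c b, neg_smul]
  rw [← smul_sub, h2, sub_neg_eq_add, ← Finset.sum_add_distrib, Finset.smul_sum]
  refine Finset.sum_congr rfl fun a _ => ?_
  module

theorem Q_four (hE : CE E) {M : Matrix (Fin n) (Fin n) ℂ} (hM : M ∈ Sk n) :
    (4 : ℂ) • Q E M = ∑ c, (∑ a, M a c • E a) * E c := by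
  rw [Q_apply, smul_smul, show (4 : ℂ) * (1 / 4) = 1 by norm_num, one_smul, Finset.sum_comm]
  refine Finset.sum_congr rfl fun c _ => ?_
  rw [Finset.sum_mul]
  refine Finset.sum_congr rfl fun a _ => ?_
  rw [smul_mul_assoc]

/-- The brackets of bivectors. -/
theorem Q_br (hE : CE E) {M : Matrix (Fin n) (Fin n) ℂ} (hM : M ∈ Sk n)
    (X : Matrix (Fin n) (Fin n) ℂ) :
    Q E M * Q E X - Q E X * Q E M = Q E (M * X - X * M) := by
  have h1 : Q E M * Q E X - Q E X * Q E M = (1 / 4 : ℂ) • ∑ c, ∑ d, X c d •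
      ((Q E M * E c - E c * Q E M) * E d + E c * (Q E M * E d - E d * Q E M)) := by
    conv_lhs => rw [Q_apply X]
    rw [smul_mul_assoc, mul_smul_comm, ← smul_sub, Finset.sum_mul, Finset.mul_sum,
      ← Finset.sum_sub_distrib]
    congr 1
    refine Finset.sum_congr rfl fun c _ => ?_
    rw [Finset.sum_mul, Finset.mul_sum, ← Finset.sum_sub_distrib]
    refine Finset.sum_congr rfl fun d _ => ?_
    rw [smul_mul_assoc, mul_smul_comm, ← smul_sub]
    congr 1
    noncomm_ring
  rw [h1, Q_apply (M * X - X * M)]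
  congr 1
  simp only [Q_comm hE hM, smul_add, Finset.sum_add_distrib]
  have h2 : ∑ c, ∑ d, X c d • ((∑ a, M a c • E a) * E d) = ∑ a, ∑ d, (M * X) a d • (E a * E d) := by
    simp only [Finset.sum_mul, Finset.smul_sum, smul_mul_assoc, smul_smul]
    rw [Finset.sum_comm' (t' := Finset.univ) (s' := fun _ => Finset.univ) (by simp)]
    conv_rhs => rw [Finset.sum_comm]
    refine Finset.sum_congr rfl fun d _ => ?_
    rw [Finset.sum_comm]
    refine Finset.sum_congr rfl fun a _ => ?_
    rw [Matrix.mul_apply, Finset.sum_smul]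
    exact Finset.sum_congr rfl fun c _ => by rw [mul_comm]
  have h3 : ∑ c, ∑ d, X c d • (E c * ∑ a, M a d • E a) =
      -∑ c, ∑ a, (X * M) c a • (E c * E a) := by
    rw [← Finset.sum_neg_distrib]
    refine Finset.sum_congr rfl fun c _ => ?_
    simp only [Finset.mul_sum, Finset.smul_sum, mul_smul_comm, smul_smul]
    rw [Finset.sum_comm, ← Finset.sum_neg_distrib]
    refine Finset.sum_congr rfl fun a _ => ?_
    rw [Matrix.mul_apply, Finset.sum_smul, ← Finset.sum_neg_distrib]
    refine Finset.sum_congr rfl fun d _ => ?_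
    rw [Sk_apply hM a d, mul_neg, neg_smul]
  rw [h2, h3, ← sub_eq_add_neg, ← Finset.sum_sub_distrib]
  refine Finset.sum_congr rfl fun a _ => ?_
  rw [← Finset.sum_sub_distrib]
  refine Finset.sum_congr rfl fun d _ => ?_
  rw [Matrix.sub_apply, sub_smul]

theorem Q_el (hE : CE E) {a b : Fin n} (hab : a ≠ b) : Q E ((2 : ℂ) • el a b) = E a * E b := by
  have h1 : ∀ c d : Fin n, Q E (Matrix.single c d 1) = (1 / 4 : ℂ) • (E c * E d) := by
    intro c d
    rw [Q_apply]
    congr 1
    rw [Finset.sum_eq_single c]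
    · rw [Finset.sum_eq_single d]
      · rw [Matrix.single_apply_same, one_smul]
      · intro j _ hj
        rw [Matrix.single_apply_of_col_ne _ _ (Ne.symm hj), zero_smul]
      · intro h
        exact absurd (Finset.mem_univ _) h
    · intro i _ hi
      refine Finset.sum_eq_zero fun j _ => ?_
      rw [Matrix.single_apply_of_row_ne (Ne.symm hi), zero_smul]
    · intro h
      exact absurd (Finset.mem_univ _) h
  unfold el
  rw [map_smul, map_sub, h1, h1, hE.anti b a (Ne.symm hab)]
  module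

theorem Q_mem {M : Matrix (Fin n) (Fin n) ℂ} (hM : M ∈ Sk n) : Q E M ∈ soE E := by
  rw [Q_apply]
  refine (soE E).smul_mem _ (Submodule.sum_mem _ fun a _ => Submodule.sum_mem _ fun b _ => ?_)
  by_cases hab : a = b
  · subst hab
    rw [Sk_diag hM, zero_smul]
    exact Submodule.zero_mem _
  · exact Submodule.smul_mem _ _ (Submodule.subset_span ⟨a, b, hab, rfl⟩)

theorem exists_Q (hE : CE E) {x : Module.End ℂ U} (hx : x ∈ soE E) : ∃ M ∈ Sk n, Q E M = x := by
  induction hx using Submodule.span_induction with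
  | mem x hx =>
    obtain ⟨a, b, hab, rfl⟩ := hx
    exact ⟨_, (Sk n).smul_mem _ (el_mem a b), Q_el hE hab⟩
  | zero => exact ⟨0, (Sk n).zero_mem, map_zero _⟩
  | add x y _ _ hx hy =>
    obtain ⟨M, hM, rfl⟩ := hx
    obtain ⟨N, hN, rfl⟩ := hy
    exact ⟨M + N, (Sk n).add_mem hM hN, map_add _ _ _⟩
  | smul c x _ hx =>
    obtain ⟨M, hM, rfl⟩ := hx
    exact ⟨c • M, (Sk n).smul_mem _ hM, map_smul _ _ _⟩

theorem Q_inj [FiniteDimensional ℂ U] [Nontrivial U] (hE : CE E) {M : Matrix (Fin n) (Fin n) ℂ}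
    (hM : M ∈ Sk n) (h : Q E M = 0) : M = 0 := by
  ext a c
  have h1 := Q_comm hE hM c
  rw [h, zero_mul, mul_zero, sub_self] at h1
  exact Fintype.linearIndependent_iff.1 (Cl_indep hE) (fun a => M a c) h1.symm a

/-- The square of a vector. -/
theorem vec_sq (hE : CE E) (x : Fin n → ℂ) :
    (∑ a, x a • E a) * (∑ a, x a • E a) = (∑ a, x a * x a) • (1 : Module.End ℂ U) := by
  have h1 : (∑ a, x a • E a) * (∑ a, x a • E a) = ∑ a, ∑ b, (x a * x b) • (E a * E b) := by
    rw [Finset.sum_mul]
    refine Finset.sum_congr rfl fun a _ => ?_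
    rw [Finset.mul_sum]
    refine Finset.sum_congr rfl fun b _ => ?_
    rw [smul_mul_assoc, mul_smul_comm, smul_smul]
  have h2 : (2 : ℂ) • ∑ a, ∑ b, (x a * x b) • (E a * E b) =
      ∑ a, ∑ b, (x a * x b) • (E a * E b + E b * E a) := by
    have h3 : ∑ a, ∑ b, (x a * x b) • (E b * E a) = ∑ a, ∑ b, (x a * x b) • (E a * E b) := by
      rw [Finset.sum_comm]
      refine Finset.sum_congr rfl fun a _ => Finset.sum_congr rfl fun b _ => ?_
      rw [mul_comm]
    simp only [smul_add, Finset.sum_add_distrib]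
    rw [h3, two_smul]
  have h4 : ∀ a b, (x a * x b) • (E a * E b + E b * E a) =
      if a = b then (2 * (x a * x a)) • (1 : Module.End ℂ U) else 0 := by
    intro a b
    by_cases hab : a = b
    · subst hab
      rw [if_pos rfl, hE.sq, ← two_smul ℂ (1 : Module.End ℂ U), smul_smul, mul_comm]
    · rw [if_neg hab, hE.anti a b hab, neg_add_cancel, smul_zero]
  simp only [h4, Finset.sum_ite_eq, Finset.mem_univ, if_true] at h2
  rw [← Finset.sum_smul, ← Finset.mul_sum, mul_smul] at h2
  rw [h1]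
  exact smul_right_injective _ (two_ne_zero (α := ℂ)) h2

end Pool.Agent.Helper883K
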