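import Pool.Agent.Helper883_K3.Pair
import Pool.Agent.Y102.SP.Main
import Pool.Agent.W516.MT.Casimir2

set_option autoImplicit false
set_option linter.unusedSectionVars false
set_option linter.unusedSimpArgs false
set_option linter.unusedVariables false

/-!
# Compressions to the images of projections
-/

open Module

noncomputable section

namespace Pool.Agent.Helper883K

open Pool.Agent.Y102.SP

/-- The centre of `so(n)` is zero. -/
theorem so_centre {U : Type} [AddCommGroup U] [Module ℂ U] [FiniteDimensional ℂ U] [Nontrivial U]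
    {n : ℕ} (hn : 5 ≤ n) {E : Fin n → Module.End ℂ U} (hE : CE E) {x : Module.End ℂ U}
    (hx : x ∈ soE E) (hc : ∀ y ∈ soE E, x * y = y * x) : x = 0 := by
  let J : Submodule ℂ (Module.End ℂ U) :=
    { carrier := {z | z ∈ soE E ∧ ∀ y ∈ soE E, z * y = y * z}
      zero_mem' := ⟨Submodule.zero_mem _, fun y _ => by rw [zero_mul, mul_zero]⟩
      add_mem' := fun {a b} ha hb => ⟨Submodule.add_mem _ ha.1 hb.1, fun y hy => by
        rw [add_mul, mul_add, ha.2 y hy, hb.2 y hy]⟩
      smul_mem' := fun c a ha => ⟨Submodule.smul_mem _ c ha.1, fun y hy => by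
        rw [smul_mul_assoc, mul_smul_comm, ha.2 y hy]⟩ }
  have hJ : x ∈ J := ⟨hx, hc⟩
  rcases so_simple hn hE J (fun z hz => hz.1) (fun x hx y hy => by
      rw [hy.2 x hx, sub_self]
      exact J.zero_mem) with h2 | h2
  · rw [h2, Submodule.mem_bot] at hJ
    exact hJ
  · exfalso
    have h01 : (⟨0, by omega⟩ : Fin n) ≠ ⟨1, by omega⟩ := by simp
    have h12 : (⟨1, by omega⟩ : Fin n) ≠ ⟨2, by omega⟩ := by simp
    have h02 : (⟨0, by omega⟩ : Fin n) ≠ ⟨2, by omega⟩ := by simp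
    have h3 : E ⟨0, by omega⟩ * E ⟨1, by omega⟩ ∈ J := by
      rw [h2]
      exact Submodule.subset_span ⟨_, _, h01, rfl⟩
    have h4 := h3.2 (E ⟨1, by omega⟩ * E ⟨2, by omega⟩) (Submodule.subset_span ⟨_, _, h12, rfl⟩)
    have h5 := simple_br hE h01 h12 h02
    rw [h4, sub_self] at h5
    have h6 := (smul_eq_zero.1 h5.symm).resolve_left two_ne_zero
    have h7 := simple_sq hE h02
    rw [h6, mul_zero] at h7
    have h8 : (1 : Module.End ℂ U) = 0 := by
      rw [← neg_eq_zero, ← h7]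
    exact one_ne_zero h8

section Cpr

variable {W : Type} [AddCommGroup W] [Module ℂ W]

/-- The compression to the range of a projection. -/
def Rp (p : Module.End ℂ W) : Module.End ℂ W →ₗ[ℂ] Module.End ℂ (LinearMap.range p) where
  toFun x := p.rangeRestrict ∘ₗ x ∘ₗ (LinearMap.range p).subtype
  map_add' x y := by
    rw [LinearMap.add_comp, LinearMap.comp_add]
  map_smul' c x := by
    rw [LinearMap.smul_comp, LinearMap.comp_smul, RingHom.id_apply]

theorem Rp_coe (p x : Module.End ℂ W) (v : LinearMap.range p) : (Rp p x v : W) = p (x v) := rfl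

theorem range_fix {p : Module.End ℂ W} (hp : p * p = p) (v : LinearMap.range p) : p v = v := by
  obtain ⟨w, hw⟩ := v.2
  rw [← hw, ← Module.End.mul_apply, hp]

theorem Rp_coe' {p x : Module.End ℂ W} (hp : p * p = p) (hx : x * p = p * x)
    (v : LinearMap.range p) : (Rp p x v : W) = x v := by
  rw [Rp_coe, ← Module.End.mul_apply, ← hx, Module.End.mul_apply, range_fix hp]

theorem Rp_mul {p x y : Module.End ℂ W} (hp : p * p = p) (hy : y * p = p * y) :
    Rp p (x * y) = Rp p x * Rp p y := by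
  refine LinearMap.ext fun v => Subtype.ext ?_
  rw [Rp_coe, Module.End.mul_apply, Module.End.mul_apply, Rp_coe, Rp_coe' hp hy]

theorem Rp_self {p : Module.End ℂ W} (hp : p * p = p) : Rp p p = 1 := by
  refine LinearMap.ext fun v => Subtype.ext ?_
  rw [Rp_coe, range_fix hp, range_fix hp]
  rfl

theorem Rp_one {p : Module.End ℂ W} (hp : p * p = p) : Rp p 1 = 1 := by
  refine LinearMap.ext fun v => Subtype.ext ?_
  rw [Rp_coe, Module.End.one_apply, range_fix hp]
  rfl

theorem Rp_mul_self {p x : Module.End ℂ W} (hp : p * p = p) : Rp p (x * p) = Rp p x := by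
  refine LinearMap.ext fun v => Subtype.ext ?_
  rw [Rp_coe, Rp_coe, Module.End.mul_apply, range_fix hp]

theorem mul_eq_of_Rp {p x y : Module.End ℂ W} (hp : p * p = p) (hx : x * p = p * x)
    (hy : y * p = p * y) (h : Rp p x = Rp p y) : x * p = y * p := by
  refine LinearMap.ext fun w => ?_
  have h1 := LinearMap.congr_fun h ⟨p w, w, rfl⟩
  have h2 := congrArg Subtype.val h1
  rw [Rp_coe' hp hx, Rp_coe' hp hy] at h2
  exact h2

theorem nontrivial_range {p : Module.End ℂ W} (h : p ≠ 0) : Nontrivial (LinearMap.range p) := by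
  rw [Submodule.nontrivial_iff_ne_bot]
  intro h1
  exact h (LinearMap.range_eq_bot.1 h1)

/-- A Clifford system in a corner. -/
structure Cor {n : ℕ} (p : Module.End ℂ W) (E : Fin n → Module.End ℂ W) : Prop where
  sq : ∀ a, E a * E a = p
  anti : ∀ a b, a ≠ b → E a * E b = -(E b * E a)
  left : ∀ a, p * E a = E a
  right : ∀ a, E a * p = E a

theorem Cor.ce {n : ℕ} {p : Module.End ℂ W} {E : Fin n → Module.End ℂ W} (h : Cor p E)
    (hp : p * p = p) : CE fun a => Rp p (E a) where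
  sq a := by
    have h1 : E a * p = p * E a := by rw [h.left, h.right]
    rw [← Rp_mul hp h1, h.sq, Rp_self hp]
  anti a b hab := by
    have h1 : ∀ a, E a * p = p * E a := fun a => by rw [h.left, h.right]
    rw [← Rp_mul hp (h1 b), ← Rp_mul hp (h1 a), h.anti a b hab, map_neg]

theorem Cor.map {n : ℕ} {p : Module.End ℂ W} {E : Fin n → Module.End ℂ W} (h : Cor p E)
    (hp : p * p = p) {N : Submodule ℂ (Module.End ℂ W)}
    (hN : N.map (LinearMap.mulRight ℂ p) =
      Submodule.span ℂ {Y | ∃ a b, a ≠ b ∧ Y = E a * E b}) :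
    N.map (Rp p) = soE fun a => Rp p (E a) := by
  have h1 : N.map (Rp p) = (N.map (LinearMap.mulRight ℂ p)).map (Rp p) := by
    rw [← Submodule.map_comp]
    congr 1
    refine LinearMap.ext fun x => ?_
    rw [LinearMap.comp_apply, LinearMap.mulRight_apply, Rp_mul_self hp]
  have h2 : ∀ a, E a * p = p * E a := fun a => by rw [h.left, h.right]
  rw [h1, hN, Submodule.map_span]
  unfold soE
  congr 1
  ext Y
  constructor
  · rintro ⟨_, ⟨a, b, hab, rfl⟩, rfl⟩
    exact ⟨a, b, hab, Rp_mul hp (h2 b)⟩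
  · rintro ⟨a, b, hab, rfl⟩
    exact ⟨_, ⟨a, b, hab, rfl⟩, Rp_mul hp (h2 b)⟩

variable [FiniteDimensional ℂ W]

/-- **One factor.** -/
theorem single {p : Module.End ℂ W} (hp : p * p = p) (hp0 : p ≠ 0)
    {G N : Submodule ℂ (Module.End ℂ W)} (hGN : G ≤ N) (hN : ∀ x ∈ N, x * p = p * x)
    (hGb : ∀ x ∈ G, ∀ y ∈ G, x * y - y * x ∈ G)
    (hadj : ∀ x ∈ N, x ∈ Algebra.adjoin ℂ (G : Set (Module.End ℂ W))) {n : ℕ} (hn : 6 ≤ n)
    {E : Fin n → Module.End ℂ (LinearMap.range p)} (hE : CE E) (hNE : N.map (Rp p) = soE E) :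
    G.map (Rp p) = soE E := by
  have := nontrivial_range hp0
  refine le_antisymm ?_ ?_
  · rw [← hNE]
    exact Submodule.map_mono hGN
  refine main hn hE _ (by rw [← hNE]; exact Submodule.map_mono hGN) ?_ ?_
  · rintro _ ⟨x, hx, rfl⟩ _ ⟨y, hy, rfl⟩
    refine ⟨x * y - y * x, hGb x hx y hy, ?_⟩
    rw [map_sub, Rp_mul hp (hN y (hGN hy)), Rp_mul hp (hN x (hGN hx))]
  · have key : ∀ x ∈ Algebra.adjoin ℂ (G : Set (Module.End ℂ W)), x * p = p * x ∧
        Rp p x ∈ Algebra.adjoin ℂ ((G.map (Rp p) : Submodule ℂ _) :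
          Set (Module.End ℂ (LinearMap.range p))) := by
      intro x hx
      induction hx using Algebra.adjoin_induction with
      | mem x hx => exact ⟨hN x (hGN hx), Algebra.subset_adjoin ⟨x, hx, rfl⟩⟩
      | algebraMap c =>
        refine ⟨Algebra.commutes c p, ?_⟩
        rw [Algebra.algebraMap_eq_smul_one, map_smul, Rp_one hp]
        exact Subalgebra.smul_mem _ (Subalgebra.one_mem _) c
      | add x y _ _ hx hy =>
        exact ⟨by rw [add_mul, mul_add, hx.1, hy.1], by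
          rw [map_add]; exact Subalgebra.add_mem _ hx.2 hy.2⟩
      | mul x y _ _ hx hy =>
        exact ⟨by rw [mul_assoc, hy.1, ← mul_assoc, hx.1, mul_assoc], by
          rw [Rp_mul hp hy.1]; exact Subalgebra.mul_mem _ hx.2 hy.2⟩
    intro i j
    by_cases hij : i = j
    · subst hij
      rw [hE.sq]
      exact Subalgebra.one_mem _
    · have h1 : E i * E j ∈ N.map (Rp p) := by
        rw [hNE]
        exact Submodule.subset_span ⟨i, j, hij, rfl⟩
      obtain ⟨x, hx, hxe⟩ := h1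
      rw [← hxe]
      exact (key x (hadj x hx)).2

/-- **Two factors.** -/
theorem two {p q : Module.End ℂ W} (hp : p * p = p) (hp0 : p ≠ 0) (hq : q * q = q) (hq0 : q ≠ 0)
    {G N : Submodule ℂ (Module.End ℂ W)} (hGN : G ≤ N) (hNp : ∀ x ∈ N, x * p = p * x)
    (hNq : ∀ x ∈ N, x * q = q * x)
    (hGb : ∀ x ∈ G, ∀ y ∈ G, x * y - y * x ∈ G) (hNb : ∀ x ∈ N, ∀ y ∈ N, x * y - y * x ∈ N)
    (hadj : ∀ x ∈ N, x ∈ Algebra.adjoin ℂ (G : Set (Module.End ℂ W)))
    (hcom : ∀ T : Module.End ℂ W, (∀ x ∈ G, T * x = x * T) → ∀ x ∈ N, T * x = x * T)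
    {n m : ℕ} (hn : 6 ≤ n) (hm : 6 ≤ m) (h8 : ¬ (n = 8 ∧ m = 8))
    {E : Fin n → Module.End ℂ (LinearMap.range p)} (hE : CE E) (hNE : N.map (Rp p) = soE E)
    {F : Fin m → Module.End ℂ (LinearMap.range q)} (hF : CE F) (hNF : N.map (Rp q) = soE F)
    {x : Module.End ℂ W} (hx : x ∈ N) : ∃ y ∈ G, x * p = y * p ∧ x * q = y * q := by
  have := nontrivial_range hp0
  have := nontrivial_range hq0
  have g1 := single hp hp0 hGN hNp hGb hadj hn hE hNE
  have g2 := single hq hq0 hGN hNq hGb hadj hm hF hNF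
  have h1 := pair (by omega) (by omega) h8 hE hF (G.map ((Rp p).prod (Rp q)))
    (N.map ((Rp p).prod (Rp q))) (Submodule.map_mono hGN) ?_ ?_ ?_ ?_ ?_ ?_ ?_
  · obtain ⟨y, hy, hxy⟩ := h1 (Submodule.mem_map_of_mem hx)
    have e1 : Rp p y = Rp p x := congrArg Prod.fst hxy
    have e2 : Rp q y = Rp q x := congrArg Prod.snd hxy
    exact ⟨y, hy, mul_eq_of_Rp hp (hNp x hx) (hNp y (hGN hy)) e1.symm,
      mul_eq_of_Rp hq (hNq x hx) (hNq y (hGN hy)) e2.symm⟩
  · rintro _ ⟨z, hz, rfl⟩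
    rw [← hNE]
    exact ⟨z, hz, rfl⟩
  · rintro _ ⟨z, hz, rfl⟩
    rw [← hNF]
    exact ⟨z, hz, rfl⟩
  · rintro _ ⟨z, hz, rfl⟩ _ ⟨w, hw, rfl⟩
    refine ⟨z * w - w * z, hGb z hz w hw, ?_⟩
    refine Prod.ext ?_ ?_
    · change Rp p (z * w - w * z) = Rp p z * Rp p w - Rp p w * Rp p z
      rw [map_sub, Rp_mul hp (hNp w (hGN hw)), Rp_mul hp (hNp z (hGN hz))]
    · change Rp q (z * w - w * z) = Rp q z * Rp q w - Rp q w * Rp q z
      rw [map_sub, Rp_mul hq (hNq w (hGN hw)), Rp_mul hq (hNq z (hGN hz))]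
  · rintro _ ⟨z, hz, rfl⟩ _ ⟨w, hw, rfl⟩
    refine ⟨z * w - w * z, hNb z hz w hw, ?_⟩
    refine Prod.ext ?_ ?_
    · change Rp p (z * w - w * z) = Rp p z * Rp p w - Rp p w * Rp p z
      rw [map_sub, Rp_mul hp (hNp w hw), Rp_mul hp (hNp z hz)]
    · change Rp q (z * w - w * z) = Rp q z * Rp q w - Rp q w * Rp q z
      rw [map_sub, Rp_mul hq (hNq w hw), Rp_mul hq (hNq z hz)]
  · intro z hz
    rw [← g1] at hz
    obtain ⟨y, hy, rfl⟩ := hz
    exact ⟨Rp q y, y, hy, rfl⟩
  · intro z hz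
    rw [← g2] at hz
    obtain ⟨y, hy, rfl⟩ := hz
    exact ⟨Rp p y, y, hy, rfl⟩
  · intro T hT
    let T' : Module.End ℂ W := (LinearMap.range q).subtype ∘ₗ T ∘ₗ p.rangeRestrict
    have hT' : ∀ w, T' w = (T ⟨p w, w, rfl⟩ : LinearMap.range q) := fun w => rfl
    have e1 : ∀ z ∈ N, ∀ w, T' (z w) = (T (Rp p z ⟨p w, w, rfl⟩) : LinearMap.range q) := by
      intro z hz w
      rw [hT']
      congr 2
      apply Subtype.ext
      rw [Rp_coe' hp (hNp z hz)]
      change p (z w) = z (p w)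
      rw [← Module.End.mul_apply, ← hNp z hz, Module.End.mul_apply]
    have e2 : ∀ z ∈ N, ∀ w, z (T' w) = (Rp q z (T ⟨p w, w, rfl⟩) : LinearMap.range q) := by
      intro z hz w
      rw [hT', Rp_coe' hq (hNq z hz)]
    have h2 : ∀ z ∈ G, T' * z = z * T' := by
      intro z hz
      refine LinearMap.ext fun w => ?_
      rw [Module.End.mul_apply, Module.End.mul_apply, e1 z (hGN hz), e2 z (hGN hz)]
      have h3 := LinearMap.congr_fun (hT _ ⟨z, hz, rfl⟩) ⟨p w, w, rfl⟩
      exact congrArg Subtype.val h3.symm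
    have h3 := hcom T' h2
    rintro _ ⟨z, hz, rfl⟩
    refine LinearMap.ext fun v => ?_
    have h4 := LinearMap.congr_fun (h3 z hz) (v : W)
    rw [Module.End.mul_apply, Module.End.mul_apply, e1 z hz, e2 z hz] at h4
    have h5 : (⟨p v, v, rfl⟩ : LinearMap.range p) = v := Subtype.ext (range_fix hp v)
    rw [h5] at h4
    exact (Subtype.ext h4).symm

end Cpr

end Pool.Agent.Helper883K
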