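import Pool.Agent.Helper883_K3.PairM
import Pool.Agent.Y102.SP.Small
import Pool.Agent.Y102.T4

set_option autoImplicit false
set_option linter.unusedSectionVars false
set_option linter.unusedSimpArgs false
set_option linter.unusedVariables false

/-!
# Compressions to the images of projections: several colours
-/

open Module

noncomputable section

namespace Pool.Agent.Helper883K

open Pool.Agent.Y102.SP

variable {W : Type} [AddCommGroup W] [Module ℂ W]

/-- A Clifford system with colours in a corner. -/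
structure CorM {k n : ℕ} (p : Module.End ℂ W) (E : Fin k → Fin n → Module.End ℂ W) : Prop where
  sq : ∀ σ a, E σ a * E σ a = p
  anti : ∀ σ a τ b, (σ, a) ≠ (τ, b) → E σ a * E τ b = -(E τ b * E σ a)
  left : ∀ σ a, p * E σ a = E σ a
  right : ∀ σ a, E σ a * p = E σ a

theorem CorM.cm {k n : ℕ} {p : Module.End ℂ W} {E : Fin k → Fin n → Module.End ℂ W}
    (h : CorM p E) (hp : p * p = p) : CM fun σ a => Rp p (E σ a) where
  sq σ a := by
    have h1 : E σ a * p = p * E σ a := by rw [h.left, h.right]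
    rw [← Rp_mul hp h1, h.sq, Rp_self hp]
  anti σ a τ b hab := by
    have h1 : ∀ σ a, E σ a * p = p * E σ a := fun σ a => by rw [h.left, h.right]
    rw [← Rp_mul hp (h1 τ b), ← Rp_mul hp (h1 σ a), h.anti σ a τ b hab, map_neg]

theorem CorM.map {k n : ℕ} {p : Module.End ℂ W} {E : Fin k → Fin n → Module.End ℂ W}
    (h : CorM p E) (hp : p * p = p) {N : Submodule ℂ (Module.End ℂ W)}
    (hN : N.map (LinearMap.mulRight ℂ p) =
      Submodule.span ℂ {Y | ∃ σ a b, a ≠ b ∧ Y = E σ a * E σ b}) :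
    N.map (Rp p) = soM fun σ a => Rp p (E σ a) := by
  have h1 : N.map (Rp p) = (N.map (LinearMap.mulRight ℂ p)).map (Rp p) := by
    rw [← Submodule.map_comp]
    congr 1
    refine LinearMap.ext fun x => ?_
    rw [LinearMap.comp_apply, LinearMap.mulRight_apply, Rp_mul_self hp]
  have h2 : ∀ σ a, E σ a * p = p * E σ a := fun σ a => by rw [h.left, h.right]
  rw [h1, hN, Submodule.map_span]
  unfold soM
  congr 1
  ext Y
  constructor
  · rintro ⟨_, ⟨σ, a, b, hab, rfl⟩, rfl⟩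
    exact ⟨σ, a, b, hab, Rp_mul hp (h2 σ b)⟩
  · rintro ⟨σ, a, b, hab, rfl⟩
    exact ⟨_, ⟨σ, a, b, hab, rfl⟩, Rp_mul hp (h2 σ b)⟩

variable [FiniteDimensional ℂ W]

/-- **One factor.** -/
theorem singleM {p : Module.End ℂ W} (hp : p * p = p) (hp0 : p ≠ 0)
    {G N : Submodule ℂ (Module.End ℂ W)} (hGN : G ≤ N) (hN : ∀ x ∈ N, x * p = p * x)
    (hGb : ∀ x ∈ G, ∀ y ∈ G, x * y - y * x ∈ G)
    (hadj : ∀ x ∈ N, x ∈ Algebra.adjoin ℂ (G : Set (Module.End ℂ W))) {k n : ℕ} (hn : 6 ≤ n)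
    {E : Fin k → Fin n → Module.End ℂ (LinearMap.range p)} (hE : CM E)
    (hNE : N.map (Rp p) = soM E) : G.map (Rp p) = soM E := by
  have := nontrivial_range hp0
  refine le_antisymm ?_ ?_
  · rw [← hNE]
    exact Submodule.map_mono hGN
  refine mainM hE hn _ (by rw [← hNE]; exact Submodule.map_mono hGN) ?_ ?_
  · rintro _ ⟨x, hx, rfl⟩ _ ⟨y, hy, rfl⟩
    refine ⟨x * y - y * x, hGb x hx y hy, ?_⟩
    rw [map_sub, Rp_mul hp (hN y (hGN hy)), Rp_mul hp (hN x (hGN hx))]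
  · have key : ∀ x ∈ Algebra.adjoin ℂ (G : Set (Module.End ℂ W)), x * p = p * x ∧
        Rp p x ∈ Algebra.adjoin ℂ ((G.map (Rp p) : Submodule ℂ _) :
          Set (Module.End ℂ (LinearMap.range p))) := by
      intro x hx
      induction hx using Algebra.adjoin_induction with
      | mem x hx => exact ⟨hN x (hGN hx), Algebra.subset_adjoin ⟨x, hx, rfl⟩⟩
      | algebraMap c =>
        refine ⟨Algebra.commutes c p, ?_⟩
        rw [Algebra.algebraMap_eq_smul_one, map_smul, Rp_one hp]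
        exact Subalgebra.smul_mem _ (Subalgebra.one_mem _) c
      | add x y _ _ hx hy =>
        exact ⟨by rw [add_mul, mul_add, hx.1, hy.1], by
          rw [map_add]; exact Subalgebra.add_mem _ hx.2 hy.2⟩
      | mul x y _ _ hx hy =>
        exact ⟨by rw [mul_assoc, hy.1, ← mul_assoc, hx.1, mul_assoc], by
          rw [Rp_mul hp hy.1]; exact Subalgebra.mul_mem _ hx.2 hy.2⟩
    intro σ i j
    by_cases hij : i = j
    · subst hij
      rw [hE.sq]
      exact Subalgebra.one_mem _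
    · have h1 : E σ i * E σ j ∈ N.map (Rp p) := by
        rw [hNE]
        exact Submodule.subset_span ⟨σ, i, j, hij, rfl⟩
      obtain ⟨x, hx, hxe⟩ := h1
      rw [← hxe]
      exact (key x (hadj x hx)).2

/-- The generators of all colours in one family. -/
theorem exists_col {U : Type} [AddCommGroup U] [Module ℂ U] {k n : ℕ}
    {E : Fin k → Fin n → Module.End ℂ U} (hE : CM E) :
    ∃ (E' : Fin (k * n) → Module.End ℂ U) (c : Fin (k * n) → Fin k), CE E' ∧
      soM E = soC E' c ∧ ∀ σ, (Finset.univ.filter fun j => c j = σ).card = n := by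
  let e : Fin k × Fin n ≃ Fin (k * n) := finProdFinEquiv
  refine ⟨fun j => E (e.symm j).1 (e.symm j).2, fun j => (e.symm j).1,
    ⟨fun j => hE.sq _ _, fun i j hij => hE.anti _ _ _ _ fun h => hij ?_⟩, ?_, fun σ => ?_⟩
  · exact e.symm.injective h
  · unfold soM soC
    congr 1
    ext x
    constructor
    · rintro ⟨σ, a, b, hab, rfl⟩
      refine ⟨e (σ, a), e (σ, b), fun h => hab ?_, ?_, ?_⟩
      · exact (Prod.ext_iff.1 (e.injective h)).2
      · change (e.symm (e (σ, a))).1 = (e.symm (e (σ, b))).1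
        rw [Equiv.symm_apply_apply, Equiv.symm_apply_apply]
      · change _ = E (e.symm (e (σ, a))).1 (e.symm (e (σ, a))).2 *
          E (e.symm (e (σ, b))).1 (e.symm (e (σ, b))).2
        rw [Equiv.symm_apply_apply, Equiv.symm_apply_apply]
    · rintro ⟨i, j, hij, hc, rfl⟩
      refine ⟨(e.symm i).1, (e.symm i).2, (e.symm j).2, fun h => hij ?_, ?_⟩
      · exact e.symm.injective (Prod.ext hc h)
      · change E (e.symm i).1 (e.symm i).2 * E (e.symm j).1 (e.symm j).2 = _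
        have hc' : (e.symm j).1 = (e.symm i).1 := hc.symm
        rw [hc']
  · have h1 : (Finset.univ.filter fun j => (e.symm j).1 = σ) =
        Finset.univ.map ⟨fun a : Fin n => e (σ, a), fun a b h =>
          (Prod.ext_iff.1 (e.injective h)).2⟩ := by
      ext j
      simp only [Finset.mem_filter, Finset.mem_univ, true_and, Finset.mem_map,
        Function.Embedding.coeFn_mk]
      constructor
      · intro h
        refine ⟨(e.symm j).2, ?_⟩
        have h2 : (σ, (e.symm j).2) = e.symm j := Prod.ext h.symm rfl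
        rw [h2, Equiv.apply_symm_apply]
      · rintro ⟨a, rfl⟩
        rw [Equiv.symm_apply_apply]
    rw [h1, Finset.card_map, Finset.card_univ, Fintype.card_fin]

/-- The extension of an operator of the image of a projection. -/
theorem com_range {p : Module.End ℂ W} (hp : p * p = p) {G N : Submodule ℂ (Module.End ℂ W)}
    (hGN : G ≤ N) (hN : ∀ x ∈ N, x * p = p * x)
    (hcom : ∀ T : Module.End ℂ W, (∀ x ∈ G, T * x = x * T) → ∀ x ∈ N, T * x = x * T)
    (T : Module.End ℂ (LinearMap.range p)) (hT : ∀ X ∈ G.map (Rp p), T * X = X * T) :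
    ∀ X ∈ N.map (Rp p), T * X = X * T := by
  let T' : Module.End ℂ W := (LinearMap.range p).subtype ∘ₗ T ∘ₗ p.rangeRestrict
  have hT' : ∀ w, T' w = (T ⟨p w, w, rfl⟩ : LinearMap.range p) := fun w => rfl
  have e1 : ∀ z ∈ N, ∀ w, T' (z w) = (T (Rp p z ⟨p w, w, rfl⟩) : LinearMap.range p) := by
    intro z hz w
    rw [hT']
    congr 2
    apply Subtype.ext
    rw [Rp_coe' hp (hN z hz)]
    change p (z w) = z (p w)
    rw [← Module.End.mul_apply, ← hN z hz, Module.End.mul_apply]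
  have e2 : ∀ z ∈ N, ∀ w, z (T' w) = (Rp p z (T ⟨p w, w, rfl⟩) : LinearMap.range p) := by
    intro z hz w
    rw [hT', Rp_coe' hp (hN z hz)]
  have h2 : ∀ z ∈ G, T' * z = z * T' := by
    intro z hz
    refine LinearMap.ext fun w => ?_
    rw [Module.End.mul_apply, Module.End.mul_apply, e1 z (hGN hz), e2 z (hGN hz)]
    have h3 := LinearMap.congr_fun (hT _ ⟨z, hz, rfl⟩) ⟨p w, w, rfl⟩
    exact congrArg Subtype.val h3
  have h3 := hcom T' h2
  rintro _ ⟨z, hz, rfl⟩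
  refine LinearMap.ext fun v => ?_
  have h4 := LinearMap.congr_fun (h3 z hz) (v : W)
  rw [Module.End.mul_apply, Module.End.mul_apply, e1 z hz, e2 z hz] at h4
  have h5 : (⟨p v, v, rfl⟩ : LinearMap.range p) = v := Subtype.ext (range_fix hp v)
  rw [h5] at h4
  exact Subtype.ext h4

/-- **One factor of rank three or four.** -/
theorem singleM3 {p : Module.End ℂ W} (hp : p * p = p) (hp0 : p ≠ 0)
    {G N D : Submodule ℂ (Module.End ℂ W)} (hGN : G ≤ N) (hDG : D ≤ G)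
    (hN : ∀ x ∈ N, x * p = p * x) (hGb : ∀ x ∈ G, ∀ y ∈ G, x * y - y * x ∈ G)
    (hperf : D ≤ Submodule.span ℂ {Z | ∃ X ∈ D, ∃ Y ∈ D, Z = X * Y - Y * X})
    (hdec : ∀ X ∈ G, ∃ Z ∈ G, ∃ d ∈ D, X = Z + d ∧ ∀ Y ∈ G, Z * Y = Y * Z)
    (hcom : ∀ T : Module.End ℂ W, (∀ x ∈ G, T * x = x * T) → ∀ x ∈ N, T * x = x * T)
    {k n : ℕ} (hn : n = 3 ∨ n = 4) {E : Fin k → Fin n → Module.End ℂ (LinearMap.range p)}
    (hE : CM E)
    (hNE : N.map (Rp p) = soM E) : G.map (Rp p) = soM E := by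
  have := nontrivial_range hp0
  refine le_antisymm ?_ ?_
  · rw [← hNE]
    exact Submodule.map_mono hGN
  obtain ⟨E', c, hE', heq, hc⟩ := exists_col hE
  obtain ⟨m, φ, ht⟩ := typeA_small hn hE' hc
  have hMN : N.map (Rp p) = soC E' c := by rw [hNE, heq]
  have hmul : ∀ x, ∀ y ∈ N, Rp p (x * y) = Rp p x * Rp p y := fun x y hy => Rp_mul hp (hN y hy)
  have hbr' : ∀ X ∈ G.map (Rp p), ∀ Y ∈ G.map (Rp p), X * Y - Y * X ∈ G.map (Rp p) := by
    rintro _ ⟨x, hx, rfl⟩ _ ⟨y, hy, rfl⟩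
    exact ⟨x * y - y * x, hGb x hx y hy, by rw [map_sub, hmul x y (hGN hy), hmul y x (hGN hx)]⟩
  have hperf' : D.map (Rp p) ≤
      Submodule.span ℂ {Z | ∃ X ∈ D.map (Rp p), ∃ Y ∈ D.map (Rp p), Z = X * Y - Y * X} := by
    rintro _ ⟨d, hd, rfl⟩
    have h2 : Rp p d ∈ (Submodule.span ℂ {Z | ∃ X ∈ D, ∃ Y ∈ D, Z = X * Y - Y * X}).map (Rp p) :=
      ⟨d, hperf hd, rfl⟩
    rw [Submodule.map_span] at h2
    refine Submodule.span_mono ?_ h2
    rintro _ ⟨_, ⟨X, hX, Y, hY, rfl⟩, rfl⟩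
    exact ⟨_, ⟨X, hX, rfl⟩, _, ⟨Y, hY, rfl⟩, by
      rw [map_sub, hmul X Y (hGN (hDG hY)), hmul Y X (hGN (hDG hX))]⟩
  have hdec' : ∀ X ∈ G.map (Rp p), ∃ Z ∈ G.map (Rp p), ∃ d ∈ D.map (Rp p), X = Z + d ∧
      ∀ Y ∈ G.map (Rp p), Z * Y = Y * Z := by
    rintro _ ⟨x, hx, rfl⟩
    obtain ⟨Z, hZ, d, hd, rfl, hc⟩ := hdec x hx
    refine ⟨_, ⟨Z, hZ, rfl⟩, _, ⟨d, hd, rfl⟩, map_add _ _ _, ?_⟩
    rintro _ ⟨y, hy, rfl⟩
    rw [← hmul Z y (hGN hy), ← hmul y Z (hGN hZ), hc y hy]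
  have hcom' : ∀ T : Module.End ℂ (LinearMap.range p), (∀ X ∈ G.map (Rp p), T * X = X * T) →
      ∀ X ∈ soC E' c, T * X = X * T := by
    rw [← hMN]
    exact fun T hT => com_range hp hGN hN hcom T hT
  have h3 : ∀ i, 3 ≤ (Finset.univ.filter fun j => c j = c i).card := fun i => by
    rw [hc]
    omega
  intro x hx
  rw [heq] at hx
  have h4 := soC_perfect hE' h3 hx
  refine (Submodule.span_le.2 ?_) h4
  rintro _ ⟨x, hx, y, hy, rfl⟩
  exact ht.br_mem (by rw [← hMN]; exact Submodule.map_mono hGN) (Submodule.map_mono hDG) hbr'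
    hperf' hdec' hcom' hx hy

/-- **One factor, all ranks.** -/
theorem singleA {p : Module.End ℂ W} (hp : p * p = p) (hp0 : p ≠ 0)
    {G N D : Submodule ℂ (Module.End ℂ W)} (hGN : G ≤ N) (hDG : D ≤ G)
    (hN : ∀ x ∈ N, x * p = p * x) (hGb : ∀ x ∈ G, ∀ y ∈ G, x * y - y * x ∈ G)
    (hadj : ∀ x ∈ N, x ∈ Algebra.adjoin ℂ (G : Set (Module.End ℂ W)))
    (hperf : D ≤ Submodule.span ℂ {Z | ∃ X ∈ D, ∃ Y ∈ D, Z = X * Y - Y * X})
    (hdec : ∀ X ∈ G, ∃ Z ∈ G, ∃ d ∈ D, X = Z + d ∧ ∀ Y ∈ G, Z * Y = Y * Z)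
    (hcom : ∀ T : Module.End ℂ W, (∀ x ∈ G, T * x = x * T) → ∀ x ∈ N, T * x = x * T)
    {k n : ℕ} (hn : 3 ≤ n ∧ n ≠ 5) {E : Fin k → Fin n → Module.End ℂ (LinearMap.range p)}
    (hE : CM E) (hNE : N.map (Rp p) = soM E) : G.map (Rp p) = soM E := by
  rcases Nat.lt_or_ge n 6 with h | h
  · exact singleM3 hp hp0 hGN hDG hN hGb hperf hdec hcom (by omega) hE hNE
  · exact singleM hp hp0 hGN hN hGb hadj h hE hNE

/-- **Two factors: the case of a graph.** -/
theorem twoM {p q : Module.End ℂ W} (hp : p * p = p) (hp0 : p ≠ 0) (hq : q * q = q) (hq0 : q ≠ 0)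
    {G N : Submodule ℂ (Module.End ℂ W)} (hGN : G ≤ N) (hNp : ∀ x ∈ N, x * p = p * x)
    (hNq : ∀ x ∈ N, x * q = q * x)
    (hGb : ∀ x ∈ G, ∀ y ∈ G, x * y - y * x ∈ G)
    (hcom : ∀ T : Module.End ℂ W, (∀ x ∈ G, T * x = x * T) → ∀ x ∈ N, T * x = x * T)
    {k l n m : ℕ} (hn : 3 ≤ n) (hm : 3 ≤ m) (hk : n = 4 → k = 1) (hl : m = 4 → l = 1)
    (h43 : ¬ (n = 4 ∧ m = 3 ∧ l = 2)) (h34 : ¬ (m = 4 ∧ n = 3 ∧ k = 2))
    {E : Fin k → Fin n → Module.End ℂ (LinearMap.range p)} (hE : CM E)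
    (hNE : N.map (Rp p) = soM E)
    {F : Fin l → Fin m → Module.End ℂ (LinearMap.range q)} (hF : CM F)
    (hNF : N.map (Rp q) = soM F) (g1 : G.map (Rp p) = soM E) (g2 : G.map (Rp q) = soM F)
    (k1 : ∀ x ∈ G, x * q = 0 → x * p = 0) (k2 : ∀ x ∈ G, x * p = 0 → x * q = 0)
    (hK : (∀ x ∈ N, x * q = 0 → x * p = 0) ∨ ∀ x ∈ N, ∃ y ∈ N, y * q = 0 ∧ y * p = x * p)
    {x : Module.End ℂ W} (hx : x ∈ N) : ∃ y ∈ G, x * p = y * p ∧ x * q = y * q := by
  have := nontrivial_range hp0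
  have := nontrivial_range hq0
  have h1 := pairM hn hm hk hl h43 h34 hE hF (G.map ((Rp p).prod (Rp q)))
    (N.map ((Rp p).prod (Rp q))) (Submodule.map_mono hGN) ?_ ?_ ?_ ?_ ?_ ?_ ?_ ?_ ?_
  · obtain ⟨y, hy, hxy⟩ := h1 (Submodule.mem_map_of_mem hx)
    have e1 : Rp p y = Rp p x := congrArg Prod.fst hxy
    have e2 : Rp q y = Rp q x := congrArg Prod.snd hxy
    exact ⟨y, hy, mul_eq_of_Rp hp (hNp x hx) (hNp y (hGN hy)) e1.symm,
      mul_eq_of_Rp hq (hNq x hx) (hNq y (hGN hy)) e2.symm⟩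
  · rintro _ ⟨z, hz, rfl⟩
    rw [← hNE]
    exact ⟨z, hz, rfl⟩
  · rintro _ ⟨z, hz, rfl⟩
    rw [← hNF]
    exact ⟨z, hz, rfl⟩
  · rintro _ ⟨z, hz, rfl⟩ _ ⟨w, hw, rfl⟩
    refine ⟨z * w - w * z, hGb z hz w hw, ?_⟩
    refine Prod.ext ?_ ?_
    · change Rp p (z * w - w * z) = Rp p z * Rp p w - Rp p w * Rp p z
      rw [map_sub, Rp_mul hp (hNp w (hGN hw)), Rp_mul hp (hNp z (hGN hz))]
    · change Rp q (z * w - w * z) = Rp q z * Rp q w - Rp q w * Rp q z
      rw [map_sub, Rp_mul hq (hNq w (hGN hw)), Rp_mul hq (hNq z (hGN hz))]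
  · intro z hz
    rw [← g1] at hz
    obtain ⟨y, hy, rfl⟩ := hz
    exact ⟨Rp q y, y, hy, rfl⟩
  · intro z hz
    rw [← g2] at hz
    obtain ⟨y, hy, rfl⟩ := hz
    exact ⟨Rp p y, y, hy, rfl⟩
  · rw [eq_bot_iff]
    rintro z ⟨y, hy, hyz⟩
    have e1 : Rp p y = z := congrArg Prod.fst hyz
    have e2 : Rp q y = 0 := congrArg Prod.snd hyz
    have e3 := mul_eq_of_Rp hq (hNq y (hGN hy)) (by rw [zero_mul, mul_zero])
      (e2.trans (map_zero (Rp q)).symm)
    rw [zero_mul] at e3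
    rw [Submodule.mem_bot, ← e1, ← Rp_mul_self hp, k1 y hy e3, map_zero]
  · rw [eq_bot_iff]
    rintro z ⟨y, hy, hyz⟩
    have e1 : Rp q y = z := congrArg Prod.snd hyz
    have e2 : Rp p y = 0 := congrArg Prod.fst hyz
    have e3 := mul_eq_of_Rp hp (hNp y (hGN hy)) (by rw [zero_mul, mul_zero])
      (e2.trans (map_zero (Rp p)).symm)
    rw [zero_mul] at e3
    rw [Submodule.mem_bot, ← e1, ← Rp_mul_self hq, k2 y hy e3, map_zero]
  · rcases hK with hK | hK
    · left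
      rw [eq_bot_iff]
      rintro z ⟨y, hy, hyz⟩
      have e1 : Rp p y = z := congrArg Prod.fst hyz
      have e2 : Rp q y = 0 := congrArg Prod.snd hyz
      have e3 := mul_eq_of_Rp hq (hNq y hy) (by rw [zero_mul, mul_zero])
        (e2.trans (map_zero (Rp q)).symm)
      rw [zero_mul] at e3
      rw [Submodule.mem_bot, ← e1, ← Rp_mul_self hp, hK y hy e3, map_zero]
    · right
      rw [← hNE]
      rintro _ ⟨x, hx, rfl⟩
      obtain ⟨y, hy, h1, h2⟩ := hK x hx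
      refine ⟨y, hy, Prod.ext ?_ ?_⟩
      · change Rp p y = Rp p x
        rw [← Rp_mul_self hp, h2, Rp_mul_self hp]
      · change Rp q y = 0
        rw [← Rp_mul_self hq, h1, map_zero]
  · intro T hT
    let T' : Module.End ℂ W := (LinearMap.range q).subtype ∘ₗ T ∘ₗ p.rangeRestrict
    have hT' : ∀ w, T' w = (T ⟨p w, w, rfl⟩ : LinearMap.range q) := fun w => rfl
    have e1 : ∀ z ∈ N, ∀ w, T' (z w) = (T (Rp p z ⟨p w, w, rfl⟩) : LinearMap.range q) := by
      intro z hz w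
      rw [hT']
      congr 2
      apply Subtype.ext
      rw [Rp_coe' hp (hNp z hz)]
      change p (z w) = z (p w)
      rw [← Module.End.mul_apply, ← hNp z hz, Module.End.mul_apply]
    have e2 : ∀ z ∈ N, ∀ w, z (T' w) = (Rp q z (T ⟨p w, w, rfl⟩) : LinearMap.range q) := by
      intro z hz w
      rw [hT', Rp_coe' hq (hNq z hz)]
    have h2 : ∀ z ∈ G, T' * z = z * T' := by
      intro z hz
      refine LinearMap.ext fun w => ?_
      rw [Module.End.mul_apply, Module.End.mul_apply, e1 z (hGN hz), e2 z (hGN hz)]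
      have h3 := LinearMap.congr_fun (hT _ ⟨z, hz, rfl⟩) ⟨p w, w, rfl⟩
      exact congrArg Subtype.val h3.symm
    have h3 := hcom T' h2
    rintro _ ⟨z, hz, rfl⟩
    refine LinearMap.ext fun v => ?_
    have h4 := LinearMap.congr_fun (h3 z hz) (v : W)
    rw [Module.End.mul_apply, Module.End.mul_apply, e1 z hz, e2 z hz] at h4
    have h5 : (⟨p v, v, rfl⟩ : LinearMap.range p) = v := Subtype.ext (range_fix hp v)
    rw [h5] at h4
    exact (Subtype.ext h4).symm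

end Pool.Agent.Helper883K
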