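import Pool.Agent.Helper883_K3.Multi

set_option autoImplicit false
set_option linter.unusedSectionVars false
set_option linter.unusedSimpArgs false
set_option linter.unusedVariables false

/-!
# Skew-symmetric matrices with `ad ^ 3 = -4 ad`: the dichotomy
-/

open Matrix Module

noncomputable section

namespace Pool.Agent.Helper883K

open Pool.Agent.Y102.SP

section dich

variable {n : ℕ}

theorem sumK (K X Y : Matrix (Fin n) (Fin n) ℂ) (i a : Fin n) :
    ∑ b, ∑ j, K b j * (X i a * Y b j - X i b * Y a j) =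
      (Kᵀ * Y).trace * X i a - (X * K * Yᵀ) i a := by
  simp only [mul_sub, Finset.sum_sub_distrib]
  congr 1
  · rw [Matrix.trace, Finset.sum_mul, Finset.sum_comm]
    refine Finset.sum_congr rfl fun j _ => ?_
    rw [Matrix.diag_apply, Matrix.mul_apply, Finset.sum_mul]
    refine Finset.sum_congr rfl fun b _ => ?_
    rw [Matrix.transpose_apply]
    ring
  · rw [Matrix.mul_apply, Finset.sum_comm]
    refine Finset.sum_congr rfl fun j _ => ?_
    rw [Matrix.mul_apply, Finset.sum_mul, Matrix.transpose_apply]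
    refine Finset.sum_congr rfl fun b _ => ?_
    ring

/-- The contraction with an arbitrary matrix. -/
theorem contractK {N : Matrix (Fin n) (Fin n) ℂ}
    (h : ∀ X ∈ Sk n, N * (N * (N * X - X * N) - (N * X - X * N) * N) -
      (N * (N * X - X * N) - (N * X - X * N) * N) * N = -(4 : ℂ) • (N * X - X * N))
    (K : Matrix (Fin n) (Fin n) ℂ) :
    ((Kᵀ * 1).trace • (N * N * N + (4 : ℂ) • N) - (N * N * N + (4 : ℂ) • N) * K * 1ᵀ) -
      (3 : ℂ) • ((Kᵀ * N).trace • (N * N) - N * N * K * Nᵀ) +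
      (3 : ℂ) • ((Kᵀ * (N * N)).trace • N - N * K * (N * N)ᵀ) -
      ((Kᵀ * (N * N * N + (4 : ℂ) • N)).trace • (1 : Matrix (Fin n) (Fin n) ℂ) -
        1 * K * (N * N * N + (4 : ℂ) • N)ᵀ) = 0 := by
  ext i a
  have h1 : ∑ b, ∑ j, K b j * (((N * N * N + (4 : ℂ) • N) i a * (1 : Matrix (Fin n) (Fin n) ℂ) b j -
      (N * N * N + (4 : ℂ) • N) i b * (1 : Matrix (Fin n) (Fin n) ℂ) a j) -
      3 * ((N * N) i a * N b j - (N * N) i b * N a j) +
      3 * (N i a * (N * N) b j - N i b * (N * N) a j) -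
      ((1 : Matrix (Fin n) (Fin n) ℂ) i a * (N * N * N + (4 : ℂ) • N) b j -
      (1 : Matrix (Fin n) (Fin n) ℂ) i b * (N * N * N + (4 : ℂ) • N) a j)) = 0 :=
    Finset.sum_eq_zero fun b _ => Finset.sum_eq_zero fun j _ => by rw [ident h a b i j, mul_zero]
  have h2 : ∀ b j, K b j * (((N * N * N + (4 : ℂ) • N) i a * (1 : Matrix (Fin n) (Fin n) ℂ) b j -
      (N * N * N + (4 : ℂ) • N) i b * (1 : Matrix (Fin n) (Fin n) ℂ) a j) -
      3 * ((N * N) i a * N b j - (N * N) i b * N a j) +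
      3 * (N i a * (N * N) b j - N i b * (N * N) a j) -
      ((1 : Matrix (Fin n) (Fin n) ℂ) i a * (N * N * N + (4 : ℂ) • N) b j -
      (1 : Matrix (Fin n) (Fin n) ℂ) i b * (N * N * N + (4 : ℂ) • N) a j)) =
      K b j * ((N * N * N + (4 : ℂ) • N) i a * (1 : Matrix (Fin n) (Fin n) ℂ) b j -
      (N * N * N + (4 : ℂ) • N) i b * (1 : Matrix (Fin n) (Fin n) ℂ) a j) -
      3 * (K b j * ((N * N) i a * N b j - (N * N) i b * N a j)) +
      3 * (K b j * (N i a * (N * N) b j - N i b * (N * N) a j)) -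
      K b j * ((1 : Matrix (Fin n) (Fin n) ℂ) i a * (N * N * N + (4 : ℂ) • N) b j -
      (1 : Matrix (Fin n) (Fin n) ℂ) i b * (N * N * N + (4 : ℂ) • N) a j) := by
    intro b j
    ring
  simp only [h2, Finset.sum_add_distrib, Finset.sum_sub_distrib, ← Finset.mul_sum] at h1
  have h3 : ∀ X Y : Matrix (Fin n) (Fin n) ℂ,
      ∑ b, ∑ j, K b j * (X i a * Y b j - X i b * Y a j) =
      (Kᵀ * Y).trace * X i a - (X * K * Yᵀ) i a := fun X Y => sumK K X Y i a
  simp only [Matrix.sub_apply, Matrix.add_apply, Matrix.smul_apply, smul_eq_mul,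
    Matrix.zero_apply] at *
  have e1 := h3 (N * N * N + (4 : ℂ) • N) 1
  have e2 := h3 (N * N) N
  have e3 := h3 N (N * N)
  have e4 := h3 1 (N * N * N + (4 : ℂ) • N)
  simp only [Matrix.sub_apply, Matrix.add_apply, Matrix.smul_apply, smul_eq_mul,
    Matrix.zero_apply, mul_sub, Finset.sum_sub_distrib] at *
  linear_combination h1 - e1 + 3 * e2 - 3 * e3 + e4

theorem trace_Sk_mul {K S : Matrix (Fin n) (Fin n) ℂ} (hK : Kᵀ = -K) (hS : Sᵀ = S) :
    (K * S).trace = 0 := by
  have h1 : (K * S).trace = -(K * S).trace := by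
    conv_lhs => rw [← Matrix.trace_transpose, Matrix.transpose_mul, hK, hS, Matrix.mul_neg,
      Matrix.trace_neg, Matrix.trace_mul_comm]
  linear_combination (1 / 2 : ℂ) * h1

/-- **The dichotomy.** -/
theorem dich {N : Matrix (Fin n) (Fin n) ℂ} (hN : N ∈ Sk n) (ht : (N * N).trace = -8)
    (h : ∀ X ∈ Sk n, N * (N * (N * X - X * N) - (N * X - X * N) * N) -
      (N * (N * X - X * N) - (N * X - X * N) * N) * N = -(4 : ℂ) • (N * X - X * N)) :
    N * N * N = -(4 : ℂ) • N ∨ N * N = -1 := by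
  have hT : Nᵀ = -N := hN
  have hS : (N * N)ᵀ = N * N := by
    rw [Matrix.transpose_mul, hT]
    noncomm_ring
  have hP : (N * N * N + (4 : ℂ) • N)ᵀ = -(N * N * N + (4 : ℂ) • N) := by
    rw [Matrix.transpose_add, Matrix.transpose_smul, hT, mem_Sk.1 (Sk_cube hN)]
    module
  have t1 : (Nᵀ * 1).trace = 0 := by
    rw [Matrix.mul_one, Matrix.trace_transpose]
    exact Finset.sum_eq_zero fun i _ => Sk_diag hN i
  have t2 : (Nᵀ * N).trace = 8 := by
    rw [hT, Matrix.neg_mul, Matrix.trace_neg, ht, neg_neg]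
  have t3 : (Nᵀ * (N * N)).trace = 0 := by
    rw [hT, Matrix.neg_mul, Matrix.trace_neg, trace_Sk_mul hT hS, neg_zero]
  obtain ⟨t, htt⟩ : ∃ t, t = (Nᵀ * (N * N * N + (4 : ℂ) • N)).trace := ⟨_, rfl⟩
  have hA := contractK h N
  rw [t1, t2, t3, ← htt, hS, hP, hT, Matrix.transpose_one] at hA
  have hA' : (8 : ℂ) • (N * N * N * N) + (32 : ℂ) • (N * N) = -t • (1 : Matrix (Fin n) (Fin n) ℂ) := by
    rw [← sub_eq_zero, ← neg_eq_zero, ← hA]
    simp only [Matrix.mul_add, Matrix.add_mul, Matrix.mul_smul, Matrix.smul_mul, Matrix.mul_neg,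
      Matrix.neg_mul, Matrix.mul_one, Matrix.one_mul, Matrix.mul_assoc, zero_smul]
    module
  obtain ⟨κ, hκ⟩ : ∃ κ : ℂ, κ = -t / 8 := ⟨_, rfl⟩
  have hS2 : N * N * N * N = κ • (1 : Matrix (Fin n) (Fin n) ℂ) - (4 : ℂ) • (N * N) := by
    have e1 : (8 : ℂ) • (N * N * N * N) =
        (8 : ℂ) • (κ • (1 : Matrix (Fin n) (Fin n) ℂ) - (4 : ℂ) • (N * N)) := by
      rw [smul_sub, smul_smul, smul_smul, hκ, show (8 : ℂ) * (-t / 8) = -t by ring, ← hA']
      module
    exact smul_right_injective _ (by norm_num : (8 : ℂ) ≠ 0) e1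
  -- the value of `t`
  have ht4 : (N * N * N * N).trace = 8 * κ + 32 := by
    have e1 : t = -(N * N * N * N).trace + 32 := by
      rw [htt, hT, Matrix.neg_mul, Matrix.trace_neg, Matrix.mul_add, Matrix.mul_smul,
        Matrix.trace_add, Matrix.trace_smul, ht, ← Matrix.mul_assoc, ← Matrix.mul_assoc,
        smul_eq_mul]
      ring
    rw [hκ]
    linear_combination e1
  have hB := contractK h (N * N)
  have s1 : ((N * N)ᵀ * 1).trace = -8 := by rw [hS, Matrix.mul_one, ht]
  have s2 : ((N * N)ᵀ * N).trace = 0 := by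
    rw [hS, Matrix.trace_mul_comm, trace_Sk_mul hT hS]
  have s3 : ((N * N)ᵀ * (N * N)).trace = 8 * κ + 32 := by
    rw [hS, ← ht4, ← Matrix.mul_assoc]
  have s4 : ((N * N)ᵀ * (N * N * N + (4 : ℂ) • N)).trace = 0 := by
    rw [hS, Matrix.trace_mul_comm, trace_Sk_mul hP hS]
  rw [s1, s2, s3, s4, hS, hP, hT, Matrix.transpose_one] at hB
  have h5 : N * N * N * N * N = κ • N - (4 : ℂ) • (N * N * N) := by
    rw [hS2, Matrix.sub_mul, Matrix.smul_mul, Matrix.smul_mul, Matrix.one_mul]
  have hB' : N * N * N = -(κ + 4) • N := by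
    have e1 : (16 : ℂ) • (N * N * N) = (16 : ℂ) • (-(κ + 4) • N) := by
      have e2 : (8 : ℂ) • (N * N * N * N * N) + (16 : ℂ) • (N * N * N) - (24 * κ + 64) • N = 0 := by
        rw [← neg_eq_zero, ← hB]
        simp only [Matrix.mul_add, Matrix.add_mul, Matrix.mul_smul, Matrix.smul_mul,
          Matrix.mul_neg, Matrix.neg_mul, Matrix.mul_one, Matrix.one_mul, Matrix.mul_assoc,
          zero_smul]
        module
      rw [h5] at e2
      have e3 : (16 : ℂ) • (N * N * N) - (16 : ℂ) • (-(κ + 4) • N) =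
          -((8 : ℂ) • (κ • N - (4 : ℂ) • (N * N * N)) + (16 : ℂ) • (N * N * N) -
            (24 * κ + 64) • N) := by module
      rw [← sub_eq_zero, e3, e2, neg_zero]
    exact smul_right_injective _ (by norm_num : (16 : ℂ) ≠ 0) e1
  by_cases hk : κ = 0
  · left
    rw [hB', hk, zero_add]
  · right
    have e1 : N * N * N * N = -(κ + 4) • (N * N) := by
      rw [hB', Matrix.smul_mul]
    rw [e1] at hS2
    have e2 : κ • (N * N) = κ • (-1 : Matrix (Fin n) (Fin n) ℂ) := by
      have e3 : κ • (N * N) = -(-(κ + 4) • (N * N) + (4 : ℂ) • (N * N)) := by module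
      rw [e3, hS2]
      module
    exact smul_right_injective _ hk e2

/-- The Pfaffians vanish. -/
theorem pfaff' {N : Matrix (Fin n) (Fin n) ℂ} (hN : N ∈ Sk n) (hc : N * N * N = -(4 : ℂ) • N)
    (h : ∀ X ∈ Sk n, N * (N * (N * X - X * N) - (N * X - X * N) * N) -
      (N * (N * X - X * N) - (N * X - X * N) * N) * N = -(4 : ℂ) • (N * X - X * N))
    (k a b j : Fin n) : N k a * N b j + N k b * N j a + N k j * N a b = 0 := by
  have h0 : N * N * N + (4 : ℂ) • N = 0 := by
    rw [hc, ← add_smul]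
    norm_num
  have h2 : ∀ i j a b, (N * N) i a * N b j - (N * N) i b * N a j =
      N i a * (N * N) b j - N i b * (N * N) a j := by
    intro i j a b
    have h3 := ident h a b i j
    rw [h0] at h3
    simp only [Matrix.zero_apply] at h3
    linear_combination (-1 / 3 : ℂ) * h3
  have h4 : ∀ k a b j, (N * N) k a * (N * N) b j - (N * N) k b * (N * N) a j =
      -4 * (N k a * N b j - N k b * N a j) := by
    intro k a b j
    have h5 : ∑ i, N k i * ((N * N) i a * N b j - (N * N) i b * N a j) =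
        ∑ i, N k i * (N i a * (N * N) b j - N i b * (N * N) a j) :=
      Finset.sum_congr rfl fun i _ => by rw [h2]
    have e1 : ∀ c, ∑ i, N k i * (N * N) i c = -4 * N k c := by
      intro c
      rw [← Matrix.mul_apply, ← Matrix.mul_assoc, hc, Matrix.smul_apply, smul_eq_mul]
    have e2 : ∀ c, ∑ i, N k i * N i c = (N * N) k c := fun c => (Matrix.mul_apply).symm
    have e3 : ∑ i, N k i * ((N * N) i a * N b j - (N * N) i b * N a j) =
        (∑ i, N k i * (N * N) i a) * N b j - (∑ i, N k i * (N * N) i b) * N a j := by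
      rw [Finset.sum_mul, Finset.sum_mul, ← Finset.sum_sub_distrib]
      exact Finset.sum_congr rfl fun i _ => by ring
    have e4 : ∑ i, N k i * (N i a * (N * N) b j - N i b * (N * N) a j) =
        (∑ i, N k i * N i a) * (N * N) b j - (∑ i, N k i * N i b) * (N * N) a j := by
      rw [Finset.sum_mul, Finset.sum_mul, ← Finset.sum_sub_distrib]
      exact Finset.sum_congr rfl fun i _ => by ring
    rw [e3, e4, e1, e1, e2, e2] at h5
    linear_combination -h5
  have i1 := h4 k a b j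
  have i2 := h4 k b j a
  have i3 := h4 k j a b
  have s1 := Sk_sq hN b j
  have s2 := Sk_sq hN j a
  have s3 := Sk_sq hN a b
  have g1 : N j b = - N b j := Sk_apply hN j b
  have g2 : N a j = - N j a := Sk_apply hN a j
  have g3 : N b a = - N a b := Sk_apply hN b a
  rw [g2] at i1
  rw [g3] at i2
  rw [g1] at i3
  linear_combination (1 / 8 : ℂ) * (i1 + i2 + i3) - (1 / 8 : ℂ) *
    ((N * N) k a * s1 + (N * N) k b * s2 + (N * N) k j * s3)

end dich

end Pool.Agent.Helper883K
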