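import Pool.Agent.Helper883_K3.Sq

set_option autoImplicit false
set_option linter.unusedSectionVars false
set_option linter.unusedSimpArgs false
set_option linter.unusedVariables false

/-!
# The intertwining operator
-/

open Matrix Module

noncomputable section

namespace Pool.Agent.Helper883K

open Pool.Agent.Y102.SP

variable {U V : Type} [AddCommGroup U] [Module ℂ U] [AddCommGroup V] [Module ℂ V] {n : ℕ}

theorem exists_ne_zero [Nontrivial U] [Nontrivial V] : ∃ T : U →ₗ[ℂ] V, T ≠ 0 := by
  obtain ⟨u, hu⟩ := exists_ne (0 : U)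
  obtain ⟨v, hv⟩ := exists_ne (0 : V)
  obtain ⟨f, hf⟩ : ∃ f : Module.Dual ℂ U, f u ≠ 0 := by
    by_contra hcon
    push Not at hcon
    exact hu ((Module.forall_dual_apply_eq_zero_iff ℂ u).1 hcon)
  refine ⟨f.smulRight v, fun h => ?_⟩
  have h1 := LinearMap.congr_fun h u
  rw [LinearMap.smulRight_apply, LinearMap.zero_apply] at h1
  exact hv ((smul_eq_zero.1 h1).resolve_left hf)

/-- Intertwining operators for the Clifford algebra generated by the `E o * E a`. -/
theorem exists_inter [Nontrivial U] [Nontrivial V] {E : Fin n → Module.End ℂ U} (hE : CE E)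
    (o : Fin n) {y : Fin n → Module.End ℂ V} (hy : ∀ a, a ≠ o → y a * y a = -1)
    (hyy : ∀ a b, a ≠ o → b ≠ o → a ≠ b → y a * y b = -(y b * y a)) (S : Finset (Fin n)) :
    o ∉ S → ∃ T : U →ₗ[ℂ] V, T ≠ 0 ∧ ∀ a ∈ S, (y a) ∘ₗ T = T ∘ₗ (E o * E a) := by
  induction S using Finset.induction_on with
  | empty =>
    intro _
    obtain ⟨T, hT⟩ := exists_ne_zero (U := U) (V := V)
    exact ⟨T, hT, fun a ha => absurd ha (Finset.notMem_empty a)⟩
  | insert a S ha ih =>
    intro ho
    have hao : a ≠ o := fun h => ho (by rw [h]; exact Finset.mem_insert_self _ _)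
    obtain ⟨T, hT, hTS⟩ := ih fun h => ho (Finset.mem_insert_of_mem h)
    have hbo : ∀ b ∈ S, b ≠ o := fun b hb h => ho (by rw [← h]; exact Finset.mem_insert_of_mem hb)
    have hba : ∀ b ∈ S, b ≠ a := fun b hb h => ha (by rw [← h]; exact hb)
    have hxa : (E o * E a) * (E o * E a) = -1 := by
      rw [mul_assoc, ← mul_assoc (E a), hE.anti a o hao, neg_mul, mul_neg, mul_assoc, hE.sq,
        mul_one, hE.sq]
    have hx : ∀ b ∈ S, (E o * E b) * (E o * E a) = -((E o * E a) * (E o * E b)) := by
      intro b hb
      have e1 : ∀ c, c ≠ o → ∀ d, (E o * E c) * (E o * E d) = -(E c * E d) := by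
        intro c hc d
        rw [mul_assoc, ← mul_assoc (E c), hE.anti c o hc, neg_mul, mul_neg, ← mul_assoc,
          ← mul_assoc, hE.sq, one_mul]
      rw [e1 b (hbo b hb), e1 a hao, hE.anti b a (hba b hb)]
    by_cases h0 : T - (y a) ∘ₗ T ∘ₗ (E o * E a) = 0
    · -- the second operator
      have h1 : T = (y a) ∘ₗ T ∘ₗ (E o * E a) := sub_eq_zero.1 h0
      have h2 : (y a) ∘ₗ T = -(T ∘ₗ (E o * E a)) := by
        conv_lhs => rw [h1]
        rw [← LinearMap.comp_assoc, ← Module.End.mul_eq_comp, hy a hao]
        ext u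
        simp
      refine ⟨T ∘ₗ (E a), fun h => hT ?_, fun b hb => ?_⟩
      · have h3 : T = (T ∘ₗ (E a)) ∘ₗ (E a) := by
          rw [LinearMap.comp_assoc, ← Module.End.mul_eq_comp, hE.sq]
          rfl
        rw [h3, h, LinearMap.zero_comp]
      · rw [Finset.mem_insert] at hb
        rcases hb with rfl | hb
        · rw [← LinearMap.comp_assoc, h2, LinearMap.comp_assoc, ← Module.End.mul_eq_comp,
            LinearMap.neg_comp, LinearMap.comp_assoc, ← Module.End.mul_eq_comp, mul_assoc, hE.sq,
            mul_one, ← mul_assoc, hE.anti b o hao, neg_mul, mul_assoc, hE.sq, mul_one,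
            LinearMap.comp_neg]
        · rw [← LinearMap.comp_assoc, hTS b hb, LinearMap.comp_assoc, LinearMap.comp_assoc,
            ← Module.End.mul_eq_comp, ← Module.End.mul_eq_comp]
          congr 1
          rw [← mul_assoc, hE.anti a o hao, neg_mul, mul_assoc, mul_assoc,
            hE.anti b a (hba b hb), mul_neg]
    · refine ⟨_, h0, fun b hb => ?_⟩
      rw [Finset.mem_insert] at hb
      rcases hb with rfl | hb
      · have h4 : ∀ v, y b (y b v) = -v := fun v => by
          rw [← Module.End.mul_apply, hy b hao]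
          rfl
        have h5 : ∀ u, (E o * E b) ((E o * E b) u) = -u := fun u => by
          rw [← Module.End.mul_apply, hxa]
          rfl
        refine LinearMap.ext fun u => ?_
        simp only [LinearMap.comp_apply, LinearMap.sub_apply, map_sub, h4, h5, map_neg]
        abel
      · have h4 : ∀ v, y b (y a v) = -(y a (y b v)) := fun v => by
          rw [← Module.End.mul_apply, hyy b a (hbo b hb) hao (hba b hb)]
          rfl
        have h5 : ∀ u, (E o * E b) ((E o * E a) u) = -((E o * E a) ((E o * E b) u)) := fun u => by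
          rw [← Module.End.mul_apply, hx b hb]
          rfl
        have h6 : ∀ u, y b (T u) = T ((E o * E b) u) := fun u => LinearMap.congr_fun (hTS b hb) u
        refine LinearMap.ext fun u => ?_
        simp only [LinearMap.comp_apply, LinearMap.sub_apply, map_sub, h4, h6, h5, map_neg,
          neg_neg]

end Pool.Agent.Helper883K
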