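import Mathlib

set_option autoImplicit false
set_option linter.unusedSectionVars false
set_option linter.unusedSimpArgs false
set_option linter.unusedVariables false

/-!
# Skew-symmetric matrices with `ad ^ 3 = -4 ad`
-/

open Matrix

namespace Pool.Agent.Helper883K

variable {n : ℕ}

/-- The skew-symmetric matrices. -/
def Sk (n : ℕ) : Submodule ℂ (Matrix (Fin n) (Fin n) ℂ) where
  carrier := {M | Mᵀ = -M}
  zero_mem' := by simp
  add_mem' := by
    intro A B hA hB
    change (A + B)ᵀ = -(A + B)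
    rw [Matrix.transpose_add, show Aᵀ = -A from hA, show Bᵀ = -B from hB, neg_add]
  smul_mem' := by
    intro c A hA
    change (c • A)ᵀ = -(c • A)
    rw [Matrix.transpose_smul, show Aᵀ = -A from hA, smul_neg]

theorem mem_Sk {M : Matrix (Fin n) (Fin n) ℂ} : M ∈ Sk n ↔ Mᵀ = -M := Iff.rfl

theorem Sk_apply {M : Matrix (Fin n) (Fin n) ℂ} (h : M ∈ Sk n) (i j : Fin n) :
    M i j = -M j i := by
  have h1 := congrFun (congrFun h j) i
  rw [Matrix.transpose_apply, Matrix.neg_apply] at h1
  exact h1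

theorem Sk_br {M X : Matrix (Fin n) (Fin n) ℂ} (hM : M ∈ Sk n) (hX : X ∈ Sk n) :
    M * X - X * M ∈ Sk n := by
  rw [mem_Sk, Matrix.transpose_sub, Matrix.transpose_mul, Matrix.transpose_mul, mem_Sk.1 hM,
    mem_Sk.1 hX]
  noncomm_ring

/-- The elementary skew-symmetric matrix. -/
noncomputable def el (a b : Fin n) : Matrix (Fin n) (Fin n) ℂ :=
  Matrix.single a b 1 - Matrix.single b a 1

theorem el_mem (a b : Fin n) : el a b ∈ Sk n := by
  rw [mem_Sk]
  unfold el
  rw [Matrix.transpose_sub, Matrix.transpose_single, Matrix.transpose_single]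
  abel

theorem ent (A B : Matrix (Fin n) (Fin n) ℂ) (a b i j : Fin n) :
    (A * Matrix.single a b (1 : ℂ) * B) i j = A i a * B b j := by
  rw [Matrix.mul_apply, Finset.sum_eq_single b]
  · rw [Matrix.mul_apply, Finset.sum_eq_single a]
    · rw [Matrix.single_apply_same, mul_one]
    · intro k _ hk
      rw [Matrix.single_apply_of_row_ne (Ne.symm hk), mul_zero]
    · intro h
      exact absurd (Finset.mem_univ _) h
  · intro k _ hk
    rw [Matrix.mul_apply, Finset.sum_eq_zero, zero_mul]
    intro l _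
    rw [Matrix.single_apply_of_col_ne _ _ (Ne.symm hk), mul_zero]
  · intro h
    exact absurd (Finset.mem_univ _) h

theorem ent_el (A B : Matrix (Fin n) (Fin n) ℂ) (a b i j : Fin n) :
    (A * el a b * B) i j = A i a * B b j - A i b * B a j := by
  unfold el
  rw [Matrix.mul_sub, Matrix.sub_mul, Matrix.sub_apply, ent, ent]

/-- The identity in coordinates. -/
theorem ident {N : Matrix (Fin n) (Fin n) ℂ}
    (h : ∀ X ∈ Sk n, N * (N * (N * X - X * N) - (N * X - X * N) * N) -
      (N * (N * X - X * N) - (N * X - X * N) * N) * N = -(4 : ℂ) • (N * X - X * N))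
    (a b i j : Fin n) :
    (N * N * N + (4 : ℂ) • N) i a * (1 : Matrix (Fin n) (Fin n) ℂ) b j -
      (N * N * N + (4 : ℂ) • N) i b * (1 : Matrix (Fin n) (Fin n) ℂ) a j -
      3 * ((N * N) i a * N b j - (N * N) i b * N a j) +
      3 * (N i a * (N * N) b j - N i b * (N * N) a j) -
      ((1 : Matrix (Fin n) (Fin n) ℂ) i a * (N * N * N + (4 : ℂ) • N) b j -
      (1 : Matrix (Fin n) (Fin n) ℂ) i b * (N * N * N + (4 : ℂ) • N) a j) = 0 := by
  have h1 := h _ (el_mem a b)
  have h2 : (N * N * N + (4 : ℂ) • N) * el a b * 1 - (3 : ℂ) • ((N * N) * el a b * N) +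
      (3 : ℂ) • (N * el a b * (N * N)) - 1 * el a b * (N * N * N + (4 : ℂ) • N) = 0 := by
    rw [← sub_eq_zero] at h1
    rw [← h1]
    generalize el a b = X
    simp only [Matrix.mul_sub, Matrix.sub_mul, Matrix.add_mul, Matrix.mul_add, Matrix.mul_one,
      Matrix.one_mul, Matrix.smul_mul, Matrix.mul_smul, Matrix.mul_assoc]
    module
  have h3 := congrFun (congrFun h2 i) j
  simp only [Matrix.sub_apply, Matrix.add_apply, Matrix.smul_apply, ent_el, smul_eq_mul,
    Matrix.zero_apply] at h3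
  simp only [Matrix.add_apply, Matrix.smul_apply, smul_eq_mul]
  linear_combination h3

theorem Sk_cube {N : Matrix (Fin n) (Fin n) ℂ} (hN : N ∈ Sk n) : N * N * N ∈ Sk n := by
  rw [mem_Sk, Matrix.transpose_mul, Matrix.transpose_mul, mem_Sk.1 hN]
  noncomm_ring

theorem Sk_sq {N : Matrix (Fin n) (Fin n) ℂ} (hN : N ∈ Sk n) (i j : Fin n) :
    (N * N) i j = (N * N) j i := by
  have h1 : (N * N)ᵀ = N * N := by
    rw [Matrix.transpose_mul, mem_Sk.1 hN]
    noncomm_ring
  exact congrFun (congrFun h1.symm i) j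

theorem Sk_diag {N : Matrix (Fin n) (Fin n) ℂ} (hN : N ∈ Sk n) (i : Fin n) : N i i = 0 := by
  have h := Sk_apply hN i i
  linear_combination (1 / 2 : ℂ) * h

/-- The contraction of the identity. -/
theorem contract {N : Matrix (Fin n) (Fin n) ℂ} (hN : N ∈ Sk n)
    (h : ∀ X ∈ Sk n, N * (N * (N * X - X * N) - (N * X - X * N) * N) -
      (N * (N * X - X * N) - (N * X - X * N) * N) * N = -(4 : ℂ) • (N * X - X * N))
    (i a : Fin n) :
    ((n : ℂ) - 2) * (N * N * N + (4 : ℂ) • N) i a - 6 * (N * N * N) i a +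
      3 * (N * N).trace * N i a = 0 := by
  have hP : N * N * N + (4 : ℂ) • N ∈ Sk n :=
    (Sk n).add_mem (Sk_cube hN) ((Sk n).smul_mem _ hN)
  have h1 : ∑ b, ((N * N * N + (4 : ℂ) • N) i a * (1 : Matrix (Fin n) (Fin n) ℂ) b b -
      (N * N * N + (4 : ℂ) • N) i b * (1 : Matrix (Fin n) (Fin n) ℂ) a b -
      3 * ((N * N) i a * N b b - (N * N) i b * N a b) +
      3 * (N i a * (N * N) b b - N i b * (N * N) a b) -
      ((1 : Matrix (Fin n) (Fin n) ℂ) i a * (N * N * N + (4 : ℂ) • N) b b -
      (1 : Matrix (Fin n) (Fin n) ℂ) i b * (N * N * N + (4 : ℂ) • N) a b)) = 0 :=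
    Finset.sum_eq_zero fun b _ => ident h a b i b
  have e1 : ∑ b, (N * N * N + (4 : ℂ) • N) i a * (1 : Matrix (Fin n) (Fin n) ℂ) b b =
      n * (N * N * N + (4 : ℂ) • N) i a := by
    simp only [Matrix.one_apply_eq, mul_one, Finset.sum_const, Finset.card_univ, Fintype.card_fin,
      nsmul_eq_mul]
  have e2 : ∑ b, (N * N * N + (4 : ℂ) • N) i b * (1 : Matrix (Fin n) (Fin n) ℂ) a b =
      (N * N * N + (4 : ℂ) • N) i a := by
    rw [Finset.sum_eq_single a]
    · rw [Matrix.one_apply_eq, mul_one]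
    · intro b _ hb
      rw [Matrix.one_apply_ne (Ne.symm hb), mul_zero]
    · intro hh
      exact absurd (Finset.mem_univ _) hh
  have e3 : ∑ b, (N * N) i b * N a b = -(N * N * N) i a := by
    rw [Matrix.mul_apply (N := N), ← Finset.sum_neg_distrib]
    exact Finset.sum_congr rfl fun b _ => by rw [Sk_apply hN a b, mul_neg]
  have e4 : ∑ b, N i b * (N * N) a b = (N * N * N) i a := by
    rw [Matrix.mul_assoc, Matrix.mul_apply (N := N * N)]
    exact Finset.sum_congr rfl fun b _ => by rw [Sk_sq hN a b]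
  have e5 : ∑ b, (1 : Matrix (Fin n) (Fin n) ℂ) i b * (N * N * N + (4 : ℂ) • N) a b =
      -(N * N * N + (4 : ℂ) • N) i a := by
    rw [Finset.sum_eq_single i]
    · rw [Matrix.one_apply_eq, one_mul, Sk_apply hP a i]
    · intro b _ hb
      rw [Matrix.one_apply_ne (Ne.symm hb), zero_mul]
    · intro hh
      exact absurd (Finset.mem_univ _) hh
  simp only [Finset.sum_add_distrib, Finset.sum_sub_distrib, ← Finset.mul_sum] at h1
  have e1' : (N * N * N + (4 : ℂ) • N) i a * ∑ b, (1 : Matrix (Fin n) (Fin n) ℂ) b b =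
      n * (N * N * N + (4 : ℂ) • N) i a := by
    rw [Finset.mul_sum]
    exact e1
  have e6 : ∑ b, N b b = 0 := Finset.sum_eq_zero fun b _ => Sk_diag hN b
  have e7 : ∑ b, (N * N * N + (4 : ℂ) • N) b b = 0 :=
    Finset.sum_eq_zero fun b _ => Sk_diag hP b
  have e8 : ∑ b, (N * N) b b = (N * N).trace := rfl
  rw [e1', e2, e3, e4, e5, e6, e7, e8] at h1
  linear_combination h1

/-- The main identity: the cube. -/
theorem cube {N : Matrix (Fin n) (Fin n) ℂ} (hN : N ∈ Sk n) (hn : n ≠ 8)
    (ht : (N * N).trace = -8)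
    (h : ∀ X ∈ Sk n, N * (N * (N * X - X * N) - (N * X - X * N) * N) -
      (N * (N * X - X * N) - (N * X - X * N) * N) * N = -(4 : ℂ) • (N * X - X * N)) :
    N * N * N = -(4 : ℂ) • N := by
  ext i a
  have h1 := contract hN h i a
  rw [ht, Matrix.add_apply, Matrix.smul_apply, smul_eq_mul] at h1
  have h2 : ((n : ℂ) - 8) * ((N * N * N) i a + 4 * N i a) = 0 := by linear_combination h1
  have h3 : ((n : ℂ) - 8) ≠ 0 := by
    rw [sub_ne_zero]
    exact_mod_cast hn
  have h4 := (mul_eq_zero.1 h2).resolve_left h3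
  rw [Matrix.smul_apply, smul_eq_mul]
  linear_combination h4

/-- The Pfaffians vanish. -/
theorem pfaff {N : Matrix (Fin n) (Fin n) ℂ} (hN : N ∈ Sk n) (hn : n ≠ 8)
    (ht : (N * N).trace = -8)
    (h : ∀ X ∈ Sk n, N * (N * (N * X - X * N) - (N * X - X * N) * N) -
      (N * (N * X - X * N) - (N * X - X * N) * N) * N = -(4 : ℂ) • (N * X - X * N))
    (k a b j : Fin n) : N k a * N b j + N k b * N j a + N k j * N a b = 0 := by
  have hc := cube hN hn ht h
  have h0 : N * N * N + (4 : ℂ) • N = 0 := by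
    rw [hc, ← add_smul]
    norm_num
  have h2 : ∀ i j a b, (N * N) i a * N b j - (N * N) i b * N a j =
      N i a * (N * N) b j - N i b * (N * N) a j := by
    intro i j a b
    have h3 := ident h a b i j
    rw [h0] at h3
    simp only [Matrix.zero_apply] at h3
    linear_combination (-1 / 3 : ℂ) * h3
  have h4 : ∀ k a b j, (N * N) k a * (N * N) b j - (N * N) k b * (N * N) a j =
      -4 * (N k a * N b j - N k b * N a j) := by
    intro k a b j
    have h5 : ∑ i, N k i * ((N * N) i a * N b j - (N * N) i b * N a j) =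
        ∑ i, N k i * (N i a * (N * N) b j - N i b * (N * N) a j) :=
      Finset.sum_congr rfl fun i _ => by rw [h2]
    have e1 : ∀ c, ∑ i, N k i * (N * N) i c = -4 * N k c := by
      intro c
      rw [← Matrix.mul_apply, ← Matrix.mul_assoc, hc, Matrix.smul_apply, smul_eq_mul]
    have e2 : ∀ c, ∑ i, N k i * N i c = (N * N) k c := fun c => (Matrix.mul_apply).symm
    have e3 : ∑ i, N k i * ((N * N) i a * N b j - (N * N) i b * N a j) =
        (∑ i, N k i * (N * N) i a) * N b j - (∑ i, N k i * (N * N) i b) * N a j := by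
      rw [Finset.sum_mul, Finset.sum_mul, ← Finset.sum_sub_distrib]
      exact Finset.sum_congr rfl fun i _ => by ring
    have e4 : ∑ i, N k i * (N i a * (N * N) b j - N i b * (N * N) a j) =
        (∑ i, N k i * N i a) * (N * N) b j - (∑ i, N k i * N i b) * (N * N) a j := by
      rw [Finset.sum_mul, Finset.sum_mul, ← Finset.sum_sub_distrib]
      exact Finset.sum_congr rfl fun i _ => by ring
    rw [e3, e4, e1, e1, e2, e2] at h5
    linear_combination -h5
  have i1 := h4 k a b j
  have i2 := h4 k b j a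
  have i3 := h4 k j a b
  have s1 := Sk_sq hN b j
  have s2 := Sk_sq hN j a
  have s3 := Sk_sq hN a b
  have t1 := Sk_apply hN b j
  have t2 := Sk_apply hN j a
  have t3 := Sk_apply hN a b
  have g1 : N j b = - N b j := Sk_apply hN j b
  have g2 : N a j = - N j a := Sk_apply hN a j
  have g3 : N b a = - N a b := Sk_apply hN b a
  rw [g2] at i1
  rw [g3] at i2
  rw [g1] at i3
  linear_combination (1 / 8 : ℂ) * (i1 + i2 + i3) - (1 / 8 : ℂ) *
    ((N * N) k a * s1 + (N * N) k b * s2 + (N * N) k j * s3)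

end Pool.Agent.Helper883K
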