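import Pool.Agent.Helper883_K3.Multi

set_option autoImplicit false
set_option linter.unusedSectionVars false
set_option linter.unusedSimpArgs false
set_option linter.unusedVariables false

/-!
# Isomorphisms between sums of orthogonal Lie algebras
-/

open Matrix Module

noncomputable section

namespace Pool.Agent.Helper883K

open Pool.Agent.Y102.SP

variable {k l n m : ℕ}

theorem adL_single (Z : Fin k → Sk n) (σ : Fin k) (Y : Sk n) :
    adL Z (Pi.single σ Y) = Pi.single σ (adS (Z σ) Y) := by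
  funext τ
  unfold adL
  by_cases h : τ = σ
  · subst h
    rw [Pi.single_eq_same, Pi.single_eq_same]
  · rw [Pi.single_eq_of_ne h, Pi.single_eq_of_ne h, map_zero]

theorem adS_zero_left (Y : Sk n) : adS 0 Y = 0 := by
  apply Subtype.ext
  rw [adS_coe]
  change 0 * Y.1 - Y.1 * 0 = 0
  rw [Matrix.zero_mul, Matrix.mul_zero, sub_zero]

variable {U V : Type} [AddCommGroup U] [Module ℂ U] [AddCommGroup V] [Module ℂ V]
  [FiniteDimensional ℂ U] [Nontrivial U] [FiniteDimensional ℂ V] [Nontrivial V]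

/-- **Isomorphisms between sums of orthogonal Lie algebras.** -/
theorem matching (hn : n = 3 ∨ 5 ≤ n) (hm : m = 3 ∨ 5 ≤ m) {E : Fin n → Module.End ℂ U} (hE : CE E)
    {F : Fin m → Module.End ℂ V} (hF : CE F) (ψ : (Fin k → Sk n) ≃ₗ[ℂ] (Fin l → Sk m))
    (hψ : ∀ X Y, ψ (adL X Y) = adL (ψ X) (ψ Y)) :
    ∃ π : Fin k → Fin l, Function.Injective π ∧ ∀ σ, ∃ θ : Sk n ≃ₗ[ℂ] Sk m,
      (∀ X Y, θ (adS X Y) = adS (θ X) (θ Y)) ∧ ∀ X, ψ (Pi.single σ X) = Pi.single (π σ) (θ X) := by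
  let Ψ : Fin k → Fin l → (Sk n →ₗ[ℂ] Sk m) := fun σ τ =>
    (LinearMap.proj τ : (Fin l → Sk m) →ₗ[ℂ] Sk m) ∘ₗ ψ.toLinearMap ∘ₗ
      (LinearMap.single ℂ (fun _ : Fin k => Sk n) σ)
  have hΨ : ∀ σ τ X, Ψ σ τ X = ψ (Pi.single σ X) τ := fun σ τ X => rfl
  have hsum : ∀ Z τ, ψ Z τ = ∑ σ, Ψ σ τ (Z σ) := by
    intro Z τ
    conv_lhs => rw [← Finset.univ_sum_single Z]
    rw [map_sum, Finset.sum_apply]
    rfl
  have hadj : ∀ Z σ Y τ, adS (ψ Z τ) (Ψ σ τ Y) = Ψ σ τ (adS (Z σ) Y) := by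
    intro Z σ Y τ
    rw [hΨ, hΨ, ← adL_single, hψ]
    rfl
  have hhom : ∀ σ τ X Y, Ψ σ τ (adS X Y) = adS (Ψ σ τ X) (Ψ σ τ Y) := by
    intro σ τ X Y
    have h := hadj (Pi.single σ X) σ Y τ
    rw [Pi.single_eq_same] at h
    exact h.symm
  have hcross : ∀ σ σ' τ X Y, σ ≠ σ' → adS (Ψ σ τ X) (Ψ σ' τ Y) = 0 := by
    intro σ σ' τ X Y h
    have h1 := hadj (Pi.single σ X) σ' Y τ
    rw [Pi.single_eq_of_ne (Ne.symm h), adS_zero_left, map_zero] at h1
    exact h1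
  have hker : ∀ σ τ, Ψ σ τ ≠ 0 → Function.Injective (Ψ σ τ) := by
    intro σ τ h
    rw [← LinearMap.ker_eq_bot]
    refine (simple_Sk hn hE (LinearMap.ker (Ψ σ τ)) fun X Y hY => ?_).resolve_right fun h1 => ?_
    · rw [LinearMap.mem_ker] at hY ⊢
      rw [hhom, hY, map_zero]
    · exact h (LinearMap.ker_eq_top.1 h1)
  have hran : ∀ σ τ, Ψ σ τ ≠ 0 → Function.Surjective (Ψ σ τ) := by
    intro σ τ h
    rw [← LinearMap.range_eq_top]
    refine (simple_Sk hm hF (LinearMap.range (Ψ σ τ)) fun X Y hY => ?_).resolve_left fun h1 => ?_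
    · obtain ⟨Y', rfl⟩ := hY
      have h2 := hadj (ψ.symm (Pi.single τ X)) σ Y' τ
      rw [LinearEquiv.apply_symm_apply, Pi.single_eq_same] at h2
      exact ⟨_, h2.symm⟩
    · exact h (LinearMap.range_eq_bot.1 h1)
  have h01n : (⟨0, by omega⟩ : Fin n) ≠ ⟨1, by omega⟩ := by simp
  have h01m : (⟨0, by omega⟩ : Fin m) ≠ ⟨1, by omega⟩ := by simp
  have h2 : ∀ σ, ∃ τ, Ψ σ τ ≠ 0 := by
    intro σ
    by_contra hcon
    push Not at hcon
    apply el2_ne hE h01n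
    have h3 : (Pi.single σ (el2 ⟨0, by omega⟩ ⟨1, by omega⟩) : Fin k → Sk n) = 0 := by
      apply ψ.injective
      rw [map_zero]
      funext τ
      rw [← hΨ, hcon]
      rfl
    have h4 := congrFun h3 σ
    rw [Pi.single_eq_same] at h4
    exact h4
  have h3 : ∀ σ σ' τ, Ψ σ τ ≠ 0 → Ψ σ' τ ≠ 0 → σ = σ' := by
    intro σ σ' τ h h'
    by_contra hne
    apply el2_ne hF h01m
    refine centre_Sk (by omega) fun Y => ?_
    obtain ⟨X, hX⟩ := hran σ τ h (el2 ⟨0, by omega⟩ ⟨1, by omega⟩)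
    obtain ⟨Y', rfl⟩ := hran σ' τ h' Y
    rw [← hX]
    exact hcross σ σ' τ X Y' hne
  have h4 : ∀ σ τ τ', Ψ σ τ ≠ 0 → Ψ σ τ' ≠ 0 → τ = τ' := by
    intro σ τ τ' h h'
    by_contra hne
    apply el2_ne hF h01m
    let Y : Sk m := el2 ⟨0, by omega⟩ ⟨1, by omega⟩
    let Z := ψ.symm (Pi.single τ Y)
    have hZ : ψ Z = Pi.single τ Y := LinearEquiv.apply_symm_apply _ _
    have e1 : ∀ τ, Ψ σ τ ≠ 0 → ψ Z τ = Ψ σ τ (Z σ) := by
      intro τ h
      rw [hsum, Finset.sum_eq_single σ]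
      · intro σ' _ hσ'
        have h5 : Ψ σ' τ = 0 := by
          by_contra h6
          exact hσ' (h3 σ' σ τ h6 h)
        rw [h5]
        rfl
      · intro h
        exact absurd (Finset.mem_univ _) h
    have e2 := e1 τ' h'
    rw [hZ, Pi.single_eq_of_ne (Ne.symm hne)] at e2
    have e3 : Z σ = 0 := hker σ τ' h' (by rw [← e2, map_zero])
    have e4 := e1 τ h
    rw [hZ, Pi.single_eq_same, e3, map_zero] at e4
    exact e4
  choose π hπ using h2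
  refine ⟨π, fun σ σ' h => h3 σ σ' (π σ) (hπ σ) (by rw [h]; exact hπ σ'), fun σ => ?_⟩
  refine ⟨LinearEquiv.ofBijective (Ψ σ (π σ)) ⟨hker _ _ (hπ σ), hran _ _ (hπ σ)⟩,
    hhom σ (π σ), fun X => ?_⟩
  funext τ
  by_cases h : τ = π σ
  · subst h
    rw [Pi.single_eq_same]
    rfl
  · rw [Pi.single_eq_of_ne h, ← hΨ]
    have h5 : Ψ σ τ = 0 := by
      by_contra h6
      exact h (h4 σ τ (π σ) h6 (hπ σ))
    rw [h5]
    rfl

end Pool.Agent.Helper883K
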