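import Pool.Agent.Helper883_K3.Cpr

set_option autoImplicit false
set_option linter.unusedSectionVars false
set_option linter.unusedSimpArgs false
set_option linter.unusedVariables false

/-!
# Several colours
-/

open Matrix Module

noncomputable section

namespace Pool.Agent.Helper883K

open Pool.Agent.Y102.SP

section inter

variable {U V : Type} [AddCommGroup U] [Module ℂ U] [AddCommGroup V] [Module ℂ V]

/-- Intertwining operators: the general construction. -/
theorem exists_interG [Nontrivial U] [Nontrivial V] {ι : Type} [DecidableEq ι]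
    {x z : ι → Module.End ℂ U} {y : ι → Module.End ℂ V} (hx : ∀ i, x i * x i = -1)
    (hy : ∀ i, y i * y i = -1)
    (hxy : ∀ i j, i ≠ j → (x i * x j = x j * x i ∧ y i * y j = y j * y i) ∨
      (x i * x j = -(x j * x i) ∧ y i * y j = -(y j * y i)))
    (hz : ∀ i, z i * z i = 1) (hzx : ∀ i, z i * x i = -(x i * z i))
    (hzz : ∀ i j, i ≠ j → z i * x j = x j * z i) (S : Finset ι) :
    ∃ T : U →ₗ[ℂ] V, T ≠ 0 ∧ ∀ i ∈ S, (y i) ∘ₗ T = T ∘ₗ (x i) := by
  have ax : ∀ i u, x i (x i u) = -u := fun i u => by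
    rw [← Module.End.mul_apply, hx]; rfl
  have ay : ∀ i u, y i (y i u) = -u := fun i u => by
    rw [← Module.End.mul_apply, hy]; rfl
  induction S using Finset.induction_on with
  | empty =>
    obtain ⟨T, hT⟩ := exists_ne_zero (U := U) (V := V)
    exact ⟨T, hT, fun a ha => absurd ha (Finset.notMem_empty a)⟩
  | insert a S ha ih =>
    obtain ⟨T, hT, hTS⟩ := ih
    have hTS' : ∀ b ∈ S, ∀ u, y b (T u) = T (x b u) := fun b hb u =>
      LinearMap.congr_fun (hTS b hb) u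
    have hba : ∀ b ∈ S, b ≠ a := fun b hb h => ha (by rw [← h]; exact hb)
    by_cases h0 : T - (y a) ∘ₗ T ∘ₗ (x a) = 0
    · have h1 : ∀ u, T u = y a (T (x a u)) := fun u =>
        LinearMap.congr_fun (sub_eq_zero.1 h0) u
      have h2 : ∀ u, y a (T u) = -T (x a u) := fun u => by
        conv_lhs => rw [h1 u]
        rw [ay]
      refine ⟨T ∘ₗ (z a), fun h => hT ?_, fun b hb => ?_⟩
      · refine LinearMap.ext fun u => ?_
        have h3 := LinearMap.congr_fun h (z a u)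
        rw [LinearMap.comp_apply, ← Module.End.mul_apply, hz] at h3
        exact h3
      · rw [Finset.mem_insert] at hb
        refine LinearMap.ext fun u => ?_
        rw [LinearMap.comp_apply, LinearMap.comp_apply, LinearMap.comp_apply,
          LinearMap.comp_apply, ← Module.End.mul_apply (z a)]
        rcases hb with rfl | hb
        · rw [h2, hzx, LinearMap.neg_apply, map_neg, Module.End.mul_apply]
        · rw [hTS' b hb, hzz a b (Ne.symm (hba b hb)), Module.End.mul_apply]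
    · refine ⟨_, h0, fun b hb => ?_⟩
      rw [Finset.mem_insert] at hb
      refine LinearMap.ext fun u => ?_
      rcases hb with rfl | hb
      · simp only [LinearMap.comp_apply, LinearMap.sub_apply, map_sub, ax, ay, map_neg]
        abel
      · rcases hxy b a (hba b hb) with ⟨h4, h5⟩ | ⟨h4, h5⟩
        · have h4' : ∀ v, x b (x a v) = x a (x b v) := fun v => LinearMap.congr_fun h4 v
          have h5' : ∀ v, y b (y a v) = y a (y b v) := fun v => LinearMap.congr_fun h5 v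
          simp only [LinearMap.comp_apply, LinearMap.sub_apply, map_sub, h5', hTS' b hb, h4']
        · have h4' : ∀ v, x b (x a v) = -(x a (x b v)) := fun v => LinearMap.congr_fun h4 v
          have h5' : ∀ v, y b (y a v) = -(y a (y b v)) := fun v => LinearMap.congr_fun h5 v
          simp only [LinearMap.comp_apply, LinearMap.sub_apply, map_sub, h5', hTS' b hb, h4',
            map_neg, neg_neg]

/-- An operator which intertwines the generators. -/
theorem tw_of_gen [FiniteDimensional ℂ U] [Nontrivial U] {n : ℕ} {E : Fin n → Module.End ℂ U}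
    {F : Fin n → Module.End ℂ V} (hE : CE E) (hF : CE F) (ψ : Sk n →ₗ[ℂ] Sk n)
    (hψ : ∀ X Y, ψ (adS X Y) = adS (ψ X) (ψ Y)) (o : Fin n) {T : U →ₗ[ℂ] V}
    (h3 : ∀ a, a ≠ o → (Q F (ψ (el2 o a)).1) ∘ₗ T = T ∘ₗ (Q E (el2 o a).1)) (M : Sk n) :
    (Q F (ψ M).1) ∘ₗ T = T ∘ₗ (Q E M.1) := by
  have had : ∀ M N : Sk n, (Q F (ψ M).1) ∘ₗ T = T ∘ₗ (Q E M.1) →
      (Q F (ψ N).1) ∘ₗ T = T ∘ₗ (Q E N.1) →
      (Q F (ψ (adS M N)).1) ∘ₗ T = T ∘ₗ (Q E (adS M N).1) := by
    intro M N hM hN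
    rw [hψ, adS_coe, adS_coe, ← Q_br hF (ψ M).2, ← Q_br hE M.2]
    have e1 : ∀ (p q : Module.End ℂ V) (r s : Module.End ℂ U), p ∘ₗ T = T ∘ₗ r → q ∘ₗ T = T ∘ₗ s →
        (p * q) ∘ₗ T = T ∘ₗ (r * s) := by
      intro p q r s h h'
      rw [Module.End.mul_eq_comp, Module.End.mul_eq_comp, LinearMap.comp_assoc, h',
        ← LinearMap.comp_assoc, h, LinearMap.comp_assoc]
    rw [LinearMap.sub_comp, LinearMap.comp_sub, e1 _ _ _ _ hM hN, e1 _ _ _ _ hN hM]
  have h4 : ∀ a b, a ≠ b → (Q F (ψ (el2 a b)).1) ∘ₗ T = T ∘ₗ (Q E (el2 a b).1) := by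
    intro a b hab
    by_cases ha : a = o
    · subst ha
      exact h3 b (Ne.symm hab)
    · by_cases hb : b = o
      · subst hb
        have e1 : el2 a b = -el2 b a := by
          apply Subtype.ext
          rw [Submodule.coe_neg, el2_coe, el2_coe]
          unfold el
          rw [← smul_neg, neg_sub]
        rw [e1, map_neg, Submodule.coe_neg, Submodule.coe_neg, map_neg, map_neg,
          LinearMap.neg_comp, LinearMap.comp_neg, h3 a ha]
      · have e1 := had _ _ (h3 a ha) (h3 b hb)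
        rw [adS_el2 hE ha hb hab, map_smul, Submodule.coe_smul, Submodule.coe_smul, map_smul,
          map_smul, LinearMap.smul_comp, LinearMap.comp_smul] at e1
        exact smul_right_injective _ (by norm_num : (-2 : ℂ) ≠ 0) e1
  have h5 : ∀ a b, (Q F (ψ (M.1 a b • el2 a b)).1) ∘ₗ T = T ∘ₗ (Q E (M.1 a b • el2 a b : Sk n).1) := by
    intro a b
    by_cases hab : a = b
    · subst hab
      rw [Sk_diag M.2, zero_smul, map_zero, Submodule.coe_zero, map_zero, map_zero,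
        LinearMap.zero_comp, LinearMap.comp_zero]
    · rw [map_smul, Submodule.coe_smul, Submodule.coe_smul, map_smul, map_smul,
        LinearMap.smul_comp, LinearMap.comp_smul, h4 a b hab]
  have h6 : ∀ (L : Sk n), ((LinearMap.lcomp ℂ V T) ∘ₗ (Q F) ∘ₗ (Sk n).subtype ∘ₗ ψ) L =
      (Q F (ψ L).1) ∘ₗ T := fun L => rfl
  have h7 : ∀ (L : Sk n), ((LinearMap.llcomp ℂ U U V T) ∘ₗ (Q E) ∘ₗ (Sk n).subtype) L =
      T ∘ₗ (Q E L.1) := fun L => rfl
  rw [← h6, ← h7, Sk_sum M, map_smul, map_smul, map_sum, map_sum]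
  congr 1
  refine Finset.sum_congr rfl fun a _ => ?_
  rw [map_sum, map_sum]
  refine Finset.sum_congr rfl fun b _ => ?_
  rw [h6, h7, h5]

end inter

section colours

variable {U : Type} [AddCommGroup U] [Module ℂ U] {k n : ℕ}

/-- A Clifford system with `k` colours. -/
structure CM (E : Fin k → Fin n → Module.End ℂ U) : Prop where
  sq : ∀ σ a, E σ a * E σ a = 1
  anti : ∀ σ a τ b, (σ, a) ≠ (τ, b) → E σ a * E τ b = -(E τ b * E σ a)

variable {E : Fin k → Fin n → Module.End ℂ U}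

theorem CM.ce (h : CM E) (σ : Fin k) : CE (E σ) where
  sq := h.sq σ
  anti a b hab := h.anti σ a σ b fun h1 => hab (Prod.ext_iff.1 h1).2

/-- The sum of the Lie algebras of the colours. -/
def soM (E : Fin k → Fin n → Module.End ℂ U) : Submodule ℂ (Module.End ℂ U) :=
  Submodule.span ℂ {x | ∃ σ a b, a ≠ b ∧ x = E σ a * E σ b}

theorem CM.comm1 (h : CM E) {σ τ : Fin k} (hst : σ ≠ τ) (a b c : Fin n) :
    E σ a * E σ b * E τ c = E τ c * (E σ a * E σ b) := by
  have h1 : ∀ a, E σ a * E τ c = -(E τ c * E σ a) := fun a =>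
    h.anti σ a τ c fun h2 => hst (Prod.ext_iff.1 h2).1
  rw [mul_assoc, h1, mul_neg, ← mul_assoc, h1, neg_mul, neg_neg, mul_assoc]

theorem CM.comm2 (h : CM E) {σ τ : Fin k} (hst : σ ≠ τ) (M : Matrix (Fin n) (Fin n) ℂ)
    (c : Fin n) : Q (E σ) M * E τ c = E τ c * Q (E σ) M := by
  rw [Q_apply, smul_mul_assoc, mul_smul_comm, Finset.sum_mul, Finset.mul_sum]
  congr 1
  refine Finset.sum_congr rfl fun a _ => ?_
  rw [Finset.sum_mul, Finset.mul_sum]
  refine Finset.sum_congr rfl fun b _ => ?_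
  rw [smul_mul_assoc, mul_smul_comm, h.comm1 hst]

theorem CM.comm3 (h : CM E) {σ τ : Fin k} (hst : σ ≠ τ) (M N : Matrix (Fin n) (Fin n) ℂ) :
    Q (E σ) M * Q (E τ) N = Q (E τ) N * Q (E σ) M := by
  rw [Q_apply N, smul_mul_assoc, mul_smul_comm, Finset.sum_mul, Finset.mul_sum]
  congr 1
  refine Finset.sum_congr rfl fun a _ => ?_
  rw [Finset.sum_mul, Finset.mul_sum]
  refine Finset.sum_congr rfl fun b _ => ?_
  rw [smul_mul_assoc, mul_smul_comm, ← mul_assoc, h.comm2 hst, mul_assoc, h.comm2 hst, mul_assoc]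

/-- The representation. -/
def QM (E : Fin k → Fin n → Module.End ℂ U) : (Fin k → Sk n) →ₗ[ℂ] Module.End ℂ U :=
  ∑ σ, (Q (E σ)) ∘ₗ (Sk n).subtype ∘ₗ (LinearMap.proj σ : (Fin k → Sk n) →ₗ[ℂ] Sk n)

theorem QM_apply (X : Fin k → Sk n) : QM E X = ∑ σ, Q (E σ) (X σ).1 := by
  unfold QM
  rw [LinearMap.sum_apply]
  rfl

/-- The bracket. -/
def adL (X Y : Fin k → Sk n) : Fin k → Sk n := fun σ => adS (X σ) (Y σ)

theorem QM_single (σ : Fin k) (X : Sk n) : QM E (Pi.single σ X) = Q (E σ) X.1 := by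
  rw [QM_apply, Finset.sum_eq_single σ]
  · rw [Pi.single_eq_same]
  · intro τ _ hτ
    rw [Pi.single_eq_of_ne hτ]
    exact map_zero _
  · intro h
    exact absurd (Finset.mem_univ _) h

theorem QM_br (h : CM E) (X Y : Fin k → Sk n) :
    QM E X * QM E Y - QM E Y * QM E X = QM E (adL X Y) := by
  have h1 : ∀ σ τ, σ ≠ τ → Q (E σ) (X σ).1 * Q (E τ) (Y τ).1 -
      Q (E τ) (Y τ).1 * Q (E σ) (X σ).1 = 0 := fun σ τ hst => by
    rw [h.comm3 hst, sub_self]
  have h2 : QM E X * QM E Y - QM E Y * QM E X = ∑ σ, ∑ τ, (Q (E σ) (X σ).1 * Q (E τ) (Y τ).1 -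
      Q (E τ) (Y τ).1 * Q (E σ) (X σ).1) := by
    simp only [Finset.sum_sub_distrib]
    rw [QM_apply, QM_apply, Finset.sum_mul_sum, Finset.sum_mul_sum]
    congr 1
    rw [Finset.sum_comm]
  rw [h2, QM_apply]
  refine Finset.sum_congr rfl fun σ _ => ?_
  rw [Finset.sum_eq_single σ]
  · rw [Q_br (h.ce σ) (X σ).2]
    rfl
  · intro τ _ hτ
    exact h1 σ τ (Ne.symm hτ)
  · intro h
    exact absurd (Finset.mem_univ _) h

theorem QM_inj [FiniteDimensional ℂ U] [Nontrivial U] (h : CM E) {X Y : Fin k → Sk n}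
    (hXY : QM E X = QM E Y) : X = Y := by
  rw [← sub_eq_zero] at hXY ⊢
  rw [← map_sub] at hXY
  generalize X - Y = Z at hXY ⊢
  funext σ
  apply Subtype.ext
  refine Q_inj (h.ce σ) (Z σ).2 ?_
  have h2 : ∀ c, ∑ a, (Z σ).1 a c • E σ a = 0 := by
    intro c
    rw [← Q_comm (h.ce σ) (Z σ).2]
    have h3 : QM E Z * E σ c - E σ c * QM E Z = Q (E σ) (Z σ).1 * E σ c - E σ c * Q (E σ) (Z σ).1 := by
      rw [QM_apply, Finset.sum_mul, Finset.mul_sum, ← Finset.sum_sub_distrib,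
        Finset.sum_eq_single σ]
      · intro τ _ hτ
        rw [h.comm2 hτ, sub_self]
      · intro h
        exact absurd (Finset.mem_univ _) h
    rw [← h3, hXY, zero_mul, mul_zero, sub_self]
  have h3 : (4 : ℂ) • Q (E σ) (Z σ).1 = 0 := by
    rw [Q_four (h.ce σ) (Z σ).2]
    refine Finset.sum_eq_zero fun c _ => ?_
    rw [h2, zero_mul]
  exact (smul_eq_zero.1 h3).resolve_left (by norm_num)

theorem QM_mem (h : CM E) (X : Fin k → Sk n) : QM E X ∈ soM E := by
  rw [QM_apply]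
  refine Submodule.sum_mem _ fun σ _ => ?_
  have h1 : soE (E σ) ≤ soM E := by
    refine Submodule.span_le.2 ?_
    rintro _ ⟨a, b, hab, rfl⟩
    exact Submodule.subset_span ⟨σ, a, b, hab, rfl⟩
  exact h1 (Q_mem (X σ).2)

theorem exists_QM (h : CM E) {x : Module.End ℂ U} (hx : x ∈ soM E) : ∃ X, QM E X = x := by
  induction hx using Submodule.span_induction with
  | mem x hx =>
    obtain ⟨σ, a, b, hab, rfl⟩ := hx
    exact ⟨Pi.single σ (el2 a b), by rw [QM_single, Q_el2 (h.ce σ) hab]⟩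
  | zero => exact ⟨0, map_zero _⟩
  | add x y _ _ hx hy =>
    obtain ⟨X, rfl⟩ := hx
    obtain ⟨Y, rfl⟩ := hy
    exact ⟨X + Y, map_add _ _ _⟩
  | smul c x _ hx =>
    obtain ⟨X, rfl⟩ := hx
    exact ⟨c • X, map_smul _ _ _⟩

/-- The Lie algebra of skew-symmetric matrices is simple. -/
theorem simple_Sk5 {V : Type} [AddCommGroup V] [Module ℂ V] [FiniteDimensional ℂ V] [Nontrivial V]
    (hn : 5 ≤ n) {F : Fin n → Module.End ℂ V} (hF : CE F)
    (J : Submodule ℂ (Sk n)) (hJ : ∀ X, ∀ Y ∈ J, adS X Y ∈ J) : J = ⊥ ∨ J = ⊤ := by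
  have h1 := so_simple hn hF (J.map ((Q F) ∘ₗ (Sk n).subtype)) (by
    rintro _ ⟨Y, -, rfl⟩
    exact Q_mem Y.2) (by
    rintro x hx _ ⟨Y, hY, rfl⟩
    obtain ⟨X, hX, rfl⟩ := exists_Q hF hx
    exact ⟨adS ⟨X, hX⟩ Y, hJ ⟨X, hX⟩ Y hY, (Q_br hF hX Y.1).symm⟩)
  rcases h1 with h1 | h1
  · left
    rw [eq_bot_iff]
    intro Y hY
    have h2 : Q F Y.1 ∈ J.map ((Q F) ∘ₗ (Sk n).subtype) := ⟨Y, hY, rfl⟩
    rw [h1, Submodule.mem_bot] at h2
    rw [Submodule.mem_bot]
    exact Subtype.ext (Q_inj hF Y.2 h2)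
  · right
    rw [eq_top_iff]
    intro Y _
    have h2 : Q F Y.1 ∈ J.map ((Q F) ∘ₗ (Sk n).subtype) := by
      rw [h1]
      exact Q_mem Y.2
    obtain ⟨Z, hZ, hZY⟩ := h2
    have h3 : Z = Y := by
      apply Subtype.ext
      apply sub_eq_zero.1
      exact Q_inj hF ((Sk n).sub_mem Z.2 Y.2) (by
        rw [map_sub, sub_eq_zero]
        exact hZY)
    rw [← h3]
    exact hZ

theorem el2_ne {U : Type} [AddCommGroup U] [Module ℂ U] [Nontrivial U]
    {E : Fin n → Module.End ℂ U} (hE : CE E) {a b : Fin n} (hab : a ≠ b) : el2 a b ≠ 0 := by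
  intro h
  have h1 := Q_el2 hE hab
  rw [h] at h1
  have h2 := simple_sq hE hab
  rw [← h1] at h2
  change Q E 0 * Q E 0 = -1 at h2
  rw [map_zero, mul_zero] at h2
  exact one_ne_zero (neg_eq_zero.1 h2.symm)

theorem el2_swap (a b : Fin n) : el2 a b = -el2 b a := by
  apply Subtype.ext
  rw [Submodule.coe_neg, el2_coe, el2_coe]
  unfold el
  rw [← smul_neg, neg_sub]

theorem adS_swap (X Y : Sk n) : adS X Y = -adS Y X := by
  apply Subtype.ext
  rw [Submodule.coe_neg, adS_coe, adS_coe, neg_sub]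

theorem adS_neg_left (X Y : Sk n) : adS (-X) Y = -adS X Y := by
  rw [adS_swap, map_neg, adS_swap Y X, neg_neg]

/-- The components of the elements of an ideal of `so(3)`. -/
theorem simple3_aux {V : Type} [AddCommGroup V] [Module ℂ V] [FiniteDimensional ℂ V]
    [Nontrivial V] {F : Fin 3 → Module.End ℂ V} (hF : CE F) (J : Submodule ℂ (Sk 3))
    (hJ : ∀ X, ∀ Y ∈ J, adS X Y ∈ J) {o a b : Fin 3} (ha : a ≠ o) (hb : b ≠ o) (hab : a ≠ b)
    {α β γ : ℂ} (h : α • el2 o a + β • el2 o b + γ • el2 a b ∈ J) : α • el2 o a ∈ J := by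
  have e0 : adS (el2 o a) (el2 o a) = 0 := by
    apply Subtype.ext
    rw [adS_coe, sub_self]
    rfl
  have e1 : adS (el2 o a) (el2 o b) = (-2 : ℂ) • el2 a b := adS_el2 hF ha hb hab
  have e2 : adS (el2 o a) (el2 a b) = (2 : ℂ) • el2 o b := by
    have h1 := adS_el2 hF (Ne.symm ha) (Ne.symm hab) (Ne.symm hb)
    rw [el2_swap a o, adS_neg_left] at h1
    rw [← neg_neg (adS (el2 o a) (el2 a b)), h1]
    module
  have h2 := hJ (el2 o a) _ (hJ (el2 o a) _ h)
  have h3 : adS (el2 o a) (adS (el2 o a) (α • el2 o a + β • el2 o b + γ • el2 a b)) =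
      (-4 : ℂ) • (β • el2 o b + γ • el2 a b) := by
    simp only [map_add, map_smul, e0, e1, e2, map_zero, smul_zero]
    module
  rw [h3] at h2
  have h4 := J.sub_mem h (J.smul_mem (-1 / 4 : ℂ) h2)
  have h5 : α • el2 o a + β • el2 o b + γ • el2 a b -
      (-1 / 4 : ℂ) • (-4 : ℂ) • (β • el2 o b + γ • el2 a b) = α • el2 o a := by module
  rw [h5] at h4
  exact h4

theorem Sk3_eq (M : Sk 3) : M = (M.1 0 1 / 2) • el2 0 1 + (M.1 0 2 / 2) • el2 0 2 +
    (M.1 1 2 / 2) • el2 1 2 := by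
  apply Subtype.ext
  have h1 : ∀ i j, M.1 j i = -M.1 i j := fun i j => by
    have h2 := congrFun (congrFun (mem_Sk.1 M.2) i) j
    exact h2
  have h0 : ∀ i, M.1 i i = 0 := fun i => Sk_diag M.2 i
  change M.1 = (M.1 0 1 / 2) • ((2 : ℂ) • el 0 1) + (M.1 0 2 / 2) • ((2 : ℂ) • el 0 2) +
    (M.1 1 2 / 2) • ((2 : ℂ) • el 1 2)
  ext i j
  fin_cases i <;> fin_cases j <;>
    simp [el, Matrix.single_apply, h0, h1 0 1, h1 0 2, h1 1 2]

theorem simple_Sk3 {V : Type} [AddCommGroup V] [Module ℂ V] [FiniteDimensional ℂ V]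
    [Nontrivial V] {F : Fin 3 → Module.End ℂ V} (hF : CE F) (J : Submodule ℂ (Sk 3))
    (hJ : ∀ X, ∀ Y ∈ J, adS X Y ∈ J) : J = ⊥ ∨ J = ⊤ := by
  by_cases h0 : J = ⊥
  · exact Or.inl h0
  right
  obtain ⟨Y, hY, hY0⟩ := (Submodule.ne_bot_iff J).1 h0
  -- one element of rank two is sufficient
  have hall : ∀ {o a b : Fin 3}, a ≠ o → b ≠ o → a ≠ b → el2 o a ∈ J → el2 o b ∈ J := by
    intro o a b ha hb hab h
    have h1 := adS_el2 hF (Ne.symm ha) (Ne.symm hab) (Ne.symm hb)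
    rw [el2_swap a o, adS_neg_left] at h1
    have h2 := hJ (el2 a b) _ h
    rw [adS_swap, h1] at h2
    have h3 := J.smul_mem (-1 / 2 : ℂ) h2
    rwa [smul_smul, show (-1 / 2 : ℂ) * (-2) = 1 by norm_num, one_smul] at h3
  have hsw : ∀ {o a : Fin 3}, el2 o a ∈ J → el2 a o ∈ J := by
    intro o a h
    rw [el2_swap]
    exact J.neg_mem h
  have htop : el2 0 1 ∈ J → el2 0 2 ∈ J → el2 1 2 ∈ J → J = ⊤ := by
    intro h1 h2 h3
    rw [eq_top_iff]
    intro M _
    rw [Sk3_eq M]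
    exact J.add_mem (J.add_mem (J.smul_mem _ h1) (J.smul_mem _ h2)) (J.smul_mem _ h3)
  have hcoef : ∀ {o a : Fin 3} {α : ℂ}, α ≠ 0 → α • el2 o a ∈ J → el2 o a ∈ J := by
    intro o a α h1 h2
    have h3 := J.smul_mem α⁻¹ h2
    rwa [smul_smul, inv_mul_cancel₀ h1, one_smul] at h3
  by_cases c1 : Y.1 0 1 / 2 = 0
  · by_cases c2 : Y.1 0 2 / 2 = 0
    · by_cases c3 : Y.1 1 2 / 2 = 0
      · exfalso
        apply hY0
        rw [Sk3_eq Y, c1, c2, c3, zero_smul, zero_smul, zero_smul, add_zero, add_zero]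
      · have h1 : (Y.1 1 2 / 2) • el2 1 2 ∈ J := by
          rw [Sk3_eq Y, c1, c2, zero_smul, zero_smul, zero_add, zero_add] at hY
          exact hY
        have h2 := hcoef c3 h1
        have h3 : el2 (1 : Fin 3) 0 ∈ J := hall (by decide) (by decide) (by decide) h2
        have h4 : el2 (0 : Fin 3) 2 ∈ J := hall (by decide) (by decide) (by decide) (hsw h3)
        exact htop (hsw h3) h4 h2
    · have h1 : (Y.1 0 2 / 2) • el2 0 2 ∈ J := by
        refine simple3_aux hF J hJ (o := 0) (a := 2) (b := 1) (by decide) (by decide) (by decide)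
          (β := Y.1 0 1 / 2) (γ := -(Y.1 1 2 / 2)) ?_
        rw [Sk3_eq Y] at hY
        rw [el2_swap 2 1]
        convert hY using 1
        module
      have h2 := hcoef c2 h1
      have h3 : el2 (0 : Fin 3) 1 ∈ J := hall (by decide) (by decide) (by decide) h2
      have h4 : el2 (1 : Fin 3) 2 ∈ J := hall (by decide) (by decide) (by decide) (hsw h3)
      exact htop h3 h2 h4
  · have h1 : (Y.1 0 1 / 2) • el2 0 1 ∈ J := by
      refine simple3_aux hF J hJ (o := 0) (a := 1) (b := 2) (by decide) (by decide) (by decide)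
        (β := Y.1 0 2 / 2) (γ := Y.1 1 2 / 2) ?_
      rw [← Sk3_eq Y]
      exact hY
    have h2 := hcoef c1 h1
    have h3 : el2 (0 : Fin 3) 2 ∈ J := hall (by decide) (by decide) (by decide) h2
    have h4 : el2 (1 : Fin 3) 2 ∈ J := hall (by decide) (by decide) (by decide) (hsw h2)
    exact htop h2 h3 h4

/-- The Lie algebra of skew-symmetric matrices is simple. -/
theorem simple_Sk {V : Type} [AddCommGroup V] [Module ℂ V] [FiniteDimensional ℂ V] [Nontrivial V]
    (hn : n = 3 ∨ 5 ≤ n) {F : Fin n → Module.End ℂ V} (hF : CE F)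
    (J : Submodule ℂ (Sk n)) (hJ : ∀ X, ∀ Y ∈ J, adS X Y ∈ J) : J = ⊥ ∨ J = ⊤ := by
  rcases hn with rfl | hn
  · exact simple_Sk3 hF J hJ
  · exact simple_Sk5 hn hF J hJ

theorem exists_third (hn : 3 ≤ n) (x y : Fin n) : ∃ c, c ≠ x ∧ c ≠ y := by
  by_contra hcon
  push Not at hcon
  have h3 : (Finset.univ : Finset (Fin n)) ⊆ {x, y} := fun c _ => by
    rw [Finset.mem_insert, Finset.mem_singleton]
    by_cases h : c = x
    · exact Or.inl h
    · exact Or.inr (hcon c h)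
  have h4 := Finset.card_le_card h3
  rw [Finset.card_univ, Fintype.card_fin] at h4
  have h5 := Finset.card_le_two (a := x) (b := y)
  omega

/-- The centre. -/
theorem centre_Sk (hn : 3 ≤ n) {X : Sk n} (hX : ∀ Y, adS X Y = 0) : X = 0 := by
  apply Subtype.ext
  ext i o
  change X.1 i o = 0
  by_cases hio : i = o
  · rw [hio]
    exact Sk_diag X.2 o
  obtain ⟨a, hai, hao⟩ := exists_third hn i o
  have h2 : (X.1 * el o a - el o a * X.1) i a = 0 := by
    have h3 := congrArg (fun Z : Sk n => Z.1 i a) (hX ⟨el o a, el_mem o a⟩)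
    simp only [adS_coe] at h3
    exact h3
  have h3 := ent_el X.1 1 o a i a
  have h4 := ent_el 1 X.1 o a i a
  rw [Matrix.mul_one, Matrix.one_apply_eq, Matrix.one_apply_ne (Ne.symm hao), mul_one, mul_zero,
    sub_zero] at h3
  rw [Matrix.one_mul, Matrix.one_apply_ne hio, Matrix.one_apply_ne (Ne.symm hai), zero_mul,
    zero_mul, sub_zero] at h4
  rw [Matrix.sub_apply, h3, h4, sub_zero] at h2
  exact h2

/-- The Lie algebra of a Clifford system is simple. -/
theorem soE_simple {V : Type} [AddCommGroup V] [Module ℂ V] [FiniteDimensional ℂ V]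
    [Nontrivial V] (hn : n = 3 ∨ 5 ≤ n) {F : Fin n → Module.End ℂ V} (hF : CE F)
    (J : Submodule ℂ (Module.End ℂ V)) (hJ : J ≤ soE F)
    (hbr : ∀ x ∈ soE F, ∀ y ∈ J, x * y - y * x ∈ J) : J = ⊥ ∨ J = soE F := by
  have hJ' : ∀ Y : Sk n, Y ∈ J.comap ((Q F) ∘ₗ (Sk n).subtype) ↔ Q F Y.1 ∈ J := fun Y => Iff.rfl
  rcases simple_Sk hn hF (J.comap ((Q F) ∘ₗ (Sk n).subtype)) (fun X Y hY => by
    rw [hJ'] at hY ⊢
    rw [adS_coe, ← Q_br hF X.2]
    exact hbr _ (Q_mem X.2) _ hY) with h1 | h1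
  · left
    rw [eq_bot_iff]
    intro x hx
    obtain ⟨X, hX, rfl⟩ := exists_Q hF (hJ hx)
    have h2 : (⟨X, hX⟩ : Sk n) ∈ J.comap ((Q F) ∘ₗ (Sk n).subtype) := hx
    rw [h1, Submodule.mem_bot] at h2
    have h3 : X = 0 := congrArg Subtype.val h2
    rw [Submodule.mem_bot, h3, map_zero]
  · right
    refine le_antisymm hJ fun x hx => ?_
    obtain ⟨X, hX, rfl⟩ := exists_Q hF hx
    have h2 : (⟨X, hX⟩ : Sk n) ∈ J.comap ((Q F) ∘ₗ (Sk n).subtype) := by
      rw [h1]
      exact Submodule.mem_top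
    exact h2

end colours

end Pool.Agent.Helper883K
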