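import Pool.Agent.Helper883_K3.One1
set_option autoImplicit false
open Matrix Module
noncomputable section
namespace Pool.Agent.Helper883K
open Pool.Agent.Y102.SP
section eight

variable {U V : Type} [AddCommGroup U] [Module ℂ U] [AddCommGroup V] [Module ℂ V]
  [FiniteDimensional ℂ U] [Nontrivial U] [FiniteDimensional ℂ V] [Nontrivial V]

/-- A representation twisted by an isomorphism. -/
theorem exists_rho {V : Type} [AddCommGroup V] [Module ℂ V] {n : ℕ} (ρ : Sk n →ₗ[ℂ] Module.End ℂ V)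
    (hρ : ∀ X Y, ρ (adS X Y) = ρ X * ρ Y - ρ Y * ρ X) (θ : Sk n ≃ₗ[ℂ] Sk n)
    (hθ : ∀ X Y, θ (adS X Y) = adS (θ X) (θ Y)) :
    ∃ ρ' : Sk n →ₗ[ℂ] Module.End ℂ V, (∀ M, ρ' M = ρ (θ M)) ∧
      ∀ X Y, ρ' (adS X Y) = ρ' X * ρ' Y - ρ' Y * ρ' X := by
  refine ⟨ρ ∘ₗ θ.toLinearMap, fun M => rfl, fun X Y => ?_⟩
  change ρ (θ (adS X Y)) = ρ (θ X) * ρ (θ Y) - ρ (θ Y) * ρ (θ X)
  rw [hθ, hρ]

theorem exists_eight {E : Fin 8 → Module.End ℂ U}
    {F : Fin 8 → Module.End ℂ V} (hE : CE E) (hF : CE F) (θ : Sk 8 ≃ₗ[ℂ] Sk 8)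
    (hθ : ∀ X Y, θ (adS X Y) = adS (θ X) (θ Y)) :
    ∃ T : U →ₗ[ℂ] V, T ≠ 0 ∧ ∀ M : Sk 8, (Q F (θ M).1) ∘ₗ T = T ∘ₗ (Q E M.1) := by
  have hθ' : ∀ X Y, θ.symm (adS X Y) = adS (θ.symm X) (θ.symm Y) := by
    intro X Y
    apply θ.injective
    rw [LinearEquiv.apply_symm_apply, hθ, LinearEquiv.apply_symm_apply,
      LinearEquiv.apply_symm_apply]
  rcases straight_or_twisted hE θ hθ with h1 | h1
  · obtain ⟨h2, h3⟩ := h1 hF
    obtain ⟨ρ, hρ1, hρ2⟩ := exists_rho (spr F) (spr_br hF) θ hθ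
    obtain ⟨T, hT, hTM⟩ := interG_rep hE ρ hρ2 (0 : Fin 8)
      (fun a ha => by rw [hρ1, spr_apply]; exact h2 a ha)
      (fun a b ha hb hab => by rw [hρ1, hρ1, spr_apply, spr_apply]; exact h3 a b ha hb hab)
    refine ⟨T, hT, fun M => ?_⟩
    have h5 := hTM M
    rwa [hρ1, spr_apply, spr_apply] at h5
  · rcases straight_or_twisted hF θ.symm hθ' with h4 | h4
    · obtain ⟨h2, h3⟩ := h4 hE
      obtain ⟨ρ, hρ1, hρ2⟩ := exists_rho (spr E) (spr_br hE) θ.symm hθ'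
      obtain ⟨T, hT, hTM⟩ := interV_rep hF ρ hρ2 (0 : Fin 8)
        (fun a ha => by rw [hρ1, spr_apply]; exact h2 a ha)
        (fun a b ha hb hab => by rw [hρ1, hρ1, spr_apply, spr_apply]; exact h3 a b ha hb hab)
      refine ⟨T, hT, fun M => ?_⟩
      have h5 := hTM (θ M)
      rwa [hρ1, LinearEquiv.symm_apply_apply, spr_apply, spr_apply] at h5
    · have hneg : Matrix.toLin' (-1 : Matrix (Fin 8) (Fin 8) ℂ) = -1 := by
        rw [map_neg, Matrix.toLin'_one]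
        rfl
      obtain ⟨ρ, hρ1, hρ2⟩ := exists_rho (st 8) st_br θ hθ
      obtain ⟨ρ', hρ1', hρ2'⟩ := exists_rho (st 8) st_br θ.symm hθ'
      obtain ⟨T1, hT1, hTM1⟩ := interG_rep hE ρ hρ2 (0 : Fin 8)
        (fun a ha => by rw [hρ1, st_mul (h1.1 a ha), hneg])
        (fun a b ha hb hab => by
          rw [hρ1, hρ1, st_mul (h1.2 a b ha hb hab),
            st_mul (L := (θ (el2 0 b)).1 * (θ (el2 0 a)).1) rfl, map_neg])
      obtain ⟨T2, hT2, hTM2⟩ := interV_rep hF ρ' hρ2' (0 : Fin 8)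
        (fun a ha => by rw [hρ1', st_mul (h4.1 a ha), hneg])
        (fun a b ha hb hab => by
          rw [hρ1', hρ1', st_mul (h4.2 a b ha hb hab),
            st_mul (L := (θ.symm (el2 0 b)).1 * (θ.symm (el2 0 a)).1) rfl, map_neg])
      have k1 : ∀ (M : Sk 8) (u : U), T1 (Q E M.1 u) = (θ M).1 *ᵥ (T1 u) := by
        intro M u
        have h5 := LinearMap.congr_fun (hTM1 M) u
        rw [hρ1, spr_apply, LinearMap.comp_apply, LinearMap.comp_apply, st_apply] at h5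
        exact h5.symm
      have k2 : ∀ (M : Sk 8) (z : Fin 8 → ℂ), Q F (θ M).1 (T2 z) = T2 (M.1 *ᵥ z) := by
        intro M z
        have h5 := LinearMap.congr_fun (hTM2 (θ M)) z
        rw [hρ1', LinearEquiv.symm_apply_apply, spr_apply, LinearMap.comp_apply,
          LinearMap.comp_apply, st_apply] at h5
        exact h5
      refine ⟨tri E F T1 T2, tri_ne hE hF θ k1 k2 (by norm_num) hθ hT1 hT2, fun M => ?_⟩
      exact LinearMap.ext fun u => tri_tw hE hF θ k1 k2 M u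

/-- **Isomorphisms of `so(n)` come from intertwining operators of spin representations.** -/
theorem exists_one {n : ℕ} (hn : 3 ≤ n) {E : Fin n → Module.End ℂ U}
    {F : Fin n → Module.End ℂ V} (hE : CE E) (hF : CE F) (θ : Sk n ≃ₗ[ℂ] Sk n)
    (hθ : ∀ X Y, θ (adS X Y) = adS (θ X) (θ Y)) :
    ∃ T : U →ₗ[ℂ] V, T ≠ 0 ∧ ∀ M : Sk n, (Q F (θ M).1) ∘ₗ T = T ∘ₗ (Q E M.1) := by
  by_cases hn8 : n = 8
  · subst hn8
    exact exists_eight hE hF θ hθ
  · exact exists_tw hE hF hn8 (by omega) θ hθ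

end eight

end Pool.Agent.Helper883K
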