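import Pool.Agent.Helper883_K3.Tri2

set_option autoImplicit false
set_option linter.unusedSectionVars false
set_option linter.unusedSimpArgs false
set_option linter.unusedVariables false

/-!
# Isomorphisms of `so(n)` come from intertwining operators
-/

open Matrix Module

noncomputable section

namespace Pool.Agent.Helper883K

open Pool.Agent.Y102.SP

section rep

variable {U V : Type} [AddCommGroup U] [Module ℂ U] [AddCommGroup V] [Module ℂ V]
  [Nontrivial U] [Nontrivial V] {n : ℕ}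

/-- Intertwining operators to a representation in which the generators satisfy the relations. -/
theorem interG_rep [FiniteDimensional ℂ U] {E : Fin n → Module.End ℂ U} (hE : CE E)
    (ρ' : Sk n →ₗ[ℂ] Module.End ℂ V)
    (hρ' : ∀ X Y, ρ' (adS X Y) = ρ' X * ρ' Y - ρ' Y * ρ' X) (o : Fin n)
    (h1 : ∀ a, a ≠ o → ρ' (el2 o a) * ρ' (el2 o a) = -1)
    (h2 : ∀ a b, a ≠ o → b ≠ o → a ≠ b →
      ρ' (el2 o a) * ρ' (el2 o b) = -(ρ' (el2 o b) * ρ' (el2 o a))) :
    ∃ T : U →ₗ[ℂ] V, T ≠ 0 ∧ ∀ M, (ρ' M) ∘ₗ T = T ∘ₗ (spr E M) := by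
  have e1 : ∀ c : Fin n, c ≠ o → ∀ d, (E o * E c) * (E o * E d) = -(E c * E d) := by
    intro c hc d
    rw [mul_assoc, ← mul_assoc (E c), hE.anti c o hc, neg_mul, mul_neg, ← mul_assoc,
      ← mul_assoc, hE.sq, one_mul]
  let x : {a : Fin n // a ≠ o} → Module.End ℂ U := fun p => E o * E p.1
  let z : {a : Fin n // a ≠ o} → Module.End ℂ U := fun p => E p.1
  let y : {a : Fin n // a ≠ o} → Module.End ℂ V := fun p => ρ' (el2 o p.1)
  have i1 : ∀ p, x p * x p = -1 := fun p => simple_sq hE (Ne.symm p.2)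
  have i2 : ∀ p, y p * y p = -1 := fun p => h1 p.1 p.2
  have i3 : ∀ i j, i ≠ j → (x i * x j = x j * x i ∧ y i * y j = y j * y i) ∨
      (x i * x j = -(x j * x i) ∧ y i * y j = -(y j * y i)) := by
    intro p q hpq
    have hab : p.1 ≠ q.1 := fun h => hpq (Subtype.ext h)
    right
    refine ⟨?_, h2 p.1 q.1 p.2 q.2 hab⟩
    change (E o * E p.1) * (E o * E q.1) = -((E o * E q.1) * (E o * E p.1))
    rw [e1 _ p.2, e1 _ q.2, hE.anti q.1 p.1 (Ne.symm hab), neg_neg]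
  have i4 : ∀ p, z p * z p = 1 := fun p => hE.sq _
  have i5 : ∀ p, z p * x p = -(x p * z p) := by
    intro p
    change E p.1 * (E o * E p.1) = -((E o * E p.1) * E p.1)
    rw [← mul_assoc, hE.anti p.1 o p.2, neg_mul]
  have i6 : ∀ i j, i ≠ j → z i * x j = x j * z i := by
    intro p q hpq
    have hab : p.1 ≠ q.1 := fun h => hpq (Subtype.ext h)
    change E p.1 * (E o * E q.1) = (E o * E q.1) * E p.1
    rw [← mul_assoc, hE.anti p.1 o p.2, neg_mul, mul_assoc, hE.anti p.1 q.1 hab, mul_neg,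
      neg_neg, mul_assoc]
  obtain ⟨T, hT, hTS⟩ := exists_interG i1 i2 i3 i4 i5 i6 Finset.univ
  refine ⟨T, hT, fun M => rep_of_gen hE (spr E) ρ' (spr_br hE) hρ' o (fun a ha => ?_) M⟩
  have h3 := hTS ⟨a, ha⟩ (Finset.mem_univ _)
  rw [spr_apply, Q_el2 hE (Ne.symm ha)]
  exact h3

/-- Intertwining operators from a representation in which the generators satisfy the relations. -/
theorem interV_rep [FiniteDimensional ℂ V] {F : Fin n → Module.End ℂ V} (hF : CE F)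
    (ρ : Sk n →ₗ[ℂ] Module.End ℂ U)
    (hρ : ∀ X Y, ρ (adS X Y) = ρ X * ρ Y - ρ Y * ρ X) (o : Fin n)
    (h1 : ∀ a, a ≠ o → ρ (el2 o a) * ρ (el2 o a) = -1)
    (h2 : ∀ a b, a ≠ o → b ≠ o → a ≠ b →
      ρ (el2 o a) * ρ (el2 o b) = -(ρ (el2 o b) * ρ (el2 o a))) :
    ∃ T : U →ₗ[ℂ] V, T ≠ 0 ∧ ∀ M, (spr F M) ∘ₗ T = T ∘ₗ (ρ M) := by
  have e1 : ∀ c : Fin n, c ≠ o → ∀ d, (F o * F c) * (F o * F d) = -(F c * F d) := by
    intro c hc d
    rw [mul_assoc, ← mul_assoc (F c), hF.anti c o hc, neg_mul, mul_neg, ← mul_assoc,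
      ← mul_assoc, hF.sq, one_mul]
  let y : {a : Fin n // a ≠ o} → Module.End ℂ V := fun p => F o * F p.1
  let z : {a : Fin n // a ≠ o} → Module.End ℂ V := fun p => F p.1
  let x : {a : Fin n // a ≠ o} → Module.End ℂ U := fun p => ρ (el2 o p.1)
  have i1 : ∀ p, y p * y p = -1 := fun p => simple_sq hF (Ne.symm p.2)
  have i2 : ∀ p, x p * x p = -1 := fun p => h1 p.1 p.2
  have i3 : ∀ i j, i ≠ j → (x i * x j = x j * x i ∧ y i * y j = y j * y i) ∨
      (x i * x j = -(x j * x i) ∧ y i * y j = -(y j * y i)) := by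
    intro p q hpq
    have hab : p.1 ≠ q.1 := fun h => hpq (Subtype.ext h)
    right
    refine ⟨h2 p.1 q.1 p.2 q.2 hab, ?_⟩
    change (F o * F p.1) * (F o * F q.1) = -((F o * F q.1) * (F o * F p.1))
    rw [e1 _ p.2, e1 _ q.2, hF.anti q.1 p.1 (Ne.symm hab), neg_neg]
  have i4 : ∀ p, z p * z p = 1 := fun p => hF.sq _
  have i5 : ∀ p, z p * y p = -(y p * z p) := by
    intro p
    change F p.1 * (F o * F p.1) = -((F o * F p.1) * F p.1)
    rw [← mul_assoc, hF.anti p.1 o p.2, neg_mul]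
  have i6 : ∀ i j, i ≠ j → z i * y j = y j * z i := by
    intro p q hpq
    have hab : p.1 ≠ q.1 := fun h => hpq (Subtype.ext h)
    change F p.1 * (F o * F q.1) = (F o * F q.1) * F p.1
    rw [← mul_assoc, hF.anti p.1 o p.2, neg_mul, mul_assoc, hF.anti p.1 q.1 hab, mul_neg,
      neg_neg, mul_assoc]
  obtain ⟨T, hT, hTS⟩ := exists_interV i2 i1 i3 i4 i5 i6 Finset.univ
  refine ⟨T, hT, fun M => rep_of_gen hF ρ (spr F) hρ (spr_br hF) o (fun a ha => ?_) M⟩
  have h3 := hTS ⟨a, ha⟩ (Finset.mem_univ _)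
  rw [spr_apply, Q_el2 hF (Ne.symm ha)]
  exact h3

end rep

/-- Anticommutation from squares. -/
theorem anti_of_sq {R : Type} [Ring R] [Algebra ℂ R] {p q : R} (hp : p * p = -1)
    (hq : q * q = -1)
    (h : ((3 / 5 : ℂ) • p + (4 / 5 : ℂ) • q) * ((3 / 5 : ℂ) • p + (4 / 5 : ℂ) • q) = -1) :
    p * q = -(q * p) := by
  have e5 : ((3 / 5 : ℂ) • p + (4 / 5 : ℂ) • q) * ((3 / 5 : ℂ) • p + (4 / 5 : ℂ) • q) =
      (3 / 5 * (3 / 5) : ℂ) • (p * p) + (4 / 5 * (4 / 5) : ℂ) • (q * q) +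
      (12 / 25 : ℂ) • (p * q + q * p) := by
    simp only [add_mul, mul_add, smul_mul_assoc, mul_smul_comm, smul_smul, smul_add]
    rw [show (3 / 5 : ℂ) * (4 / 5) = 12 / 25 by norm_num,
      show (4 / 5 : ℂ) * (3 / 5) = 12 / 25 by norm_num]
    abel
  rw [e5, hp, hq, ← add_smul, show (3 / 5 * (3 / 5) : ℂ) + 4 / 5 * (4 / 5) = 1 by norm_num,
    one_smul, add_eq_left] at h
  have e6 : p * q + q * p = 0 := by
    have e7 : (25 / 12 : ℂ) • ((12 / 25 : ℂ) • (p * q + q * p)) = 0 := by rw [h, smul_zero]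
    rwa [smul_smul, show (25 / 12 : ℂ) * (12 / 25) = 1 by norm_num, one_smul] at e7
  exact eq_neg_of_add_eq_zero_left e6

section eight

variable {U V : Type} [AddCommGroup U] [Module ℂ U] [AddCommGroup V] [Module ℂ V]
  [FiniteDimensional ℂ U] [Nontrivial U] [FiniteDimensional ℂ V] [Nontrivial V]

/-- The isomorphism preserves the elements of rank two. -/
def Straight (θ : Sk 8 ≃ₗ[ℂ] Sk 8) : Prop :=
  ∀ {V : Type} [AddCommGroup V] [Module ℂ V] {F : Fin 8 → Module.End ℂ V}, CE F →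
    (∀ a, a ≠ 0 → Q F (θ (el2 0 a)).1 * Q F (θ (el2 0 a)).1 = -1) ∧
    ∀ a b, a ≠ 0 → b ≠ 0 → a ≠ b → Q F (θ (el2 0 a)).1 * Q F (θ (el2 0 b)).1 =
      -(Q F (θ (el2 0 b)).1 * Q F (θ (el2 0 a)).1)

/-- The isomorphism maps the elements of rank two to complex structures. -/
def Twisted (θ : Sk 8 ≃ₗ[ℂ] Sk 8) : Prop :=
  (∀ a, a ≠ 0 → (θ (el2 0 a)).1 * (θ (el2 0 a)).1 = -1) ∧
    ∀ a b, a ≠ 0 → b ≠ 0 → a ≠ b → (θ (el2 0 a)).1 * (θ (el2 0 b)).1 =
      -((θ (el2 0 b)).1 * (θ (el2 0 a)).1)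

theorem straight_or_twisted {E : Fin 8 → Module.End ℂ U} (hE : CE E) (θ : Sk 8 ≃ₗ[ℂ] Sk 8)
    (hθ : ∀ X Y, θ (adS X Y) = adS (θ X) (θ Y)) : Straight θ ∨ Twisted θ := by
  have hcomb : ∀ (a b : Fin 8) (α β : ℂ), (θ (α • el2 0 a + β • el2 0 b)).1 =
      α • (θ (el2 0 a)).1 + β • (θ (el2 0 b)).1 := by
    intro a b α β
    rw [map_add, map_smul, map_smul]
    rfl
  have hdata : ∀ a b : Fin 8, a ≠ 0 → b ≠ 0 → a ≠ b → ∀ α β : ℂ, α * α + β * β = 1 →
      ((α • (θ (el2 0 a)).1 + β • (θ (el2 0 b)).1) *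
        (α • (θ (el2 0 a)).1 + β • (θ (el2 0 b)).1)).trace = -8 ∧
      ∀ X ∈ Sk 8, (α • (θ (el2 0 a)).1 + β • (θ (el2 0 b)).1) *
        ((α • (θ (el2 0 a)).1 + β • (θ (el2 0 b)).1) *
        ((α • (θ (el2 0 a)).1 + β • (θ (el2 0 b)).1) * X -
        X * (α • (θ (el2 0 a)).1 + β • (θ (el2 0 b)).1)) -
        ((α • (θ (el2 0 a)).1 + β • (θ (el2 0 b)).1) * X -
        X * (α • (θ (el2 0 a)).1 + β • (θ (el2 0 b)).1)) *
        (α • (θ (el2 0 a)).1 + β • (θ (el2 0 b)).1)) -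
        ((α • (θ (el2 0 a)).1 + β • (θ (el2 0 b)).1) *
        ((α • (θ (el2 0 a)).1 + β • (θ (el2 0 b)).1) * X -
        X * (α • (θ (el2 0 a)).1 + β • (θ (el2 0 b)).1)) -
        ((α • (θ (el2 0 a)).1 + β • (θ (el2 0 b)).1) * X -
        X * (α • (θ (el2 0 a)).1 + β • (θ (el2 0 b)).1)) *
        (α • (θ (el2 0 a)).1 + β • (θ (el2 0 b)).1)) *
        (α • (θ (el2 0 a)).1 + β • (θ (el2 0 b)).1) =
        -(4 : ℂ) • ((α • (θ (el2 0 a)).1 + β • (θ (el2 0 b)).1) * X -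
        X * (α • (θ (el2 0 a)).1 + β • (θ (el2 0 b)).1)) := by
    intro a b ha hb hab α β h
    have h1 := iso_data hE (by norm_num) θ hθ (sq_comb hE ha hb hab h)
      (by rw [trace_comb ha hb hab, h, mul_one])
    rw [hcomb] at h1
    exact h1
  have htyp : ∀ a b : Fin 8, a ≠ 0 → b ≠ 0 → a ≠ b →
      (∀ α β : ℂ, α * α + β * β = 1 →
        (α • (θ (el2 0 a)).1 + β • (θ (el2 0 b)).1) *
        (α • (θ (el2 0 a)).1 + β • (θ (el2 0 b)).1) *
        (α • (θ (el2 0 a)).1 + β • (θ (el2 0 b)).1) =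
        -(4 : ℂ) • (α • (θ (el2 0 a)).1 + β • (θ (el2 0 b)).1)) ∨
      (∀ α β : ℂ, α * α + β * β = 1 → (α • (θ (el2 0 a)).1 + β • (θ (el2 0 b)).1) *
        (α • (θ (el2 0 a)).1 + β • (θ (el2 0 b)).1) = -1) := by
    intro a b ha hb hab
    refine types8 fun α β h => ?_
    obtain ⟨h1, h2⟩ := hdata a b ha hb hab α β h
    refine ⟨dich ?_ h1 h2, h1⟩
    rw [← hcomb]
    exact (θ _).2
  -- the two types exclude each other
  have hexcl : ∀ a : Fin 8, (θ (el2 0 a)).1 * (θ (el2 0 a)).1 * (θ (el2 0 a)).1 =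
      -(4 : ℂ) • (θ (el2 0 a)).1 → (θ (el2 0 a)).1 * (θ (el2 0 a)).1 = -1 → False := by
    intro a h1 h2
    rw [h2, neg_one_mul] at h1
    have h3 : (3 : ℂ) • (θ (el2 0 a)).1 = 0 := by
      have h4 : (3 : ℂ) • (θ (el2 0 a)).1 = (4 : ℂ) • (θ (el2 0 a)).1 + -(θ (el2 0 a)).1 := by
        module
      rw [h4, h1]
      module
    have h4 : (θ (el2 0 a)).1 = 0 := (smul_eq_zero.1 h3).resolve_left (by norm_num)
    rw [h4, Matrix.mul_zero] at h2
    exact one_ne_zero (neg_eq_zero.1 h2.symm)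
  have hc1 : (1 : ℂ) * 1 + 0 * 0 = 1 := by norm_num
  have hc2 : (0 : ℂ) * 0 + 1 * 1 = 1 := by norm_num
  have h10 : (1 : Fin 8) ≠ 0 := by decide
  have h20 : (2 : Fin 8) ≠ 0 := by decide
  have h12 : (1 : Fin 8) ≠ 2 := by decide
  by_cases hty : (θ (el2 0 1)).1 * (θ (el2 0 1)).1 = -1
  · right
    have h1 : ∀ b : Fin 8, b ≠ 0 → (θ (el2 0 b)).1 * (θ (el2 0 b)).1 = -1 := by
      intro b hb
      by_cases hb1 : b = 1
      · rw [hb1]
        exact hty
      · rcases htyp 1 b h10 hb (Ne.symm hb1) with h | h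
        · exfalso
          have h3 := h 1 0 hc1
          rw [one_smul, zero_smul, add_zero] at h3
          exact hexcl 1 h3 hty
        · have h3 := h 0 1 hc2
          rwa [one_smul, zero_smul, zero_add] at h3
    refine ⟨h1, fun a b ha hb hab => ?_⟩
    refine anti_of_sq (h1 a ha) (h1 b hb) ?_
    rcases htyp a b ha hb hab with h | h
    · exfalso
      have h3 := h 1 0 hc1
      rw [one_smul, zero_smul, add_zero] at h3
      exact hexcl a h3 (h1 a ha)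
    · exact h (3 / 5) (4 / 5) (by norm_num)
  · left
    have h1 : ∀ b : Fin 8, b ≠ 0 → ¬ (θ (el2 0 b)).1 * (θ (el2 0 b)).1 = -1 := by
      intro b hb hcon
      by_cases hb1 : b = 1
      · rw [hb1] at hcon
        exact hty hcon
      · rcases htyp 1 b h10 hb (Ne.symm hb1) with h | h
        · have h3 := h 0 1 hc2
          rw [one_smul, zero_smul, zero_add] at h3
          exact hexcl b h3 hcon
        · have h3 := h 1 0 hc1
          rw [one_smul, zero_smul, add_zero] at h3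
          exact hty h3
    intro V _ _ F hF
    have h2 : ∀ a b : Fin 8, a ≠ 0 → b ≠ 0 → a ≠ b → ∀ α β : ℂ, α * α + β * β = 1 →
        Q F (α • (θ (el2 0 a)).1 + β • (θ (el2 0 b)).1) *
        Q F (α • (θ (el2 0 a)).1 + β • (θ (el2 0 b)).1) = -1 := by
      intro a b ha hb hab α β h
      obtain ⟨d1, d2⟩ := hdata a b ha hb hab α β h
      have hSk : α • (θ (el2 0 a)).1 + β • (θ (el2 0 b)).1 ∈ Sk 8 := by
        rw [← hcomb]
        exact (θ _).2
      rcases htyp a b ha hb hab with h3 | h3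
      · have h5 := Q_sq hF hSk (fun k a b j => pfaff' hSk (h3 α β h) d2 k a b j)
        rw [d1] at h5
        have h6 : (8 : ℂ) • (Q F (α • (θ (el2 0 a)).1 + β • (θ (el2 0 b)).1) *
            Q F (α • (θ (el2 0 a)).1 + β • (θ (el2 0 b)).1)) =
            (8 : ℂ) • (-1 : Module.End ℂ V) := by
          rw [h5]
          module
        exact smul_right_injective _ (by norm_num : (8 : ℂ) ≠ 0) h6
      · exfalso
        have h4 := h3 1 0 hc1
        rw [one_smul, zero_smul, add_zero] at h4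
        exact h1 a ha h4
    have h3 : ∀ a : Fin 8, a ≠ 0 → Q F (θ (el2 0 a)).1 * Q F (θ (el2 0 a)).1 = -1 := by
      intro a ha
      obtain ⟨b, hb, hab⟩ : ∃ b : Fin 8, b ≠ 0 ∧ a ≠ b := by
        by_cases h : a = 1
        · exact ⟨2, h20, by rw [h]; exact h12⟩
        · exact ⟨1, h10, h⟩
      have h4 := h2 a b ha hb hab 1 0 hc1
      rwa [one_smul, zero_smul, add_zero] at h4
    refine ⟨h3, fun a b ha hb hab => ?_⟩
    refine anti_of_sq (h3 a ha) (h3 b hb) ?_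
    have h4 := h2 a b ha hb hab (3 / 5) (4 / 5) (by norm_num)
    rw [map_add, map_smul, map_smul] at h4
    exact h4


end eight

end Pool.Agent.Helper883K
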