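import Pool.Agent.Helper883_K3.Tw

set_option autoImplicit false
set_option linter.unusedSectionVars false
set_option linter.unusedSimpArgs false
set_option linter.unusedVariables false

/-!
# Two factors
-/

open Matrix Module

noncomputable section

namespace Pool.Agent.Helper883K

open Pool.Agent.Y102.SP

variable {U V : Type} [AddCommGroup U] [Module ℂ U] [AddCommGroup V] [Module ℂ V]
  [FiniteDimensional ℂ U] [Nontrivial U] [FiniteDimensional ℂ V] [Nontrivial V] {n m : ℕ}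

/-- The kernel of the second projection. -/
def K1 (G : Submodule ℂ (Module.End ℂ U × Module.End ℂ V)) : Submodule ℂ (Module.End ℂ U) where
  carrier := {x | (x, (0 : Module.End ℂ V)) ∈ G}
  zero_mem' := G.zero_mem
  add_mem' := by
    intro x y hx hy
    have h := G.add_mem hx hy
    rw [Prod.mk_add_mk, add_zero] at h
    exact h
  smul_mem' := by
    intro c x hx
    have h := G.smul_mem c hx
    rw [Prod.smul_mk, smul_zero] at h
    exact h

/-- The kernel of the first projection. -/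
def K2 (G : Submodule ℂ (Module.End ℂ U × Module.End ℂ V)) : Submodule ℂ (Module.End ℂ V) where
  carrier := {x | ((0 : Module.End ℂ U), x) ∈ G}
  zero_mem' := G.zero_mem
  add_mem' := by
    intro x y hx hy
    have h := G.add_mem hx hy
    rw [Prod.mk_add_mk, add_zero] at h
    exact h
  smul_mem' := by
    intro c x hx
    have h := G.smul_mem c hx
    rw [Prod.smul_mk, smul_zero] at h
    exact h

theorem mem_K1 {G : Submodule ℂ (Module.End ℂ U × Module.End ℂ V)} {x : Module.End ℂ U} :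
    x ∈ K1 G ↔ (x, (0 : Module.End ℂ V)) ∈ G := Iff.rfl

theorem mem_K2 {G : Submodule ℂ (Module.End ℂ U × Module.End ℂ V)} {x : Module.End ℂ V} :
    x ∈ K2 G ↔ ((0 : Module.End ℂ U), x) ∈ G := Iff.rfl

/-- **Two factors.** -/
theorem pair (hn : 5 ≤ n) (hm : 5 ≤ m) (h8 : ¬ (n = 8 ∧ m = 8)) {E : Fin n → Module.End ℂ U}
    {F : Fin m → Module.End ℂ V} (hE : CE E) (hF : CE F)
    (G N : Submodule ℂ (Module.End ℂ U × Module.End ℂ V)) (hGN : G ≤ N)
    (hN1 : ∀ z ∈ N, z.1 ∈ soE E) (hN2 : ∀ z ∈ N, z.2 ∈ soE F)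
    (hGb : ∀ z ∈ G, ∀ w ∈ G, z * w - w * z ∈ G) (hNb : ∀ z ∈ N, ∀ w ∈ N, z * w - w * z ∈ N)
    (hG1 : ∀ x ∈ soE E, ∃ y, (x, y) ∈ G) (hG2 : ∀ y ∈ soE F, ∃ x, (x, y) ∈ G)
    (htw : ∀ T : U →ₗ[ℂ] V, (∀ z ∈ G, z.2 ∘ₗ T = T ∘ₗ z.1) → ∀ z ∈ N, z.2 ∘ₗ T = T ∘ₗ z.1) :
    N ≤ G := by
  -- the kernels are ideals
  have hK1 : ∀ H : Submodule ℂ (Module.End ℂ U × Module.End ℂ V), G ≤ H → H ≤ N →
      (∀ z ∈ H, ∀ w ∈ H, z * w - w * z ∈ H) → K1 H = ⊥ ∨ K1 H = soE E := by
    intro H h1 h2 h3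
    refine so_simple hn hE _ (fun x hx => hN1 _ (h2 hx)) fun x hx y hy => ?_
    obtain ⟨x', hx'⟩ := hG1 x hx
    have h4 := h3 _ (h1 hx') _ hy
    rw [mem_K1]
    simpa using h4
  have hK2 : ∀ H : Submodule ℂ (Module.End ℂ U × Module.End ℂ V), G ≤ H → H ≤ N →
      (∀ z ∈ H, ∀ w ∈ H, z * w - w * z ∈ H) → K2 H = ⊥ ∨ K2 H = soE F := by
    intro H h1 h2 h3
    refine so_simple hm hF _ (fun x hx => hN2 _ (h2 hx)) fun x hx y hy => ?_
    obtain ⟨x', hx'⟩ := hG2 x hx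
    have h4 := h3 _ (h1 hx') _ hy
    rw [mem_K2]
    simpa using h4
  rcases hK1 G le_rfl hGN hGb with g1 | g1
  swap
  · intro z hz
    obtain ⟨x, hx⟩ := hG2 _ (hN2 z hz)
    have h1 : z.1 - x ∈ K1 G := by
      rw [g1]
      exact Submodule.sub_mem _ (hN1 z hz) (hN1 _ (hGN hx))
    have h2 := G.add_mem (mem_K1.1 h1) hx
    rw [Prod.mk_add_mk, sub_add_cancel, zero_add] at h2
    exact h2
  rcases hK2 G le_rfl hGN hGb with g2 | g2
  swap
  · intro z hz
    obtain ⟨x, hx⟩ := hG1 _ (hN1 z hz)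
    have h1 : z.2 - x ∈ K2 G := by
      rw [g2]
      exact Submodule.sub_mem _ (hN2 z hz) (hN2 _ (hGN hx))
    have h2 := G.add_mem (mem_K2.1 h1) hx
    rw [Prod.mk_add_mk, sub_add_cancel, zero_add] at h2
    exact h2
  -- `G` is a graph
  have u2 : ∀ x y y', (x, y) ∈ G → (x, y') ∈ G → y = y' := by
    intro x y y' h1 h2
    have h3 : y - y' ∈ K2 G := by
      have h4 := G.sub_mem h1 h2
      rw [Prod.mk_sub_mk, sub_self] at h4
      exact h4
    rw [g2, Submodule.mem_bot] at h3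
    exact sub_eq_zero.1 h3
  have u1 : ∀ x x' y, (x, y) ∈ G → (x', y) ∈ G → x = x' := by
    intro x x' y h1 h2
    have h3 : x - x' ∈ K1 G := by
      have h4 := G.sub_mem h1 h2
      rw [Prod.mk_sub_mk, sub_self] at h4
      exact h4
    rw [g1, Submodule.mem_bot] at h3
    exact sub_eq_zero.1 h3
  have qF : ∀ M M' : Sk m, Q F M.1 = Q F M'.1 → M = M' := by
    intro M M' h
    apply Subtype.ext
    apply sub_eq_zero.1
    exact Q_inj hF ((Sk m).sub_mem M.2 M'.2) (by rw [map_sub, h, sub_self])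
  have qE : ∀ M M' : Sk n, Q E M.1 = Q E M'.1 → M = M' := by
    intro M M' h
    apply Subtype.ext
    apply sub_eq_zero.1
    exact Q_inj hE ((Sk n).sub_mem M.2 M'.2) (by rw [map_sub, h, sub_self])
  have hex : ∀ M : Sk n, ∃ M' : Sk m, (Q E M.1, Q F M'.1) ∈ G := by
    intro M
    obtain ⟨y, hy⟩ := hG1 _ (Q_mem (E := E) M.2)
    obtain ⟨M', hM', h⟩ := exists_Q hF (hN2 _ (hGN hy))
    refine ⟨⟨M', hM'⟩, ?_⟩
    rw [h]
    exact hy
  choose f hf using hex
  have hfu : ∀ (M : Sk n) (M' : Sk m), (Q E M.1, Q F M'.1) ∈ G → f M = M' := fun M M' h =>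
    qF _ _ (u2 _ _ _ (hf M) h)
  let φ : Sk n →ₗ[ℂ] Sk m :=
    { toFun := f
      map_add' := by
        intro M M'
        refine hfu _ _ ?_
        rw [Submodule.coe_add, Submodule.coe_add, map_add, map_add]
        exact G.add_mem (hf M) (hf M')
      map_smul' := by
        intro c M
        refine hfu _ _ ?_
        rw [Submodule.coe_smul, RingHom.id_apply, Submodule.coe_smul, map_smul, map_smul]
        exact G.smul_mem c (hf M) }
  have hφ : Function.Bijective φ := by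
    constructor
    · intro M M' h
      have h1 : f M = f M' := h
      refine qE _ _ (u1 _ _ _ (hf M) ?_)
      rw [h1]
      exact hf M'
    · intro M'
      obtain ⟨x, hx⟩ := hG2 _ (Q_mem (E := F) M'.2)
      obtain ⟨M, hM, h⟩ := exists_Q hE (hN1 _ (hGN hx))
      refine ⟨⟨M, hM⟩, hfu _ _ ?_⟩
      rw [h]
      exact hx
  let ψ : Sk n ≃ₗ[ℂ] Sk m := LinearEquiv.ofBijective φ hφ
  have hψ : ∀ M, (Q E M.1, Q F (ψ M).1) ∈ G := hf
  have hnm : n = m := eq_of_finrank (by omega) (by omega) ψ.finrank_eq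
  subst hnm
  have hn8 : n ≠ 8 := fun h => h8 ⟨h, h⟩
  have hψb : ∀ X Y, ψ (adS X Y) = adS (ψ X) (ψ Y) := by
    intro X Y
    refine hfu _ _ ?_
    rw [adS_coe, adS_coe, ← Q_br hE X.2, ← Q_br hF (ψ X).2]
    have h := hGb _ (hψ X) _ (hψ Y)
    rw [Prod.mk_mul_mk, Prod.mk_mul_mk, Prod.mk_sub_mk] at h
    exact h
  obtain ⟨T, hT, hTM⟩ := exists_tw hE hF hn8 (by omega) ψ hψb
  have hTG : ∀ z ∈ G, z.2 ∘ₗ T = T ∘ₗ z.1 := by
    intro z hz
    obtain ⟨M, hM, h⟩ := exists_Q hE (hN1 _ (hGN hz))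
    have h1 := hψ ⟨M, hM⟩
    have h2 : Q F (ψ ⟨M, hM⟩).1 = z.2 := u2 _ _ _ h1 (by rw [h]; exact hz)
    rw [← h2, ← h]
    exact hTM ⟨M, hM⟩
  have hTN := htw T hTG
  rcases hK1 N hGN le_rfl hNb with k1 | k1
  · intro z hz
    obtain ⟨x, hx⟩ := hG2 _ (hN2 z hz)
    have h1 : z.1 - x ∈ K1 N := by
      have h2 := N.sub_mem hz (hGN hx)
      rw [mem_K1]
      have h3 : (z.1 - x, (0 : Module.End ℂ V)) = z - (x, z.2) := by
        ext <;> simp
      rw [h3]
      exact h2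
    rw [k1, Submodule.mem_bot] at h1
    have h2 : z = (x, z.2) := by
      rw [← sub_eq_zero.1 h1]
    rw [h2]
    exact hx
  · exfalso
    apply hT
    have hab : (⟨0, by omega⟩ : Fin n) ≠ ⟨1, by omega⟩ := by
      intro h
      have h2 := congrArg Fin.val h
      simp at h2
    have h1 : E ⟨0, by omega⟩ * E ⟨1, by omega⟩ ∈ K1 N := by
      rw [k1]
      exact Submodule.subset_span ⟨_, _, hab, rfl⟩
    have h2 := hTN _ h1
    rw [LinearMap.zero_comp] at h2
    have h3 : T = -((T ∘ₗ (E ⟨0, by omega⟩ * E ⟨1, by omega⟩)) ∘ₗ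
        (E ⟨0, by omega⟩ * E ⟨1, by omega⟩)) := by
      rw [LinearMap.comp_assoc, ← Module.End.mul_eq_comp, simple_sq hE hab]
      ext u
      simp
    rw [h3, ← h2, LinearMap.zero_comp, neg_zero]

end Pool.Agent.Helper883K
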