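import Pool.Agent.Helper883_K3.TwM
import Pool.Agent.Y102.SP.ColMain

set_option autoImplicit false
set_option linter.unusedSectionVars false
set_option linter.unusedSimpArgs false
set_option linter.unusedVariables false

/-!
# Two factors with several colours
-/

open Matrix Module

noncomputable section

namespace Pool.Agent.Helper883K

open Pool.Agent.Y102.SP

variable {U V : Type} [AddCommGroup U] [Module ℂ U] [AddCommGroup V] [Module ℂ V]
  [FiniteDimensional ℂ U] [Nontrivial U] [FiniteDimensional ℂ V] [Nontrivial V] {k l n m : ℕ}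

/-- **Two factors: the case of a graph.** -/
theorem pairM (hn : 3 ≤ n) (hm : 3 ≤ m) (hk : n = 4 → k = 1) (hl : m = 4 → l = 1)
    (h43 : ¬ (n = 4 ∧ m = 3 ∧ l = 2)) (h34 : ¬ (m = 4 ∧ n = 3 ∧ k = 2))
    {E : Fin k → Fin n → Module.End ℂ U}
    {F : Fin l → Fin m → Module.End ℂ V} (hE : CM E) (hF : CM F)
    (G N : Submodule ℂ (Module.End ℂ U × Module.End ℂ V)) (hGN : G ≤ N)
    (hN1 : ∀ z ∈ N, z.1 ∈ soM E) (hN2 : ∀ z ∈ N, z.2 ∈ soM F)
    (hGb : ∀ z ∈ G, ∀ w ∈ G, z * w - w * z ∈ G)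
    (hG1 : ∀ x ∈ soM E, ∃ y, (x, y) ∈ G) (hG2 : ∀ y ∈ soM F, ∃ x, (x, y) ∈ G)
    (g1 : K1 G = ⊥) (g2 : K2 G = ⊥) (hK : K1 N = ⊥ ∨ soM E ≤ K1 N)
    (htw : ∀ T : U →ₗ[ℂ] V, (∀ z ∈ G, z.2 ∘ₗ T = T ∘ₗ z.1) → ∀ z ∈ N, z.2 ∘ₗ T = T ∘ₗ z.1) :
    N ≤ G := by
  have u2 : ∀ x y y', (x, y) ∈ G → (x, y') ∈ G → y = y' := by
    intro x y y' h1 h2
    have h3 : y - y' ∈ K2 G := by
      have h4 := G.sub_mem h1 h2
      rw [Prod.mk_sub_mk, sub_self] at h4
      exact h4
    rw [g2, Submodule.mem_bot] at h3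
    exact sub_eq_zero.1 h3
  have u1 : ∀ x x' y, (x, y) ∈ G → (x', y) ∈ G → x = x' := by
    intro x x' y h1 h2
    have h3 : x - x' ∈ K1 G := by
      have h4 := G.sub_mem h1 h2
      rw [Prod.mk_sub_mk, sub_self] at h4
      exact h4
    rw [g1, Submodule.mem_bot] at h3
    exact sub_eq_zero.1 h3
  have hex : ∀ M : Fin k → Sk n, ∃ M' : Fin l → Sk m, (QM E M, QM F M') ∈ G := by
    intro M
    obtain ⟨y, hy⟩ := hG1 _ (QM_mem hE M)
    obtain ⟨M', h⟩ := exists_QM hF (hN2 _ (hGN hy))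
    refine ⟨M', ?_⟩
    rw [h]
    exact hy
  choose f hf using hex
  have hfu : ∀ (M : Fin k → Sk n) (M' : Fin l → Sk m), (QM E M, QM F M') ∈ G → f M = M' :=
    fun M M' h => QM_inj hF (u2 _ _ _ (hf M) h)
  let φ : (Fin k → Sk n) →ₗ[ℂ] (Fin l → Sk m) :=
    { toFun := f
      map_add' := by
        intro M M'
        refine hfu _ _ ?_
        rw [map_add, map_add]
        exact G.add_mem (hf M) (hf M')
      map_smul' := by
        intro c M
        refine hfu _ _ ?_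
        rw [RingHom.id_apply, map_smul, map_smul]
        exact G.smul_mem c (hf M) }
  have hφ : Function.Bijective φ := by
    constructor
    · intro M M' h
      have h1 : f M = f M' := h
      refine QM_inj hE (u1 _ _ _ (hf M) ?_)
      rw [h1]
      exact hf M'
    · intro M'
      obtain ⟨x, hx⟩ := hG2 _ (QM_mem hF M')
      obtain ⟨M, h⟩ := exists_QM hE (hN1 _ (hGN hx))
      refine ⟨M, hfu _ _ ?_⟩
      rw [h]
      exact hx
  let ψ : (Fin k → Sk n) ≃ₗ[ℂ] (Fin l → Sk m) := LinearEquiv.ofBijective φ hφ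
  have hψ : ∀ M, (QM E M, QM F (ψ M)) ∈ G := hf
  have hψb : ∀ X Y, ψ (adL X Y) = adL (ψ X) (ψ Y) := by
    intro X Y
    refine hfu _ _ ?_
    rw [← QM_br hE, ← QM_br hF]
    have h := hGb _ (hψ X) _ (hψ Y)
    rw [Prod.mk_mul_mk, Prod.mk_mul_mk, Prod.mk_sub_mk] at h
    exact h
  obtain ⟨T, hT, hTM⟩ := exists_twB hn hm hk hl h43 h34 hE hF ψ hψb
  have hTG : ∀ z ∈ G, z.2 ∘ₗ T = T ∘ₗ z.1 := by
    intro z hz
    obtain ⟨M, h⟩ := exists_QM hE (hN1 _ (hGN hz))
    have h1 := hψ M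
    have h2 : QM F (ψ M) = z.2 := u2 _ _ _ h1 (by rw [h]; exact hz)
    rw [← h2, ← h]
    exact hTM M
  have hTN := htw T hTG
  have k1 : ∀ x ∈ K1 N, x = 0 := by
    intro x hx
    obtain ⟨X, rfl⟩ := exists_QM hE (hN1 _ (mem_K1.1 hx))
    by_contra hne
    have hX : X ≠ 0 := by
      rintro rfl
      exact hne (map_zero _)
    obtain ⟨σ, hσ⟩ : ∃ σ, X σ ≠ 0 := by
      by_contra hcon
      push Not at hcon
      exact hX (funext hcon)
    have h1 : soM E ≤ K1 N := by
      rcases hK with h | h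
      · exfalso
        rw [h, Submodule.mem_bot] at hx
        exact hne hx
      · exact h
    have hab : (⟨0, by omega⟩ : Fin n) ≠ ⟨1, by omega⟩ := by simp
    have h2 : E σ ⟨0, by omega⟩ * E σ ⟨1, by omega⟩ ∈ K1 N :=
      h1 (Submodule.subset_span ⟨σ, _, _, hab, rfl⟩)
    have h3 := hTN _ h2
    rw [LinearMap.zero_comp] at h3
    apply hT
    have h4 : T = -((T ∘ₗ (E σ ⟨0, by omega⟩ * E σ ⟨1, by omega⟩)) ∘ₗ
        (E σ ⟨0, by omega⟩ * E σ ⟨1, by omega⟩)) := by
      rw [LinearMap.comp_assoc, ← Module.End.mul_eq_comp, simple_sq (hE.ce σ) hab]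
      ext u
      simp
    rw [h4, ← h3, LinearMap.zero_comp, neg_zero]
  intro z hz
  obtain ⟨x, hx⟩ := hG2 _ (hN2 z hz)
  have h1 : z.1 - x ∈ K1 N := by
    have h2 := N.sub_mem hz (hGN hx)
    rw [mem_K1]
    have h3 : (z.1 - x, (0 : Module.End ℂ V)) = z - (x, z.2) := by
      ext <;> simp
    rw [h3]
    exact h2
  have h2 : z = (x, z.2) := by
    rw [← sub_eq_zero.1 (k1 _ h1)]
  rw [h2]
  exact hx

/-- One factor with several colours. -/
theorem mainM {U : Type} [AddCommGroup U] [Module ℂ U]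
    [FiniteDimensional ℂ U] [Nontrivial U] {E : Fin k → Fin n → Module.End ℂ U} (hE : CM E)
    (hn : 6 ≤ n)
    (𝔥 : Submodule ℂ (Module.End ℂ U)) (h𝔥 : 𝔥 ≤ soM E)
    (hbr : ∀ x ∈ 𝔥, ∀ y ∈ 𝔥, x * y - y * x ∈ 𝔥)
    (gen : ∀ σ a b, E σ a * E σ b ∈ Algebra.adjoin ℂ (𝔥 : Set (Module.End ℂ U))) :
    soM E ≤ 𝔥 := by
  let e : Fin k × Fin n ≃ Fin (k * n) := finProdFinEquiv
  let E' : Fin (k * n) → Module.End ℂ U := fun j => E (e.symm j).1 (e.symm j).2
  let c : Fin (k * n) → Fin k := fun j => (e.symm j).1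
  have hE' : CE E' := by
    refine ⟨fun j => hE.sq _ _, fun i j hij => hE.anti _ _ _ _ fun h => hij ?_⟩
    exact e.symm.injective h
  have heq : soM E = soC E' c := by
    unfold soM soC
    congr 1
    ext x
    constructor
    · rintro ⟨σ, a, b, hab, rfl⟩
      refine ⟨e (σ, a), e (σ, b), fun h => hab ?_, ?_, ?_⟩
      · exact (Prod.ext_iff.1 (e.injective h)).2
      · change (e.symm (e (σ, a))).1 = (e.symm (e (σ, b))).1
        rw [Equiv.symm_apply_apply, Equiv.symm_apply_apply]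
      · change _ = E (e.symm (e (σ, a))).1 (e.symm (e (σ, a))).2 *
          E (e.symm (e (σ, b))).1 (e.symm (e (σ, b))).2
        rw [Equiv.symm_apply_apply, Equiv.symm_apply_apply]
    · rintro ⟨i, j, hij, hc, rfl⟩
      refine ⟨(e.symm i).1, (e.symm i).2, (e.symm j).2, fun h => hij ?_, ?_⟩
      · exact e.symm.injective (Prod.ext hc h)
      · change E (e.symm i).1 (e.symm i).2 * E (e.symm j).1 (e.symm j).2 = _
        have hc' : (e.symm j).1 = (e.symm i).1 := hc.symm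
        rw [hc']
  rw [heq] at h𝔥 ⊢
  refine main_col hE' (fun i => ?_) 𝔥 h𝔥 hbr fun i j hij => ?_
  · have h1 : (Finset.univ.filter fun j => c j = c i) =
        Finset.univ.map ⟨fun a : Fin n => e (c i, a), fun a b h =>
          (Prod.ext_iff.1 (e.injective h)).2⟩ := by
      ext j
      simp only [Finset.mem_filter, Finset.mem_univ, true_and, Finset.mem_map,
        Function.Embedding.coeFn_mk]
      constructor
      · intro h
        refine ⟨(e.symm j).2, ?_⟩
        have h2 : (c i, (e.symm j).2) = e.symm j := Prod.ext h.symm rfl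
        change e (c i, (e.symm j).2) = j
        rw [h2, Equiv.apply_symm_apply]
      · rintro ⟨a, rfl⟩
        change (e.symm (e (c i, a))).1 = c i
        rw [Equiv.symm_apply_apply]
    rw [h1, Finset.card_map, Finset.card_univ, Fintype.card_fin]
    exact hn
  · have hc' : (e.symm j).1 = (e.symm i).1 := hij.symm
    change E (e.symm i).1 (e.symm i).2 * E (e.symm j).1 (e.symm j).2 ∈ _
    rw [hc']
    exact gen _ _ _

end Pool.Agent.Helper883K
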