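import Pool.Agent.Helper883_K3.AsmQ

set_option autoImplicit false
set_option linter.unusedSectionVars false
set_option linter.unusedSimpArgs false
set_option linter.unusedVariables false

/-!
# Pairs of factors: general representations of sums of orthogonal Lie algebras
-/

open Module Function TensorProduct

noncomputable section

namespace Pool.Agent.Helper883K

open Pool.Agent.Y102 Pool.Agent.W516.DR Pool.Agent.H204R3.GP Pool.Agent.W516.KC
  Pool.Agent.H204R3.SP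

/-- A faithful representation of a sum of orthogonal Lie algebras. -/
structure RepS {k n : ℕ} {U : Type} [AddCommGroup U] [Module ℂ U]
    (ρ : (Fin k → Sk n) →ₗ[ℂ] Module.End ℂ U) : Prop where
  inj : ∀ X, ρ X = 0 → X = 0
  br : ∀ X Y, ρ X * ρ Y - ρ Y * ρ X = ρ (adL X Y)
  one : 0 < k → (1 : Module.End ℂ U) ∈ Submodule.span ℂ {z | ∃ X Y, z = ρ X * ρ Y}

section pair

variable {U V : Type} [AddCommGroup U] [Module ℂ U] [AddCommGroup V] [Module ℂ V] {k l n m : ℕ}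

theorem RepS.zero_of {ρ : (Fin k → Sk n) →ₗ[ℂ] Module.End ℂ U} (h : RepS ρ) (hk : 0 < k)
    {T : U →ₗ[ℂ] V} (hT : ∀ X, T ∘ₗ ρ X = 0) : T = 0 := by
  have h1 : ∀ z ∈ Submodule.span ℂ {z | ∃ X Y, z = ρ X * ρ Y}, T ∘ₗ z = 0 := by
    intro z hz
    induction hz using Submodule.span_induction with
    | mem z hz =>
      obtain ⟨X, Y, rfl⟩ := hz
      rw [Module.End.mul_eq_comp, ← LinearMap.comp_assoc, hT, LinearMap.zero_comp]
    | zero => rw [LinearMap.comp_zero]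
    | add a b _ _ ha hb => rw [LinearMap.comp_add, ha, hb, add_zero]
    | smul c a _ ha => rw [LinearMap.comp_smul, ha, smul_zero]
  exact h1 1 (h.one hk)

/-- **Two factors: the case of a graph.** -/
theorem pairR {ρ : (Fin k → Sk n) →ₗ[ℂ] Module.End ℂ U} (hρ : RepS ρ)
    {ρ' : (Fin l → Sk m) →ₗ[ℂ] Module.End ℂ V} (hρ' : RepS ρ')
    (hT0 : ∀ ψ : (Fin k → Sk n) ≃ₗ[ℂ] (Fin l → Sk m), (∀ X Y, ψ (adL X Y) = adL (ψ X) (ψ Y)) →
      ∃ T : U →ₗ[ℂ] V, T ≠ 0 ∧ ∀ M, (ρ' (ψ M)) ∘ₗ T = T ∘ₗ (ρ M))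
    (G N : Submodule ℂ (Module.End ℂ U × Module.End ℂ V)) (hGN : G ≤ N)
    (hN1 : ∀ z ∈ N, ∃ X, ρ X = z.1) (hN2 : ∀ z ∈ N, ∃ X, ρ' X = z.2)
    (hGb : ∀ z ∈ G, ∀ w ∈ G, z * w - w * z ∈ G)
    (hG1 : ∀ X, ∃ y, (ρ X, y) ∈ G) (hG2 : ∀ Y, ∃ x, (x, ρ' Y) ∈ G)
    (g1 : K1 G = ⊥) (g2 : K2 G = ⊥) (hK : K1 N = ⊥ ∨ ∀ X, ρ X ∈ K1 N)
    (htw : ∀ T : U →ₗ[ℂ] V, (∀ z ∈ G, z.2 ∘ₗ T = T ∘ₗ z.1) → ∀ z ∈ N, z.2 ∘ₗ T = T ∘ₗ z.1) :
    N ≤ G := by
  have inj1 : ∀ X Y, ρ X = ρ Y → X = Y := fun X Y h => by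
    rw [← sub_eq_zero, ← map_sub] at h
    exact sub_eq_zero.1 (hρ.inj _ h)
  have inj2 : ∀ X Y, ρ' X = ρ' Y → X = Y := fun X Y h => by
    rw [← sub_eq_zero, ← map_sub] at h
    exact sub_eq_zero.1 (hρ'.inj _ h)
  have u2 : ∀ x y y', (x, y) ∈ G → (x, y') ∈ G → y = y' := by
    intro x y y' h1 h2
    have h3 : y - y' ∈ K2 G := by
      have h4 := G.sub_mem h1 h2
      rw [Prod.mk_sub_mk, sub_self] at h4
      exact h4
    rw [g2, Submodule.mem_bot] at h3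
    exact sub_eq_zero.1 h3
  have u1 : ∀ x x' y, (x, y) ∈ G → (x', y) ∈ G → x = x' := by
    intro x x' y h1 h2
    have h3 : x - x' ∈ K1 G := by
      have h4 := G.sub_mem h1 h2
      rw [Prod.mk_sub_mk, sub_self] at h4
      exact h4
    rw [g1, Submodule.mem_bot] at h3
    exact sub_eq_zero.1 h3
  have hex : ∀ M : Fin k → Sk n, ∃ M' : Fin l → Sk m, (ρ M, ρ' M') ∈ G := by
    intro M
    obtain ⟨y, hy⟩ := hG1 M
    obtain ⟨M', h⟩ := hN2 _ (hGN hy)
    refine ⟨M', ?_⟩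
    rw [h]
    exact hy
  choose f hf using hex
  have hfu : ∀ (M : Fin k → Sk n) (M' : Fin l → Sk m), (ρ M, ρ' M') ∈ G → f M = M' :=
    fun M M' h => inj2 _ _ (u2 _ _ _ (hf M) h)
  let φ : (Fin k → Sk n) →ₗ[ℂ] (Fin l → Sk m) :=
    { toFun := f
      map_add' := by
        intro M M'
        refine hfu _ _ ?_
        rw [map_add, map_add]
        exact G.add_mem (hf M) (hf M')
      map_smul' := by
        intro c M
        refine hfu _ _ ?_
        rw [RingHom.id_apply, map_smul, map_smul]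
        exact G.smul_mem c (hf M) }
  have hφ : Function.Bijective φ := by
    constructor
    · intro M M' h
      have h1 : f M = f M' := h
      refine inj1 _ _ (u1 _ _ _ (hf M) ?_)
      rw [h1]
      exact hf M'
    · intro M'
      obtain ⟨x, hx⟩ := hG2 M'
      obtain ⟨M, h⟩ := hN1 _ (hGN hx)
      refine ⟨M, hfu _ _ ?_⟩
      rw [h]
      exact hx
  let ψ : (Fin k → Sk n) ≃ₗ[ℂ] (Fin l → Sk m) := LinearEquiv.ofBijective φ hφ
  have hψ : ∀ M, (ρ M, ρ' (ψ M)) ∈ G := hf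
  have hψb : ∀ X Y, ψ (adL X Y) = adL (ψ X) (ψ Y) := by
    intro X Y
    refine hfu _ _ ?_
    rw [← hρ.br, ← hρ'.br]
    have h := hGb _ (hψ X) _ (hψ Y)
    rw [Prod.mk_mul_mk, Prod.mk_mul_mk, Prod.mk_sub_mk] at h
    exact h
  obtain ⟨T, hT, hTM⟩ := hT0 ψ hψb
  have hTG : ∀ z ∈ G, z.2 ∘ₗ T = T ∘ₗ z.1 := by
    intro z hz
    obtain ⟨M, h⟩ := hN1 _ (hGN hz)
    have h1 := hψ M
    have h2 : ρ' (ψ M) = z.2 := u2 _ _ _ h1 (by rw [h]; exact hz)
    rw [← h2, ← h]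
    exact hTM M
  have hTN := htw T hTG
  have k1 : ∀ x ∈ K1 N, x = 0 := by
    intro x hx
    obtain ⟨X, rfl⟩ := hN1 _ (show (x, (0 : Module.End ℂ V)) ∈ N from hx)
    by_contra hne
    have hX : X ≠ 0 := by
      rintro rfl
      exact hne (map_zero _)
    have hk : 0 < k := by
      rcases Nat.eq_zero_or_pos k with h | h
      · exfalso
        subst h
        exact hX (Subsingleton.elim _ _)
      · exact h
    have h1 : ∀ X, ρ X ∈ K1 N := by
      rcases hK with h | h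
      · exfalso
        rw [h, Submodule.mem_bot] at hx
        exact hne hx
      · exact h
    apply hT
    refine hρ.zero_of hk fun X => ?_
    have h3 := hTN _ (h1 X)
    rw [LinearMap.zero_comp] at h3
    exact h3.symm
  intro z hz
  obtain ⟨Y, hY⟩ := hN2 z hz
  obtain ⟨x, hx⟩ := hG2 Y
  rw [hY] at hx
  have h1 : z.1 - x ∈ K1 N := by
    have h2 := N.sub_mem hz (hGN hx)
    change (z.1 - x, (0 : Module.End ℂ V)) ∈ N
    have h3 : (z.1 - x, (0 : Module.End ℂ V)) = z - (x, z.2) := by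
      ext <;> simp
    rw [h3]
    exact h2
  have h2 : z = (x, z.2) := by
    rw [← sub_eq_zero.1 (k1 _ h1)]
  rw [h2]
  exact hx

end pair

section two

variable {W : Type} [AddCommGroup W] [Module ℂ W]

/-- **Two factors: the case of a graph.** -/
theorem twoR {p q : Module.End ℂ W} (hp : p * p = p) (hq : q * q = q)
    {G N : Submodule ℂ (Module.End ℂ W)} (hGN : G ≤ N) (hNp : ∀ x ∈ N, x * p = p * x)
    (hNq : ∀ x ∈ N, x * q = q * x)
    (hGb : ∀ x ∈ G, ∀ y ∈ G, x * y - y * x ∈ G)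
    (hcom : ∀ T : Module.End ℂ W, (∀ x ∈ G, T * x = x * T) → ∀ x ∈ N, T * x = x * T)
    {k l n m : ℕ} {ρ : (Fin k → Sk n) →ₗ[ℂ] Module.End ℂ (LinearMap.range p)} (hρ : RepS ρ)
    {ρ' : (Fin l → Sk m) →ₗ[ℂ] Module.End ℂ (LinearMap.range q)} (hρ' : RepS ρ')
    (hT0 : ∀ ψ : (Fin k → Sk n) ≃ₗ[ℂ] (Fin l → Sk m), (∀ X Y, ψ (adL X Y) = adL (ψ X) (ψ Y)) →
      ∃ T : LinearMap.range p →ₗ[ℂ] LinearMap.range q, T ≠ 0 ∧
        ∀ M, (ρ' (ψ M)) ∘ₗ T = T ∘ₗ (ρ M))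
    (hNE : N.map (Rp p) = LinearMap.range ρ) (hNF : N.map (Rp q) = LinearMap.range ρ')
    (g1 : G.map (Rp p) = LinearMap.range ρ) (g2 : G.map (Rp q) = LinearMap.range ρ')
    (k1 : ∀ x ∈ G, x * q = 0 → x * p = 0) (k2 : ∀ x ∈ G, x * p = 0 → x * q = 0)
    (hK : (∀ x ∈ N, x * q = 0 → x * p = 0) ∨ ∀ x ∈ N, ∃ y ∈ N, y * q = 0 ∧ y * p = x * p)
    {x : Module.End ℂ W} (hx : x ∈ N) : ∃ y ∈ G, x * p = y * p ∧ x * q = y * q := by
  have h1 := pairR hρ hρ' hT0 (G.map ((Rp p).prod (Rp q)))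
    (N.map ((Rp p).prod (Rp q))) (Submodule.map_mono hGN) ?_ ?_ ?_ ?_ ?_ ?_ ?_ ?_ ?_
  · obtain ⟨y, hy, hxy⟩ := h1 (Submodule.mem_map_of_mem hx)
    have e1 : Rp p y = Rp p x := congrArg Prod.fst hxy
    have e2 : Rp q y = Rp q x := congrArg Prod.snd hxy
    exact ⟨y, hy, mul_eq_of_Rp hp (hNp x hx) (hNp y (hGN hy)) e1.symm,
      mul_eq_of_Rp hq (hNq x hx) (hNq y (hGN hy)) e2.symm⟩
  · rintro _ ⟨z, hz, rfl⟩
    have h2 : Rp p z ∈ LinearMap.range ρ := by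
      rw [← hNE]
      exact ⟨z, hz, rfl⟩
    exact h2
  · rintro _ ⟨z, hz, rfl⟩
    have h2 : Rp q z ∈ LinearMap.range ρ' := by
      rw [← hNF]
      exact ⟨z, hz, rfl⟩
    exact h2
  · rintro _ ⟨z, hz, rfl⟩ _ ⟨w, hw, rfl⟩
    refine ⟨z * w - w * z, hGb z hz w hw, ?_⟩
    refine Prod.ext ?_ ?_
    · change Rp p (z * w - w * z) = Rp p z * Rp p w - Rp p w * Rp p z
      rw [map_sub, Rp_mul hp (hNp w (hGN hw)), Rp_mul hp (hNp z (hGN hz))]
    · change Rp q (z * w - w * z) = Rp q z * Rp q w - Rp q w * Rp q z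
      rw [map_sub, Rp_mul hq (hNq w (hGN hw)), Rp_mul hq (hNq z (hGN hz))]
  · intro X
    have h2 : ρ X ∈ G.map (Rp p) := by
      rw [g1]
      exact ⟨X, rfl⟩
    obtain ⟨y, hy, h3⟩ := h2
    rw [← h3]
    exact ⟨Rp q y, y, hy, rfl⟩
  · intro X
    have h2 : ρ' X ∈ G.map (Rp q) := by
      rw [g2]
      exact ⟨X, rfl⟩
    obtain ⟨y, hy, h3⟩ := h2
    rw [← h3]
    exact ⟨Rp p y, y, hy, rfl⟩
  · rw [eq_bot_iff]
    rintro z ⟨y, hy, hyz⟩
    have e1 : Rp p y = z := congrArg Prod.fst hyz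
    have e2 : Rp q y = 0 := congrArg Prod.snd hyz
    have e3 := mul_eq_of_Rp hq (hNq y (hGN hy)) (by rw [zero_mul, mul_zero])
      (e2.trans (map_zero (Rp q)).symm)
    rw [zero_mul] at e3
    rw [Submodule.mem_bot, ← e1, ← Rp_mul_self hp, k1 y hy e3, map_zero]
  · rw [eq_bot_iff]
    rintro z ⟨y, hy, hyz⟩
    have e1 : Rp q y = z := congrArg Prod.snd hyz
    have e2 : Rp p y = 0 := congrArg Prod.fst hyz
    have e3 := mul_eq_of_Rp hp (hNp y (hGN hy)) (by rw [zero_mul, mul_zero])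
      (e2.trans (map_zero (Rp p)).symm)
    rw [zero_mul] at e3
    rw [Submodule.mem_bot, ← e1, ← Rp_mul_self hq, k2 y hy e3, map_zero]
  · rcases hK with hK | hK
    · left
      rw [eq_bot_iff]
      rintro z ⟨y, hy, hyz⟩
      have e1 : Rp p y = z := congrArg Prod.fst hyz
      have e2 : Rp q y = 0 := congrArg Prod.snd hyz
      have e3 := mul_eq_of_Rp hq (hNq y hy) (by rw [zero_mul, mul_zero])
        (e2.trans (map_zero (Rp q)).symm)
      rw [zero_mul] at e3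
      rw [Submodule.mem_bot, ← e1, ← Rp_mul_self hp, hK y hy e3, map_zero]
    · right
      intro X
      have h2 : ρ X ∈ N.map (Rp p) := by
        rw [hNE]
        exact ⟨X, rfl⟩
      obtain ⟨x, hx, h3⟩ := h2
      rw [← h3]
      obtain ⟨y, hy, h1, h2⟩ := hK x hx
      refine ⟨y, hy, Prod.ext ?_ ?_⟩
      · change Rp p y = Rp p x
        rw [← Rp_mul_self hp, h2, Rp_mul_self hp]
      · change Rp q y = 0
        rw [← Rp_mul_self hq, h1, map_zero]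
  · intro T hT
    let T' : Module.End ℂ W := (LinearMap.range q).subtype ∘ₗ T ∘ₗ p.rangeRestrict
    have hT' : ∀ w, T' w = (T ⟨p w, w, rfl⟩ : LinearMap.range q) := fun w => rfl
    have e1 : ∀ z ∈ N, ∀ w, T' (z w) = (T (Rp p z ⟨p w, w, rfl⟩) : LinearMap.range q) := by
      intro z hz w
      rw [hT']
      congr 2
      apply Subtype.ext
      rw [Rp_coe' hp (hNp z hz)]
      change p (z w) = z (p w)
      rw [← Module.End.mul_apply, ← hNp z hz, Module.End.mul_apply]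
    have e2 : ∀ z ∈ N, ∀ w, z (T' w) = (Rp q z (T ⟨p w, w, rfl⟩) : LinearMap.range q) := by
      intro z hz w
      rw [hT', Rp_coe' hq (hNq z hz)]
    have h2 : ∀ z ∈ G, T' * z = z * T' := by
      intro z hz
      refine LinearMap.ext fun w => ?_
      rw [Module.End.mul_apply, Module.End.mul_apply, e1 z (hGN hz), e2 z (hGN hz)]
      have h3 := LinearMap.congr_fun (hT _ ⟨z, hz, rfl⟩) ⟨p w, w, rfl⟩
      exact congrArg Subtype.val h3.symm
    have h3 := hcom T' h2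
    rintro _ ⟨z, hz, rfl⟩
    refine LinearMap.ext fun v => ?_
    have h4 := LinearMap.congr_fun (h3 z hz) (v : W)
    rw [Module.End.mul_apply, Module.End.mul_apply, e1 z hz, e2 z hz] at h4
    have h5 : (⟨p v, v, rfl⟩ : LinearMap.range p) = v := Subtype.ext (range_fix hp v)
    rw [h5] at h4
    exact (Subtype.ext h4).symm

end two

variable {g : ℕ} (A : AbVar g)

/-- A factor on which the Lie algebra is a sum of orthogonal Lie algebras. -/
structure Fac (e : Module.End ℚ A.H1) {k n : ℕ}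
    (ρ : (Fin k → Sk n) →ₗ[ℂ] Module.End ℂ (LinearMap.range (e.baseChange ℂ))) : Prop where
  idem : e * e = e
  comm : ∀ X ∈ A.NA, X * e = e * X
  rep : RepS ρ
  lie : (cx A.NA).map (Rp (e.baseChange ℂ)) = LinearMap.range ρ
  full : (cx A.LA).map (Rp (e.baseChange ℂ)) = LinearMap.range ρ
  simple : SimpleOn A e

variable {A} {e f : Module.End ℚ A.H1} {k l n m : ℕ}
  {ρ : (Fin k → Sk n) →ₗ[ℂ] Module.End ℂ (LinearMap.range (e.baseChange ℂ))}
  {ρ' : (Fin l → Sk m) →ₗ[ℂ] Module.End ℂ (LinearMap.range (f.baseChange ℂ))}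

namespace Fac

theorem idem' (h : Fac A e ρ) : e.baseChange ℂ * e.baseChange ℂ =
    (e.baseChange ℂ : Module.End ℂ (ℂ ⊗[ℚ] A.H1)) := by
  rw [← bc_mul, h.idem]

theorem comm' (h : Fac A e ρ) : ∀ x ∈ cx A.NA, x * e.baseChange ℂ = e.baseChange ℂ * x := by
  have h1 := cx_comm (S := A.NA) (T := e.baseChange ℂ) fun X hX => by
    rw [← bc_mul, ← bc_mul, h.comm X hX]
  exact fun x hx => (h1 x hx).symm

theorem self (h : Fac A e ρ) : PairEq A e e := by
  refine pairEq_self_of_cx A h.idem fun x hx => ?_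
  have h1 : Rp (e.baseChange ℂ) x ∈ (cx A.LA).map (Rp (e.baseChange ℂ)) := by
    rw [h.full, ← h.lie]
    exact ⟨x, hx, rfl⟩
  obtain ⟨y, hy, hxy⟩ := h1
  exact ⟨y, hy, mul_eq_of_Rp h.idem' (h.comm' x hx) (h.comm' y (cx_mono A.full_LA.le hy))
    hxy.symm⟩

theorem pair (h : Fac A e ρ) (h' : Fac A f ρ') (hef : e * f = 0) (hfe : f * e = 0)
    (hT0 : ∀ ψ : (Fin k → Sk n) ≃ₗ[ℂ] (Fin l → Sk m), (∀ X Y, ψ (adL X Y) = adL (ψ X) (ψ Y)) →
      ∃ T : LinearMap.range (e.baseChange ℂ) →ₗ[ℂ] LinearMap.range (f.baseChange ℂ), T ≠ 0 ∧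
        ∀ M, (ρ' (ψ M)) ∘ₗ T = T ∘ₗ (ρ M)) : PairEq A e f := by
  have hfull := A.full_LA
  refine pairEq_of_simple A h.idem h.comm h'.comm h.self h'.self h.simple fun k1 => ?_
  refine PairEq.symm A (pairEq_of_simple A h'.idem h'.comm h.comm h'.self h.self h'.simple
    fun k2 => ?_)
  refine PairEq.symm A ?_
  exact pairEq_of_cx A h.idem h'.idem hef hfe fun x hx => twoR h.idem' h'.idem'
    (cx_mono hfull.le) h.comm' h'.comm' hfull.cx_br' (fun T hT => hfull.cx_com T hT) h.rep h'.rep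
    hT0 h.lie h'.lie h.full h'.full (fun x hx => cx_kill k1 hx) (fun x hx => cx_kill k2 hx)
    (cx_alt A h.idem h.comm h'.comm h.simple) hx

/-- The centre is zero. -/
theorem centre (h : Fac A e ρ) (hn : 3 ≤ n) : ∀ X ∈ A.CN, X * e = 0 := by
  intro X hX
  have hXc : ∀ x ∈ cx A.NA, X.baseChange ℂ * x = x * X.baseChange ℂ :=
    cx_comm fun Y hY => by
      rw [← bc_mul, ← bc_mul, hX.2 Y hY]
  have hJ : Rp (e.baseChange ℂ) (X.baseChange ℂ) = 0 := by
    have h2 : Rp (e.baseChange ℂ) (X.baseChange ℂ) ∈ LinearMap.range ρ := by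
      rw [← h.lie]
      exact ⟨_, bc_mem hX.1, rfl⟩
    obtain ⟨Z, hZ⟩ := h2
    have h3 : ∀ Y, adL Z Y = 0 := by
      intro Y
      refine h.rep.inj _ ?_
      rw [← h.rep.br, hZ]
      have h4 : ρ Y ∈ (cx A.NA).map (Rp (e.baseChange ℂ)) := by
        rw [h.lie]
        exact ⟨Y, rfl⟩
      obtain ⟨y, hy, hyY⟩ := h4
      have h5 : Rp (e.baseChange ℂ) (X.baseChange ℂ) * Rp (e.baseChange ℂ) y =
          Rp (e.baseChange ℂ) y * Rp (e.baseChange ℂ) (X.baseChange ℂ) := by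
        rw [← Rp_mul h.idem' (h.comm' y hy), ← Rp_mul h.idem' (h.comm' _ (bc_mem hX.1)), hXc y hy]
      rw [← hyY]
      exact sub_eq_zero.2 h5
    have h5 : Z = 0 := by
      funext σ
      refine centre_Sk hn fun Y => ?_
      have h6' := congrFun (h3 (Pi.single σ Y)) σ
      rw [adL_single, Pi.single_eq_same] at h6'
      exact h6'
    rw [← hZ, h5, map_zero]
  have h3 := mul_eq_of_Rp h.idem' (h.comm' _ (bc_mem hX.1))
    (by rw [zero_mul, mul_zero]) (hJ.trans (map_zero _).symm)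
  rw [zero_mul, ← bc_mul] at h3
  by_contra hne
  exact bc_ne A hne h3

end Fac

end Pool.Agent.Helper883K
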