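import Pool.Agent.Helper883_K3.Cliff

set_option autoImplicit false
set_option linter.unusedSectionVars false
set_option linter.unusedSimpArgs false
set_option linter.unusedVariables false

/-!
# Isomorphisms of `so(n)`, `n ≠ 8`, preserve the elements of square `-1` of rank two
-/

open Matrix Module

noncomputable section

namespace Pool.Agent.Helper883K

open Pool.Agent.Y102.SP

variable {U : Type} [AddCommGroup U] [Module ℂ U] {n : ℕ} {E : Fin n → Module.End ℂ U}

theorem cyc3 {V : Type*} [AddCommMonoid V] (F : Fin n → Fin n → Fin n → V) :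
    ∑ a, ∑ b, ∑ d, F b d a = ∑ a, ∑ b, ∑ d, F a b d := by
  rw [Finset.sum_comm]
  refine Finset.sum_congr rfl fun b _ => ?_
  rw [Finset.sum_comm]

/-- The part of degree three. -/
def G3 (E : Fin n → Module.End ℂ U) (a b d : Fin n) : Module.End ℂ U :=
  if a ≠ b ∧ b ≠ d ∧ a ≠ d then (2 : ℂ) • (E a * E b * E d) else 0

theorem G3_cyc (hE : CE E) (a b d : Fin n) : G3 E b d a = G3 E a b d := by
  unfold G3
  by_cases h : a ≠ b ∧ b ≠ d ∧ a ≠ d
  · rw [if_pos h, if_pos ⟨h.2.1, Ne.symm h.2.2, Ne.symm h.1⟩]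
    congr 1
    rw [mul_assoc, hE.anti d a (Ne.symm h.2.2), mul_neg, ← mul_assoc, hE.anti b a (Ne.symm h.1),
      neg_mul, neg_neg]
  · rw [if_neg h, if_neg]
    tauto

theorem G3_eq (hE : CE E) {a b : Fin n} (hab : a ≠ b) (d : Fin n) :
    E a * E b * E d + E d * (E a * E b) = G3 E a b d := by
  unfold G3
  by_cases h1 : a = d
  · subst h1
    rw [if_neg (fun h => h.2.2 rfl), ← mul_assoc, hE.sq, one_mul, mul_assoc,
      hE.anti b a (Ne.symm hab), mul_neg, ← mul_assoc, hE.sq, one_mul, neg_add_cancel]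
  · by_cases h2 : b = d
    · subst h2
      rw [if_neg (fun h => h.2.1 rfl), mul_assoc, hE.sq, mul_one, ← mul_assoc,
        hE.anti b a (Ne.symm hab), neg_mul, mul_assoc, hE.sq, mul_one, add_neg_cancel]
    · have h3 : E d * (E a * E b) = E a * E b * E d := by
        rw [← mul_assoc, hE.anti d a (Ne.symm h1), neg_mul, mul_assoc, hE.anti d b (Ne.symm h2),
          mul_neg, neg_neg, ← mul_assoc]
      rw [if_pos ⟨hab, h2, h1⟩, h3, two_smul]

/-- The bivector anticommutes with its vectors. -/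
theorem Q_anti (hE : CE E) {N : Matrix (Fin n) (Fin n) ℂ} (hN : N ∈ Sk n)
    (hpf : ∀ k a b j, N k a * N b j + N k b * N j a + N k j * N a b = 0) (c : Fin n) :
    Q E N * (∑ d, N d c • E d) + (∑ d, N d c • E d) * Q E N = 0 := by
  have h1 : Q E N * (∑ d, N d c • E d) + (∑ d, N d c • E d) * Q E N =
      (1 / 4 : ℂ) • ∑ a, ∑ b, ∑ d, (N a b * N d c) • G3 E a b d := by
    rw [Q_apply, smul_mul_assoc, mul_smul_comm, ← smul_add]
    congr 1
    rw [Finset.sum_mul, Finset.mul_sum, ← Finset.sum_add_distrib]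
    refine Finset.sum_congr rfl fun a _ => ?_
    rw [Finset.sum_mul, Finset.mul_sum, ← Finset.sum_add_distrib]
    refine Finset.sum_congr rfl fun b _ => ?_
    rw [Finset.mul_sum, Finset.sum_mul, ← Finset.sum_add_distrib]
    refine Finset.sum_congr rfl fun d _ => ?_
    by_cases hab : a = b
    · subst hab
      rw [Sk_diag hN, zero_smul, zero_mul, mul_zero, zero_mul, zero_smul, add_zero]
    · rw [← G3_eq hE hab, smul_mul_assoc, mul_smul_comm, smul_mul_assoc, mul_smul_comm, smul_smul,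
        smul_smul, smul_add, mul_comm (N d c)]
  rw [h1]
  have h2 : ∑ a, ∑ b, ∑ d, (N b d * N a c) • G3 E a b d =
      ∑ a, ∑ b, ∑ d, (N a b * N d c) • G3 E a b d := by
    rw [← cyc3 fun a b d => (N a b * N d c) • G3 E a b d]
    simp only [G3_cyc hE]
  have h3 : ∑ a, ∑ b, ∑ d, (N d a * N b c) • G3 E a b d =
      ∑ a, ∑ b, ∑ d, (N a b * N d c) • G3 E a b d := by
    rw [← h2, ← cyc3 fun a b d => (N b d * N a c) • G3 E a b d]
    simp only [G3_cyc hE]
  have h4 : (3 : ℂ) • ∑ a, ∑ b, ∑ d, (N a b * N d c) • G3 E a b d = 0 := by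
    have e1 : (3 : ℂ) • ∑ a, ∑ b, ∑ d, (N a b * N d c) • G3 E a b d =
        ∑ a, ∑ b, ∑ d, (N a b * N d c) • G3 E a b d +
        ∑ a, ∑ b, ∑ d, (N b d * N a c) • G3 E a b d +
        ∑ a, ∑ b, ∑ d, (N d a * N b c) • G3 E a b d := by
      rw [h2, h3]
      module
    rw [e1, ← Finset.sum_add_distrib, ← Finset.sum_add_distrib]
    refine Finset.sum_eq_zero fun a _ => ?_
    rw [← Finset.sum_add_distrib, ← Finset.sum_add_distrib]
    refine Finset.sum_eq_zero fun b _ => ?_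
    rw [← Finset.sum_add_distrib, ← Finset.sum_add_distrib]
    refine Finset.sum_eq_zero fun d _ => ?_
    rw [← add_smul, ← add_smul]
    have e2 := hpf c a b d
    have g1 := Sk_apply hN c a
    have g2 := Sk_apply hN c b
    have g3 := Sk_apply hN c d
    rw [g1, g2, g3] at e2
    have e3 : N a b * N d c + N b d * N a c + N d a * N b c = 0 := by linear_combination -e2
    rw [e3, zero_smul]
  rw [(smul_eq_zero.1 h4).resolve_left (by norm_num), smul_zero]

/-- The square of a bivector with vanishing Pfaffians. -/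
theorem Q_sq (hE : CE E) {N : Matrix (Fin n) (Fin n) ℂ} (hN : N ∈ Sk n)
    (hpf : ∀ k a b j, N k a * N b j + N k b * N j a + N k j * N a b = 0) :
    (8 : ℂ) • (Q E N * Q E N) = (N * N).trace • (1 : Module.End ℂ U) := by
  have hW : ∀ c, Q E N * E c - E c * Q E N = ∑ a, N a c • E a := Q_comm hE hN
  have hA := Q_anti hE hN hpf
  have h4 := Q_four hE hN
  have hS : ∀ c, (∑ a, N a c • E a) * (∑ a, N a c • E a) =
      (∑ a, N a c * N a c) • (1 : Module.End ℂ U) := fun c => vec_sq hE fun a => N a c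
  obtain ⟨W, hWd⟩ : ∃ W : Fin n → Module.End ℂ U, ∀ c, W c = ∑ a, N a c • E a :=
    ⟨_, fun c => rfl⟩
  simp only [← hWd] at hW hA h4 hS
  obtain ⟨Y, hY⟩ : ∃ Y, Y = Q E N := ⟨_, rfl⟩
  rw [← hY] at hW hA h4 ⊢
  have e1 : (4 : ℂ) • (Y * Y) = ∑ c, W c * (E c * Y) := by
    rw [← smul_mul_assoc, h4, Finset.sum_mul]
    exact Finset.sum_congr rfl fun c _ => mul_assoc _ _ _
  have e2 : ∀ c, W c * (E c * Y) = -(Y * (W c * E c)) - W c * W c := by
    intro c
    have e3 : E c * Y = Y * E c - W c := by rw [← hW c]; abel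
    have e4 : W c * Y = -(Y * W c) := by
      rw [eq_neg_iff_add_eq_zero, add_comm]
      exact hA c
    rw [e3, mul_sub, ← mul_assoc, e4, neg_mul, mul_assoc]
  have e5 : (4 : ℂ) • (Y * Y) = -(Y * ((4 : ℂ) • Y)) - ∑ c, W c * W c := by
    rw [e1, h4, Finset.mul_sum, ← Finset.sum_neg_distrib, ← Finset.sum_sub_distrib]
    exact Finset.sum_congr rfl fun c _ => e2 c
  have e6 : ∑ c, W c * W c = -((N * N).trace • (1 : Module.End ℂ U)) := by
    simp only [hS]
    rw [← Finset.sum_smul, ← neg_smul]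
    congr 1
    rw [Matrix.trace, ← Finset.sum_neg_distrib]
    refine Finset.sum_congr rfl fun c _ => ?_
    rw [Matrix.diag_apply, Matrix.mul_apply, ← Finset.sum_neg_distrib]
    refine Finset.sum_congr rfl fun a _ => ?_
    rw [Sk_apply hN c a]
    ring
  rw [e6, mul_smul_comm] at e5
  have e7 : (8 : ℂ) • (Y * Y) = (4 : ℂ) • (Y * Y) + (4 : ℂ) • (Y * Y) := by module
  rw [e7]
  nth_rewrite 1 [e5]
  abel

/-- Elements of square `-1`: the cube of the adjoint action. -/
theorem ad_cube {R : Type*} [Ring R] {y z : R} (h : y * y = -1) :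
    y * (y * (y * z - z * y) - (y * z - z * y) * y) - (y * (y * z - z * y) - (y * z - z * y) * y) * y =
      -(4 * (y * z - z * y)) := by
  have h1 : ∀ w : R, y * (y * w) = -w := fun w => by rw [← mul_assoc, h, neg_one_mul]
  have h2 : ∀ w : R, w * y * y = -w := fun w => by rw [mul_assoc, h, mul_neg_one]
  simp only [mul_sub, sub_mul, ← mul_assoc, h, h2, neg_mul, one_mul, mul_assoc]
  simp only [h1, mul_neg, h, mul_one]
  noncomm_ring

variable {V : Type} [AddCommGroup V] [Module ℂ V] [FiniteDimensional ℂ U] [Nontrivial U]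
  {F : Fin n → Module.End ℂ V}

/-- **Isomorphisms of `so(n)`, `n ≠ 8`, preserve the elements of rank two.** -/
theorem sq_iso (hE : CE E) (hF : CE F) (hn : n ≠ 8) (hn2 : n ≠ 2) (ψ : Sk n ≃ₗ[ℂ] Sk n)
    (hψ : ∀ X Y, ψ (adS X Y) = adS (ψ X) (ψ Y)) {M : Sk n} (hM : Q E M.1 * Q E M.1 = -1)
    (ht : (M.1 * M.1).trace = -8) : Q F (ψ M).1 * Q F (ψ M).1 = -1 := by
  -- the trace
  have h1 : ((ψ M).1 * (ψ M).1).trace = -8 := by
    have e1 : adS (ψ M) ∘ₗ adS (ψ M) = ψ.conj (adS M ∘ₗ adS M) := by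
      refine LinearMap.ext fun X => ?_
      rw [LinearEquiv.conj_apply_apply, LinearMap.comp_apply, LinearMap.comp_apply, hψ, hψ,
        LinearEquiv.apply_symm_apply]
    have e2 := trace_adS (ψ M)
    rw [e1, LinearMap.trace_conj', trace_adS, ht] at e2
    have e3 : (n : ℂ) - 2 ≠ 0 := by
      rw [sub_ne_zero]
      exact_mod_cast hn2
    exact (mul_left_cancel₀ e3 e2).symm
  -- the cube of the adjoint action
  have h2 : ∀ X : Sk n, adS M (adS M (adS M X)) = -(4 : ℂ) • adS M X := by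
    intro X
    apply Subtype.ext
    apply sub_eq_zero.1
    refine Q_inj hE ((Sk n).sub_mem (adS M (adS M (adS M X))).2 (-(4 : ℂ) • adS M X).2) ?_
    have e1 : ∀ X : Sk n, Q E (adS M X).1 = Q E M.1 * Q E X.1 - Q E X.1 * Q E M.1 := fun X => by
      rw [adS_coe, Q_br hE M.2]
    rw [map_sub, e1, e1, e1, Submodule.coe_smul, map_smul, e1, ad_cube hM]
    have e4 : (4 : Module.End ℂ U) = (4 : ℂ) • 1 := by
      rw [← Algebra.algebraMap_eq_smul_one, map_ofNat]
    rw [e4, smul_mul_assoc, one_mul, neg_smul, sub_self]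
  have h3 : ∀ X : Sk n, adS (ψ M) (adS (ψ M) (adS (ψ M) X)) = -(4 : ℂ) • adS (ψ M) X := by
    intro X
    have e1 := congrArg ψ (h2 (ψ.symm X))
    rw [hψ, hψ, hψ, map_smul, hψ, LinearEquiv.apply_symm_apply] at e1
    exact e1
  have h4 : ∀ X ∈ Sk n, (ψ M).1 * ((ψ M).1 * ((ψ M).1 * X - X * (ψ M).1) -
      ((ψ M).1 * X - X * (ψ M).1) * (ψ M).1) -
      ((ψ M).1 * ((ψ M).1 * X - X * (ψ M).1) -
      ((ψ M).1 * X - X * (ψ M).1) * (ψ M).1) * (ψ M).1 =
      -(4 : ℂ) • ((ψ M).1 * X - X * (ψ M).1) :=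
    fun X hX => congrArg Subtype.val (h3 ⟨X, hX⟩)
  have h5 := Q_sq hF (ψ M).2 (fun k a b j => pfaff (ψ M).2 hn h1 h4 k a b j)
  rw [h1] at h5
  have h6 : (8 : ℂ) • (Q F (ψ M).1 * Q F (ψ M).1) = (8 : ℂ) • (-1 : Module.End ℂ V) := by
    rw [h5]
    module
  exact smul_right_injective _ (by norm_num : (8 : ℂ) ≠ 0) h6

end Pool.Agent.Helper883K
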