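import Pool.Agent.Helper883_K3.Rep

set_option autoImplicit false
set_option linter.unusedSectionVars false
set_option linter.unusedSimpArgs false
set_option linter.unusedVariables false

/-!
# Direct sums of representations of `sl(2)`
-/

open Module

noncomputable section

namespace Pool.Agent.Helper883K

open Pool.Agent.Y102.SP

/-- The generators of a sum of Lie algebras `sl(2)`, which acts by a direct sum. -/
structure SumS {k : ℕ} {U : Type} [AddCommGroup U] [Module ℂ U] (p : Fin k → Module.End ℂ U)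
    (E : Fin k → Fin 3 → Module.End ℂ U) : Prop where
  sum : ∑ σ, p σ = 1
  ne : ∀ σ, p σ ≠ 0
  orth : ∀ σ τ, σ ≠ τ → p σ * p τ = 0
  sq : ∀ σ a, E σ a * E σ a = p σ
  anti : ∀ σ a b, a ≠ b → E σ a * E σ b = -(E σ b * E σ a)
  left : ∀ σ a, p σ * E σ a = E σ a
  right : ∀ σ a, E σ a * p σ = E σ a

namespace SumS

variable {k : ℕ} {U : Type} [AddCommGroup U] [Module ℂ U] {p : Fin k → Module.End ℂ U}
  {E : Fin k → Fin 3 → Module.End ℂ U} (h : SumS p E)
include h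

theorem idem (σ : Fin k) : p σ * p σ = p σ := by
  nth_rewrite 2 [← h.sq σ 0]
  rw [← mul_assoc, h.left, h.sq]

theorem ce (σ : Fin k) : CE fun a => Rp (p σ) (E σ a) := by
  have h1 : ∀ a, E σ a * p σ = p σ * E σ a := fun a => by rw [h.left, h.right]
  refine ⟨fun a => ?_, fun a b hab => ?_⟩
  · rw [← Rp_mul (h.idem σ) (h1 a), h.sq, Rp_self (h.idem σ)]
  · rw [← Rp_mul (h.idem σ) (h1 b), ← Rp_mul (h.idem σ) (h1 a), h.anti σ a b hab, map_neg]

theorem leftQ (σ : Fin k) (M : Matrix (Fin 3) (Fin 3) ℂ) : p σ * Q (E σ) M = Q (E σ) M := by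
  rw [Q_apply, mul_smul_comm, Finset.mul_sum]
  congr 1
  refine Finset.sum_congr rfl fun a _ => ?_
  rw [Finset.mul_sum]
  refine Finset.sum_congr rfl fun b _ => ?_
  rw [mul_smul_comm, ← mul_assoc, h.left]

theorem rightQ (σ : Fin k) (M : Matrix (Fin 3) (Fin 3) ℂ) : Q (E σ) M * p σ = Q (E σ) M := by
  rw [Q_apply, smul_mul_assoc, Finset.sum_mul]
  congr 1
  refine Finset.sum_congr rfl fun a _ => ?_
  rw [Finset.sum_mul]
  refine Finset.sum_congr rfl fun b _ => ?_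
  rw [smul_mul_assoc, mul_assoc, h.right]

theorem crossE {σ τ : Fin k} (hst : σ ≠ τ) (a b : Fin 3) : E σ a * E τ b = 0 := by
  rw [← h.right σ a, ← h.left τ b, mul_assoc, ← mul_assoc (p σ), h.orth σ τ hst, zero_mul,
    mul_zero]

theorem crossPQ {σ τ : Fin k} (hst : σ ≠ τ) (M : Matrix (Fin 3) (Fin 3) ℂ) :
    p σ * Q (E τ) M = 0 := by
  rw [← h.leftQ, ← mul_assoc, h.orth σ τ hst, zero_mul]

theorem crossQ {σ τ : Fin k} (hst : σ ≠ τ) (M N : Matrix (Fin 3) (Fin 3) ℂ) :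
    Q (E σ) M * Q (E τ) N = 0 := by
  rw [← h.rightQ σ M, mul_assoc, h.crossPQ hst, mul_zero]

theorem Rp_Q (σ : Fin k) (M : Matrix (Fin 3) (Fin 3) ℂ) :
    Rp (p σ) (Q (E σ) M) = Q (fun a => Rp (p σ) (E σ a)) M := by
  have h1 : ∀ a, E σ a * p σ = p σ * E σ a := fun a => by rw [h.left, h.right]
  rw [Q_apply, Q_apply, map_smul, map_sum]
  congr 1
  refine Finset.sum_congr rfl fun a _ => ?_
  rw [map_sum]
  refine Finset.sum_congr rfl fun b _ => ?_
  rw [map_smul, Rp_mul (h.idem σ) (h1 b)]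

theorem eq_of_Rp {σ : Fin k} {x y : Module.End ℂ U} (hx : p σ * x = x) (hx' : x * p σ = x)
    (hy : p σ * y = y) (hy' : y * p σ = y) (hxy : Rp (p σ) x = Rp (p σ) y) : x = y := by
  have h1 := mul_eq_of_Rp (h.idem σ) (by rw [hx, hx']) (by rw [hy, hy']) hxy
  rwa [hx', hy'] at h1

theorem brQ (σ : Fin k) {M : Matrix (Fin 3) (Fin 3) ℂ} (hM : M ∈ Sk 3)
    (N : Matrix (Fin 3) (Fin 3) ℂ) : Q (E σ) M * Q (E σ) N - Q (E σ) N * Q (E σ) M =
      Q (E σ) (M * N - N * M) := by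
  have h1 : ∀ M, Q (E σ) M * p σ = p σ * Q (E σ) M := fun M => by rw [h.leftQ, h.rightQ]
  refine h.eq_of_Rp (σ := σ) ?_ ?_ (h.leftQ _ _) (h.rightQ _ _) ?_
  · rw [mul_sub, ← mul_assoc, ← mul_assoc, h.leftQ, h.leftQ]
  · rw [sub_mul, mul_assoc, mul_assoc, h.rightQ, h.rightQ]
  · rw [map_sub, Rp_mul (h.idem σ) (h1 N), Rp_mul (h.idem σ) (h1 M), h.Rp_Q, h.Rp_Q, h.Rp_Q,
      Q_br (h.ce σ) hM]

theorem el2Q (σ : Fin k) {a b : Fin 3} (hab : a ≠ b) : Q (E σ) (el2 a b).1 = E σ a * E σ b := by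
  have h1 : ∀ a, E σ a * p σ = p σ * E σ a := fun a => by rw [h.left, h.right]
  refine h.eq_of_Rp (σ := σ) (h.leftQ _ _) (h.rightQ _ _) ?_ ?_ ?_
  · rw [← mul_assoc, h.left]
  · rw [mul_assoc, h.right]
  · rw [h.Rp_Q, Q_el2 (h.ce σ) hab, Rp_mul (h.idem σ) (h1 b)]

theorem mulQM (X Y : Fin k → Sk 3) :
    QM E X * QM E Y = ∑ σ, Q (E σ) (X σ).1 * Q (E σ) (Y σ).1 := by
  rw [QM_apply, QM_apply, Finset.sum_mul]
  refine Finset.sum_congr rfl fun σ _ => ?_
  rw [Finset.mul_sum, Finset.sum_eq_single σ]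
  · intro τ _ hτ
    exact h.crossQ (Ne.symm hτ) _ _
  · intro h
    exact absurd (Finset.mem_univ _) h

theorem pQM (σ : Fin k) (X : Fin k → Sk 3) : p σ * QM E X = Q (E σ) (X σ).1 := by
  rw [QM_apply, Finset.mul_sum, Finset.sum_eq_single σ]
  · exact h.leftQ _ _
  · intro τ _ hτ
    exact h.crossPQ (Ne.symm hτ) _
  · intro h
    exact absurd (Finset.mem_univ _) h

theorem sqE (σ : Fin k) {a b : Fin 3} (hab : a ≠ b) : (E σ a * E σ b) * (E σ a * E σ b) = -p σ := by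
  have h1 : E σ b * (E σ a * E σ b) = -(E σ a) := by
    rw [← mul_assoc, h.anti σ b a (Ne.symm hab), neg_mul, mul_assoc, h.sq, h.right]
  rw [mul_assoc, h1, mul_neg, h.sq]

theorem rep [FiniteDimensional ℂ U] : RepS (QM E) := by
  refine ⟨fun X hX => ?_, fun X Y => ?_, fun hk => ?_⟩
  · funext σ
    have := nontrivial_range (h.ne σ)
    have h1 := h.pQM σ X
    rw [hX, mul_zero] at h1
    have h2 := h.Rp_Q σ (X σ).1
    rw [← h1, map_zero] at h2
    exact Subtype.ext (Q_inj (h.ce σ) (X σ).2 h2.symm)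
  · rw [h.mulQM, h.mulQM, ← Finset.sum_sub_distrib, QM_apply]
    refine Finset.sum_congr rfl fun σ _ => ?_
    rw [h.brQ σ (X σ).2]
    rfl
  · have h1 : (1 : Module.End ℂ U) = ∑ σ, (-1 : ℂ) • (QM E (Pi.single σ (el2 0 1)) *
        QM E (Pi.single σ (el2 0 1))) := by
      rw [← h.sum]
      refine Finset.sum_congr rfl fun σ _ => ?_
      rw [QM_single, h.el2Q σ (by decide : (0 : Fin 3) ≠ 1), h.sqE σ (by decide), neg_one_smul,
        neg_neg]
    rw [h1]
    exact Submodule.sum_mem _ fun σ _ => Submodule.smul_mem _ _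
      (Submodule.subset_span ⟨_, _, rfl⟩)

theorem range : LinearMap.range (QM E) = soM E := by
  refine le_antisymm ?_ (Submodule.span_le.2 ?_)
  · rintro _ ⟨X, rfl⟩
    rw [QM_apply]
    refine Submodule.sum_mem _ fun σ _ => ?_
    have h1 : ∀ a b : Fin 3, a ≠ b → Q (E σ) (el2 a b).1 ∈ soM E := fun a b hab => by
      rw [h.el2Q σ hab]
      exact Submodule.subset_span ⟨σ, a, b, hab, rfl⟩
    have h2 : Q (E σ) (X σ).1 = ((X σ).1 0 1 / 2) • Q (E σ) (el2 0 1).1 +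
        ((X σ).1 0 2 / 2) • Q (E σ) (el2 0 2).1 + ((X σ).1 1 2 / 2) • Q (E σ) (el2 1 2).1 := by
      rw [← map_smul, ← map_smul, ← map_smul, ← map_add, ← map_add]
      congr 1
      exact congrArg Subtype.val (Sk3_eq (X σ))
    rw [h2]
    exact Submodule.add_mem _ (Submodule.add_mem _ (Submodule.smul_mem _ _ (h1 _ _ (by decide)))
      (Submodule.smul_mem _ _ (h1 _ _ (by decide)))) (Submodule.smul_mem _ _ (h1 _ _ (by decide)))
  · rintro _ ⟨σ, a, b, hab, rfl⟩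
    exact ⟨Pi.single σ (el2 a b), by rw [QM_single, h.el2Q σ hab]⟩

/-- Brackets. -/
theorem perfect : soM E ≤
    Submodule.span ℂ {z | ∃ x ∈ soM E, ∃ y ∈ soM E, z = x * y - y * x} := by
  refine Submodule.span_le.2 ?_
  rintro _ ⟨σ, a, b, hab, rfl⟩
  obtain ⟨c, hca, hcb⟩ := exists_third (le_refl 3) a b
  have h1 : (E σ c * E σ a) * (E σ c * E σ b) = -(E σ a * E σ b) := by
    rw [mul_assoc, ← mul_assoc (E σ a), h.anti σ a c (Ne.symm hca), neg_mul, mul_neg,
      ← mul_assoc, ← mul_assoc, h.sq, h.left]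
  have h2 : (E σ c * E σ b) * (E σ c * E σ a) = E σ a * E σ b := by
    rw [mul_assoc, ← mul_assoc (E σ b), h.anti σ b c (Ne.symm hcb), neg_mul, mul_neg,
      ← mul_assoc, ← mul_assoc, h.sq, h.left, h.anti σ b a (Ne.symm hab), neg_neg]
  have h3 : E σ a * E σ b = (-1 / 2 : ℂ) • ((E σ c * E σ a) * (E σ c * E σ b) -
      (E σ c * E σ b) * (E σ c * E σ a)) := by
    rw [h1, h2]
    module
  rw [h3]
  exact Submodule.smul_mem _ _ (Submodule.subset_span
    ⟨_, Submodule.subset_span ⟨σ, c, a, hca, rfl⟩, _, Submodule.subset_span ⟨σ, c, b, hcb, rfl⟩,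
      rfl⟩)

/-- The Lie algebra is of type `A_1`. -/
theorem typeA : ∃ (n : ℕ) (φ : Fin n → Pool.Agent.Y102.TA.S →ₗ[ℂ] Module.End ℂ U),
    Pool.Agent.Y102.TA.TypeA φ (soM E) := by
  have hm : ∀ σ (a b : Fin 3), a ≠ b → E σ a * E σ b ∈ soM E := fun σ a b hab =>
    Submodule.subset_span ⟨σ, a, b, hab, rfl⟩
  have hxy : ∀ σ, E σ 0 * E σ 1 * (E σ 1 * E σ 2) = E σ 0 * E σ 2 := fun σ => by
    rw [mul_assoc, ← mul_assoc (E σ 1), h.sq, h.left]
  have hyx : ∀ σ, E σ 1 * E σ 2 * (E σ 0 * E σ 1) = -(E σ 0 * E σ 2) := fun σ => by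
    have e1 : E σ 2 * (E σ 0 * E σ 1) = E σ 0 * E σ 1 * E σ 2 := by
      rw [← mul_assoc, h.anti σ 2 0 (by decide), neg_mul, mul_assoc, h.anti σ 2 1 (by decide),
        mul_neg, neg_neg, mul_assoc]
    rw [mul_assoc, e1, ← mul_assoc, ← mul_assoc, h.anti σ 1 0 (by decide), neg_mul, neg_mul,
      mul_assoc (E σ 0), h.sq, h.right]
  refine Small_abs (J := Fin k) p (fun σ => E σ 0 * E σ 1) (fun σ => E σ 1 * E σ 2) (soM E)
    (fun σ => ⟨h.idem σ, ?_, ?_, ?_, ?_, h.sqE σ (by decide), h.sqE σ (by decide), ?_⟩) ?_ h.ne ?_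
    ?_ ?_
  · rw [← mul_assoc, h.left]
  · rw [mul_assoc, h.right]
  · rw [← mul_assoc, h.left]
  · rw [mul_assoc, h.right]
  · rw [hyx, hxy]
  · intro σ τ hst u hu v hv
    have key : ∀ ρ, ∀ u ∈ ({p ρ, E ρ 0 * E ρ 1, E ρ 1 * E ρ 2} : Set (Module.End ℂ U)),
        p ρ * u = u ∧ u * p ρ = u := by
      intro ρ u hu
      rcases hu with rfl | rfl | rfl
      · exact ⟨h.idem ρ, h.idem ρ⟩
      · exact ⟨by rw [← mul_assoc, h.left], by rw [mul_assoc, h.right]⟩
      · exact ⟨by rw [← mul_assoc, h.left], by rw [mul_assoc, h.right]⟩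
    obtain ⟨u1, u2⟩ := key σ u hu
    obtain ⟨v1, v2⟩ := key τ v hv
    have e1 : u * v = 0 := by
      rw [← u2, ← v1, mul_assoc, ← mul_assoc (p σ), h.orth σ τ hst, zero_mul, mul_zero]
    have e2 : v * u = 0 := by
      rw [← v2, ← u1, mul_assoc, ← mul_assoc (p τ), h.orth τ σ (Ne.symm hst), zero_mul, mul_zero]
    rw [e1, e2]
  · intro σ
    refine ⟨hm σ 0 1 (by decide), hm σ 1 2 (by decide), ?_⟩
    rw [hxy]
    exact hm σ 0 2 (by decide)
  · refine Submodule.span_le.2 ?_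
    rintro _ ⟨σ, a, b, hab, rfl⟩
    have g1 : E σ 0 * E σ 1 ∈ Submodule.span ℂ {z | ∃ j, z = E j 0 * E j 1 ∨ z = E j 1 * E j 2 ∨
        z = E j 0 * E j 1 * (E j 1 * E j 2)} := Submodule.subset_span ⟨σ, Or.inl rfl⟩
    have g2 : E σ 1 * E σ 2 ∈ Submodule.span ℂ {z | ∃ j, z = E j 0 * E j 1 ∨ z = E j 1 * E j 2 ∨
        z = E j 0 * E j 1 * (E j 1 * E j 2)} := Submodule.subset_span ⟨σ, Or.inr (Or.inl rfl)⟩
    have g3 : E σ 0 * E σ 2 ∈ Submodule.span ℂ {z | ∃ j, z = E j 0 * E j 1 ∨ z = E j 1 * E j 2 ∨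
        z = E j 0 * E j 1 * (E j 1 * E j 2)} := by
      rw [← hxy]
      exact Submodule.subset_span ⟨σ, Or.inr (Or.inr rfl)⟩
    rw [SetLike.mem_coe]
    fin_cases a <;> fin_cases b
    · exact absurd rfl hab
    · exact g1
    · exact g3
    · change E σ 1 * E σ 0 ∈ _
      rw [h.anti σ 1 0 (by decide)]
      exact Submodule.neg_mem _ g1
    · exact absurd rfl hab
    · exact g2
    · change E σ 2 * E σ 0 ∈ _
      rw [h.anti σ 2 0 (by decide)]
      exact Submodule.neg_mem _ g3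
    · change E σ 2 * E σ 1 ∈ _
      rw [h.anti σ 2 1 (by decide)]
      exact Submodule.neg_mem _ g2
    · exact absurd rfl hab
  · intro σ τ hst
    right
    obtain ⟨u, hu⟩ : ∃ u, p τ u ≠ 0 := by
      by_contra hcon
      push Not at hcon
      exact h.ne τ (LinearMap.ext hcon)
    obtain ⟨v, hv⟩ : ∃ v, p σ v ≠ 0 := by
      by_contra hcon
      push Not at hcon
      exact h.ne σ (LinearMap.ext hcon)
    obtain ⟨f, hf⟩ : ∃ f : Module.Dual ℂ U, f (p τ u) ≠ 0 := by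
      by_contra hcon
      push Not at hcon
      exact hu ((Module.forall_dual_apply_eq_zero_iff ℂ _).1 hcon)
    let N : Module.End ℂ U := (f ∘ₗ p τ).smulRight (p σ v)
    have hN : ∀ w, N w = f (p τ w) • p σ v := fun w => rfl
    have n1 : p σ * N = N := by
      refine LinearMap.ext fun w => ?_
      rw [Module.End.mul_apply, hN, map_smul, ← Module.End.mul_apply, h.idem]
    have n2 : N * p τ = N := by
      refine LinearMap.ext fun w => ?_
      rw [Module.End.mul_apply, hN, hN, ← Module.End.mul_apply, h.idem]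
    refine ⟨N, fun h0 => ?_, n1, n2, fun l hl1 hl2 w hw => ?_⟩
    · have h1 := LinearMap.congr_fun h0 u
      rw [hN, LinearMap.zero_apply] at h1
      exact hv ((smul_eq_zero.1 h1).resolve_left hf)
    · have key : p l * w = w ∧ w * p l = w := by
        rcases hw with rfl | rfl | rfl
        · exact ⟨h.idem l, h.idem l⟩
        · exact ⟨by rw [← mul_assoc, h.left], by rw [mul_assoc, h.right]⟩
        · exact ⟨by rw [← mul_assoc, h.left], by rw [mul_assoc, h.right]⟩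
      have e1 : N * w = 0 := by
        rw [← key.1, ← n2, mul_assoc, ← mul_assoc (p τ), h.orth τ l (Ne.symm hl2), zero_mul,
          mul_zero]
      have e2 : w * N = 0 := by
        rw [← key.2, ← n1, mul_assoc, ← mul_assoc (p l), h.orth l σ hl1, zero_mul, mul_zero]
      rw [e1, e2]

end SumS

end Pool.Agent.Helper883K
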