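import Pool.Agent.Helper883_K3.Mat

set_option autoImplicit false
set_option linter.unusedSectionVars false
set_option linter.unusedSimpArgs false
set_option linter.unusedVariables false

/-!
# Traces on the space of skew-symmetric matrices
-/

open Matrix Module

noncomputable section

namespace Pool.Agent.Helper883K

variable {n : ℕ}

theorem trace_mat (L : Matrix (Fin n) (Fin n) ℂ →ₗ[ℂ] Matrix (Fin n) (Fin n) ℂ) :
    LinearMap.trace ℂ _ L = ∑ p : Fin n × Fin n, L (Matrix.single p.1 p.2 1) p.1 p.2 := by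
  have hc : ∀ (p : Fin n × Fin n) (X : Matrix (Fin n) (Fin n) ℂ),
      (Matrix.stdBasis ℂ (Fin n) (Fin n)).repr X p = X p.1 p.2 := by
    intro p X
    have h1 : (Matrix.stdBasis ℂ (Fin n) (Fin n)).coord p =
        (LinearMap.proj p.2 : (Fin n → ℂ) →ₗ[ℂ] ℂ) ∘ₗ
          (LinearMap.proj p.1 : (Fin n → Fin n → ℂ) →ₗ[ℂ] (Fin n → ℂ)) ∘ₗ
            (Matrix.ofLinearEquiv ℂ).symm.toLinearMap := by
      refine (Matrix.stdBasis ℂ (Fin n) (Fin n)).ext fun q => ?_
      rw [Basis.coord_apply, Basis.repr_self]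
      obtain ⟨a, b⟩ := q
      obtain ⟨i, j⟩ := p
      rw [Matrix.stdBasis_eq_single]
      change _ = Matrix.single a b (1 : ℂ) i j
      rw [Finsupp.single_apply, Matrix.single_apply]
      simp only [Prod.mk.injEq]
    exact LinearMap.congr_fun h1 X
  rw [LinearMap.trace_eq_matrix_trace ℂ (Matrix.stdBasis ℂ (Fin n) (Fin n)), Matrix.trace]
  refine Finset.sum_congr rfl fun p _ => ?_
  rw [Matrix.diag_apply, LinearMap.toMatrix_apply, hc]
  obtain ⟨a, b⟩ := p
  rw [Matrix.stdBasis_eq_single]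

/-- The projection to the skew-symmetric matrices. -/
def pr (n : ℕ) : Matrix (Fin n) (Fin n) ℂ →ₗ[ℂ] Sk n where
  toFun X := ⟨(1 / 2 : ℂ) • (X - Xᵀ), by
    rw [mem_Sk, Matrix.transpose_smul, Matrix.transpose_sub, Matrix.transpose_transpose,
      ← smul_neg, neg_sub]⟩
  map_add' X Y := by
    ext i j
    simp only [Matrix.smul_apply, Matrix.sub_apply, Matrix.add_apply, Matrix.transpose_apply,
      Submodule.coe_add, smul_eq_mul]
    ring
  map_smul' c X := by
    ext i j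
    simp only [Matrix.smul_apply, Matrix.sub_apply, Matrix.transpose_apply, RingHom.id_apply,
      Submodule.coe_smul, smul_eq_mul]
    ring

theorem pr_coe (X : Matrix (Fin n) (Fin n) ℂ) :
    (pr n X : Matrix (Fin n) (Fin n) ℂ) = (1 / 2 : ℂ) • (X - Xᵀ) := rfl

theorem pr_of_mem (X : Sk n) : pr n X = X := by
  apply Subtype.ext
  rw [pr_coe, mem_Sk.1 X.2, sub_neg_eq_add, ← two_smul ℂ, smul_smul]
  norm_num

/-- The trace of the restriction. -/
theorem trace_Sk (L : Matrix (Fin n) (Fin n) ℂ →ₗ[ℂ] Matrix (Fin n) (Fin n) ℂ) (f : Sk n →ₗ[ℂ] Sk n)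
    (hf : ∀ X, (f X : Matrix (Fin n) (Fin n) ℂ) = L X) :
    LinearMap.trace ℂ (Sk n) f = (1 / 2 : ℂ) * ∑ i, ∑ j, (L (Matrix.single i j 1) i j -
      L (Matrix.single j i 1) i j) := by
  have h1 : f = (f ∘ₗ pr n) ∘ₗ (Sk n).subtype := by
    refine LinearMap.ext fun X => ?_
    rw [LinearMap.comp_apply, LinearMap.comp_apply, Submodule.subtype_apply, pr_of_mem]
  rw [h1, LinearMap.trace_comp_comm', trace_mat, Fintype.sum_prod_type, Finset.mul_sum]
  refine Finset.sum_congr rfl fun i _ => ?_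
  rw [Finset.mul_sum]
  refine Finset.sum_congr rfl fun j _ => ?_
  change (f (pr n (Matrix.single i j 1)) : Matrix (Fin n) (Fin n) ℂ) i j = _
  rw [hf, pr_coe, map_smul, map_sub, Matrix.transpose_single, Matrix.smul_apply,
    Matrix.sub_apply, smul_eq_mul]

/-- The map `X ↦ A X B`. -/
def LR (A B : Matrix (Fin n) (Fin n) ℂ) :
    Matrix (Fin n) (Fin n) ℂ →ₗ[ℂ] Matrix (Fin n) (Fin n) ℂ :=
  LinearMap.mulLeft ℂ A ∘ₗ LinearMap.mulRight ℂ B

theorem LR_apply (A B X : Matrix (Fin n) (Fin n) ℂ) : LR A B X = A * X * B := by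
  change A * (X * B) = _
  rw [Matrix.mul_assoc]

theorem LR_sum (A B : Matrix (Fin n) (Fin n) ℂ) :
    ∑ i, ∑ j, (LR A B (Matrix.single i j 1) i j - LR A B (Matrix.single j i 1) i j) =
      A.trace * B.trace - (Aᵀ * B).trace := by
  have h1 : ∀ i j, LR A B (Matrix.single i j 1) i j - LR A B (Matrix.single j i 1) i j =
      A i i * B j j - A i j * B i j := by
    intro i j
    rw [LR_apply, LR_apply, ent, ent]
  simp only [h1, Finset.sum_sub_distrib]
  congr 1
  · rw [Matrix.trace, Matrix.trace, Finset.sum_mul_sum]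
    rfl
  · rw [Finset.sum_comm, Matrix.trace]
    refine Finset.sum_congr rfl fun j _ => ?_
    rw [Matrix.diag_apply, Matrix.mul_apply]
    rfl

/-- The adjoint action on the skew-symmetric matrices. -/
def adS (M : Sk n) : Sk n →ₗ[ℂ] Sk n where
  toFun X := ⟨M.1 * X.1 - X.1 * M.1, Sk_br M.2 X.2⟩
  map_add' X Y := by
    apply Subtype.ext
    change M.1 * (X.1 + Y.1) - (X.1 + Y.1) * M.1 =
      (M.1 * X.1 - X.1 * M.1) + (M.1 * Y.1 - Y.1 * M.1)
    rw [Matrix.mul_add, Matrix.add_mul]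
    abel
  map_smul' c X := by
    apply Subtype.ext
    change M.1 * (c • X.1) - (c • X.1) * M.1 = c • (M.1 * X.1 - X.1 * M.1)
    rw [Matrix.mul_smul, Matrix.smul_mul, smul_sub]

theorem adS_coe (M X : Sk n) : (adS M X : Matrix (Fin n) (Fin n) ℂ) = M.1 * X.1 - X.1 * M.1 := rfl

/-- The Killing form. -/
theorem trace_adS (M : Sk n) : LinearMap.trace ℂ (Sk n) (adS M ∘ₗ adS M) =
    ((n : ℂ) - 2) * (M.1 * M.1).trace := by
  let L : Matrix (Fin n) (Fin n) ℂ →ₗ[ℂ] Matrix (Fin n) (Fin n) ℂ :=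
    LR (M.1 * M.1) 1 - (2 : ℂ) • LR M.1 M.1 + LR 1 (M.1 * M.1)
  have hL : ∀ X : Sk n, ((adS M ∘ₗ adS M) X : Matrix (Fin n) (Fin n) ℂ) = L X.1 := by
    intro X
    change M.1 * (M.1 * X.1 - X.1 * M.1) - (M.1 * X.1 - X.1 * M.1) * M.1 =
      LR (M.1 * M.1) 1 X.1 - (2 : ℂ) • LR M.1 M.1 X.1 + LR 1 (M.1 * M.1) X.1
    rw [LR_apply, LR_apply, LR_apply, Matrix.mul_one, Matrix.one_mul]
    simp only [Matrix.mul_sub, Matrix.sub_mul, Matrix.mul_assoc]
    module
  rw [trace_Sk L _ hL]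
  have h1 : ∀ i j, L (Matrix.single i j 1) i j - L (Matrix.single j i 1) i j =
      (LR (M.1 * M.1) 1 (Matrix.single i j 1) i j - LR (M.1 * M.1) 1 (Matrix.single j i 1) i j) -
      2 * (LR M.1 M.1 (Matrix.single i j 1) i j - LR M.1 M.1 (Matrix.single j i 1) i j) +
      (LR 1 (M.1 * M.1) (Matrix.single i j 1) i j -
        LR 1 (M.1 * M.1) (Matrix.single j i 1) i j) := by
    intro i j
    change (LR (M.1 * M.1) 1 (Matrix.single i j 1) i j - 2 * LR M.1 M.1 (Matrix.single i j 1) i j +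
      LR 1 (M.1 * M.1) (Matrix.single i j 1) i j) - (LR (M.1 * M.1) 1 (Matrix.single j i 1) i j -
      2 * LR M.1 M.1 (Matrix.single j i 1) i j + LR 1 (M.1 * M.1) (Matrix.single j i 1) i j) = _
    ring
  simp only [h1]
  simp only [Finset.sum_add_distrib, Finset.sum_sub_distrib (f := fun i => _), ← Finset.mul_sum]
  have e : ∀ (A B : Matrix (Fin n) (Fin n) ℂ),
      ∑ i, ∑ j, LR A B (Matrix.single i j 1) i j - ∑ i, ∑ j, LR A B (Matrix.single j i 1) i j =
      A.trace * B.trace - (Aᵀ * B).trace := by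
    intro A B
    rw [← LR_sum]
    simp only [Finset.sum_sub_distrib]
  have t1 : (M.1 * M.1)ᵀ = M.1 * M.1 := by
    rw [Matrix.transpose_mul, mem_Sk.1 M.2]
    noncomm_ring
  have t2 : M.1.trace = 0 := Finset.sum_eq_zero fun i _ => Sk_diag M.2 i
  rw [e, e, e, t1, t2, Matrix.trace_one, Matrix.mul_one, Matrix.transpose_one, Matrix.one_mul,
    mem_Sk.1 M.2, Matrix.neg_mul, Matrix.trace_neg, Fintype.card_fin]
  ring

/-- The dimension. -/
theorem finrank_Sk : (finrank ℂ (Sk n) : ℂ) = (n : ℂ) * ((n : ℂ) - 1) / 2 := by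
  rw [← LinearMap.trace_id, trace_Sk (LR 1 1) LinearMap.id (fun X => by
    rw [LR_apply, Matrix.one_mul, Matrix.mul_one]; rfl), LR_sum, Matrix.trace_one,
    Matrix.transpose_one, Matrix.one_mul, Matrix.trace_one, Fintype.card_fin]
  ring

theorem eq_of_finrank {m : ℕ} (hn : 2 ≤ n) (hm : 2 ≤ m) (h : finrank ℂ (Sk n) = finrank ℂ (Sk m)) :
    n = m := by
  have h1 := finrank_Sk (n := n)
  have h2 := finrank_Sk (n := m)
  rw [h, h2] at h1
  have h3 : ((m : ℂ) - n) * ((m : ℂ) + n - 1) = 0 := by linear_combination 2 * h1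
  rcases mul_eq_zero.1 h3 with h4 | h4
  · rw [sub_eq_zero] at h4
    exact_mod_cast h4.symm
  · exfalso
    have h5 : (m : ℂ) + n = 1 := by linear_combination h4
    have h6 : m + n = 1 := by exact_mod_cast h5
    omega

end Pool.Agent.Helper883K
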