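import Pool.Agent.Helper883_K3.Types

set_option autoImplicit false
set_option linter.unusedSectionVars false
set_option linter.unusedSimpArgs false
set_option linter.unusedVariables false

/-!
# Triality: intertwining operators for `so(8)`
-/

open Matrix Module

noncomputable section

namespace Pool.Agent.Helper883K

open Pool.Agent.Y102.SP

section inter

variable {U V : Type} [AddCommGroup U] [Module ℂ U] [AddCommGroup V] [Module ℂ V]

/-- Intertwining operators: the construction on the side of the target. -/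
theorem exists_interV [Nontrivial U] [Nontrivial V] {ι : Type} [DecidableEq ι]
    {x : ι → Module.End ℂ U} {y z : ι → Module.End ℂ V} (hx : ∀ i, x i * x i = -1)
    (hy : ∀ i, y i * y i = -1)
    (hxy : ∀ i j, i ≠ j → (x i * x j = x j * x i ∧ y i * y j = y j * y i) ∨
      (x i * x j = -(x j * x i) ∧ y i * y j = -(y j * y i)))
    (hz : ∀ i, z i * z i = 1) (hzx : ∀ i, z i * y i = -(y i * z i))
    (hzz : ∀ i j, i ≠ j → z i * y j = y j * z i) (S : Finset ι) :
    ∃ T : U →ₗ[ℂ] V, T ≠ 0 ∧ ∀ i ∈ S, (y i) ∘ₗ T = T ∘ₗ (x i) := by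
  have ax : ∀ i u, x i (x i u) = -u := fun i u => by
    rw [← Module.End.mul_apply, hx]; rfl
  have ay : ∀ i u, y i (y i u) = -u := fun i u => by
    rw [← Module.End.mul_apply, hy]; rfl
  induction S using Finset.induction_on with
  | empty =>
    obtain ⟨T, hT⟩ := exists_ne_zero (U := U) (V := V)
    exact ⟨T, hT, fun a ha => absurd ha (Finset.notMem_empty a)⟩
  | insert a S ha ih =>
    obtain ⟨T, hT, hTS⟩ := ih
    have hTS' : ∀ b ∈ S, ∀ u, y b (T u) = T (x b u) := fun b hb u =>
      LinearMap.congr_fun (hTS b hb) u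
    have hba : ∀ b ∈ S, b ≠ a := fun b hb h => ha (by rw [← h]; exact hb)
    by_cases h0 : T - (y a) ∘ₗ T ∘ₗ (x a) = 0
    · have h1 : ∀ u, T u = y a (T (x a u)) := fun u =>
        LinearMap.congr_fun (sub_eq_zero.1 h0) u
      have h2 : ∀ u, y a (T u) = -T (x a u) := fun u => by
        conv_lhs => rw [h1 u]
        rw [ay]
      refine ⟨(z a) ∘ₗ T, fun h => hT ?_, fun b hb => ?_⟩
      · refine LinearMap.ext fun u => ?_
        have h3 := congrArg (fun v => z a v) (LinearMap.congr_fun h u)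
        simp only [LinearMap.comp_apply, LinearMap.zero_apply, map_zero] at h3
        rw [← Module.End.mul_apply, hz] at h3
        exact h3
      · rw [Finset.mem_insert] at hb
        refine LinearMap.ext fun u => ?_
        rw [LinearMap.comp_apply, LinearMap.comp_apply, LinearMap.comp_apply,
          LinearMap.comp_apply, ← Module.End.mul_apply (y b)]
        rcases hb with rfl | hb
        · have h3 : y b * z b = -(z b * y b) := by rw [hzx, neg_neg]
          rw [h3, LinearMap.neg_apply, Module.End.mul_apply, h2, map_neg, neg_neg]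
        · rw [← hzz a b (Ne.symm (hba b hb)), Module.End.mul_apply, hTS' b hb]
    · refine ⟨_, h0, fun b hb => ?_⟩
      rw [Finset.mem_insert] at hb
      refine LinearMap.ext fun u => ?_
      rcases hb with rfl | hb
      · simp only [LinearMap.comp_apply, LinearMap.sub_apply, map_sub, ax, ay, map_neg]
        abel
      · rcases hxy b a (hba b hb) with ⟨h4, h5⟩ | ⟨h4, h5⟩
        · have h4' : ∀ v, x b (x a v) = x a (x b v) := fun v => LinearMap.congr_fun h4 v
          have h5' : ∀ v, y b (y a v) = y a (y b v) := fun v => LinearMap.congr_fun h5 v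
          simp only [LinearMap.comp_apply, LinearMap.sub_apply, map_sub, h5', hTS' b hb, h4']
        · have h4' : ∀ v, x b (x a v) = -(x a (x b v)) := fun v => LinearMap.congr_fun h4 v
          have h5' : ∀ v, y b (y a v) = -(y a (y b v)) := fun v => LinearMap.congr_fun h5 v
          simp only [LinearMap.comp_apply, LinearMap.sub_apply, map_sub, h5', hTS' b hb, h4',
            map_neg, neg_neg]

/-- An operator which intertwines the generators, for two representations. -/
theorem rep_of_gen {n : ℕ} {W : Type} [AddCommGroup W] [Module ℂ W] [FiniteDimensional ℂ W]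
    [Nontrivial W] {E : Fin n → Module.End ℂ W} (hE : CE E)
    (ρ : Sk n →ₗ[ℂ] Module.End ℂ U) (ρ' : Sk n →ₗ[ℂ] Module.End ℂ V)
    (hρ : ∀ X Y, ρ (adS X Y) = ρ X * ρ Y - ρ Y * ρ X)
    (hρ' : ∀ X Y, ρ' (adS X Y) = ρ' X * ρ' Y - ρ' Y * ρ' X) (o : Fin n) {T : U →ₗ[ℂ] V}
    (h3 : ∀ a, a ≠ o → (ρ' (el2 o a)) ∘ₗ T = T ∘ₗ (ρ (el2 o a))) (M : Sk n) :
    (ρ' M) ∘ₗ T = T ∘ₗ (ρ M) := by
  have had : ∀ M N : Sk n, (ρ' M) ∘ₗ T = T ∘ₗ (ρ M) → (ρ' N) ∘ₗ T = T ∘ₗ (ρ N) →
      (ρ' (adS M N)) ∘ₗ T = T ∘ₗ (ρ (adS M N)) := by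
    intro M N hM hN
    rw [hρ, hρ']
    have e1 : ∀ (p q : Module.End ℂ V) (r s : Module.End ℂ U), p ∘ₗ T = T ∘ₗ r → q ∘ₗ T = T ∘ₗ s →
        (p * q) ∘ₗ T = T ∘ₗ (r * s) := by
      intro p q r s h h'
      rw [Module.End.mul_eq_comp, Module.End.mul_eq_comp, LinearMap.comp_assoc, h',
        ← LinearMap.comp_assoc, h, LinearMap.comp_assoc]
    rw [LinearMap.sub_comp, LinearMap.comp_sub, e1 _ _ _ _ hM hN, e1 _ _ _ _ hN hM]
  have h4 : ∀ a b, a ≠ b → (ρ' (el2 a b)) ∘ₗ T = T ∘ₗ (ρ (el2 a b)) := by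
    intro a b hab
    by_cases ha : a = o
    · subst ha
      exact h3 b (Ne.symm hab)
    · by_cases hb : b = o
      · subst hb
        have e1 : el2 a b = -el2 b a := by
          apply Subtype.ext
          rw [Submodule.coe_neg, el2_coe, el2_coe]
          unfold el
          rw [← smul_neg, neg_sub]
        rw [e1, map_neg, map_neg, LinearMap.neg_comp, LinearMap.comp_neg, h3 a ha]
      · have e1 := had _ _ (h3 a ha) (h3 b hb)
        rw [adS_el2 hE ha hb hab, map_smul, map_smul, LinearMap.smul_comp,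
          LinearMap.comp_smul] at e1
        exact smul_right_injective _ (by norm_num : (-2 : ℂ) ≠ 0) e1
  have h5 : ∀ a b, (ρ' (M.1 a b • el2 a b)) ∘ₗ T = T ∘ₗ (ρ (M.1 a b • el2 a b)) := by
    intro a b
    by_cases hab : a = b
    · subst hab
      rw [Sk_diag M.2, zero_smul, map_zero, map_zero, LinearMap.zero_comp, LinearMap.comp_zero]
    · rw [map_smul, map_smul, LinearMap.smul_comp, LinearMap.comp_smul, h4 a b hab]
  have h6 : ∀ (L : Sk n), ((LinearMap.lcomp ℂ V T) ∘ₗ ρ') L = (ρ' L) ∘ₗ T := fun L => rfl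
  have h7 : ∀ (L : Sk n), ((LinearMap.llcomp ℂ U U V T) ∘ₗ ρ) L = T ∘ₗ (ρ L) := fun L => rfl
  rw [← h6, ← h7, Sk_sum M, map_smul, map_smul, map_sum, map_sum]
  congr 1
  refine Finset.sum_congr rfl fun a _ => ?_
  rw [map_sum, map_sum]
  refine Finset.sum_congr rfl fun b _ => ?_
  rw [h6, h7, h5]

/-- The spin representation. -/
def spr {n : ℕ} (E : Fin n → Module.End ℂ U) : Sk n →ₗ[ℂ] Module.End ℂ U :=
  (Q E) ∘ₗ (Sk n).subtype

theorem spr_apply {n : ℕ} (E : Fin n → Module.End ℂ U) (M : Sk n) : spr E M = Q E M.1 := rfl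

theorem spr_br {n : ℕ} {E : Fin n → Module.End ℂ U} (hE : CE E) (X Y : Sk n) :
    spr E (adS X Y) = spr E X * spr E Y - spr E Y * spr E X := by
  rw [spr_apply, spr_apply, spr_apply, adS_coe, Q_br hE X.2]

/-- The standard representation. -/
def st (n : ℕ) : Sk n →ₗ[ℂ] Module.End ℂ (Fin n → ℂ) :=
  (Matrix.toLin' : Matrix (Fin n) (Fin n) ℂ ≃ₗ[ℂ] _).toLinearMap ∘ₗ (Sk n).subtype

theorem st_apply {n : ℕ} (M : Sk n) (z : Fin n → ℂ) : st n M z = M.1 *ᵥ z := by
  change Matrix.toLin' M.1 z = _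
  rw [Matrix.toLin'_apply]

theorem st_mul {n : ℕ} {M N : Sk n} {L : Matrix (Fin n) (Fin n) ℂ} (h : M.1 * N.1 = L) :
    st n M * st n N = Matrix.toLin' L := by
  rw [← h, Matrix.toLin'_mul]
  rfl

theorem st_br {n : ℕ} (X Y : Sk n) : st n (adS X Y) = st n X * st n Y - st n Y * st n X := by
  rw [st_mul (L := X.1 * Y.1) rfl, st_mul (L := Y.1 * X.1) rfl, ← map_sub]
  rfl

theorem el_mulVec {n : ℕ} (a b : Fin n) (z : Fin n → ℂ) (i : Fin n) :
    (el a b *ᵥ z) i = (if a = i then z b else 0) - (if b = i then z a else 0) := by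
  have h2 : ∀ j : Fin n, el a b i j = (if a = i then (1 : ℂ) else 0) * (if b = j then 1 else 0) -
      (if b = i then (1 : ℂ) else 0) * (if a = j then 1 else 0) := by
    intro j
    unfold el
    rw [Matrix.sub_apply, Matrix.single_apply, Matrix.single_apply]
    congr 1
    · by_cases h1 : a = i <;> by_cases h2 : b = j <;> simp [h1, h2]
    · by_cases h1 : b = i <;> by_cases h2 : a = j <;> simp [h1, h2]
  rw [Matrix.mulVec, dotProduct]
  have h3 : ∀ j : Fin n, el a b i j * z j = (if b = j then (if a = i then z j else 0) else 0) -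
      (if a = j then (if b = i then z j else 0) else 0) := by
    intro j
    rw [h2]
    split_ifs <;> ring
  simp only [h3, Finset.sum_sub_distrib, Finset.sum_ite_eq, Finset.mem_univ, if_true]

/-- The standard representation is irreducible. -/
theorem st_irr {n : ℕ} (hn : 3 ≤ n) (P : Submodule ℂ (Fin n → ℂ))
    (hP : ∀ M : Sk n, ∀ z ∈ P, M.1 *ᵥ z ∈ P) : P = ⊥ ∨ P = ⊤ := by
  by_cases h0 : P = ⊥
  · exact Or.inl h0
  right
  obtain ⟨z, hz, hz0⟩ := (Submodule.ne_bot_iff P).1 h0
  obtain ⟨b, hb⟩ : ∃ b, z b ≠ 0 := by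
    by_contra hcon
    push Not at hcon
    exact hz0 (funext hcon)
  have hex : ∀ x y : Fin n, ∃ c, c ≠ x ∧ c ≠ y := by
    intro x y
    by_contra hcon
    push Not at hcon
    have h3 : (Finset.univ : Finset (Fin n)) ⊆ {x, y} := fun c _ => by
      rw [Finset.mem_insert, Finset.mem_singleton]
      by_cases h : c = x
      · exact Or.inl h
      · exact Or.inr (hcon c h)
    have h4 := Finset.card_le_card h3
    rw [Finset.card_univ, Fintype.card_fin] at h4
    have h5 := Finset.card_le_two (a := x) (b := y)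
    omega
  have h1 : ∀ c, c ≠ b → (Pi.single c 1 : Fin n → ℂ) ∈ P := by
    intro c hc
    obtain ⟨a, hab, hac⟩ := hex b c
    have h2 := hP ⟨_, el_mem c a⟩ _ (hP ⟨_, el_mem a b⟩ z hz)
    have h3 : (el c a *ᵥ (el a b *ᵥ z)) = z b • (Pi.single c 1 : Fin n → ℂ) := by
      funext i
      rw [el_mulVec, el_mulVec, el_mulVec, if_pos rfl, if_neg (Ne.symm hab), if_neg hac,
        if_neg (Ne.symm hc), Pi.smul_apply, Pi.single_apply, smul_eq_mul]
      by_cases h : c = i
      · rw [if_pos h, if_pos h.symm]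
        split_ifs <;> ring
      · rw [if_neg h, if_neg (Ne.symm h)]
        split_ifs <;> ring
    change el c a *ᵥ (el a b *ᵥ z) ∈ P at h2
    rw [h3] at h2
    have h4 := P.smul_mem (z b)⁻¹ h2
    rwa [smul_smul, inv_mul_cancel₀ hb, one_smul] at h4
  have h2 : ∀ c, (Pi.single c 1 : Fin n → ℂ) ∈ P := by
    intro c
    by_cases hc : c = b
    · subst hc
      obtain ⟨d, hd, -⟩ := hex c c
      have h3 := hP ⟨_, el_mem c d⟩ _ (h1 d hd)
      have h4 : (el c d *ᵥ (Pi.single d 1 : Fin n → ℂ)) = Pi.single c 1 := by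
        funext i
        rw [el_mulVec, Pi.single_eq_same, Pi.single_eq_of_ne (Ne.symm hd), Pi.single_apply]
        by_cases h : c = i
        · rw [if_pos h, if_pos h.symm]
          split_ifs <;> ring
        · rw [if_neg h, if_neg (Ne.symm h)]
          split_ifs <;> ring
      change el c d *ᵥ (Pi.single d 1 : Fin n → ℂ) ∈ P at h3
      rwa [h4] at h3
    · exact h1 c hc
  rw [eq_top_iff]
  intro w _
  have h3 : w = ∑ c, w c • (Pi.single c 1 : Fin n → ℂ) := by
    funext i
    rw [Finset.sum_apply, Finset.sum_eq_single i]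
    · rw [Pi.smul_apply, Pi.single_eq_same, smul_eq_mul, mul_one]
    · intro c _ hc
      rw [Pi.smul_apply, Pi.single_eq_of_ne (Ne.symm hc), smul_zero]
    · intro h
      exact absurd (Finset.mem_univ _) h
  rw [h3]
  exact Submodule.sum_mem _ fun c _ => P.smul_mem _ (h2 c)

end inter

section vec

variable {V : Type} [AddCommGroup V] [Module ℂ V] {n : ℕ} {F : Fin n → Module.End ℂ V}

/-- The vectors in the Clifford algebra. -/
def vc (F : Fin n → Module.End ℂ V) : (Fin n → ℂ) →ₗ[ℂ] Module.End ℂ V where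
  toFun w := ∑ j, w j • F j
  map_add' w w' := by
    simp only [Pi.add_apply, add_smul, Finset.sum_add_distrib]
  map_smul' c w := by
    simp only [Pi.smul_apply, smul_eq_mul, mul_smul, ← Finset.smul_sum, RingHom.id_apply]

theorem vc_apply (w : Fin n → ℂ) : vc F w = ∑ j, w j • F j := rfl

theorem vc_anti (hF : CE F) (w w' : Fin n → ℂ) :
    vc F w * vc F w' + vc F w' * vc F w = (2 * (w ⬝ᵥ w')) • (1 : Module.End ℂ V) := by
  have h1 : ∀ w : Fin n → ℂ, vc F w * vc F w = (w ⬝ᵥ w) • (1 : Module.End ℂ V) :=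
    fun w => vec_sq hF w
  have h2 := h1 (w + w')
  rw [map_add, add_mul, mul_add, mul_add, h1, h1, dotProduct_add, add_dotProduct,
    add_dotProduct, dotProduct_comm w' w] at h2
  have h3 : vc F w * vc F w' + vc F w' * vc F w = (w ⬝ᵥ w) • (1 : Module.End ℂ V) +
      vc F w * vc F w' + (vc F w' * vc F w + (w' ⬝ᵥ w') • (1 : Module.End ℂ V)) -
      (w ⬝ᵥ w) • (1 : Module.End ℂ V) - (w' ⬝ᵥ w') • (1 : Module.End ℂ V) := by abel
  rw [h3, h2]
  module

/-- The action of the Lie algebra on the vectors. -/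
theorem vc_comm (hF : CE F) (M : Sk n) (w : Fin n → ℂ) :
    Q F M.1 * vc F w - vc F w * Q F M.1 = vc F (M.1 *ᵥ w) := by
  rw [vc_apply, vc_apply, Finset.mul_sum, Finset.sum_mul, ← Finset.sum_sub_distrib]
  have h1 : ∀ j, Q F M.1 * w j • F j - w j • F j * Q F M.1 = w j • ∑ a, M.1 a j • F a := by
    intro j
    rw [mul_smul_comm, smul_mul_assoc, ← smul_sub, Q_comm hF M.2]
  simp only [h1, Finset.smul_sum, smul_smul]
  rw [Finset.sum_comm]
  refine Finset.sum_congr rfl fun a _ => ?_
  rw [← Finset.sum_smul]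
  congr 1
  rw [Matrix.mulVec, dotProduct]
  exact Finset.sum_congr rfl fun j _ => mul_comm _ _

/-- The bivector of two vectors. -/
def wd (w w' : Fin n → ℂ) : Sk n := ⟨(2 : ℂ) • (vecMulVec w w' - vecMulVec w' w), by
  rw [mem_Sk, Matrix.transpose_smul, Matrix.transpose_sub, Matrix.transpose_vecMulVec,
    Matrix.transpose_vecMulVec, ← smul_neg, neg_sub]⟩

theorem Q_wd (hF : CE F) {w w' : Fin n → ℂ} (h : w ⬝ᵥ w' = 0) :
    Q F (wd w w').1 = vc F w * vc F w' := by
  have h1 := vc_anti hF w w'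
  rw [h, mul_zero, zero_smul] at h1
  have h2 : ∀ x y : Fin n → ℂ, vc F x * vc F y = ∑ a, ∑ b, (x a * y b) • (F a * F b) := by
    intro x y
    rw [vc_apply, vc_apply, Finset.sum_mul]
    refine Finset.sum_congr rfl fun a _ => ?_
    rw [Finset.mul_sum]
    refine Finset.sum_congr rfl fun b _ => ?_
    rw [smul_mul_assoc, mul_smul_comm, smul_smul]
  have h3 : Q F (wd w w').1 = (1 / 2 : ℂ) • (vc F w * vc F w' - vc F w' * vc F w) := by
    rw [Q_apply, h2, h2, ← Finset.sum_sub_distrib, Finset.smul_sum, Finset.smul_sum]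
    refine Finset.sum_congr rfl fun a _ => ?_
    rw [← Finset.sum_sub_distrib, Finset.smul_sum, Finset.smul_sum]
    refine Finset.sum_congr rfl fun b _ => ?_
    change (1 / 4 : ℂ) • ((2 : ℂ) • (vecMulVec w w' - vecMulVec w' w)) a b • (F a * F b) = _
    rw [Matrix.smul_apply, Matrix.sub_apply, vecMulVec_apply, vecMulVec_apply, smul_eq_mul]
    module
  rw [h3]
  have h4 : vc F w' * vc F w = -(vc F w * vc F w') := eq_neg_of_add_eq_zero_right h1
  rw [h4]
  module

end vec

end Pool.Agent.Helper883K
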