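import Pool.Agent.Helper883_K3.Tri

set_option autoImplicit false
set_option linter.unusedSectionVars false
set_option linter.unusedSimpArgs false
set_option linter.unusedVariables false

/-!
# Triality: composition of intertwining operators
-/

open Matrix Module

noncomputable section

namespace Pool.Agent.Helper883K

open Pool.Agent.Y102.SP

variable {U V : Type} [AddCommGroup U] [Module ℂ U] [AddCommGroup V] [Module ℂ V] {n : ℕ}

theorem skew_dot {N : Matrix (Fin n) (Fin n) ℂ} (hN : N ∈ Sk n) (w w' : Fin n → ℂ) :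
    w ⬝ᵥ (N *ᵥ w') = -((N *ᵥ w) ⬝ᵥ w') := by
  rw [Matrix.dotProduct_mulVec, ← Matrix.mulVec_transpose, mem_Sk.1 hN, Matrix.neg_mulVec,
    neg_dotProduct]

theorem skew_dot_self {N : Matrix (Fin n) (Fin n) ℂ} (hN : N ∈ Sk n) (w : Fin n → ℂ) :
    (N *ᵥ w) ⬝ᵥ w = 0 := by
  have h1 := skew_dot hN w w
  rw [dotProduct_comm] at h1
  linear_combination (1 / 2 : ℂ) * h1

/-- The composition. -/
def tri (E : Fin n → Module.End ℂ U) (F : Fin n → Module.End ℂ V) (T1 : U →ₗ[ℂ] (Fin n → ℂ))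
    (T2 : (Fin n → ℂ) →ₗ[ℂ] V) : U →ₗ[ℂ] V :=
  ∑ c, (LinearMap.applyₗ (T2 (Pi.single c 1))) ∘ₗ (vc F) ∘ₗ T1 ∘ₗ (E c)

theorem tri_apply (E : Fin n → Module.End ℂ U) (F : Fin n → Module.End ℂ V)
    (T1 : U →ₗ[ℂ] (Fin n → ℂ)) (T2 : (Fin n → ℂ) →ₗ[ℂ] V) (u : U) :
    tri E F T1 T2 u = ∑ c, vc F (T1 (E c u)) (T2 (Pi.single c 1)) := by
  unfold tri
  rw [LinearMap.sum_apply]
  rfl

theorem mulVec_single' (M : Matrix (Fin n) (Fin n) ℂ) (c : Fin n) :
    M *ᵥ (Pi.single c 1 : Fin n → ℂ) = ∑ a, M a c • (Pi.single a 1 : Fin n → ℂ) := by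
  funext i
  rw [Finset.sum_apply, Finset.sum_eq_single i]
  · rw [Pi.smul_apply, Pi.single_eq_same, smul_eq_mul, mul_one, Matrix.mulVec, dotProduct,
      Finset.sum_eq_single c]
    · rw [Pi.single_eq_same, mul_one]
    · intro j _ hj
      rw [Pi.single_eq_of_ne hj, mul_zero]
    · intro h
      exact absurd (Finset.mem_univ _) h
  · intro a _ ha
    rw [Pi.smul_apply, Pi.single_eq_of_ne (Ne.symm ha), smul_zero]
  · intro h
    exact absurd (Finset.mem_univ _) h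

section

variable {E : Fin n → Module.End ℂ U} {F : Fin n → Module.End ℂ V} (hE : CE E) (hF : CE F)
  (ψ : Sk n ≃ₗ[ℂ] Sk n) {T1 : U →ₗ[ℂ] (Fin n → ℂ)}
  (h1 : ∀ (M : Sk n) (u : U), T1 (Q E M.1 u) = (ψ M).1 *ᵥ (T1 u))
  {T2 : (Fin n → ℂ) →ₗ[ℂ] V}
  (h2 : ∀ (M : Sk n) (z : Fin n → ℂ), Q F (ψ M).1 (T2 z) = T2 (M.1 *ᵥ z))

include hE hF h1 h2 in
theorem tri_tw (M : Sk n) (u : U) :
    Q F (ψ M).1 (tri E F T1 T2 u) = tri E F T1 T2 (Q E M.1 u) := by
  rw [tri_apply, tri_apply, map_sum]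
  have e1 : ∀ c, Q F (ψ M).1 (vc F (T1 (E c u)) (T2 (Pi.single c 1))) =
      vc F ((ψ M).1 *ᵥ (T1 (E c u))) (T2 (Pi.single c 1)) +
      ∑ a, M.1 a c • vc F (T1 (E c u)) (T2 (Pi.single a 1)) := by
    intro c
    have s1 := LinearMap.congr_fun (vc_comm hF (ψ M) (T1 (E c u))) (T2 (Pi.single c 1))
    rw [LinearMap.sub_apply, Module.End.mul_apply, Module.End.mul_apply, h2, mulVec_single',
      map_sum, map_sum] at s1
    rw [← s1]
    simp only [map_smul]
    abel
  have e2 : ∀ c, T1 (E c (Q E M.1 u)) = (ψ M).1 *ᵥ (T1 (E c u)) -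
      ∑ a, M.1 a c • T1 (E a u) := by
    intro c
    have s1 := LinearMap.congr_fun (Q_comm hE M.2 c) u
    rw [LinearMap.sub_apply, Module.End.mul_apply, Module.End.mul_apply,
      LinearMap.sum_apply] at s1
    have s2 : E c (Q E M.1 u) = Q E M.1 (E c u) - ∑ a, (M.1 a c • E a) u := by
      rw [← s1]
      abel
    rw [s2, map_sub, h1, map_sum]
    congr 1
    refine Finset.sum_congr rfl fun a _ => ?_
    rw [LinearMap.smul_apply, map_smul]
  simp only [e1, e2, map_sub, LinearMap.sub_apply, Finset.sum_add_distrib,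
    Finset.sum_sub_distrib]
  rw [sub_eq_add_neg]
  congr 1
  have e3 : ∀ c, vc F (∑ a, M.1 a c • T1 (E a u)) (T2 (Pi.single c 1)) =
      ∑ a, M.1 a c • vc F (T1 (E a u)) (T2 (Pi.single c 1)) := by
    intro c
    rw [map_sum, LinearMap.sum_apply]
    refine Finset.sum_congr rfl fun a _ => ?_
    rw [map_smul, LinearMap.smul_apply]
  simp only [e3]
  rw [Finset.sum_comm, ← Finset.sum_neg_distrib]
  refine Finset.sum_congr rfl fun c _ => ?_
  rw [← Finset.sum_neg_distrib]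
  refine Finset.sum_congr rfl fun a _ => ?_
  rw [Sk_apply M.2 c a, neg_smul]

include hE hF h1 h2 in
theorem tri_ne (hn : 3 ≤ n) (hψ : ∀ X Y, ψ (adS X Y) = adS (ψ X) (ψ Y)) (hT1 : T1 ≠ 0)
    (hT2 : T2 ≠ 0) : tri E F T1 T2 ≠ 0 := by
  intro hT
  have hn2 : n ≠ 2 := by omega
  -- `T2` is injective
  have hinj : ∀ z, T2 z = 0 → z = 0 := by
    have h3 := (st_irr hn (LinearMap.ker T2) fun M z hz => by
      rw [LinearMap.mem_ker] at hz ⊢
      rw [← h2, hz, map_zero]).resolve_right fun h => hT2 (LinearMap.ker_eq_top.1 h)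
    intro z hz
    have h4 : z ∈ LinearMap.ker T2 := hz
    rw [h3, Submodule.mem_bot] at h4
    exact h4
  -- the vectors
  have hw : ∀ (u : U) (c d : Fin n), c ≠ d →
      T1 (E c u) = (ψ (el2 c d)).1 *ᵥ (T1 (E d u)) := by
    intro u c d hcd
    rw [← h1, Q_el2 hE hcd, ← Module.End.mul_apply, mul_assoc, hE.sq, mul_one]
  have hzero : ∀ (u : U) (d : Fin n), T1 (E d u) ⬝ᵥ T1 (E d u) = 0 := by
    intro u d
    obtain ⟨r, hr⟩ : ∃ r, r = T1 (E d u) ⬝ᵥ T1 (E d u) := ⟨_, rfl⟩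
    have horth : ∀ c, c ≠ d → T1 (E d u) ⬝ᵥ T1 (E c u) = 0 := by
      intro c hc
      rw [hw u c d hc, dotProduct_comm, skew_dot_self (ψ (el2 c d)).2]
    have h3 : ∀ c, c ≠ d → vc F (T1 (E d u)) (vc F (T1 (E c u)) (T2 (Pi.single c 1))) =
        T2 ((ψ.symm (wd (T1 (E d u)) (T1 (E c u)))).1 *ᵥ (Pi.single c 1)) := by
      intro c hc
      rw [← h2, LinearEquiv.apply_symm_apply, Q_wd hF (horth c hc), Module.End.mul_apply]
    have h4 : vc F (T1 (E d u)) (vc F (T1 (E d u)) (T2 (Pi.single d 1))) =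
        T2 (r • Pi.single d 1) := by
      have s1 : vc F (T1 (E d u)) * vc F (T1 (E d u)) = r • (1 : Module.End ℂ V) := by
        rw [hr]
        exact vec_sq hF (T1 (E d u))
      rw [← Module.End.mul_apply, s1, map_smul]
      rfl
    have h5 : T2 (r • Pi.single d 1 + ∑ c ∈ Finset.univ.erase d,
        (ψ.symm (wd (T1 (E d u)) (T1 (E c u)))).1 *ᵥ (Pi.single c 1)) = 0 := by
      rw [map_add, map_sum, ← h4]
      have s1 : ∑ c ∈ Finset.univ.erase d,
          T2 ((ψ.symm (wd (T1 (E d u)) (T1 (E c u)))).1 *ᵥ (Pi.single c 1)) =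
          ∑ c ∈ Finset.univ.erase d,
            vc F (T1 (E d u)) (vc F (T1 (E c u)) (T2 (Pi.single c 1))) :=
        Finset.sum_congr rfl fun c hc => (h3 c (Finset.ne_of_mem_erase hc)).symm
      rw [s1, Finset.add_sum_erase Finset.univ
        (fun c => vc F (T1 (E d u)) (vc F (T1 (E c u)) (T2 (Pi.single c 1))))
        (Finset.mem_univ d), ← map_sum, ← tri_apply, hT, LinearMap.zero_apply, map_zero]
    have h6 := congrFun (hinj _ h5) d
    rw [Pi.add_apply, Pi.smul_apply, Pi.single_eq_same, smul_eq_mul, mul_one,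
      Finset.sum_apply, Pi.zero_apply] at h6
    have h7 : ∀ c ∈ Finset.univ.erase d,
        ((ψ.symm (wd (T1 (E d u)) (T1 (E c u)))).1 *ᵥ (Pi.single c 1 : Fin n → ℂ)) d = r := by
      intro c hc
      have hcd : c ≠ d := Finset.ne_of_mem_erase hc
      obtain ⟨Z, hZ⟩ : ∃ Z, Z = ψ.symm (wd (T1 (E d u)) (T1 (E c u))) := ⟨_, rfl⟩
      rw [← hZ]
      have s1 : (Z.1 *ᵥ (Pi.single c 1 : Fin n → ℂ)) d = Z.1 d c := by
        rw [Matrix.mulVec, dotProduct, Finset.sum_eq_single c]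
        · rw [Pi.single_eq_same, mul_one]
        · intro j _ hj
          rw [Pi.single_eq_of_ne hj, mul_zero]
        · intro h
          exact absurd (Finset.mem_univ _) h
      rw [s1]
      have s2 := trace_iso hn2 ψ hψ (el2 d c) Z
      rw [el2_coe, Matrix.smul_mul, Matrix.trace_smul, trace_el, hZ,
        LinearEquiv.apply_symm_apply, ← hZ, smul_eq_mul] at s2
      obtain ⟨N, hN⟩ : ∃ N, N = ψ (el2 d c) := ⟨_, rfl⟩
      rw [← hN] at s2
      have s3 : ∀ w w' : Fin n → ℂ, (N.1 * vecMulVec w w').trace = w' ⬝ᵥ (N.1 *ᵥ w) := by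
        intro w w'
        rw [Matrix.mul_vecMulVec, Matrix.trace_vecMulVec, dotProduct_comm]
      have s4 : (N.1 * (wd (T1 (E d u)) (T1 (E c u))).1).trace = -4 * r := by
        change (N.1 * ((2 : ℂ) • (vecMulVec (T1 (E d u)) (T1 (E c u)) -
          vecMulVec (T1 (E c u)) (T1 (E d u))))).trace = _
        rw [Matrix.mul_smul, Matrix.trace_smul, Matrix.mul_sub, Matrix.trace_sub, s3, s3,
          skew_dot N.2]
        have s5 : N.1 *ᵥ (T1 (E c u)) = T1 (E d u) := by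
          rw [hN, ← hw u d c (Ne.symm hcd)]
        rw [s5, ← hr, smul_eq_mul]
        ring
      rw [s4] at s2
      linear_combination (1 / 4 : ℂ) * s2
    rw [Finset.sum_congr rfl h7, Finset.sum_const, Finset.card_erase_of_mem (Finset.mem_univ _),
      Finset.card_univ, Fintype.card_fin, nsmul_eq_mul] at h6
    have h8 : (n : ℂ) * r = 0 := by
      rw [← h6, Nat.cast_sub (by omega)]
      push_cast
      ring
    have h9 : (n : ℂ) ≠ 0 := by
      have : n ≠ 0 := by omega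
      exact_mod_cast this
    rw [← hr]
    exact (mul_eq_zero.1 h8).resolve_left h9
  have hzero' : ∀ u : U, T1 u ⬝ᵥ T1 u = 0 := by
    intro u
    have h3 := hzero (E ⟨0, by omega⟩ u) ⟨0, by omega⟩
    rw [← Module.End.mul_apply, hE.sq] at h3
    exact h3
  have htop := (st_irr hn (LinearMap.range T1) fun M z hz => by
    obtain ⟨u, rfl⟩ := hz
    refine ⟨Q E (ψ.symm M).1 u, ?_⟩
    rw [h1, LinearEquiv.apply_symm_apply]).resolve_left fun h => hT1 (LinearMap.range_eq_bot.1 h)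
  have h3 : (Pi.single ⟨0, by omega⟩ 1 : Fin n → ℂ) ∈ LinearMap.range T1 := by
    rw [htop]
    exact Submodule.mem_top
  obtain ⟨u, hu⟩ := h3
  have h4 := hzero' u
  rw [hu, single_dotProduct, Pi.single_eq_same, one_mul] at h4
  exact one_ne_zero h4

end

end Pool.Agent.Helper883K
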