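import Pool.Agent.Helper883_K3.Inter

set_option autoImplicit false
set_option linter.unusedSectionVars false
set_option linter.unusedSimpArgs false
set_option linter.unusedVariables false

/-!
# Isomorphisms of `so(n)`, `n ≠ 8`, come from intertwining operators
-/

open Matrix Module

noncomputable section

namespace Pool.Agent.Helper883K

open Pool.Agent.Y102.SP

variable {U V : Type} [AddCommGroup U] [Module ℂ U] [AddCommGroup V] [Module ℂ V] {n : ℕ}

/-- Twice the elementary matrix. -/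
def el2 (a b : Fin n) : Sk n := ⟨(2 : ℂ) • el a b, (Sk n).smul_mem _ (el_mem a b)⟩

theorem el2_coe (a b : Fin n) : (el2 a b).1 = (2 : ℂ) • el a b := rfl

theorem trace_el (a b : Fin n) (B : Sk n) : (el a b * B.1).trace = -2 * B.1 a b := by
  have h1 : ∀ i, (el a b * B.1) i i = (1 : Matrix (Fin n) (Fin n) ℂ) i a * B.1 b i -
      (1 : Matrix (Fin n) (Fin n) ℂ) i b * B.1 a i := by
    intro i
    have h2 := ent_el 1 B.1 a b i i
    rw [Matrix.one_mul] at h2
    exact h2
  rw [Matrix.trace]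
  simp only [Matrix.diag_apply, h1, Finset.sum_sub_distrib]
  have h3 : ∀ (a b : Fin n), ∑ i, (1 : Matrix (Fin n) (Fin n) ℂ) i a * B.1 b i = B.1 b a := by
    intro a b
    rw [Finset.sum_eq_single a]
    · rw [Matrix.one_apply_eq, one_mul]
    · intro i _ hi
      rw [Matrix.one_apply_ne hi, zero_mul]
    · intro h
      exact absurd (Finset.mem_univ _) h
  rw [h3, h3, Sk_apply B.2 b a]
  ring

theorem el_apply_self {a b : Fin n} (hab : a ≠ b) : el a b a b = (1 : ℂ) := by
  unfold el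
  rw [Matrix.sub_apply, Matrix.single_apply_same, Matrix.single_apply_of_row_ne (Ne.symm hab),
    sub_zero]

theorem el_apply_ne {o a b : Fin n} (hab : a ≠ b) (hb : b ≠ o) : el o a o b = (0 : ℂ) := by
  unfold el
  rw [Matrix.sub_apply, Matrix.single_apply_of_col_ne _ _ hab,
    Matrix.single_apply_of_col_ne _ _ (Ne.symm hb), sub_zero]

/-- The combination of two elementary matrices. -/
theorem trace_comb {o a b : Fin n} (ha : a ≠ o) (hb : b ≠ o) (hab : a ≠ b) (α β : ℂ) :
    ((α • el2 o a + β • el2 o b : Sk n).1 * (α • el2 o a + β • el2 o b : Sk n).1).trace =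
      -8 * (α * α + β * β) := by
  have h1 : (α • el2 o a + β • el2 o b : Sk n).1 = (2 * α) • el o a + (2 * β) • el o b := by
    rw [Submodule.coe_add, Submodule.coe_smul, Submodule.coe_smul, el2_coe, el2_coe, smul_smul,
      smul_smul, mul_comm α, mul_comm β]
  have h2 : ∀ B : Sk n, ((α • el2 o a + β • el2 o b : Sk n).1 * B.1).trace =
      (2 * α) * (-2 * B.1 o a) + (2 * β) * (-2 * B.1 o b) := by
    intro B
    rw [h1, Matrix.add_mul, Matrix.smul_mul, Matrix.smul_mul, Matrix.trace_add,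
      Matrix.trace_smul, Matrix.trace_smul, trace_el, trace_el, smul_eq_mul, smul_eq_mul]
  rw [h2, h1, Matrix.add_apply, Matrix.add_apply, Matrix.smul_apply, Matrix.smul_apply,
    Matrix.smul_apply, Matrix.smul_apply, el_apply_self (Ne.symm ha), el_apply_self (Ne.symm hb),
    el_apply_ne hab hb, el_apply_ne (Ne.symm hab) ha]
  simp only [smul_eq_mul]
  ring

theorem Q_el2 {E : Fin n → Module.End ℂ U} (hE : CE E) {a b : Fin n} (hab : a ≠ b) :
    Q E (el2 a b).1 = E a * E b := Q_el hE hab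

theorem sq_comb {E : Fin n → Module.End ℂ U} (hE : CE E) {o a b : Fin n} (ha : a ≠ o)
    (hb : b ≠ o) (hab : a ≠ b) {α β : ℂ} (h : α * α + β * β = 1) :
    Q E (α • el2 o a + β • el2 o b : Sk n).1 * Q E (α • el2 o a + β • el2 o b : Sk n).1 = -1 := by
  have e1 : ∀ c, c ≠ o → ∀ d, (E o * E c) * (E o * E d) = -(E c * E d) := by
    intro c hc d
    rw [mul_assoc, ← mul_assoc (E c), hE.anti c o hc, neg_mul, mul_neg, ← mul_assoc,
      ← mul_assoc, hE.sq, one_mul]
  rw [Submodule.coe_add, Submodule.coe_smul, Submodule.coe_smul, map_add, map_smul, map_smul,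
    Q_el2 hE (Ne.symm ha), Q_el2 hE (Ne.symm hb)]
  have e2 : (α • (E o * E a) + β • (E o * E b)) * (α • (E o * E a) + β • (E o * E b)) =
      (α * α) • ((E o * E a) * (E o * E a)) + (β * β) • ((E o * E b) * (E o * E b)) +
      (α * β) • ((E o * E a) * (E o * E b) + (E o * E b) * (E o * E a)) := by
    simp only [add_mul, mul_add, smul_mul_assoc, mul_smul_comm, smul_smul, smul_add]
    rw [mul_comm β α]
    abel
  rw [e2, e1 a ha, e1 b hb, e1 a ha, e1 b hb, hE.sq, hE.sq, hE.anti b a (Ne.symm hab), neg_neg,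
    neg_add_cancel, smul_zero, add_zero, ← add_smul, h, one_smul]

variable [FiniteDimensional ℂ U] [Nontrivial U]

/-- Bracket of elementary matrices. -/
theorem adS_el2 {E : Fin n → Module.End ℂ U} (hE : CE E) {o a b : Fin n} (ha : a ≠ o)
    (hb : b ≠ o) (hab : a ≠ b) : adS (el2 o a) (el2 o b) = (-2 : ℂ) • el2 a b := by
  have e1 : ∀ c, c ≠ o → ∀ d, (E o * E c) * (E o * E d) = -(E c * E d) := by
    intro c hc d
    rw [mul_assoc, ← mul_assoc (E c), hE.anti c o hc, neg_mul, mul_neg, ← mul_assoc,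
      ← mul_assoc, hE.sq, one_mul]
  apply Subtype.ext
  apply sub_eq_zero.1
  refine Q_inj hE ((Sk n).sub_mem (adS (el2 o a) (el2 o b)).2 ((-2 : ℂ) • el2 a b).2) ?_
  rw [map_sub, adS_coe, ← Q_br hE (el2 o a).2, Q_el2 hE (Ne.symm ha), Q_el2 hE (Ne.symm hb),
    Submodule.coe_smul, map_smul, Q_el2 hE hab, e1 a ha, e1 b hb, hE.anti b a (Ne.symm hab)]
  module

theorem Sk_sum (M : Sk n) : M = (1 / 4 : ℂ) • ∑ a, ∑ b, M.1 a b • el2 a b := by
  apply Subtype.ext
  ext i j
  have h1 : ((((1 / 4 : ℂ) • ∑ a, ∑ b, M.1 a b • el2 a b : Sk n)) :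
      Matrix (Fin n) (Fin n) ℂ) = (1 / 4 : ℂ) • ∑ a, ∑ b, M.1 a b • ((2 : ℂ) • el a b) := by
    rw [Submodule.coe_smul, Submodule.coe_sum]
    congr 1
    refine Finset.sum_congr rfl fun a _ => ?_
    rw [Submodule.coe_sum]
    rfl
  rw [h1, Matrix.smul_apply, Matrix.sum_apply]
  simp only [Matrix.sum_apply, Matrix.smul_apply, smul_eq_mul]
  have h2 : ∀ a b : Fin n, el a b i j = (if a = i then (1 : ℂ) else 0) * (if b = j then 1 else 0) -
      (if b = i then (1 : ℂ) else 0) * (if a = j then 1 else 0) := by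
    intro a b
    unfold el
    rw [Matrix.sub_apply, Matrix.single_apply, Matrix.single_apply]
    congr 1
    · by_cases h1 : a = i <;> by_cases h2 : b = j <;> simp [h1, h2]
    · by_cases h1 : b = i <;> by_cases h2 : a = j <;> simp [h1, h2]
  simp only [h2]
  have h3 : ∀ a b : Fin n, M.1 a b * (2 * ((if a = i then (1 : ℂ) else 0) *
      (if b = j then 1 else 0) - (if b = i then (1 : ℂ) else 0) * (if a = j then 1 else 0))) =
      (if b = j then (if a = i then 2 * M.1 a b else 0) else 0) -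
      (if b = i then (if a = j then 2 * M.1 a b else 0) else 0) := by
    intro a b
    split_ifs <;> ring
  simp only [h3, Finset.sum_sub_distrib, Finset.sum_ite_eq', Finset.mem_univ, if_true]
  rw [Sk_apply M.2 j i]
  ring

variable [Nontrivial V]

/-- **Isomorphisms of `so(n)`, `n ≠ 8`, come from intertwining operators.** -/
theorem exists_tw {E : Fin n → Module.End ℂ U} {F : Fin n → Module.End ℂ V} (hE : CE E)
    (hF : CE F) (hn : n ≠ 8) (hn3 : 3 ≤ n) (ψ : Sk n ≃ₗ[ℂ] Sk n)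
    (hψ : ∀ X Y, ψ (adS X Y) = adS (ψ X) (ψ Y)) :
    ∃ T : U →ₗ[ℂ] V, T ≠ 0 ∧ ∀ M : Sk n, (Q F (ψ M).1) ∘ₗ T = T ∘ₗ (Q E M.1) := by
  obtain ⟨o⟩ : Nonempty (Fin n) := ⟨⟨0, by omega⟩⟩
  have hn2 : n ≠ 2 := by omega
  obtain ⟨y, hy⟩ : ∃ y : Fin n → Module.End ℂ V, ∀ a, y a = Q F (ψ (el2 o a)).1 :=
    ⟨_, fun a => rfl⟩
  have h1 : ∀ a, a ≠ o → y a * y a = -1 := by
    intro a ha
    rw [hy]
    refine sq_iso hE hF hn hn2 ψ hψ ?_ ?_
    · rw [Q_el2 hE (Ne.symm ha)]
      exact simple_sq hE (Ne.symm ha)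
    · obtain ⟨b, hb⟩ : ∃ b, b ∉ ({o, a} : Finset (Fin n)) := by
        by_contra hcon
        push Not at hcon
        have h3 : (Finset.univ : Finset (Fin n)) ⊆ {o, a} := fun x _ => hcon x
        have h4 := Finset.card_le_card h3
        rw [Finset.card_univ, Fintype.card_fin] at h4
        have h5 := Finset.card_le_two (a := o) (b := a)
        omega
      simp only [Finset.mem_insert, Finset.mem_singleton, not_or] at hb
      have h2 := trace_comb ha hb.1 (Ne.symm hb.2) 1 0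
      rw [one_smul, zero_smul, add_zero] at h2
      rw [h2]
      norm_num
  have h2 : ∀ a b, a ≠ o → b ≠ o → a ≠ b → y a * y b = -(y b * y a) := by
    intro a b ha hb hab
    have e0 : (3 / 5 : ℂ) * (3 / 5) + (4 / 5) * (4 / 5) = 1 := by norm_num
    have e1 := sq_iso hE hF hn hn2 ψ hψ (sq_comb hE ha hb hab e0)
      (by rw [trace_comb ha hb hab, e0, mul_one])
    rw [map_add, map_smul, map_smul, Submodule.coe_add, Submodule.coe_smul, Submodule.coe_smul,
      map_add, map_smul, map_smul, ← hy, ← hy] at e1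
    have e2 : ((3 / 5 : ℂ) • y a + (4 / 5 : ℂ) • y b) * ((3 / 5 : ℂ) • y a + (4 / 5 : ℂ) • y b) =
        (3 / 5 * (3 / 5) : ℂ) • (y a * y a) + (4 / 5 * (4 / 5) : ℂ) • (y b * y b) +
        (12 / 25 : ℂ) • (y a * y b + y b * y a) := by
      simp only [add_mul, mul_add, smul_mul_assoc, mul_smul_comm, smul_smul, smul_add]
      rw [show (3 / 5 : ℂ) * (4 / 5) = 12 / 25 by norm_num,
        show (4 / 5 : ℂ) * (3 / 5) = 12 / 25 by norm_num]
      abel
    rw [e2, h1 a ha, h1 b hb, ← add_smul, e0, one_smul, add_eq_left] at e1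
    have e3 := (smul_eq_zero.1 e1).resolve_left (by norm_num)
    exact eq_neg_of_add_eq_zero_left e3
  obtain ⟨T, hT, hTS⟩ := exists_inter hE o h1 h2 (Finset.univ.erase o) (Finset.notMem_erase _ _)
  have h3 : ∀ a, a ≠ o → (Q F (ψ (el2 o a)).1) ∘ₗ T = T ∘ₗ (Q E (el2 o a).1) := by
    intro a ha
    rw [← hy, Q_el2 hE (Ne.symm ha)]
    exact hTS a (Finset.mem_erase.2 ⟨ha, Finset.mem_univ _⟩)
  have had : ∀ M N : Sk n, (Q F (ψ M).1) ∘ₗ T = T ∘ₗ (Q E M.1) →
      (Q F (ψ N).1) ∘ₗ T = T ∘ₗ (Q E N.1) →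
      (Q F (ψ (adS M N)).1) ∘ₗ T = T ∘ₗ (Q E (adS M N).1) := by
    intro M N hM hN
    rw [hψ, adS_coe, adS_coe, ← Q_br hF (ψ M).2, ← Q_br hE M.2]
    have e1 : ∀ (p q : Module.End ℂ V) (r s : Module.End ℂ U), p ∘ₗ T = T ∘ₗ r → q ∘ₗ T = T ∘ₗ s →
        (p * q) ∘ₗ T = T ∘ₗ (r * s) := by
      intro p q r s h h'
      rw [Module.End.mul_eq_comp, Module.End.mul_eq_comp, LinearMap.comp_assoc, h',
        ← LinearMap.comp_assoc, h, LinearMap.comp_assoc]
    rw [LinearMap.sub_comp, LinearMap.comp_sub, e1 _ _ _ _ hM hN, e1 _ _ _ _ hN hM]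
  have h4 : ∀ a b, a ≠ b → (Q F (ψ (el2 a b)).1) ∘ₗ T = T ∘ₗ (Q E (el2 a b).1) := by
    intro a b hab
    by_cases ha : a = o
    · subst ha
      exact h3 b (Ne.symm hab)
    · by_cases hb : b = o
      · subst hb
        have e1 : el2 a b = -el2 b a := by
          apply Subtype.ext
          rw [Submodule.coe_neg, el2_coe, el2_coe]
          unfold el
          rw [← smul_neg, neg_sub]
        rw [e1, map_neg, Submodule.coe_neg, Submodule.coe_neg, map_neg, map_neg,
          LinearMap.neg_comp, LinearMap.comp_neg, h3 a ha]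
      · have e1 := had _ _ (h3 a ha) (h3 b hb)
        rw [adS_el2 hE ha hb hab, map_smul, Submodule.coe_smul, Submodule.coe_smul, map_smul,
          map_smul, LinearMap.smul_comp, LinearMap.comp_smul] at e1
        exact smul_right_injective _ (by norm_num : (-2 : ℂ) ≠ 0) e1
  refine ⟨T, hT, fun M => ?_⟩
  have h5 : ∀ a b, (Q F (ψ (M.1 a b • el2 a b)).1) ∘ₗ T = T ∘ₗ (Q E (M.1 a b • el2 a b : Sk n).1) := by
    intro a b
    by_cases hab : a = b
    · subst hab
      rw [Sk_diag M.2, zero_smul, map_zero, Submodule.coe_zero, map_zero, map_zero,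
        LinearMap.zero_comp, LinearMap.comp_zero]
    · rw [map_smul, Submodule.coe_smul, Submodule.coe_smul, map_smul, map_smul,
        LinearMap.smul_comp, LinearMap.comp_smul, h4 a b hab]
  have h6 : ∀ (L : Sk n), ((LinearMap.lcomp ℂ V T) ∘ₗ (Q F) ∘ₗ (Sk n).subtype ∘ₗ ψ.toLinearMap) L =
      (Q F (ψ L).1) ∘ₗ T := fun L => rfl
  have h7 : ∀ (L : Sk n), ((LinearMap.llcomp ℂ U U V T) ∘ₗ (Q E) ∘ₗ (Sk n).subtype) L =
      T ∘ₗ (Q E L.1) := fun L => rfl
  rw [← h6, ← h7, Sk_sum M, map_smul, map_smul, map_sum, map_sum]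
  congr 1
  refine Finset.sum_congr rfl fun a _ => ?_
  rw [map_sum, map_sum]
  refine Finset.sum_congr rfl fun b _ => ?_
  rw [h6, h7, h5]

end Pool.Agent.Helper883K
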