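import Pool.Agent.Helper883_K3.Match
import Pool.Agent.Helper883_K3.One

set_option autoImplicit false
set_option linter.unusedSectionVars false
set_option linter.unusedSimpArgs false
set_option linter.unusedVariables false

/-!
# Intertwining operators for several colours, all ranks
-/

open Matrix Module

noncomputable section

namespace Pool.Agent.Helper883K

open Pool.Agent.Y102.SP

variable {U V : Type} [AddCommGroup U] [Module ℂ U] [AddCommGroup V] [Module ℂ V]
  [FiniteDimensional ℂ U] [Nontrivial U] [FiniteDimensional ℂ V] [Nontrivial V] {k l n m : ℕ}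

theorem Q_sub {V : Type} [AddCommGroup V] [Module ℂ V] {n : ℕ} {F : Fin n → Module.End ℂ V}
    (W : Submodule ℂ V) {F' : Fin n → Module.End ℂ W} (h : ∀ a (v : W), ((F' a v : W) : V) = F a v)
    (M : Matrix (Fin n) (Fin n) ℂ) (v : W) : ((Q F' M v : W) : V) = Q F M v := by
  rw [Q_apply, Q_apply]
  simp only [LinearMap.smul_apply, LinearMap.sum_apply, Module.End.mul_apply, Submodule.coe_smul,
    Submodule.coe_sum, h]

/-- The subspace on which the generators satisfy the relations. -/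
theorem exists_sub (hn : 3 ≤ n) {E : Fin k → Fin n → Module.End ℂ U} (hE : CM E)
    {F : Fin l → Fin n → Module.End ℂ V} (hF : CM F) {π : Fin k → Fin l}
    (hπ : Function.Injective π) (θ : Fin k → Sk n ≃ₗ[ℂ] Sk n)
    (hθ : ∀ σ X Y, θ σ (adS X Y) = adS (θ σ X) (θ σ Y)) (o : Fin n)
    (y : Fin k → Fin n → Module.End ℂ V)
    (hy : ∀ σ a, y σ a = Q (F (π σ)) (θ σ (el2 o a)).1)
    (S : Finset (Fin k)) :
    ∃ W : Submodule ℂ V, W ≠ ⊥ ∧ (∀ τ, (∀ σ ∈ S, τ ≠ π σ) → ∀ b, ∀ v ∈ W, F τ b v ∈ W) ∧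
      (∀ τ (M : Sk n), ∀ v ∈ W, Q (F τ) M.1 v ∈ W) ∧
      (∀ σ ∈ S, ∀ a, a ≠ o → ∀ v ∈ W, y σ a (y σ a v) = -v) ∧
      (∀ σ ∈ S, ∀ a b, a ≠ o → b ≠ o → a ≠ b → ∀ v ∈ W, y σ a (y σ b v) = -(y σ b (y σ a v))) := by
  induction S using Finset.induction_on with
  | empty =>
    refine ⟨⊤, fun h => ?_, fun _ _ _ _ _ => Submodule.mem_top, fun _ _ _ _ => Submodule.mem_top,
      fun σ hσ => absurd hσ (Finset.notMem_empty σ), fun σ hσ => absurd hσ (Finset.notMem_empty σ)⟩
    obtain ⟨v, hv⟩ := exists_ne (0 : V)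
    apply hv
    have h1 : v ∈ (⊤ : Submodule ℂ V) := Submodule.mem_top
    rwa [h, Submodule.mem_bot] at h1
  | insert σ' S hσ' ih =>
    obtain ⟨W, hW, h1, h2, h3, h4⟩ := ih
    have hst : ∀ b, ∀ v ∈ W, F (π σ') b v ∈ W :=
      h1 (π σ') (fun σ hσ h => hσ' (by rw [hπ h]; exact hσ))
    let F' : Fin n → Module.End ℂ W := fun b => (F (π σ') b).restrict (hst b)
    have hF'a : ∀ b (v : W), ((F' b v : W) : V) = F (π σ') b v := fun b v => rfl
    have hF' : CE F' := by
      refine ⟨fun b => LinearMap.ext fun v => Subtype.ext ?_,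
        fun a b hab => LinearMap.ext fun v => Subtype.ext ?_⟩
      · rw [Module.End.mul_apply, hF'a, hF'a, ← Module.End.mul_apply, (hF.ce (π σ')).sq]
        rfl
      · rw [LinearMap.neg_apply, Submodule.coe_neg, Module.End.mul_apply, Module.End.mul_apply,
          hF'a, hF'a, hF'a, hF'a, ← Module.End.mul_apply, ← Module.End.mul_apply,
          (hF.ce (π σ')).anti a b hab]
        rfl
    haveI : Nontrivial W := Submodule.nontrivial_iff_ne_bot.2 hW
    obtain ⟨T, hT, hTM⟩ := exists_one hn (hE.ce σ') hF' (θ σ') (hθ σ')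
    let P : Set V := {v | ∃ T : U →ₗ[ℂ] V, (∀ u, T u ∈ W) ∧
      (∀ (M : Sk n) (u : U), Q (F (π σ')) (θ σ' M).1 (T u) = T (Q (E σ') M.1 u)) ∧ ∃ u, v = T u}
    have hP : ∀ (T : U →ₗ[ℂ] V), (∀ u, T u ∈ W) →
        (∀ (M : Sk n) (u : U), Q (F (π σ')) (θ σ' M).1 (T u) = T (Q (E σ') M.1 u)) → ∀ u,
        T u ∈ Submodule.span ℂ P := fun T hT1 hT2 u =>
      Submodule.subset_span ⟨T, hT1, hT2, u, rfl⟩
    have hPW : Submodule.span ℂ P ≤ W := by
      refine Submodule.span_le.2 ?_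
      rintro _ ⟨T, hT1, -, u, rfl⟩
      exact hT1 u
    have hstab : ∀ (A : Module.End ℂ V), (∀ v ∈ P, A v ∈ Submodule.span ℂ P) →
        ∀ v ∈ Submodule.span ℂ P, A v ∈ Submodule.span ℂ P := by
      intro A hA v hv
      have h5 : Submodule.span ℂ P ≤ (Submodule.span ℂ P).comap A := Submodule.span_le.2 hA
      exact h5 hv
    refine ⟨Submodule.span ℂ P, ?_, ?_, ?_, ?_, ?_⟩
    · intro h
      apply hT
      refine LinearMap.ext fun u => Subtype.ext ?_
      have h5 := hP (W.subtype ∘ₗ T) (fun u => (T u).2) (fun M u => by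
        have h6 := congrArg (fun f : U →ₗ[ℂ] W => ((f u : W) : V)) (hTM M)
        simp only [LinearMap.comp_apply] at h6
        rw [Q_sub W hF'a] at h6
        exact h6) u
      rw [h, Submodule.mem_bot] at h5
      exact h5
    · intro τ hτ b
      have hτ1 : τ ≠ π σ' := hτ σ' (Finset.mem_insert_self _ _)
      have hτ2 : ∀ σ ∈ S, τ ≠ π σ := fun σ hσ => hτ σ (Finset.mem_insert_of_mem hσ)
      refine hstab _ ?_
      rintro _ ⟨T, hT1, hT2, u, rfl⟩
      refine hP (F τ b ∘ₗ T) (fun u => h1 τ hτ2 b _ (hT1 u)) (fun M u => ?_) u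
      rw [LinearMap.comp_apply, LinearMap.comp_apply, ← Module.End.mul_apply,
        hF.comm2 (Ne.symm hτ1), Module.End.mul_apply, hT2]
    · intro τ M
      refine hstab _ ?_
      rintro _ ⟨T, hT1, hT2, u, rfl⟩
      by_cases hτ : τ = π σ'
      · subst hτ
        have h5 := hT2 ((θ σ').symm M) u
        rw [LinearEquiv.apply_symm_apply] at h5
        rw [h5]
        exact hP T hT1 hT2 _
      · refine hP (Q (F τ) M.1 ∘ₗ T) (fun u => h2 τ M _ (hT1 u)) (fun M' u => ?_) u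
        rw [LinearMap.comp_apply, LinearMap.comp_apply, ← Module.End.mul_apply,
          hF.comm3 (Ne.symm hτ), Module.End.mul_apply, hT2]
    · intro σ hσ a ha v hv
      rw [Finset.mem_insert] at hσ
      rcases hσ with rfl | hσ
      · induction hv using Submodule.span_induction with
        | mem v hv =>
          obtain ⟨T, hT1, hT2, u, rfl⟩ := hv
          rw [hy, hT2, hT2, ← Module.End.mul_apply, Q_el2 (hE.ce _) (Ne.symm ha),
            simple_sq (hE.ce _) (Ne.symm ha), LinearMap.neg_apply, map_neg]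
          rfl
        | zero => rw [map_zero, map_zero, neg_zero]
        | add v w _ _ hv hw => rw [map_add, map_add, hv, hw, neg_add]
        | smul c v _ hv => rw [map_smul, map_smul, hv, smul_neg]
      · exact h3 σ hσ a ha v (hPW hv)
    · intro σ hσ a b ha hb hab v hv
      rw [Finset.mem_insert] at hσ
      rcases hσ with rfl | hσ
      · have e1 : ∀ (c : Fin n), c ≠ o → ∀ d, (E σ o * E σ c) * (E σ o * E σ d) =
            -(E σ c * E σ d) := by
          intro c hc d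
          have hEσ := hE.ce σ
          rw [mul_assoc, ← mul_assoc (E σ c), hEσ.anti c o hc, neg_mul, mul_neg, ← mul_assoc,
            ← mul_assoc, hEσ.sq, one_mul]
        have e2 : (E σ o * E σ a) * (E σ o * E σ b) = -((E σ o * E σ b) * (E σ o * E σ a)) := by
          rw [e1 a ha, e1 b hb, (hE.ce σ).anti b a (Ne.symm hab), neg_neg]
        induction hv using Submodule.span_induction with
        | mem v hv =>
          obtain ⟨T, hT1, hT2, u, rfl⟩ := hv
          rw [hy, hy, hT2, hT2, hT2, hT2, ← Module.End.mul_apply, ← Module.End.mul_apply,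
            Q_el2 (hE.ce _) (Ne.symm ha), Q_el2 (hE.ce _) (Ne.symm hb), e2, LinearMap.neg_apply,
            map_neg]
        | zero => simp only [map_zero, neg_zero]
        | add v w _ _ hv hw => rw [map_add, map_add, map_add, map_add, hv, hw, neg_add]
        | smul c v _ hv => rw [map_smul, map_smul, map_smul, map_smul, hv, smul_neg]
      · exact h4 σ hσ a b ha hb hab v (hPW hv)

/-- **Intertwining operators for several colours, all ranks.** -/
theorem exists_twA (hn : n = 3 ∨ 5 ≤ n) (hm : m = 3 ∨ 5 ≤ m)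
    {E : Fin k → Fin n → Module.End ℂ U} (hE : CM E)
    {F : Fin l → Fin m → Module.End ℂ V} (hF : CM F) (ψ : (Fin k → Sk n) ≃ₗ[ℂ] (Fin l → Sk m))
    (hψ : ∀ X Y, ψ (adL X Y) = adL (ψ X) (ψ Y)) :
    ∃ T : U →ₗ[ℂ] V, T ≠ 0 ∧ ∀ M, (QM F (ψ M)) ∘ₗ T = T ∘ₗ (QM E M) := by
  rcases Nat.eq_zero_or_pos k with hk | hk
  · subst hk
    obtain ⟨T, hT⟩ := exists_ne_zero (U := U) (V := V)
    refine ⟨T, hT, fun M => ?_⟩
    have h1 : M = 0 := Subsingleton.elim _ _
    rw [h1, map_zero, map_zero, map_zero, LinearMap.zero_comp, LinearMap.comp_zero]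
  have hl : 0 < l := by
    rcases Nat.eq_zero_or_pos l with hl | hl
    · exfalso
      subst hl
      have h01n : (⟨0, by omega⟩ : Fin n) ≠ ⟨1, by omega⟩ := by simp
      apply el2_ne (hE.ce ⟨0, hk⟩) h01n
      have h3 : (Pi.single ⟨0, hk⟩ (el2 ⟨0, by omega⟩ ⟨1, by omega⟩) : Fin k → Sk n) = 0 :=
        ψ.injective (Subsingleton.elim _ _)
      have h4 := congrFun h3 ⟨0, hk⟩
      rw [Pi.single_eq_same] at h4
      exact h4
    · exact hl
  obtain ⟨π, hπ, hθ⟩ := matching hn hm (hE.ce ⟨0, hk⟩) (hF.ce ⟨0, hl⟩) ψ hψ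
  choose θ hθ1 hθ2 using hθ
  have hnm : n = m := eq_of_finrank (by omega) (by omega) (θ ⟨0, hk⟩).finrank_eq
  subst hnm
  let o : Fin n := ⟨0, by omega⟩
  obtain ⟨W, hW, -, hW2, hW3, hW4⟩ := exists_sub (by omega) hE hF hπ θ hθ1 o
    (fun σ a => Q (F (π σ)) (θ σ (el2 o a)).1) (fun _ _ => rfl) Finset.univ
  haveI : Nontrivial W := Submodule.nontrivial_iff_ne_bot.2 hW
  -- the generators
  let x : Fin k × {a : Fin n // a ≠ o} → Module.End ℂ U := fun p => E p.1 o * E p.1 p.2.1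
  let z : Fin k × {a : Fin n // a ≠ o} → Module.End ℂ U := fun p => E p.1 p.2.1
  let y : Fin k × {a : Fin n // a ≠ o} → Module.End ℂ W := fun p =>
    (Q (F (π p.1)) (θ p.1 (el2 o p.2.1)).1).restrict (hW2 (π p.1) (θ p.1 (el2 o p.2.1)))
  have hya : ∀ p (v : W), ((y p v : W) : V) = Q (F (π p.1)) (θ p.1 (el2 o p.2.1)).1 v :=
    fun _ _ => rfl
  have e1 : ∀ (σ : Fin k) (c : Fin n), c ≠ o → ∀ d, (E σ o * E σ c) * (E σ o * E σ d) =
      -(E σ c * E σ d) := by
    intro σ c hc d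
    have hEσ := hE.ce σ
    rw [mul_assoc, ← mul_assoc (E σ c), hEσ.anti c o hc, neg_mul, mul_neg, ← mul_assoc,
      ← mul_assoc, hEσ.sq, one_mul]
  have i1 : ∀ p, x p * x p = -1 := by
    rintro ⟨σ, a, ha⟩
    exact simple_sq (hE.ce σ) (Ne.symm ha)
  have i2 : ∀ p, y p * y p = -1 := by
    rintro ⟨σ, a, ha⟩
    refine LinearMap.ext fun v => Subtype.ext ?_
    rw [Module.End.mul_apply, hya, hya]
    exact hW3 σ (Finset.mem_univ _) a ha v v.2
  have i3 : ∀ i j, i ≠ j → (x i * x j = x j * x i ∧ y i * y j = y j * y i) ∨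
      (x i * x j = -(x j * x i) ∧ y i * y j = -(y j * y i)) := by
    rintro ⟨σ, a, ha⟩ ⟨τ, b, hb⟩ hne
    by_cases hst : σ = τ
    · subst hst
      right
      have hab : a ≠ b := fun h => hne (by subst h; rfl)
      refine ⟨?_, LinearMap.ext fun v => Subtype.ext ?_⟩
      · change (E σ o * E σ a) * (E σ o * E σ b) = -((E σ o * E σ b) * (E σ o * E σ a))
        rw [e1 σ a ha, e1 σ b hb, (hE.ce σ).anti b a (Ne.symm hab), neg_neg]
      · rw [LinearMap.neg_apply, Submodule.coe_neg, Module.End.mul_apply, Module.End.mul_apply,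
          hya, hya, hya, hya]
        exact hW4 σ (Finset.mem_univ _) a b ha hb hab v v.2
    · left
      refine ⟨?_, LinearMap.ext fun v => Subtype.ext ?_⟩
      · change (E σ o * E σ a) * (E τ o * E τ b) = (E τ o * E τ b) * (E σ o * E σ a)
        rw [← mul_assoc, hE.comm1 hst, mul_assoc, hE.comm1 hst, mul_assoc]
      · rw [Module.End.mul_apply, Module.End.mul_apply, hya, hya, hya, hya,
          ← Module.End.mul_apply, ← Module.End.mul_apply,
          hF.comm3 (fun h => hst (hπ h)) _ _]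
  have i4 : ∀ p, z p * z p = 1 := by
    rintro ⟨σ, a, ha⟩
    exact hE.sq σ a
  have i5 : ∀ p, z p * x p = -(x p * z p) := by
    rintro ⟨σ, a, ha⟩
    change E σ a * (E σ o * E σ a) = -((E σ o * E σ a) * E σ a)
    rw [← mul_assoc, (hE.ce σ).anti a o ha, neg_mul]
  have i6 : ∀ i j, i ≠ j → z i * x j = x j * z i := by
    rintro ⟨σ, a, ha⟩ ⟨τ, b, hb⟩ hne
    change E σ a * (E τ o * E τ b) = (E τ o * E τ b) * E σ a
    by_cases hst : σ = τ
    · subst hst
      have hab : a ≠ b := fun h => hne (by subst h; rfl)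
      rw [← mul_assoc, (hE.ce σ).anti a o ha, neg_mul, mul_assoc, (hE.ce σ).anti a b hab, mul_neg,
        neg_neg, mul_assoc]
    · exact (hE.comm1 (Ne.symm hst) o b a).symm
  obtain ⟨T, hT, hTS⟩ := exists_interG i1 i2 i3 i4 i5 i6 Finset.univ
  refine ⟨W.subtype ∘ₗ T, fun h => hT ?_, ?_⟩
  · refine LinearMap.ext fun u => Subtype.ext ?_
    exact LinearMap.congr_fun h u
  have h1 : ∀ σ (X : Sk n), (QM F (ψ (Pi.single σ X))) ∘ₗ (W.subtype ∘ₗ T) =
      (W.subtype ∘ₗ T) ∘ₗ (QM E (Pi.single σ X)) := by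
    intro σ X
    rw [hθ2, QM_single, QM_single]
    refine tw_of_gen (hE.ce σ) (hF.ce (π σ)) (θ σ).toLinearMap (hθ1 σ) o (fun a ha => ?_) X
    have h2 := hTS (σ, ⟨a, ha⟩) (Finset.mem_univ _)
    have h3 : Q (E σ) (el2 o a).1 = E σ o * E σ a := Q_el2 (hE.ce σ) (Ne.symm ha)
    rw [h3]
    refine LinearMap.ext fun u => ?_
    have h4 := congrArg (fun f : U →ₗ[ℂ] W => ((f u : W) : V)) h2
    simp only [LinearMap.comp_apply] at h4
    rw [hya] at h4
    exact h4
  intro M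
  generalize W.subtype ∘ₗ T = T' at h1 ⊢
  conv_lhs => rw [← Finset.univ_sum_single M]
  conv_rhs => rw [← Finset.univ_sum_single M]
  rw [map_sum, map_sum, map_sum]
  refine LinearMap.ext fun u => ?_
  rw [LinearMap.comp_apply, LinearMap.comp_apply, LinearMap.sum_apply, LinearMap.sum_apply,
    map_sum]
  exact Finset.sum_congr rfl fun σ _ => LinearMap.congr_fun (h1 σ (M σ)) u

theorem arith4 {l m : ℕ} (hm : 3 ≤ m) (h3 : ¬ (m = 3 ∧ l = 2))
    (e : (12 : ℤ) = l * (m * (m - 1))) : m = 4 ∧ l = 1 := by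
  rcases Nat.lt_or_ge m 5 with h | h
  · interval_cases m
    · exfalso
      apply h3
      refine ⟨rfl, ?_⟩
      push_cast at e
      omega
    · refine ⟨rfl, ?_⟩
      push_cast at e
      omega
  · exfalso
    rcases Nat.eq_zero_or_pos l with h1 | h1
    · rw [h1] at e
      simp at e
    · have h2 : (5 : ℤ) ≤ m := by exact_mod_cast h
      have h3 : (1 : ℤ) ≤ l := by exact_mod_cast h1
      have h4 : (20 : ℤ) ≤ m * (m - 1) := by nlinarith
      have h5 : (20 : ℤ) ≤ l * (m * (m - 1)) := by nlinarith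
      omega

/-- **Intertwining operators, all ranks.** -/
theorem exists_twB (hn : 3 ≤ n) (hm : 3 ≤ m) (hk : n = 4 → k = 1) (hl : m = 4 → l = 1)
    (h43 : ¬ (n = 4 ∧ m = 3 ∧ l = 2)) (h34 : ¬ (m = 4 ∧ n = 3 ∧ k = 2))
    {E : Fin k → Fin n → Module.End ℂ U} (hE : CM E)
    {F : Fin l → Fin m → Module.End ℂ V} (hF : CM F) (ψ : (Fin k → Sk n) ≃ₗ[ℂ] (Fin l → Sk m))
    (hψ : ∀ X Y, ψ (adL X Y) = adL (ψ X) (ψ Y)) :
    ∃ T : U →ₗ[ℂ] V, T ≠ 0 ∧ ∀ M, (QM F (ψ M)) ∘ₗ T = T ∘ₗ (QM E M) := by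
  by_cases h4 : n = 4 ∨ m = 4
  · have hdim := ψ.finrank_eq
    rw [Module.finrank_pi_fintype, Module.finrank_pi_fintype] at hdim
    simp only [Finset.sum_const, Finset.card_univ, Fintype.card_fin, smul_eq_mul] at hdim
    have e1 : (k : ℂ) * (n * (n - 1)) = l * (m * (m - 1)) := by
      have h1 := congrArg (Nat.cast : ℕ → ℂ) hdim
      push_cast at h1
      rw [finrank_Sk, finrank_Sk] at h1
      linear_combination 2 * h1
    have e2 : (k : ℤ) * (n * (n - 1)) = l * (m * (m - 1)) := by exact_mod_cast e1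
    have h5 : (n = 4 ∧ k = 1) ∧ (m = 4 ∧ l = 1) := by
      rcases h4 with h | h
      · refine ⟨⟨h, hk h⟩, arith4 hm (fun h1 => h43 ⟨h, h1⟩) ?_⟩
        rw [← e2, h, hk h]
        norm_num
      · refine ⟨arith4 hn (fun h1 => h34 ⟨h, h1⟩) ?_, ⟨h, hl h⟩⟩
        rw [e2, h, hl h]
        norm_num
    obtain ⟨⟨rfl, rfl⟩, rfl, rfl⟩ := h5
    let θ : Sk 4 ≃ₗ[ℂ] Sk 4 := (LinearEquiv.funUnique (Fin 1) ℂ (Sk 4)).symm ≪≫ₗ ψ ≪≫ₗ
      (LinearEquiv.funUnique (Fin 1) ℂ (Sk 4))
    have hθ : ∀ X, θ X = ψ (fun _ => X) 0 := fun X => rfl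
    obtain ⟨T, hT, hTM⟩ := exists_one (by norm_num) (hE.ce 0) (hF.ce 0) θ fun X Y => by
      rw [hθ, hθ, hθ]
      exact congrFun (hψ (fun _ => X) (fun _ => Y)) 0
    refine ⟨T, hT, fun M => ?_⟩
    have h6 : (fun _ : Fin 1 => M 0) = M := funext fun i => by rw [Subsingleton.elim i 0]
    have h7 := hTM (M 0)
    rw [hθ, h6] at h7
    rw [QM_apply, QM_apply, Fin.sum_univ_one, Fin.sum_univ_one]
    exact h7
  · exact exists_twA (by omega) (by omega) hE hF ψ hψ

end Pool.Agent.Helper883K
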