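import Pool.Agent.Helper883_K3.Eight

set_option autoImplicit false
set_option linter.unusedSectionVars false
set_option linter.unusedSimpArgs false
set_option linter.unusedVariables false

/-!
# The type of an isomorphism of `so(8)`
-/

open Matrix Module

noncomputable section

namespace Pool.Agent.Helper883K

open Pool.Agent.Y102.SP

theorem arith32 {a2 b2 a3 b3 c : ℂ} (h1 : a2 = 8 ∨ a2 = 32) (h2 : b2 = 8 ∨ b2 = 32)
    (h3 : a3 = 8 ∨ a3 = 32) (h4 : b3 = 8 ∨ b3 = 32) (e2 : a2 + b2 = 320 - 4 * c)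
    (e3 : a3 + b3 = 832 - 12 * c) : c = 64 := by
  have e4 : 3 * (a2 + b2) - (a3 + b3) = 128 := by linear_combination 3 * e2 - e3
  rcases h1 with rfl | rfl <;> rcases h2 with rfl | rfl <;> rcases h3 with rfl | rfl <;>
    rcases h4 with rfl | rfl <;>
    first
    | (exfalso; norm_num at e4; done)
    | linear_combination (1 / 4 : ℂ) * e2

theorem arith8 {a2 b2 a3 b3 c : ℂ} (h1 : a2 = 8 ∨ a2 = 32) (h2 : b2 = 8 ∨ b2 = 32)
    (h3 : a3 = 8 ∨ a3 = 32) (h4 : b3 = 8 ∨ b3 = 32) (e2 : a2 + b2 = 80 - 4 * c)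
    (e3 : a3 + b3 = 208 - 12 * c) : c = 16 := by
  have e4 : 3 * (a2 + b2) - (a3 + b3) = 32 := by linear_combination 3 * e2 - e3
  rcases h1 with rfl | rfl <;> rcases h2 with rfl | rfl <;> rcases h3 with rfl | rfl <;>
    rcases h4 with rfl | rfl <;>
    first
    | (exfalso; norm_num at e4; done)
    | linear_combination (1 / 4 : ℂ) * e2

theorem arithM {a2 b2 a3 b3 : ℂ} (h1 : a2 = 8 ∨ a2 = 32) (h2 : b2 = 8 ∨ b2 = 32)
    (h3 : a3 = 8 ∨ a3 = 32) (h4 : b3 = 8 ∨ b3 = 32) (e : (a2 + b2) - (a3 + b3) = 144 ∨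
      (a2 + b2) - (a3 + b3) = -144) : False := by
  rcases h1 with rfl | rfl <;> rcases h2 with rfl | rfl <;> rcases h3 with rfl | rfl <;>
    rcases h4 with rfl | rfl <;> rcases e with e | e <;> norm_num at e

/-- The mixed words. -/
def mix (X Y : Matrix (Fin 8) (Fin 8) ℂ) : Matrix (Fin 8) (Fin 8) ℂ :=
  X * X * Y * Y + X * Y * X * Y + X * Y * Y * X + Y * X * X * Y + Y * X * Y * X + Y * Y * X * X

theorem four (X Y : Matrix (Fin 8) (Fin 8) ℂ) (α β : ℂ) :
    (α • X + β • Y) * (α • X + β • Y) * (α • X + β • Y) * (α • X + β • Y) +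
    (α • X + (-β) • Y) * (α • X + (-β) • Y) * (α • X + (-β) • Y) * (α • X + (-β) • Y) =
    (2 * (α * α) * (α * α)) • (X * X * X * X) + (2 * (β * β) * (β * β)) • (Y * Y * Y * Y) +
      (2 * (α * α) * (β * β)) • mix X Y := by
  unfold mix
  simp only [Matrix.mul_add, Matrix.add_mul, Matrix.mul_smul, Matrix.smul_mul, smul_smul,
    Matrix.mul_assoc]
  module

/-- **The type is constant.** -/
theorem types8 {X Y : Matrix (Fin 8) (Fin 8) ℂ}
    (hv : ∀ α β : ℂ, α * α + β * β = 1 →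
      ((α • X + β • Y) * (α • X + β • Y) * (α • X + β • Y) = -(4 : ℂ) • (α • X + β • Y) ∨
      (α • X + β • Y) * (α • X + β • Y) = -1) ∧
      ((α • X + β • Y) * (α • X + β • Y)).trace = -8) :
    (∀ α β : ℂ, α * α + β * β = 1 →
      (α • X + β • Y) * (α • X + β • Y) * (α • X + β • Y) = -(4 : ℂ) • (α • X + β • Y)) ∨
    (∀ α β : ℂ, α * α + β * β = 1 → (α • X + β • Y) * (α • X + β • Y) = -1) := by
  obtain ⟨v, hvd⟩ : ∃ v : ℂ → ℂ → ℂ, ∀ α β, v α β =
    ((α • X + β • Y) * (α • X + β • Y) * (α • X + β • Y) * (α • X + β • Y)).trace :=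
    ⟨_, fun α β => rfl⟩
  have hval : ∀ α β : ℂ, α * α + β * β = 1 →
      (v α β = 32 ∧ (α • X + β • Y) * (α • X + β • Y) * (α • X + β • Y) =
        -(4 : ℂ) • (α • X + β • Y)) ∨
      (v α β = 8 ∧ (α • X + β • Y) * (α • X + β • Y) = -1) := by
    intro α β hab
    obtain ⟨h1, h2⟩ := hv α β hab
    rcases h1 with h1 | h1
    · left
      refine ⟨?_, h1⟩
      rw [hvd, h1, Matrix.smul_mul, Matrix.trace_smul, h2, smul_eq_mul]
      norm_num
    · right
      refine ⟨?_, h1⟩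
      rw [hvd, h1, Matrix.mul_assoc, h1, neg_mul_neg, Matrix.mul_one, Matrix.trace_one,
        Fintype.card_fin]
      norm_num
  have hv2 : ∀ α β : ℂ, α * α + β * β = 1 → v α β = 8 ∨ v α β = 32 := fun α β hab =>
    (hval α β hab).symm.imp And.left And.left
  have hG : ∀ α β : ℂ, v α β + v α (-β) = 2 * (α * α) * (α * α) * v 1 0 +
      2 * (β * β) * (β * β) * v 0 1 + 2 * (α * α) * (β * β) * (mix X Y).trace := by
    intro α β
    rw [hvd, hvd, hvd, hvd, ← Matrix.trace_add, four, Matrix.trace_add, Matrix.trace_add,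
      Matrix.trace_smul, Matrix.trace_smul, Matrix.trace_smul]
    simp only [one_smul, zero_smul, add_zero, zero_add, smul_eq_mul]
  have hneg : ∀ α β : ℂ, α * α + β * β = 1 → α * α + (-β) * (-β) = 1 := fun α β h => by
    rw [← h]
    ring
  obtain ⟨p2, hp2⟩ := IsAlgClosed.exists_eq_mul_self (2 : ℂ)
  obtain ⟨p3, hp3⟩ := IsAlgClosed.exists_eq_mul_self (3 : ℂ)
  obtain ⟨m1, hm1⟩ := IsAlgClosed.exists_eq_mul_self (-1 : ℂ)
  obtain ⟨m2, hm2⟩ := IsAlgClosed.exists_eq_mul_self (-2 : ℂ)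
  have c2 : p2 * p2 + m1 * m1 = 1 := by rw [← hp2, ← hm1]; norm_num
  have c3 : p3 * p3 + m2 * m2 = 1 := by rw [← hp3, ← hm2]; norm_num
  have cm : m1 * m1 + p2 * p2 = 1 := by rw [← hp2, ← hm1]; norm_num
  have g2 := hG p2 m1
  have g3 := hG p3 m2
  have gm := hG m1 p2
  rw [← hp2, ← hm1] at g2 gm
  rw [← hp3, ← hm2] at g3
  have a1 := hv2 _ _ c2
  have a2 := hv2 _ _ (hneg _ _ c2)
  have a3 := hv2 _ _ c3
  have a4 := hv2 _ _ (hneg _ _ c3)
  have a5 := hv2 _ _ cm
  have a6 := hv2 _ _ (hneg _ _ cm)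
  have x0 := hv2 1 0 (by norm_num)
  have y0 := hv2 0 1 (by norm_num)
  rcases x0 with x0 | x0 <;> rcases y0 with y0 | y0
  · right
    rw [x0, y0] at g2 g3
    have hc : (mix X Y).trace = 16 := arith8 a1 a2 a3 a4 (by linear_combination g2)
      (by linear_combination g3)
    intro α β hab
    have g := hG α β
    rw [x0, y0, hc] at g
    have g' : v α β + v α (-β) = 16 := by
      rw [g]
      linear_combination 16 * (α * α + β * β + 1) * hab
    rcases hval α β hab with h1 | h1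
    · exfalso
      rw [h1.1] at g'
      rcases hv2 _ _ (hneg _ _ hab) with h2 | h2 <;> rw [h2] at g' <;> norm_num at g'
    · exact h1.2
  · exfalso
    rw [x0, y0] at g2 gm
    exact arithM a1 a2 a5 a6 (Or.inr (by linear_combination g2 - gm))
  · exfalso
    rw [x0, y0] at g2 gm
    exact arithM a1 a2 a5 a6 (Or.inl (by linear_combination g2 - gm))
  · left
    rw [x0, y0] at g2 g3
    have hc : (mix X Y).trace = 64 := arith32 a1 a2 a3 a4 (by linear_combination g2)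
      (by linear_combination g3)
    intro α β hab
    have g := hG α β
    rw [x0, y0, hc] at g
    have g' : v α β + v α (-β) = 64 := by
      rw [g]
      linear_combination 64 * (α * α + β * β + 1) * hab
    rcases hval α β hab with h1 | h1
    · exact h1.2
    · exfalso
      rw [h1.1] at g'
      rcases hv2 _ _ (hneg _ _ hab) with h2 | h2 <;> rw [h2] at g' <;> norm_num at g'

section data

variable {U V : Type} [AddCommGroup U] [Module ℂ U] [AddCommGroup V] [Module ℂ V] {n : ℕ}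
  {E : Fin n → Module.End ℂ U} [FiniteDimensional ℂ U] [Nontrivial U]

/-- Isomorphisms and the elements of rank two. -/
theorem iso_data (hE : CE E) (hn2 : n ≠ 2) (ψ : Sk n ≃ₗ[ℂ] Sk n)
    (hψ : ∀ X Y, ψ (adS X Y) = adS (ψ X) (ψ Y)) {M : Sk n} (hM : Q E M.1 * Q E M.1 = -1)
    (ht : (M.1 * M.1).trace = -8) : ((ψ M).1 * (ψ M).1).trace = -8 ∧
    ∀ X ∈ Sk n, (ψ M).1 * ((ψ M).1 * ((ψ M).1 * X - X * (ψ M).1) -
      ((ψ M).1 * X - X * (ψ M).1) * (ψ M).1) -
      ((ψ M).1 * ((ψ M).1 * X - X * (ψ M).1) -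
      ((ψ M).1 * X - X * (ψ M).1) * (ψ M).1) * (ψ M).1 =
      -(4 : ℂ) • ((ψ M).1 * X - X * (ψ M).1) := by
  have h1 : ((ψ M).1 * (ψ M).1).trace = -8 := by
    have e1 : adS (ψ M) ∘ₗ adS (ψ M) = ψ.conj (adS M ∘ₗ adS M) := by
      refine LinearMap.ext fun X => ?_
      rw [LinearEquiv.conj_apply_apply, LinearMap.comp_apply, LinearMap.comp_apply, hψ, hψ,
        LinearEquiv.apply_symm_apply]
    have e2 := trace_adS (ψ M)
    rw [e1, LinearMap.trace_conj', trace_adS, ht] at e2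
    have e3 : (n : ℂ) - 2 ≠ 0 := by
      rw [sub_ne_zero]
      exact_mod_cast hn2
    exact (mul_left_cancel₀ e3 e2).symm
  have h2 : ∀ X : Sk n, adS M (adS M (adS M X)) = -(4 : ℂ) • adS M X := by
    intro X
    apply Subtype.ext
    apply sub_eq_zero.1
    refine Q_inj hE ((Sk n).sub_mem (adS M (adS M (adS M X))).2 (-(4 : ℂ) • adS M X).2) ?_
    have e1 : ∀ X : Sk n, Q E (adS M X).1 = Q E M.1 * Q E X.1 - Q E X.1 * Q E M.1 := fun X => by
      rw [adS_coe, Q_br hE M.2]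
    rw [map_sub, e1, e1, e1, Submodule.coe_smul, map_smul, e1, ad_cube hM]
    have e4 : (4 : Module.End ℂ U) = (4 : ℂ) • 1 := by
      rw [← Algebra.algebraMap_eq_smul_one, map_ofNat]
    rw [e4, smul_mul_assoc, one_mul, neg_smul, sub_self]
  have h3 : ∀ X : Sk n, adS (ψ M) (adS (ψ M) (adS (ψ M) X)) = -(4 : ℂ) • adS (ψ M) X := by
    intro X
    have e1 := congrArg ψ (h2 (ψ.symm X))
    rw [hψ, hψ, hψ, map_smul, hψ, LinearEquiv.apply_symm_apply] at e1
    exact e1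
  exact ⟨h1, fun X hX => congrArg Subtype.val (h3 ⟨X, hX⟩)⟩

/-- The trace form is preserved. -/
theorem trace_iso (hn2 : n ≠ 2) (ψ : Sk n ≃ₗ[ℂ] Sk n)
    (hψ : ∀ X Y, ψ (adS X Y) = adS (ψ X) (ψ Y)) (X Y : Sk n) :
    ((ψ X).1 * (ψ Y).1).trace = (X.1 * Y.1).trace := by
  have h1 : ∀ M : Sk n, ((ψ M).1 * (ψ M).1).trace = (M.1 * M.1).trace := by
    intro M
    have e1 : adS (ψ M) ∘ₗ adS (ψ M) = ψ.conj (adS M ∘ₗ adS M) := by
      refine LinearMap.ext fun X => ?_
      rw [LinearEquiv.conj_apply_apply, LinearMap.comp_apply, LinearMap.comp_apply, hψ, hψ,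
        LinearEquiv.apply_symm_apply]
    have e2 := trace_adS (ψ M)
    rw [e1, LinearMap.trace_conj', trace_adS] at e2
    have e3 : (n : ℂ) - 2 ≠ 0 := by
      rw [sub_ne_zero]
      exact_mod_cast hn2
    exact (mul_left_cancel₀ e3 e2).symm
  have h2 := h1 (X + Y)
  rw [map_add, Submodule.coe_add, Submodule.coe_add] at h2
  simp only [Matrix.mul_add, Matrix.add_mul, Matrix.trace_add, h1] at h2
  have h3 := Matrix.trace_mul_comm (ψ Y).1 (ψ X).1
  have h4 := Matrix.trace_mul_comm Y.1 X.1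
  linear_combination (1 / 2 : ℂ) * h2 - (1 / 2 : ℂ) * h3 + (1 / 2 : ℂ) * h4

end data

end Pool.Agent.Helper883K
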